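import Pool.Agent.TWO.ND

/-!
# TWO/NE (1.4 h): the sum over large factors for `n ≥ 40`

Keep only odd `e`.  For odd `e ≥ 21` (`n < 2 e`, `e ≤ n`, `n ≥ 40`) put `σ = ∑_{s ≤ n/3} s
≤ (2e/3)(2e/3 + 1)/2 = 2e²/9 + e/3` and `∑_{d proper divisor} (2^d - 1) ≤ ∑_{d ≤ e/3} 2^d ≤
2^(e/3+1)`.  By `irr_ge` and `gd_odd`: `e |Gd n e| ≥ 2^e - (1 + σ) 2^(e/3+1)`, so
`|Gd n e| / (2^e - 1) ≥ (1/e)(1 - δ)` with `δ = (1 + 2e²/9 + e/3) 2^(e/3+1) / 2^e ≤ 0.02` for `e ≥ 21`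
(at `e = 21`: `106 · 2^8 / 2^21 = .013`; decreasing: induction or crude bounds like
`e² ≤ 2^(e/4) · const`).
`∑_{e odd, n/2 < e ≤ n} 1/e ≥ (1/2) ∑ (log (e+2) - log e) ≥ (1/2) log (2 (n+1)/(n+4))`
(`log (1 + 2/e) ≤ 2/e`; the odd `e` in `(n/2, n]` are consecutive odd numbers from at most `n/2 + 2`
to at least `n - 1`); for `n ≥ 40` this is at least `(1/2) log (82/44) ≥ .308` (`log 2 > .6931`,
`log (88/82) ≤ 6/82`).  `.308 · .98 > .3 > 89/325`.
Any other elementary lower bound (e.g. grouping into a few subintervals) is fine.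
-/

open Polynomial Module

namespace Pool.Agent.TWO

private theorem poly_exp (q : ℕ) (h : 7 ≤ q) : 100 * (2 * q ^ 2 + 3 * q + 2) ≤ 4 ^ q := by
  induction q, h using Nat.le_induction with
  | base => norm_num
  | succ q hq ih =>
    have h1 : 4 ^ (q + 1) = 4 * 4 ^ q := by ring
    rw [h1]
    nlinarith

private theorem proper_sum {e : ℕ} (he : Odd e) :
    ∑ d ∈ e.properDivisors, (2 ^ d - 1) ≤ 2 ^ (e / 3 + 1) := by
  have hgeo : ∀ m : ℕ, ∑ d ∈ Finset.range m, 2 ^ d + 1 = 2 ^ m := by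
    intro m
    induction m with
    | zero => simp
    | succ m ih =>
      rw [Finset.sum_range_succ, pow_succ]
      omega
  have hsub : e.properDivisors ⊆ Finset.range (e / 3 + 1) := by
    intro d hd
    rw [Nat.mem_properDivisors] at hd
    obtain ⟨⟨k, hk⟩, hlt⟩ := hd
    rw [Finset.mem_range, Nat.lt_succ_iff, Nat.le_div_iff_mul_le (by norm_num)]
    have hk3 : 3 ≤ k := by
      have hkodd : Odd k := by
        rw [hk] at he
        exact (Nat.odd_mul.1 he).2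
      obtain ⟨j, hj⟩ := hkodd
      rcases Nat.lt_or_ge 0 j with h | h
      · omega
      · have : k = 1 := by omega
        rw [this] at hk
        omega
    rw [hk]
    exact Nat.mul_le_mul_left d hk3
  calc ∑ d ∈ e.properDivisors, (2 ^ d - 1) ≤ ∑ d ∈ e.properDivisors, 2 ^ d :=
        Finset.sum_le_sum fun d _ => Nat.sub_le _ _
    _ ≤ ∑ d ∈ Finset.range (e / 3 + 1), 2 ^ d := Finset.sum_le_sum_of_subset hsub
    _ ≤ 2 ^ (e / 3 + 1) := by
        have := hgeo (e / 3 + 1)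
        omega

private theorem gd_ge {n e : ℕ} (he : Odd e) (h21 : 21 ≤ e) (hn : n < 2 * e) :
    49 * 2 ^ e ≤ 50 * (e * (Gd n e).ncard) := by
  obtain ⟨q, hq⟩ : ∃ q, q = e / 3 := ⟨_, rfl⟩
  obtain ⟨m, hm⟩ : ∃ m, m = n / 3 := ⟨_, rfl⟩
  have hq7 : 7 ≤ q := by omega
  have hmq : m ≤ 2 * q + 1 := by omega
  have h1 := irr_ge he
  have h2 := gd_odd (n := n) he (by omega)
  have h3 := proper_sum he
  rw [← hq] at h1 h3
  rw [← hm] at h2
  have h4 : ∑ s ∈ Finset.Icc 1 m, s ≤ 2 * q ^ 2 + 3 * q + 1 := by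
    have h5 : ∀ m : ℕ, 2 * ∑ s ∈ Finset.Icc 1 m, s = m * (m + 1) := by
      intro m
      induction m with
      | zero => simp
      | succ m ih =>
        rw [Finset.sum_Icc_succ_top (by omega), mul_add, ih]
        ring
    have h6 := h5 m
    have h7 : m * (m + 1) ≤ (2 * q + 1) * (2 * q + 2) := Nat.mul_le_mul hmq (by omega)
    nlinarith
  have h5 := poly_exp q hq7
  have h6 : 4 ^ q * 2 ^ q ≤ 2 ^ e := by
    calc 4 ^ q * 2 ^ q = 2 ^ (3 * q) := by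
          rw [show (4 : ℕ) = 2 ^ 2 by norm_num, ← pow_mul, ← pow_add]
          congr 1
          ring
      _ ≤ 2 ^ e := Nat.pow_le_pow_right (by norm_num) (by omega)
  have h7 : (∑ s ∈ Finset.Icc 1 m, s) * ∑ d ∈ e.properDivisors, (2 ^ d - 1) ≤
      (2 * q ^ 2 + 3 * q + 1) * 2 ^ (q + 1) := Nat.mul_le_mul h4 h3
  have h8 : 100 * (2 * q ^ 2 + 3 * q + 2) * 2 ^ q ≤ 4 ^ q * 2 ^ q := Nat.mul_le_mul_right _ h5
  have h9 : (2 * q ^ 2 + 3 * q + 1) * 2 ^ (q + 1) + 2 ^ (q + 1) =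
      2 * ((2 * q ^ 2 + 3 * q + 2) * 2 ^ q) := by
    rw [pow_succ]
    ring
  have h10 : 100 * (2 * q ^ 2 + 3 * q + 2) * 2 ^ q = 100 * ((2 * q ^ 2 + 3 * q + 2) * 2 ^ q) := by
    ring
  omega

private theorem gd_frac {n e : ℕ} (he : Odd e) (h21 : 21 ≤ e) (hn : n < 2 * e) :
    (49 / 50 : ℝ) * (1 / (e : ℝ)) ≤ ((Gd n e).ncard : ℝ) / (2 ^ e - 1) := by
  have h1 := gd_ge he h21 hn
  have h2 : (49 : ℝ) * 2 ^ e ≤ 50 * ((e : ℝ) * ((Gd n e).ncard : ℝ)) := by exact_mod_cast h1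
  have h3 : (0 : ℝ) < (e : ℝ) := by
    have : 0 < e := by omega
    exact_mod_cast this
  have h4 : (1 : ℝ) < 2 ^ e := one_lt_pow₀ (by norm_num) (by omega)
  rw [le_div_iff₀ (by linarith)]
  have h5 : (49 / 50 : ℝ) * (1 / (e : ℝ)) * (2 ^ e - 1) ≤ (49 / 50 : ℝ) * (1 / (e : ℝ)) * 2 ^ e := by
    apply mul_le_mul_of_nonneg_left (by linarith)
    positivity
  refine h5.trans ?_
  rw [mul_one_div, div_mul_eq_mul_div, div_le_iff₀ h3]
  linarith

private theorem sum_log (a b : ℕ) (hab : a ≤ b) :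
    (1 / 2 : ℝ) * (Real.log (2 * b + 1) - Real.log (2 * a + 1)) ≤
      ∑ t ∈ Finset.Ico a b, (1 / ((2 * t + 1 : ℕ) : ℝ)) := by
  induction b, hab using Nat.le_induction with
  | base => simp
  | succ b hb ih =>
    rw [Finset.sum_Ico_succ_top hb]
    have hpos : (0 : ℝ) < 2 * b + 1 := by positivity
    have h1 : Real.log (2 * ((b + 1 : ℕ) : ℝ) + 1) - Real.log (2 * b + 1) ≤ 2 / (2 * b + 1) := by
      rw [← Real.log_div (by positivity) hpos.ne']
      refine (Real.log_le_sub_one_of_pos (by positivity)).trans ?_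
      rw [div_sub_one hpos.ne']
      push_cast
      apply le_of_eq
      congr 1
      ring
    have h2 : (1 / ((2 * b + 1 : ℕ) : ℝ)) = (1 / 2) * (2 / (2 * b + 1)) := by
      push_cast
      field_simp
    rw [h2]
    nlinarith

theorem bigSum_large {n : ℕ} (h40 : 40 ≤ n) : 89 / 325 < bigSum n := by
  have hinj : Set.InjOn (fun t : ℕ => 2 * t + 1) (Finset.Ico ((n + 2) / 4) ((n + 1) / 2)) := by
    intro x _ y _ h
    simp only at h
    omega
  have h1 : ∑ t ∈ Finset.Ico ((n + 2) / 4) ((n + 1) / 2),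
      ((Gd n (2 * t + 1)).ncard : ℝ) / (2 ^ (2 * t + 1) - 1) ≤ bigSum n := by
    rw [bigSum, ← Finset.sum_image (g := fun t : ℕ => 2 * t + 1)
      (f := fun e : ℕ => ((Gd n e).ncard : ℝ) / (2 ^ e - 1)) hinj]
    refine Finset.sum_le_sum_of_subset_of_nonneg ?_ ?_
    · intro e he
      obtain ⟨t, ht, rfl⟩ := Finset.mem_image.1 he
      rw [Finset.mem_Ico] at ht
      rw [Finset.mem_filter, Finset.mem_range]
      omega
    · intro e _ _
      have h4 : (1 : ℝ) ≤ 2 ^ e := one_le_pow₀ (by norm_num)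
      exact div_nonneg (Nat.cast_nonneg _) (by linarith)
  have h2 : ∑ t ∈ Finset.Ico ((n + 2) / 4) ((n + 1) / 2),
      (49 / 50 : ℝ) * (1 / ((2 * t + 1 : ℕ) : ℝ)) ≤ ∑ t ∈ Finset.Ico ((n + 2) / 4) ((n + 1) / 2),
      ((Gd n (2 * t + 1)).ncard : ℝ) / (2 ^ (2 * t + 1) - 1) := by
    refine Finset.sum_le_sum fun t ht => ?_
    rw [Finset.mem_Ico] at ht
    exact gd_frac ⟨t, rfl⟩ (by omega) (by omega)
  rw [← Finset.mul_sum] at h2
  have h3 := sum_log ((n + 2) / 4) ((n + 1) / 2) (by omega)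
  have hn : (40 : ℝ) ≤ n := by exact_mod_cast h40
  have h4 : Real.log 2 + Real.log (((n : ℝ) + 1) / (n + 4)) ≤
      Real.log (2 * (((n + 1) / 2 : ℕ) : ℝ) + 1) - Real.log (2 * (((n + 2) / 4 : ℕ) : ℝ) + 1) := by
    rw [← Real.log_div (by positivity) (by positivity), ← Real.log_mul (by norm_num) (by positivity)]
    apply Real.log_le_log (by positivity)
    have h5 : ((n : ℝ) + 1) ≤ 2 * (((n + 1) / 2 : ℕ) : ℝ) + 1 := by
      have : n + 1 ≤ 2 * ((n + 1) / 2) + 1 := by omega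
      exact_mod_cast this
    have h6 : 2 * (2 * (((n + 2) / 4 : ℕ) : ℝ) + 1) ≤ (n : ℝ) + 4 := by
      have : 2 * (2 * ((n + 2) / 4) + 1) ≤ n + 4 := by omega
      exact_mod_cast this
    rw [le_div_iff₀ (by positivity)]
    have h7 : 2 * (((n : ℝ) + 1) / (n + 4)) * (2 * (((n + 2) / 4 : ℕ) : ℝ) + 1) =
        (((n : ℝ) + 1) / (n + 4)) * (2 * (2 * (((n + 2) / 4 : ℕ) : ℝ) + 1)) := by ring
    rw [h7]
    calc (((n : ℝ) + 1) / (n + 4)) * (2 * (2 * (((n + 2) / 4 : ℕ) : ℝ) + 1))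
        ≤ (((n : ℝ) + 1) / (n + 4)) * (n + 4) := mul_le_mul_of_nonneg_left h6 (by positivity)
      _ = n + 1 := by field_simp
      _ ≤ _ := h5
  have h5 : -(3 / 41 : ℝ) ≤ Real.log (((n : ℝ) + 1) / (n + 4)) := by
    have h6 : Real.log (((n : ℝ) + 4) / (n + 1)) ≤ ((n : ℝ) + 4) / (n + 1) - 1 :=
      Real.log_le_sub_one_of_pos (by positivity)
    have h7 : ((n : ℝ) + 4) / (n + 1) - 1 ≤ 3 / 41 := by
      rw [div_sub_one (by positivity), div_le_div_iff₀ (by positivity) (by norm_num)]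
      linarith
    have h8 : Real.log (((n : ℝ) + 1) / (n + 4)) = -Real.log (((n : ℝ) + 4) / (n + 1)) := by
      rw [← Real.log_inv, inv_div]
    rw [h8]
    linarith
  have h6 := Real.log_two_gt_d9
  norm_num at h6
  nlinarith

theorem bigSum_gt {n : ℕ} (h3 : 3 ≤ n) : 89 / 325 < bigSum n := by
  rcases Nat.lt_or_ge n 40 with h | h
  · exact bigSum_small h3 (by omega)
  · exact bigSum_large h

end Pool.Agent.TWO
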