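import Pool.Agent.TWO.AnnC
import Pool.Agent.TWO.NE

/-!
# TWO/BigN: the proportion of `BG n` is `> 89/325`
-/

open Polynomial

namespace Pool.Agent.TWO

private theorem bn_rev {f : (ZMod 2)[X]} (hf : f ∈ IrrP 2) : f.reverse = f := by
  obtain ⟨hirr, hdeg, hX⟩ := hf
  have hone : ∀ a : ZMod 2, a ≠ 0 → a = 1 := by decide
  have hf0 : f ≠ 0 := hirr.ne_zero
  have h2 : f.coeff 2 = 1 := by
    have h := hone _ (leadingCoeff_ne_zero.2 hf0)
    rwa [leadingCoeff, hdeg] at h
  have h0 : f.coeff 0 = 1 := by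
    apply hone
    intro h
    apply hX
    have h4 : X ∣ f := X_dvd_iff.2 h
    have h5 : Associated (X : (ZMod 2)[X]) f := irreducible_X.associated_of_dvd hirr h4
    have h6 : f.Monic := hone _ (leadingCoeff_ne_zero.2 hf0)
    exact (eq_of_monic_of_associated monic_X h6 h5).symm
  ext i
  rw [coeff_reverse, hdeg]
  match i with
  | 0 => rw [show revAt 2 0 = 2 from by simp [revAt]]; rw [h0, h2]
  | 1 => rw [show revAt 2 1 = 1 from by simp [revAt]]
  | 2 => rw [show revAt 2 2 = 0 from by simp [revAt]]; rw [h0, h2]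
  | (j + 3) => rw [show revAt 2 (j + 3) = j + 3 from by simp [revAt]]

private theorem bn_gd (n : ℕ) : (Gd n 2).ncard = 0 := by
  have h : Gd n 2 = ∅ := by
    rw [Set.eq_empty_iff_forall_notMem]
    rintro f ⟨h1, h2, _⟩
    exact h2 (bn_rev h1)
  rw [h, Set.ncard_empty]

theorem bg_gt {n : ℕ} (hn : 3 ≤ n) : 89 / 325 < prp n (BG n) := by
  refine lt_of_lt_of_le (bigSum_gt hn) (le_trans (le_of_eq ?_) (big_ge n))
  unfold bigSum
  symm
  apply Finset.sum_subset
  · intro e he
    rw [Finset.mem_filter, Finset.mem_Icc] at he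
    rw [Finset.mem_filter, Finset.mem_range]
    exact ⟨by omega, he.2⟩
  · intro e he he'
    rw [Finset.mem_filter, Finset.mem_range] at he
    rw [Finset.mem_filter, Finset.mem_Icc] at he'
    have h2 : e = 2 := by
      by_contra hc
      apply he'
      exact ⟨⟨by omega, by omega⟩, he.2⟩
    subst h2
    rw [bn_gd, Nat.cast_zero, zero_div]

end Pool.Agent.TWO
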