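import Mathlib

/-!
# TWO/GDefs: definitions for the group theoretic part of project TWO (MP_bce300_al)

Project TWO: every transitive action of `PSL_n(2)`, `n ≥ 3`, has derangement proportion `> 89/325`.
This file: definitions used in the modules `TWO/G*` (subgroups of `GL(V)`, `V` over `ZMod 2`).

* `IsTv t`: `t` is a transvection.
* `AnnEq g f v`: the annihilator of the vector `v` under `g` is generated by the polynomial `f`.
* `IrrSub H`: `H` leaves no proper nonzero subspace invariant.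
* `Cen H φ`: the subspace of all centres `a` of transvections `1 + a ⊗ φ` in `H`.
* `Ax H k`: the functionals `φ ≠ 0` with `dim (Cen H φ) = k`; `Mx H k`: `k` is the maximum.
* `FF H φ`: the span of `Cen H φ` and of all centres `b` of transvections of `H` with `φ(b) = 1`.
* `SelfRec H`, `Blocks H`: the two exceptional cases of the transvection theorem.
* `IrrP e`, `PrimP e`, `Gd n e`: sets of irreducible polynomials of degree `e`.
* `TwoTrans H`: `H` is transitive on ordered pairs of different nonzero vectors.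
* `E1 n`, `E2 n`, `E2s`, `E3`: classes of elements of odd order, used for `n = 4, 6, 8, 10, 12`.
-/

open Polynomial Module

namespace Pool.Agent.TWO

section General

variable {V : Type} [AddCommGroup V] [Module (ZMod 2) V]

/-- `t` is a transvection: `t - 1` has rank one -/
def IsTv (t : V ≃ₗ[ZMod 2] V) : Prop :=
  finrank (ZMod 2) (LinearMap.range (t.toLinearMap - 1)) = 1

/-- `v` is annihilated by `f(g)` and by no `p(g)` with `p ≠ 0` of smaller degree -/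
def AnnEq (g : Module.End (ZMod 2) V) (f : (ZMod 2)[X]) (v : V) : Prop :=
  aeval g f v = 0 ∧ ∀ p : (ZMod 2)[X], p ≠ 0 → p.natDegree < f.natDegree → aeval g p v ≠ 0

/-- `H` leaves no proper nonzero subspace invariant -/
def IrrSub (H : Subgroup (V ≃ₗ[ZMod 2] V)) : Prop :=
  ∀ S : Submodule (ZMod 2) V, (∀ h ∈ H, ∀ x ∈ S, h x ∈ S) → S = ⊥ ∨ S = ⊤

/-- the subspace of the vectors `a` with `φ(a) = 0` and `1 + a ⊗ φ ∈ H` -/
def Cen (H : Subgroup (V ≃ₗ[ZMod 2] V)) (φ : Module.Dual (ZMod 2) V) :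
    Submodule (ZMod 2) V where
  carrier := {a | φ a = 0 ∧ ∃ t ∈ H, ∀ v : V, t v = v + φ v • a}
  zero_mem' := ⟨map_zero φ, 1, H.one_mem, fun v => by simp⟩
  add_mem' := by
    rintro a b ⟨ha, t, ht, hta⟩ ⟨hb, s, hs, hsb⟩
    refine ⟨by rw [map_add, ha, hb, add_zero], t * s, H.mul_mem ht hs, fun v => ?_⟩
    have h1 : (t * s) v = t (s v) := rfl
    rw [h1, hsb, hta, map_add, map_smul, hb, smul_zero, add_zero, smul_add]
    abel
  smul_mem' := by
    rintro c a ⟨ha, t, ht, hta⟩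
    refine ⟨by rw [map_smul, ha, smul_zero], ?_⟩
    rcases (by decide : ∀ c : ZMod 2, c = 0 ∨ c = 1) c with hc | hc
    · exact ⟨1, H.one_mem, fun v => by simp [hc]⟩
    · exact ⟨t, ht, fun v => by rw [hta, hc, one_smul]⟩

/-- the functionals `φ ≠ 0` with `dim (Cen H φ) = k` -/
def Ax (H : Subgroup (V ≃ₗ[ZMod 2] V)) (k : ℕ) : Set (Module.Dual (ZMod 2) V) :=
  {φ | φ ≠ 0 ∧ finrank (ZMod 2) (Cen H φ) = k}

/-- `k` is the largest dimension of a `Cen H φ`, `φ ≠ 0` -/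
def Mx (H : Subgroup (V ≃ₗ[ZMod 2] V)) (k : ℕ) : Prop :=
  (Ax H k).Nonempty ∧ ∀ φ : Module.Dual (ZMod 2) V, φ ≠ 0 → finrank (ZMod 2) (Cen H φ) ≤ k

/-- the span of `Cen H φ` and of the centres `b` of transvections of `H` with `φ(b) = 1` -/
def FF (H : Subgroup (V ≃ₗ[ZMod 2] V)) (φ : Module.Dual (ZMod 2) V) : Submodule (ZMod 2) V :=
  Cen H φ ⊔ Submodule.span (ZMod 2) {b | φ b = 1 ∧ ∃ ψ : Module.Dual (ZMod 2) V, ψ ≠ 0 ∧
    b ∈ Cen H ψ}

/-- for all elements `h` of `H`, the kernels of `f(h)` and of `f(h⁻¹)` have the same dimension -/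
def SelfRec (H : Subgroup (V ≃ₗ[ZMod 2] V)) : Prop :=
  ∀ h ∈ H, ∀ f : (ZMod 2)[X],
    finrank (ZMod 2) (LinearMap.ker (aeval (h : V →ₗ[ZMod 2] V) f)) =
      finrank (ZMod 2) (LinearMap.ker (aeval ((h⁻¹ : V ≃ₗ[ZMod 2] V) : V →ₗ[ZMod 2] V) f))

/-- `V` is the direct sum of at least two subspaces of the same dimension `≥ 3`, permuted by `H` -/
def Blocks (H : Subgroup (V ≃ₗ[ZMod 2] V)) : Prop :=
  ∃ (ι : Type) (_ : Fintype ι) (W : ι → Submodule (ZMod 2) V) (m : ℕ), 3 ≤ m ∧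
    2 ≤ Fintype.card ι ∧ iSupIndep W ∧ iSup W = ⊤ ∧
    (∀ i, finrank (ZMod 2) (W i) = m) ∧ ∀ h ∈ H, ∀ i, ∃ j, ∀ x ∈ W i, h x ∈ W j

/-- `H` is transitive on the ordered pairs of different nonzero vectors -/
def TwoTrans (H : Subgroup (V ≃ₗ[ZMod 2] V)) : Prop :=
  ∀ a b a' b' : V, a ≠ 0 → b ≠ 0 → a ≠ b → a' ≠ 0 → b' ≠ 0 → a' ≠ b' →
    ∃ h ∈ H, h a = a' ∧ h b = b'

end General

/-- irreducible polynomials of degree `e`, not equal to `X` -/
def IrrP (e : ℕ) : Set (ZMod 2)[X] := {f | Irreducible f ∧ f.natDegree = e ∧ f ≠ X}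

/-- irreducible polynomials of degree `e` whose roots have order `2^e - 1` -/
def PrimP (e : ℕ) : Set (ZMod 2)[X] :=
  {f | f ∈ IrrP e ∧ ∀ k : ℕ, 0 < k → k < 2 ^ e - 1 → ¬ f ∣ X ^ k - 1}

/-- irreducible polynomials `f` of degree `e` which are not self-reciprocal and such that, for a
root `α` of `f` and `1 ≤ s ≤ n/3`, the element `α^s` has degree `e` -/
def Gd (n e : ℕ) : Set (ZMod 2)[X] :=
  {f | f ∈ IrrP e ∧ f.reverse ≠ f ∧
    ∀ s : ℕ, 1 ≤ s → 3 * s ≤ n → ∀ d : ℕ, d ∣ e → d < e → ¬ f ∣ X ^ (s * (2 ^ d - 1)) - 1}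

section Classes

variable {V : Type} [AddCommGroup V] [Module (ZMod 2) V]

/-- type `(n-1, 1)` with a primitive polynomial of degree `n - 1` -/
def E1 (n : ℕ) (g : V ≃ₗ[ZMod 2] V) : Prop :=
  (∃ f ∈ PrimP (n - 1), ∃ v : V, AnnEq g.toLinearMap f v) ∧ ∃ w : V, w ≠ 0 ∧ g w = w

/-- type `(n-3, 3)` -/
def E2 (n : ℕ) (g : V ≃ₗ[ZMod 2] V) : Prop :=
  (∃ f ∈ IrrP (n - 3), ∃ v : V, AnnEq g.toLinearMap f v) ∧
    ∃ f ∈ IrrP 3, ∃ v : V, AnnEq g.toLinearMap f v

/-- type `(3, 2, 1)` -/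
def E2s (g : V ≃ₗ[ZMod 2] V) : Prop :=
  (∃ f ∈ IrrP 3, ∃ v : V, AnnEq g.toLinearMap f v) ∧
    (∃ f ∈ IrrP 2, ∃ v : V, AnnEq g.toLinearMap f v) ∧ ∃ w : V, w ≠ 0 ∧ g w = w

/-- elements with a primitive factor of degree four -/
def E3 (g : V ≃ₗ[ZMod 2] V) : Prop := ∃ f ∈ PrimP 4, ∃ v : V, AnnEq g.toLinearMap f v

end Classes

end Pool.Agent.TWO
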