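import Pool.Agent.TWO.Strip
import Pool.Agent.TWO.GDefs

/-!
# TWO/TvK: block sums of type `K` have a power which is a transvection

`TK K n`: elements with a power equal to a transvection and such that the generalised eigenspace
`ker (g-1)^n` for the eigenvalue one meets the range of `(g-1)^K` in a line.

* `tk_mem`: in the model `F^a × F^b` both subspaces (the range of `g^(K o) - 1` and the range of
  `(g-1)^K` met with `ker (g-1)^(a+b)`) are the image of the range of `(p-1)^K` in the first summand;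
  `X^(K o) - 1 = (X-1)^K * (1 + (X-1) T)`.
* `tk_disj`: for `K < K'` the sets `TK K n` and `TK K' n` are disjoint (`g - 1` is nilpotent on the line).
-/

open Polynomial

namespace Pool.Agent.TWO

open Pool.Agent.PSD

/-- elements with a power equal to a transvection -/
def TV (n : ℕ) : Set (GLn n) := {g | ∃ k : ℕ, IsTv (g ^ k)}

/-- elements of `TV n` of type `K` -/
def TK (K n : ℕ) : Set (GLn n) :=
  {g | g ∈ TV n ∧ Module.finrank F
    ((LinearMap.range ((g.toLinearMap - 1 : Module.End F (Fin n → F)) ^ K) ⊓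
      LinearMap.ker ((g.toLinearMap - 1 : Module.End F (Fin n → F)) ^ n) :
        Submodule F (Fin n → F))) = 1}

section Aux

variable {V U W : Type} [AddCommGroup V] [Module F V] [AddCommGroup U] [Module F U] [AddCommGroup W] [Module F W]
  [Module.Finite F U] [Module.Finite F W]

/-- the embedding of the first summand -/
private def io (e : V ≃ₗ[F] (U × W)) : U →ₗ[F] V := e.symm.toLinearMap ∘ₗ LinearMap.inl F U W

omit [Module.Finite F U] [Module.Finite F W] in
private theorem io_inj (e : V ≃ₗ[F] (U × W)) : Function.Injective (io e) :=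
  e.symm.injective.comp LinearMap.inl_injective

omit [Module.Finite F U] [Module.Finite F W] in
private theorem io_fin (e : V ≃ₗ[F] (U × W)) (S : Submodule F U) :
    Module.finrank F (S.map (io e)) = Module.finrank F S :=
  (Submodule.equivMapOfInjective (io e) (io_inj e) S).finrank_eq.symm

private theorem ev (e : V ≃ₗ[F] (U × W)) {g : V ≃ₗ[F] V} {p : U ≃ₗ[F] U} {q : W ≃ₗ[F] W}
    (h : cj e g = blk p 0 q) (φ : F[X]) (x : V) :
    e (aeval g.toLinearMap φ x) = (aeval p.toLinearMap φ (e x).1, aeval q.toLinearMap φ (e x).2) := by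
  rw [← aeval_cj, h]
  exact blk_aeval_zero p q φ (e x).1 (e x).2

private theorem io_ev (e : V ≃ₗ[F] (U × W)) {g : V ≃ₗ[F] V} {p : U ≃ₗ[F] U} {q : W ≃ₗ[F] W}
    (h : cj e g = blk p 0 q) (φ : F[X]) (u : U) :
    io e (aeval p.toLinearMap φ u) = aeval g.toLinearMap φ (io e u) := by
  apply e.injective
  rw [ev e h]
  unfold io
  rw [LinearMap.comp_apply, LinearMap.comp_apply, LinearEquiv.coe_coe, LinearEquiv.apply_symm_apply,
    LinearEquiv.apply_symm_apply, LinearMap.inl_apply, LinearMap.inl_apply, map_zero]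

omit [Module.Finite F U] [Module.Finite F W] in
private theorem of_snd (e : V ≃ₗ[F] (U × W)) (v : V) (h : (e v).2 = 0) : io e (e v).1 = v := by
  apply e.injective
  unfold io
  rw [LinearMap.comp_apply, LinearEquiv.coe_coe, LinearEquiv.apply_symm_apply, LinearMap.inl_apply]
  exact Prod.ext rfl h.symm

private theorem rg (e : V ≃ₗ[F] (U × W)) {g : V ≃ₗ[F] V} {p : U ≃ₗ[F] U} {q : W ≃ₗ[F] W}
    (h : cj e g = blk p 0 q) (φ ψ : F[X]) (hp : aeval p.toLinearMap ψ = 0)
    (hq : Function.Injective (aeval q.toLinearMap ψ)) :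
    (LinearMap.range (aeval g.toLinearMap φ) ⊓ LinearMap.ker (aeval g.toLinearMap ψ) : Submodule F V) =
      (LinearMap.range (aeval p.toLinearMap φ)).map (io e) := by
  ext v
  constructor
  · rintro ⟨⟨x, rfl⟩, hv⟩
    have h1 := congrArg Prod.snd (ev e h ψ (aeval g.toLinearMap φ x))
    rw [LinearMap.mem_ker.1 hv, map_zero] at h1
    have h2 : (e (aeval g.toLinearMap φ x)).2 = 0 := hq (by rw [map_zero]; exact h1.symm)
    rw [← of_snd e _ h2, ev e h]
    exact ⟨_, ⟨_, rfl⟩, rfl⟩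
  · rintro ⟨_, ⟨u, rfl⟩, rfl⟩
    refine ⟨?_, ?_⟩
    · rw [io_ev e h]
      exact ⟨_, rfl⟩
    · refine LinearMap.mem_ker.2 ?_
      rw [← io_ev e h, hp, LinearMap.zero_apply, map_zero]

private theorem rg' (e : V ≃ₗ[F] (U × W)) {g : V ≃ₗ[F] V} {p : U ≃ₗ[F] U} {q : W ≃ₗ[F] W}
    (h : cj e g = blk p 0 q) (φ : F[X]) (hq : aeval q.toLinearMap φ = 0) :
    (LinearMap.range (aeval g.toLinearMap φ) : Submodule F V) =
      (LinearMap.range (aeval p.toLinearMap φ)).map (io e) := by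
  ext v
  constructor
  · rintro ⟨x, rfl⟩
    have h2 : (e (aeval g.toLinearMap φ x)).2 = 0 := by
      rw [ev e h, hq, LinearMap.zero_apply]
    rw [← of_snd e _ h2, ev e h]
    exact ⟨_, ⟨_, rfl⟩, rfl⟩
  · rintro ⟨_, ⟨u, rfl⟩, rfl⟩
    rw [io_ev e h]
    exact ⟨_, rfl⟩

end Aux

private theorem sub_one {n : ℕ} (g : GLn n) :
    (g.toLinearMap - 1 : Module.End F (Fin n → F)) = aeval g.toLinearMap (X - 1 : F[X]) := by
  rw [map_sub, aeval_X, map_one]

private theorem coe_pw {n : ℕ} (g : GLn n) (m : ℕ) : (g ^ m : GLn n).toLinearMap = g.toLinearMap ^ m := by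
  induction m with
  | zero => rfl
  | succ m ih =>
    rw [pow_succ (g.toLinearMap), ← ih, pow_succ]
    rfl

private theorem two_pow {K : ℕ} (hK : K ∈ ({1, 2, 4, 8} : Finset ℕ)) : ∃ k : ℕ, K = 2 ^ k := by
  simp only [Finset.mem_insert, Finset.mem_singleton] at hK
  rcases hK with rfl | rfl | rfl | rfl
  · exact ⟨0, rfl⟩
  · exact ⟨1, rfl⟩
  · exact ⟨2, rfl⟩
  · exact ⟨3, rfl⟩

/-- `X^(K o) - 1 = (X - 1)^K * (1 + (X - 1) T)` -/
private theorem fac (k o : ℕ) (ho : Odd o) :
    ∃ T : F[X], (X ^ (2 ^ k * o) - 1 : F[X]) = (1 + (X - 1) * T) * (X - 1) ^ 2 ^ k := by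
  have h1 : (X - 1 : F[X]) ^ 2 ^ k = X ^ 2 ^ k - 1 := by
    rw [sub_pow_char_pow, one_pow]
  have h2 : (∑ i ∈ Finset.range o, ((X : F[X]) ^ 2 ^ k) ^ i) * (X ^ 2 ^ k - 1) = X ^ (2 ^ k * o) - 1 := by
    rw [geom_sum_mul, ← pow_mul]
  have h3 : (X - C (1 : F)) ∣ (∑ i ∈ Finset.range o, ((X : F[X]) ^ 2 ^ k) ^ i) - 1 := by
    rw [dvd_iff_isRoot, IsRoot.def, eval_sub, eval_finsetSum, eval_one]
    simp only [eval_pow, eval_X, one_pow, Finset.sum_const, Finset.card_range, nsmul_eq_mul, mul_one]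
    obtain ⟨m, rfl⟩ := ho
    push_cast
    have h4 : (2 : F) = 0 := by decide
    rw [h4]
    ring
  obtain ⟨T, hT⟩ := h3
  rw [C_1] at hT
  refine ⟨T, ?_⟩
  rw [← h2, h1, ← hT]
  ring

private theorem rg_unit {n : ℕ} (p : GLn n) (hn : IsNilpotent (p.toLinearMap - 1 : Module.End F (Fin n → F)))
    (T S : F[X]) : (LinearMap.range (aeval p.toLinearMap ((1 + (X - 1) * T) * S)) : Submodule F (Fin n → F)) =
      LinearMap.range (aeval p.toLinearMap S) := by
  have h1 : IsNilpotent (aeval p.toLinearMap ((X - 1) * T)) := by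
    rw [map_mul, ← sub_one]
    refine Commute.isNilpotent_mul_right ?_ hn
    rw [sub_one]
    exact Commute.map (Commute.all _ _) (aeval p.toLinearMap)
  have h2 : IsUnit (aeval p.toLinearMap (1 + (X - 1) * T)) := by
    rw [map_add, map_one]
    exact h1.isUnit_one_add
  have h3 : (1 + (X - 1) * T) * S = S * (1 + (X - 1) * T) := mul_comm _ _
  rw [h3, map_mul]
  have h4 : LinearMap.range (aeval p.toLinearMap (1 + (X - 1) * T)) = ⊤ := by
    rw [LinearMap.range_eq_top]
    exact ((Module.End.isUnit_iff _).1 h2).2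
  show LinearMap.range (aeval p.toLinearMap S ∘ₗ aeval p.toLinearMap (1 + (X - 1) * T)) = _
  rw [LinearMap.range_comp, h4, Submodule.map_top]

theorem tk_mem {K a b : ℕ} (hK : K ∈ ({1, 2, 4, 8} : Finset ℕ)) :
    Dc (UN K a) (OO K b) ⊆ TK K (a + b) := by
  rintro g ⟨e, p, ⟨hp1, hp2⟩, q, ⟨hq1, o, ho, hq2⟩, h⟩
  obtain ⟨k, rfl⟩ := two_pow hK
  refine ⟨⟨2 ^ k * o, ?_⟩, ?_⟩
  · unfold IsTv
    have h1 : ((g ^ (2 ^ k * o) : GLn (a + b)).toLinearMap - 1 : Module.End F (Fin (a + b) → F)) =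
        aeval g.toLinearMap (X ^ (2 ^ k * o) - 1 : F[X]) := by
      rw [map_sub, map_pow, aeval_X, map_one, coe_pw]
    have h2 : aeval q.toLinearMap (X ^ (2 ^ k * o) - 1 : F[X]) = 0 := by
      rw [map_sub, map_pow, aeval_X, map_one, sub_eq_zero]
      rw [← coe_pw, hq2]
      rfl
    obtain ⟨T, hT⟩ := fac k o ho
    rw [h1, rg' e h _ h2, io_fin, hT, rg_unit p hp1, map_pow, ← sub_one]
    exact hp2
  · rw [sub_one, ← map_pow, ← map_pow, rg e h ((X - 1) ^ 2 ^ k) ((X - 1) ^ (a + b)) ?_ ?_, io_fin, map_pow, ← sub_one]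
    · exact hp2
    · rw [map_pow, ← sub_one, pow_add]
      have h1 : (p.toLinearMap - 1 : Module.End F (Fin a → F)) ^ a = 0 := by
        obtain ⟨m, hm⟩ := hp1
        have h2 := Module.End.ker_pow_le_ker_pow_finrank (p.toLinearMap - 1 : Module.End F (Fin a → F)) m
        rw [hm, Module.finrank_fin_fun] at h2
        refine LinearMap.ext fun x => ?_
        exact LinearMap.mem_ker.1 (h2 (LinearMap.mem_ker.2 rfl))
      rw [h1, zero_mul]
    · have h1 : (X - 1 : F[X]) = X + 1 := by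
        rw [sub_eq_add_neg]
        congr 1
        have h2 : (-1 : F) = 1 := by decide
        rw [← C_1, ← C_neg, h2]
      rw [h1, map_pow]
      have h3 : ∀ m : ℕ, Function.Injective ((aeval q.toLinearMap (X + 1 : F[X])) ^ m : Module.End F (Fin b → F)) := by
        intro m
        induction m with
        | zero => exact fun x y hxy => hxy
        | succ m ih =>
          rw [pow_succ]
          exact ih.comp hq1
      exact h3 _

theorem tk_disj {K K' n : ℕ} (h : K < K') : Disjoint (TK K n) (TK K' n) := by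
  rw [Set.disjoint_left]
  rintro g ⟨_, h1⟩ ⟨_, h2⟩
  set M : Module.End F (Fin n → F) := g.toLinearMap - 1 with hM
  obtain ⟨⟨u0, ⟨hu0, hk0⟩⟩, hne0, hs0⟩ := finrank_eq_one_iff'.1 h1
  obtain ⟨⟨y, ⟨⟨x, hx⟩, hky⟩⟩, hney, -⟩ := finrank_eq_one_iff'.1 h2
  have hu0' : u0 ≠ 0 := fun h0 => hne0 (Subtype.ext h0)
  have hy0 : y ≠ 0 := fun h0 => hney (Subtype.ext h0)
  have hline : ∀ u : Fin n → F, u ∈ (LinearMap.range (M ^ K) ⊓ LinearMap.ker (M ^ n) : Submodule F (Fin n → F)) →
      ∃ c : F, c • u0 = u := by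
    intro u hu
    obtain ⟨c, hc⟩ := hs0 ⟨u, hu⟩
    exact ⟨c, congrArg Subtype.val hc⟩
  -- `M u0 = 0`
  have hMu : M u0 ∈ (LinearMap.range (M ^ K) ⊓ LinearMap.ker (M ^ n) : Submodule F (Fin n → F)) := by
    obtain ⟨x0, hx0⟩ := hu0
    refine ⟨⟨M x0, ?_⟩, ?_⟩
    · rw [← hx0, ← Module.End.mul_apply, ← Module.End.mul_apply, ← pow_succ, ← pow_succ']
    · refine LinearMap.mem_ker.2 ?_
      rw [← Module.End.mul_apply, ← pow_succ, pow_succ', Module.End.mul_apply,
        LinearMap.mem_ker.1 hk0, map_zero]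
  obtain ⟨c, hc⟩ := hline _ hMu
  have hpow : ∀ m : ℕ, (M ^ m) u0 = c ^ m • u0 := by
    intro m
    induction m with
    | zero => simp
    | succ m ih =>
      rw [pow_succ, Module.End.mul_apply, ← hc, map_smul, ih, smul_smul, pow_succ']
  have hc0 : c = 0 := by
    have h3 := hpow n
    rw [LinearMap.mem_ker.1 hk0] at h3
    rcases smul_eq_zero.1 h3.symm with h4 | h4
    · by_contra hcc
      exact pow_ne_zero n hcc h4
    · exact absurd h4 hu0'
  rw [hc0, zero_smul] at hc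
  -- the element `u = M^K x`
  have hyx : (M ^ (K' - K)) ((M ^ K) x) = y := by
    rw [← Module.End.mul_apply, ← pow_add, Nat.sub_add_cancel h.le]
    exact hx
  have hu : (M ^ K) x ∈ (LinearMap.range (M ^ K) ⊓ LinearMap.ker (M ^ n) : Submodule F (Fin n → F)) := by
    refine ⟨⟨x, rfl⟩, ?_⟩
    have h3 : (M ^ K) x ∈ LinearMap.ker (M ^ (n + (K' - K))) := by
      rw [LinearMap.mem_ker, pow_add, Module.End.mul_apply, hyx]
      exact hky
    have h4 : LinearMap.ker (M ^ (n + (K' - K))) = LinearMap.ker (M ^ n) := by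
      rw [Module.End.ker_pow_eq_ker_pow_finrank_of_le (m := n + (K' - K)) (by rw [Module.finrank_fin_fun]; omega),
        Module.finrank_fin_fun]
    rw [h4] at h3
    exact h3
  obtain ⟨c', hc'⟩ := hline _ hu
  obtain ⟨d, hd⟩ : ∃ d, K' - K = d + 1 := ⟨K' - K - 1, by omega⟩
  apply hy0
  rw [← hyx, ← hc', hd, pow_succ, Module.End.mul_apply, map_smul, ← hc, smul_zero, map_zero]

theorem tk_sub (K n : ℕ) : TK K n ⊆ TV n := fun _ h => h.1

end Pool.Agent.TWO
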