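import Pool.Agent.TWO.AnnC
import Pool.Agent.TWO.TvK
import Pool.Agent.PSD.Conj

/-!
# TWO/CInv: the classes are stable under conjugation
-/

open Polynomial

namespace Pool.Agent.TWO

open Pool.Agent.PSD

theorem annEq_conj {n : ℕ} {g : GLn n} {f : F[X]} {v : Fin n → F} (h : GLn n)
    (hv : AnnEq g.toLinearMap f v) : AnnEq (h * g * h⁻¹ : GLn n).toLinearMap f (h v) := by
  rw [← cj_eq_mul]
  refine ⟨?_, fun p hp hd => ?_⟩
  · rw [aeval_cj, hv.1, map_zero]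
  · rw [aeval_cj]
    intro h1
    exact hv.2 p hp hd ((LinearEquiv.map_eq_zero_iff h).1 h1)

private theorem fix_conj {n : ℕ} {g : GLn n} (h : GLn n) {w : Fin n → F} (hw : w ≠ 0) (hg : g w = w) :
    h w ≠ 0 ∧ (h * g * h⁻¹ : GLn n) (h w) = h w := by
  refine ⟨fun h1 => hw ((LinearEquiv.map_eq_zero_iff h).1 h1), ?_⟩
  show h (g (h.symm (h w))) = h w
  rw [LinearEquiv.symm_apply_apply, hg]

private theorem tv_conj {n : ℕ} {t : GLn n} (h : GLn n) (ht : IsTv t) : IsTv (h * t * h⁻¹ : GLn n) := by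
  have key : ((h * t * h⁻¹ : GLn n).toLinearMap - 1 : Module.End F (Fin n → F)) =
      (h.toLinearMap ∘ₗ (t.toLinearMap - 1 : Module.End F (Fin n → F))) ∘ₗ h.symm.toLinearMap := by
    refine LinearMap.ext fun x => ?_
    show h (t (h.symm x)) - x = h (t (h.symm x) - h.symm x)
    rw [map_sub, LinearEquiv.apply_symm_apply]
  unfold IsTv at ht ⊢
  rw [key, LinearMap.range_comp_of_range_eq_top _ (LinearEquiv.range h.symm), LinearMap.range_comp]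
  rw [← ht]
  exact LinearEquiv.finrank_map_eq h _

theorem ci_tv (n : ℕ) : CI (TV n) := by
  rintro g ⟨k, hk⟩ h
  refine ⟨k, ?_⟩
  rw [conj_pow]
  exact tv_conj h hk

theorem ci_bg (n : ℕ) : CI (BG n) := by
  rintro g ⟨e, he, f, hf, v, hv⟩ h
  exact ⟨e, he, f, hf, h v, annEq_conj h hv⟩

theorem ci_e1 (m n : ℕ) : CI {g : GLn n | E1 m g} := by
  rintro g ⟨⟨f, hf, v, hv⟩, w, hw, hgw⟩ h
  exact ⟨⟨f, hf, h v, annEq_conj h hv⟩, h w, (fix_conj h hw hgw).1, (fix_conj h hw hgw).2⟩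

theorem ci_e2 (m n : ℕ) : CI {g : GLn n | E2 m g} := by
  rintro g ⟨⟨f, hf, v, hv⟩, f', hf', v', hv'⟩ h
  exact ⟨⟨f, hf, h v, annEq_conj h hv⟩, f', hf', h v', annEq_conj h hv'⟩

theorem ci_e2s (n : ℕ) : CI {g : GLn n | E2s g} := by
  rintro g ⟨⟨f, hf, v, hv⟩, ⟨f', hf', v', hv'⟩, w, hw, hgw⟩ h
  exact ⟨⟨f, hf, h v, annEq_conj h hv⟩, ⟨f', hf', h v', annEq_conj h hv'⟩, h w, (fix_conj h hw hgw).1,
    (fix_conj h hw hgw).2⟩

theorem ci_e3 (n : ℕ) : CI {g : GLn n | E3 g} := by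
  rintro g ⟨f, hf, v, hv⟩ h
  exact ⟨f, hf, h v, annEq_conj h hv⟩

theorem ci_union {n : ℕ} {S T : Set (GLn n)} (hS : CI S) (hT : CI T) : CI (S ∪ T) := by
  rintro g (hg | hg) h
  · exact Or.inl (hS g hg h)
  · exact Or.inr (hT g hg h)

end Pool.Agent.TWO
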