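import Pool.Agent.TWO.CDefs

/-!
# TWO/DerP: derangements

If `G` acts transitively on `Ω`, `C` is a set of elements of `G` stable under conjugation and no
element of `C` is in the stabiliser of the point `ω`, then all elements of `C` are derangements.
`der_gl`: the same for `G ≅ GL_n(2)`, with proportions.
-/

namespace Pool.Agent.TWO

open Pool.Agent.PSD

theorem der_bound {G : Type} [Group G] [Finite G] {Ω : Type} [MulAction G Ω]
    [MulAction.IsPretransitive G Ω] (ω : Ω) (C : Set G)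
    (hC : ∀ g ∈ C, ∀ a : G, a * g * a⁻¹ ∈ C) (hm : ∀ g ∈ C, g ∉ MulAction.stabilizer G ω) :
    C.ncard ≤ Nat.card {g : G // ∀ x : Ω, g • x ≠ x} := by
  have h1 : C ⊆ {g : G | ∀ x : Ω, g • x ≠ x} := by
    intro g hg x hx
    obtain ⟨a, ha⟩ := MulAction.exists_smul_eq G ω x
    refine hm _ (hC g hg a⁻¹) ?_
    rw [MulAction.mem_stabilizer_iff, inv_inv, mul_smul, mul_smul, ha, hx, ← ha, inv_smul_smul]
  have h2 := Set.ncard_le_ncard h1 (Set.toFinite _)
  rw [← Nat.card_coe_set_eq {g : G | ∀ x : Ω, g • x ≠ x}] at h2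
  exact h2

theorem der_gl {n : ℕ} {G : Type} [Group G] (e : G ≃* GLn n) {Ω : Type} [MulAction G Ω]
    [MulAction.IsPretransitive G Ω] (ω : Ω) (C : Set (GLn n)) (hC : CI C)
    (hm : ∀ g ∈ C, e.symm g ∉ MulAction.stabilizer G ω) :
    prp n C * (Nat.card G : ℝ) ≤ (Nat.card {g : G // ∀ x : Ω, g • x ≠ x} : ℝ) := by
  have hfin : Finite (GLn n) := Finite.of_injective (fun g : GLn n => (g : (Fin n → F) → (Fin n → F)))
    DFunLike.coe_injective
  have hG : Finite G := Finite.of_equiv _ e.symm.toEquiv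
  have h1 := der_bound (G := G) (Ω := Ω) ω (e.symm '' C) (by
    rintro _ ⟨g, hg, rfl⟩ a
    refine ⟨e a * g * (e a)⁻¹, hC g hg (e a), ?_⟩
    rw [map_mul, map_mul, map_inv, MulEquiv.symm_apply_apply]) (by
    rintro _ ⟨g, hg, rfl⟩
    exact hm g hg)
  rw [Set.ncard_image_of_injective _ e.symm.injective] at h1
  have h2 : Nat.card G = gl F n := Nat.card_congr e.toEquiv
  have h3 : 0 < gl F n := by
    unfold gl
    exact Nat.card_pos
  have h4 : (0 : ℝ) < (gl F n : ℝ) := by exact_mod_cast h3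
  rw [h2]
  unfold prp
  rw [div_mul_cancel₀ _ h4.ne']
  exact_mod_cast h1

end Pool.Agent.TWO
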