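import Pool.Agent.TWO.CDefs
import Pool.Agent.PSD.XsCount
import Pool.Agent.PSD.Comp

/-!
# TWO/CycC: pairs (element, vector) with a given annihilating polynomial

Refinement of `ncard_XS` (`PSD/XsCount.lean`) and `ncard_YG` (`PSD/YCard.lean`): here the annihilator
of the vector is a fixed monic polynomial `χ` of degree `i` with `χ(0) ≠ 0`, all of whose irreducible
factors have degree `> k`. The slice consists of the block triangular automorphisms whose first
block is the companion automorphism of `χ`.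
-/

open Polynomial

namespace Pool.Agent.TWO

open Pool.Agent.PSD

private theorem ee_eq_single (K : Type) [Field K] (i : ℕ) (a : Fin i) :
    ee K i a.1 = Pi.basisFun K (Fin i) a := by
  classical
  funext j
  rw [ee_apply, Pi.basisFun_apply, Pi.single_apply]
  simp only [Fin.ext_iff]

/-- companion type for linear maps -/
private def LC {K : Type} [Field K] {i : ℕ} (A : Module.End K (Fin i → K)) : Prop :=
  ∀ a : ℕ, a + 1 < i → A (ee K i a) = ee K i (a + 1)

private theorem lc_pow {K : Type} [Field K] {i : ℕ} {A : Module.End K (Fin i → K)} (hA : LC A) :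
    ∀ a : ℕ, a < i → (A ^ a) (ee K i 0) = ee K i a := by
  intro a
  induction a with
  | zero => intro _; rfl
  | succ a ih =>
    intro h
    rw [pow_succ', Module.End.mul_apply, ih (by omega), hA a h]

private theorem lc_aeval {K : Type} [Field K] {i : ℕ} {A : Module.End K (Fin i → K)} (hA : LC A)
    (h : K[X]) (hd : h.natDegree < i) :
    aeval A h (ee K i 0) = fun j : Fin i => h.coeff j.1 := by
  rw [aeval_eq_sum_range' hd, LinearMap.sum_apply]
  have h1 : ∀ a ∈ Finset.range i, (h.coeff a • A ^ a) (ee K i 0) = h.coeff a • ee K i a := by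
    intro a ha
    rw [LinearMap.smul_apply, lc_pow hA a (Finset.mem_range.mp ha)]
  rw [Finset.sum_congr rfl h1]
  funext j
  rw [Finset.sum_apply, Finset.sum_eq_single j.1]
  · rw [Pi.smul_apply, ee_apply, if_pos rfl, smul_eq_mul, mul_one]
  · intro b _ hb
    rw [Pi.smul_apply, ee_apply, if_neg (fun h => hb h.symm), smul_zero]
  · intro hj
    exact absurd (Finset.mem_range.mpr j.2) hj

private theorem lc_zero {K : Type} [Field K] {i : ℕ} {A : Module.End K (Fin i → K)} (hA : LC A)
    (h : K[X]) (hd : h.natDegree < i) (h0 : aeval A h (ee K i 0) = 0) : h = 0 := by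
  rw [lc_aeval hA h hd] at h0
  ext a
  rw [coeff_zero]
  by_cases ha : a < i
  · exact congrFun h0 ⟨a, ha⟩
  · exact coeff_eq_zero_of_natDegree_lt (by omega)

private theorem charpoly_deg {K : Type} [Field K] {i : ℕ} (A : Module.End K (Fin i → K)) :
    (LinearMap.charpoly A).natDegree = i := by
  rw [LinearMap.charpoly_natDegree, Module.finrank_fin_fun]

private theorem deg_sub_lt' {K : Type} [Field K] {i : ℕ} (hi : 1 ≤ i) (f g : K[X])
    (hf : f.Monic) (hg : g.Monic) (hfd : f.natDegree = i) (hgd : g.natDegree = i) :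
    (f - g).natDegree < i := by
  by_cases h0 : f - g = 0
  · rw [h0, natDegree_zero]
    omega
  · have h1 : degree (f - g) < degree f := by
      refine degree_sub_lt_left ?_ hf.ne_zero ?_
      · rw [degree_eq_natDegree hf.ne_zero, degree_eq_natDegree hg.ne_zero, hfd, hgd]
      · rw [hf.leadingCoeff, hg.leadingCoeff]
    rw [degree_eq_natDegree h0, degree_eq_natDegree hf.ne_zero, hfd] at h1
    exact_mod_cast h1

private theorem lc_uniq {K : Type} [Field K] {i : ℕ} (hi : 1 ≤ i)
    {A : Module.End K (Fin i → K)} (hA : LC A)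
    (g : K[X]) (hm : g.Monic) (hd : g.natDegree = i) (h0 : aeval A g (ee K i 0) = 0) :
    LinearMap.charpoly A = g := by
  have h1 : (LinearMap.charpoly A - g).natDegree < i :=
    deg_sub_lt' hi _ _ (LinearMap.charpoly_monic A) hm (charpoly_deg A) hd
  have h2 : aeval A (LinearMap.charpoly A - g) (ee K i 0) = 0 := by
    rw [map_sub, LinearMap.aeval_self_charpoly, LinearMap.sub_apply, h0]
    simp
  exact sub_eq_zero.mp (lc_zero hA _ h1 h2)

private theorem lc_last {K : Type} [Field K] {i : ℕ} (hi : 1 ≤ i)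
    {A : Module.End K (Fin i → K)} (hA : LC A) (g : K[X]) (hm : g.Monic) (hd : g.natDegree = i)
    (j : Fin i) :
    aeval A g (ee K i 0) j = A (ee K i (i - 1)) j + g.coeff j.1 := by
  have h1 : g = X ^ i + (g - X ^ i) := by ring
  have hlt : (g - X ^ i).natDegree < i :=
    deg_sub_lt' hi _ _ hm (monic_X_pow i) hd (natDegree_X_pow i)
  conv_lhs => rw [h1]
  rw [map_add, LinearMap.add_apply, Pi.add_apply, lc_aeval hA _ hlt, map_pow, aeval_X]
  have h8 : (A ^ i) (ee K i 0) = A (ee K i (i - 1)) := by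
    obtain ⟨m, rfl⟩ : ∃ m, i = m + 1 := ⟨i - 1, by omega⟩
    rw [pow_succ', Module.End.mul_apply, lc_pow hA m (by omega)]
    rfl
  rw [h8]
  congr 1
  change (g - X ^ i).coeff j.1 = _
  rw [coeff_sub, coeff_X_pow, if_neg (by have := j.2; omega), sub_zero]

private theorem lc_inj {K : Type} [Field K] {i : ℕ} (hi : 1 ≤ i)
    {A B : Module.End K (Fin i → K)} (hA : LC A) (hB : LC B)
    (h : LinearMap.charpoly A = LinearMap.charpoly B) : A = B := by
  refine (Pi.basisFun K (Fin i)).ext fun a => ?_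
  rw [← ee_eq_single]
  by_cases ha : a.1 + 1 < i
  · rw [hA _ ha, hB _ ha]
  · have h1 : a.1 = i - 1 := by have := a.2; omega
    rw [h1]
    funext j
    have h2 := lc_last hi hA _ (LinearMap.charpoly_monic A) (charpoly_deg A) j
    have h3 := lc_last hi hB _ (LinearMap.charpoly_monic B) (charpoly_deg B) j
    rw [LinearMap.aeval_self_charpoly] at h2 h3
    have h4 : (0 : Module.End K (Fin i → K)) (ee K i 0) j = 0 := rfl
    rw [h4] at h2 h3
    rw [h] at h2
    have h5 := h2.symm.trans h3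
    exact add_right_cancel h5

private theorem lc_surj {K : Type} [Field K] {i : ℕ} (hi : 1 ≤ i)
    (g : K[X]) (hm : g.Monic) (hd : g.natDegree = i) :
    ∃ A : Module.End K (Fin i → K), LC A ∧ LinearMap.charpoly A = g := by
  let A : Module.End K (Fin i → K) := (Pi.basisFun K (Fin i)).constr K
    (fun a : Fin i => if a.1 + 1 < i then ee K i (a.1 + 1) else fun j : Fin i => - g.coeff j.1)
  have hb : ∀ a : Fin i, A (ee K i a.1) =
      if a.1 + 1 < i then ee K i (a.1 + 1) else fun j : Fin i => - g.coeff j.1 := by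
    intro a
    rw [ee_eq_single]
    exact Module.Basis.constr_basis _ _ _ _
  have hA : LC A := by
    intro a ha
    have := hb ⟨a, by omega⟩
    rw [if_pos ha] at this
    exact this
  refine ⟨A, hA, lc_uniq hi hA g hm hd ?_⟩
  funext j
  rw [lc_last hi hA g hm hd j]
  have h1 := hb ⟨i - 1, by omega⟩
  rw [if_neg (by simp only; omega)] at h1
  change A (ee K i (i - 1)) = _ at h1
  rw [h1]
  simp

private theorem lc_big {K : Type} [Field K] {i : ℕ} (k : ℕ)
    {A : Module.End K (Fin i → K)} (hA : LC A) :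
    Big k A ↔ ∀ p : K[X], Irreducible p → p ∣ LinearMap.charpoly A → k < p.natDegree := by
  constructor
  · intro hB p hp hd
    by_contra hk
    obtain ⟨h, hh⟩ := hd
    have hf0 : LinearMap.charpoly A ≠ 0 := (LinearMap.charpoly_monic A).ne_zero
    have hp0 : p ≠ 0 := hp.ne_zero
    have hh0 : h ≠ 0 := by
      intro h0
      rw [h0, mul_zero] at hh
      exact hf0 hh
    have hdeg : i = p.natDegree + h.natDegree := by
      rw [← natDegree_mul hp0 hh0, ← hh, charpoly_deg]
    have hp1 : 1 ≤ p.natDegree := hp.natDegree_pos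
    have h1 : aeval A p (aeval A h (ee K i 0)) = 0 := by
      rw [← Module.End.mul_apply, ← map_mul, ← hh, LinearMap.aeval_self_charpoly]
      rfl
    have h2 : aeval A h (ee K i 0) = 0 := by
      apply hB p hp0 (by omega)
      rw [h1, map_zero]
    exact hh0 (lc_zero hA h (by omega) h2)
  · intro hp φ hφ hk
    have hco : IsCoprime φ (LinearMap.charpoly A) := by
      refine isCoprime_of_irreducible_dvd (fun h => hφ h.1) ?_
      intro p hpi hpφ hpf
      have h1 := hp p hpi hpf
      have h2 := natDegree_le_of_dvd hpφ hφ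
      omega
    obtain ⟨u, w, huw⟩ := hco
    have h1 : aeval A u * aeval A φ = 1 := by
      have h2 := congrArg (aeval A) huw
      rw [map_add, map_mul, map_mul, LinearMap.aeval_self_charpoly, mul_zero, add_zero,
        map_one] at h2
      exact h2
    intro x y hxy
    have h2 : ∀ z, z = aeval A u (aeval A φ z) := by
      intro z
      rw [← Module.End.mul_apply, h1]
      rfl
    rw [h2 x, h2 y, hxy]

private theorem det_lc {K : Type} [Field K] {i : ℕ} (A : Module.End K (Fin i → K)) :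
    LinearMap.det A = (-1) ^ i * (LinearMap.charpoly A).coeff 0 := by
  rw [LinearMap.det_eq_sign_charpoly_coeff, Module.finrank_fin_fun]


/-! ### the slice -/

private theorem cc_exists (K : Type) [Field K] {i : ℕ} (hi : 1 ≤ i) (k : ℕ) (χ : K[X])
    (hm : χ.Monic) (hd : χ.natDegree = i) (h0 : χ.coeff 0 ≠ 0)
    (hk : ∀ p : K[X], Irreducible p → p ∣ χ → k < p.natDegree) :
    ∃ A : (Fin i → K) ≃ₗ[K] (Fin i → K), IsComp A ∧ Big k A.toLinearMap ∧
      aeval A.toLinearMap χ (ee K i 0) = 0 ∧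
      ∀ B : (Fin i → K) ≃ₗ[K] (Fin i → K), IsComp B → aeval B.toLinearMap χ (ee K i 0) = 0 →
        B = A := by
  obtain ⟨A, hA, hch⟩ := lc_surj hi χ hm hd
  have hdet : LinearMap.det A = (-1) ^ i * χ.coeff 0 := by
    rw [det_lc, hch]
  have hne : IsUnit (LinearMap.det A) := by
    rw [hdet]
    exact (isUnit_iff_ne_zero.2 (mul_ne_zero (pow_ne_zero _ (neg_ne_zero.2 one_ne_zero)) h0))
  let E : (Fin i → K) ≃ₗ[K] (Fin i → K) := LinearMap.equivOfIsUnitDet hne
  have hE : E.toLinearMap = A := LinearMap.coe_equivOfIsUnitDet hne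
  have hEc : IsComp E := by
    intro a ha
    have h1 : E.toLinearMap (ee K i a) = ee K i (a + 1) := by
      rw [hE]
      exact hA a ha
    exact h1
  refine ⟨E, hEc, ?_, ?_, ?_⟩
  · rw [hE]
    exact (lc_big k hA).mpr (by rw [hch]; exact hk)
  · rw [hE, ← hch, LinearMap.aeval_self_charpoly]
    rfl
  · intro B hB hB0
    have hBL : LC B.toLinearMap := hB
    have h1 : LinearMap.charpoly B.toLinearMap = χ := lc_uniq hi hBL χ hm hd hB0
    refine LinearEquiv.toLinearMap_injective ?_
    refine lc_inj hi hBL (show LC E.toLinearMap from hEc) ?_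
    rw [h1, hE, hch]

/-- companion type automorphisms with `χ(g) e_0 = 0` -/
private def SL (K : Type) [Field K] (k i m : ℕ) (χ : K[X]) :
    Set (((Fin i → K) × (Fin m → K)) ≃ₗ[K] ((Fin i → K) × (Fin m → K))) :=
  {g | IsComp2 g ∧ Big k g.toLinearMap ∧
    aeval g.toLinearMap χ ((ee K i 0, 0) : (Fin i → K) × (Fin m → K)) = 0}

private theorem cc_slice (K : Type) [Field K] [Fintype K] {i : ℕ} (hi : 1 ≤ i) (m k : ℕ) (χ : K[X])
    (hm : χ.Monic) (hd : χ.natDegree = i) (h0 : χ.coeff 0 ≠ 0)
    (hk : ∀ p : K[X], Irreducible p → p ∣ χ → k < p.natDegree) :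
    (SL K k i m χ).ncard = Fintype.card K ^ (i * m) *
      {g : (Fin m → K) ≃ₗ[K] (Fin m → K) | Big k g.toLinearMap}.ncard := by
  obtain ⟨A, hA1, hA2, hA3, hA4⟩ := cc_exists K hi k χ hm hd h0 hk
  have hfin : Finite ((Fin m → K) →ₗ[K] (Fin i → K)) :=
    Finite.of_injective (fun g : (Fin m → K) →ₗ[K] (Fin i → K) => (g : (Fin m → K) → (Fin i → K)))
      fun _ _ h => LinearMap.ext (congrFun h)
  let T : ((Fin m → K) →ₗ[K] (Fin i → K)) ×
      {g : (Fin m → K) ≃ₗ[K] (Fin m → K) | Big k g.toLinearMap} → SL K k i m χ := fun x =>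
    ⟨blk A x.1 x.2.1, by
      obtain ⟨C, ⟨D, hD⟩⟩ := x
      refine ⟨⟨?_, ?_⟩, (blk_big k A C D).2 ⟨hA2, hD⟩, ?_⟩
      · intro u
        rw [blk_apply]
        exact map_zero D
      · intro b hb
        rw [blk_apply, hA1 b hb, map_zero, map_zero, add_zero]
      · obtain ⟨E, hE⟩ := blk_aeval A C D χ
        change aeval (blk A C D).toLinearMap χ ((ee K i 0, 0) : (Fin i → K) × (Fin m → K)) = 0
        rw [hE, hA3, map_zero, map_zero, add_zero]
        rfl⟩
  have hT : Function.Bijective T := by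
    constructor
    · rintro ⟨C, ⟨D, hD⟩⟩ ⟨C', ⟨D', hD'⟩⟩ h
      have h1 : blk A C D = blk A C' D' := congrArg Subtype.val h
      obtain ⟨-, h3, h4⟩ := blk_inj h1
      subst h3 h4
      rfl
    · rintro ⟨g, ⟨hg1, hg2⟩, hg3, hg4⟩
      obtain ⟨B, C, D, rfl⟩ := exists_blk g hg1
      obtain ⟨-, hD⟩ := (blk_big k B C D).1 hg3
      obtain ⟨E, hE⟩ := blk_aeval B C D χ
      have hB1 : IsComp B := by
        intro b hb
        have h1 := hg2 b hb
        rw [blk_apply, map_zero, map_zero, add_zero] at h1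
        exact congrArg Prod.fst h1
      have hB2 : aeval B.toLinearMap χ (ee K i 0) = 0 := by
        rw [hE, map_zero, map_zero, add_zero] at hg4
        exact congrArg Prod.fst hg4
      have hBA := hA4 B hB1 hB2
      subst hBA
      exact ⟨⟨C, ⟨D, hD⟩⟩, rfl⟩
  have hC : Nat.card ((Fin m → K) →ₗ[K] (Fin i → K)) = Fintype.card K ^ (i * m) := by
    rw [Module.natCard_eq_pow_finrank (K := K), Module.finrank_linearMap, Module.finrank_fin_fun,
      Module.finrank_fin_fun, Nat.card_eq_fintype_card, mul_comm]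
  rw [← Nat.card_coe_set_eq, ← Nat.card_congr (Equiv.ofBijective T hT), Nat.card_prod, hC,
    Nat.card_coe_set_eq]

/-! ### the orbit count -/

/-- pairs (automorphism, vector) with `χ(g) v = 0` and cyclic subspace of dimension `i` -/
private def XC (K V : Type) [Field K] [AddCommGroup V] [Module K V] (k i : ℕ) (χ : K[X]) :
    Set ((V ≃ₗ[K] V) × V) :=
  {x | Big k x.1.toLinearMap ∧ Module.finrank K (cyc x.1.toLinearMap x.2) = i ∧
    aeval x.1.toLinearMap χ x.2 = 0}

private theorem cc_cj_cj {K V V' : Type} [Field K] [AddCommGroup V] [Module K V] [AddCommGroup V']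
    [Module K V'] (e : V ≃ₗ[K] V') (g : V' ≃ₗ[K] V') : cj e (cj e.symm g) = g := by
  ext x
  rw [cj_apply, cj_apply]
  simp

private theorem cc_cj_inj {K V V' : Type} [Field K] [AddCommGroup V] [Module K V] [AddCommGroup V']
    [Module K V'] (e : V ≃ₗ[K] V') : Function.Injective (cj e : (V ≃ₗ[K] V) → (V' ≃ₗ[K] V')) := by
  intro g g' h
  refine LinearEquiv.ext fun x => e.injective ?_
  have h1 := LinearEquiv.congr_fun h (e x)
  rw [cj_apply, cj_apply, LinearEquiv.symm_apply_apply] at h1
  exact h1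

private theorem cc_mem {K V V' : Type} [Field K] [AddCommGroup V] [Module K V] [AddCommGroup V']
    [Module K V'] (e : V ≃ₗ[K] V') (k i : ℕ) (χ : K[X]) {x : (V ≃ₗ[K] V) × V}
    (hx : x ∈ XC K V k i χ) : (cj e x.1, e x.2) ∈ XC K V' k i χ := by
  obtain ⟨g, v⟩ := x
  obtain ⟨h1, h2, h3⟩ := hx
  refine ⟨(big_cj k e g).2 h1, ?_, ?_⟩
  · change Module.finrank K (cyc (cj e g).toLinearMap (e v)) = i
    rw [cyc_cj]
    exact (LinearEquiv.finrank_map_eq e _).trans h2
  · change aeval (cj e g).toLinearMap χ (e v) = 0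
    have h4 : aeval g.toLinearMap χ v = 0 := h3
    rw [aeval_cj, h4, map_zero]

private theorem cc_congr {K V V' : Type} [Field K] [AddCommGroup V] [Module K V] [AddCommGroup V']
    [Module K V'] (e : V ≃ₗ[K] V') (k i : ℕ) (χ : K[X]) :
    (XC K V k i χ).ncard = (XC K V' k i χ).ncard := by
  have h : XC K V' k i χ = (fun x : (V ≃ₗ[K] V) × V => (cj e x.1, e x.2)) '' XC K V k i χ := by
    ext ⟨g, v⟩
    constructor
    · intro hg
      refine ⟨(cj e.symm g, e.symm v), cc_mem e.symm k i χ hg, ?_⟩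
      change (cj e (cj e.symm g), e (e.symm v)) = (g, v)
      rw [cc_cj_cj, LinearEquiv.apply_symm_apply]
    · rintro ⟨x, hx, hxg⟩
      rw [← hxg]
      exact cc_mem e k i χ hx
  rw [h, Set.ncard_image_of_injective]
  rintro ⟨g, v⟩ ⟨g', v'⟩ hx
  exact Prod.ext (cc_cj_inj e (congrArg Prod.fst hx)) (e.injective (congrArg Prod.snd hx))

private theorem cc_sum_ee (K : Type) [Field K] {i : ℕ} (u : Fin i → K) :
    u = ∑ a : Fin i, u a • ee K i a.1 := by
  funext j
  rw [Finset.sum_apply, Finset.sum_eq_single j]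
  · simp [ee]
  · intro b _ hb
    have h : j.1 ≠ b.1 := fun h => hb (Fin.ext h.symm)
    simp [ee, h]
  · intro h
    exact absurd (Finset.mem_univ j) h

private theorem cc_fix (K : Type) [Field K] {i m : ℕ}
    (h : ((Fin i → K) × (Fin m → K)) ≃ₗ[K] ((Fin i → K) × (Fin m → K)))
    (hh : ∀ a : ℕ, a < i → h (ee K i a, 0) = (ee K i a, 0)) (u : Fin i → K) :
    h (u, 0) = (u, 0) := by
  have h1 : ((u, 0) : (Fin i → K) × (Fin m → K)) =
      ∑ a : Fin i, u a • ((ee K i a.1, 0) : (Fin i → K) × (Fin m → K)) := by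
    apply Prod.ext
    · rw [Prod.fst_sum]
      exact cc_sum_ee K u
    · rw [Prod.snd_sum]
      simp
  rw [h1, map_sum]
  refine Finset.sum_congr rfl fun a _ => ?_
  rw [map_smul, hh a.1 a.2]

private theorem cc_main (K : Type) [Field K] [Fintype K] [DecidableEq K] {i : ℕ} (hi : 1 ≤ i)
    (m k : ℕ) (χ : K[X]) (hm : χ.Monic) (hd : χ.natDegree = i) (h0 : χ.coeff 0 ≠ 0)
    (hk : ∀ p : K[X], Irreducible p → p ∣ χ → k < p.natDegree) :
    (XC K (Fin (i + m) → K) k i χ).ncard * gl K m = gl K (i + m) *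
      {g : (Fin m → K) ≃ₗ[K] (Fin m → K) | Big k g.toLinearMap}.ncard := by
  classical
  let V := (Fin i → K) × (Fin m → K)
  have hV : Module.finrank K V = i + m := by
    rw [Module.finrank_prod, Module.finrank_fin_fun, Module.finrank_fin_fun]
  let e : (Fin (i + m) → K) ≃ₗ[K] V :=
    LinearEquiv.ofFinrankEq _ _ (by rw [hV, Module.finrank_fin_fun])
  have hfin : Finite V := inferInstance
  let act : (V ≃ₗ[K] V) → ((V ≃ₗ[K] V) × V) → ((V ≃ₗ[K] V) × V) :=
    fun h x => (cj h x.1, h x.2)
  let Y : Set ((V ≃ₗ[K] V) × V) :=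
    (fun g : V ≃ₗ[K] V => (g, ((ee K i 0, 0) : V))) '' SL K k i m χ
  have key : (XC K V k i χ).ncard * Nat.card (HS K i m) =
      Nat.card (V ≃ₗ[K] V) * Y.ncard := by
    refine orbit_count (G := V ≃ₗ[K] V) (α := (V ≃ₗ[K] V) × V) act ?_ ?_ (XC K V k i χ) Y
      (HS K i m) ?_ ?_ ?_ ?_ ?_
    · rintro ⟨g, v⟩
      rfl
    · rintro g h ⟨f, v⟩
      rfl
    · rintro x ⟨g, hg, rfl⟩
      exact ⟨hg.2.1, cyc_comp2 hi g hg.1, hg.2.2⟩
    · rintro g x hx
      exact cc_mem g k i χ hx
    · rintro ⟨f, v⟩ hx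
      obtain ⟨h1, h2, h3⟩ := hx
      obtain ⟨e', he1, he2⟩ := cyc_nf f v hi hV h2
      have h4 : aeval (cj e' f).toLinearMap χ (e' v) = 0 := by
        have h5 : aeval f.toLinearMap χ v = 0 := h3
        rw [aeval_cj, h5, map_zero]
      refine ⟨e'⁻¹, act e' (f, v), ⟨cj e' f, ⟨he2, (big_cj k e' f).2 h1, ?_⟩, ?_⟩, ?_⟩
      · rw [← he1]
        exact h4
      · change (cj e' f, ((ee K i 0, 0) : V)) = (cj e' f, e' v)
        rw [he1]
      · change (cj e'⁻¹ (cj e' f), e'⁻¹ (e' v)) = (f, v)
        apply Prod.ext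
        · change cj e'⁻¹ (cj e' f) = f
          rw [cj_eq_mul, cj_eq_mul]
          group
        · exact LinearEquiv.symm_apply_apply e' v
    · rintro h y ⟨g, hg, rfl⟩ ⟨g', hg', hgg⟩
      have h1 : g' = cj h g := congrArg Prod.fst hgg
      have h2 : ((ee K i 0, 0) : V) = h (ee K i 0, 0) := congrArg Prod.snd hgg
      subst h1
      refine cc_fix K h fun a => ?_
      induction a with
      | zero => intro _; exact h2.symm
      | succ a ih =>
        intro ha
        have h3 := ih (by omega)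
        have h4 : g (ee K i a, 0) = (ee K i (a + 1), 0) := hg.1.2 a ha
        have h5 : cj h g (ee K i a, 0) = (ee K i (a + 1), 0) := hg'.1.2 a ha
        have h6 : h.symm (ee K i a, 0) = (ee K i a, 0) := by
          rw [LinearEquiv.symm_apply_eq, h3]
        rw [cj_apply, h6, h4] at h5
        exact h5
    · rintro h hh y ⟨g, hg, rfl⟩
      have hfix : ∀ u : Fin i → K, h (u, 0) = (u, 0) := hh
      have hsymm : ∀ u : Fin i → K, h.symm (u, 0) = (u, 0) := fun u => by
        rw [LinearEquiv.symm_apply_eq, hfix u]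
      have hcj : ∀ u : Fin i → K, cj h g (u, 0) = g (u, 0) := fun u => by
        have h7 : g (u, (0 : Fin m → K)) = ((g (u, 0)).1, 0) := Prod.ext rfl (hg.1.1 u)
        rw [cj_apply, hsymm u, h7, hfix]
      refine ⟨cj h g, ⟨⟨fun u => ?_, fun a ha => ?_⟩, (big_cj k h g).2 hg.2.1, ?_⟩, ?_⟩
      · rw [hcj u]
        exact hg.1.1 u
      · rw [hcj]
        exact hg.1.2 a ha
      · have h8 : aeval (cj h g).toLinearMap χ (h (ee K i 0, 0)) = 0 := by
          have h9 : aeval g.toLinearMap χ ((ee K i 0, 0) : V) = 0 := hg.2.2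
          rw [aeval_cj, h9, map_zero]
        rw [hfix] at h8
        exact h8
      · change (cj h g, ((ee K i 0, 0) : V)) = (cj h g, h (ee K i 0, 0))
        rw [hfix]
  have hY : Y.ncard = (SL K k i m χ).ncard := by
    apply Set.ncard_image_of_injective
    intro g g' hgg
    exact congrArg Prod.fst hgg
  have hq : 0 < Fintype.card K ^ (i * m) := pow_pos Fintype.card_pos _
  rw [hY, card_HS, cc_slice K hi m k χ hm hd h0 hk, ← cc_congr e, ← card_aut_congr e] at key
  have key2 : Fintype.card K ^ (i * m) * ((XC K (Fin (i + m) → K) k i χ).ncard * gl K m) =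
      Fintype.card K ^ (i * m) * (gl K (i + m) *
        {g : (Fin m → K) ≃ₗ[K] (Fin m → K) | Big k g.toLinearMap}.ncard) := by
    have h8 : Nat.card ((Fin (i + m) → K) ≃ₗ[K] (Fin (i + m) → K)) = gl K (i + m) := rfl
    rw [h8] at key
    linear_combination key
  exact Nat.eq_of_mul_eq_mul_left hq key2

theorem cyc_count {i : ℕ} (hi : 1 ≤ i) (m k : ℕ) (χ : F[X]) (hm : χ.Monic)
    (hd : χ.natDegree = i) (h0 : χ.coeff 0 ≠ 0)
    (hk : ∀ p : F[X], Irreducible p → p ∣ χ → k < p.natDegree) :
    {x : GLn (i + m) × (Fin (i + m) → F) | Big k x.1.toLinearMap ∧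
        Module.finrank F (cyc x.1.toLinearMap x.2) = i ∧
        aeval x.1.toLinearMap χ x.2 = 0}.ncard * gl F m =
      gl F (i + m) * {g : GLn m | Big k g.toLinearMap}.ncard :=
  cc_main F hi m k χ hm hd h0 hk

end Pool.Agent.TWO
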