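import Pool.Agent.TWO.CBas
import Pool.Agent.TWO.CycC

/-!
# TWO/Irr: automorphisms killed by an irreducible polynomial

* `irr_count`: for `f ∈ IrrP d`, `d ≥ 1`: `{p : GLn d | f(p) = 0}.ncard * (2^d - 1) = gl F d`.
* `irr_prp`: `prp d {p | f(p) = 0} = 1 / (2^d - 1)`.
* `irr_set`: for a set `S ⊆ IrrP d`, `prp d {p | ∃ f ∈ S, f(p) = 0} = S.ncard / (2^d - 1)`.
* `irr_inj`: if `f(p) = 0`, `f` irreducible, then every `φ` with `¬ f ∣ φ` is injective in `p`.
-/

open Polynomial

namespace Pool.Agent.TWO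

open Pool.Agent.PSD

private theorem ir_inj' {V : Type} [AddCommGroup V] [Module F V] {f : F[X]} (hf : Irreducible f)
    (p : Module.End F V) (hp : aeval p f = 0) {φ : F[X]} (h : ¬ f ∣ φ) :
    Function.Injective (aeval p φ) := by
  obtain ⟨a, b, hab⟩ := (hf.coprime_iff_not_dvd).2 h
  have h1 : aeval p b * aeval p φ = 1 := by
    have h2 := congrArg (aeval p) hab
    rw [map_add, map_mul, map_mul, hp, mul_zero, zero_add, map_one] at h2
    exact h2
  intro x y hxy
  have h3 : ∀ z : V, aeval p b (aeval p φ z) = z := fun z => by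
    rw [← Module.End.mul_apply, h1]
    rfl
  rw [← h3 x, hxy, h3 y]

private theorem ir_ndvd {f φ : F[X]} (h0 : φ ≠ 0) (hd : φ.natDegree < f.natDegree) : ¬ f ∣ φ :=
  fun h => absurd (natDegree_le_of_dvd h h0) (by omega)

/-- the cyclic subspace of a nonzero vector is everything -/
private theorem ir_cyc {d : ℕ} {f : F[X]} (hf : Irreducible f) (hd : f.natDegree = d)
    (p : Module.End F (Fin d → F)) (hp : aeval p f = 0) (v : Fin d → F) (hv : v ≠ 0) :
    Module.finrank F (cyc p v) = d := by
  have hle : Module.finrank F (cyc p v) ≤ d := by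
    have h1 := Submodule.finrank_le (cyc p v)
    rwa [Module.finrank_fin_fun] at h1
  have hli : LinearIndependent F (fun j : Fin d => (p ^ (j : ℕ)) v) := by
    rw [Fintype.linearIndependent_iff]
    intro c hc
    have h1 : aeval p (∑ j : Fin d, C (c j) * X ^ (j : ℕ)) v = 0 := by
      rw [map_sum, LinearMap.sum_apply, ← hc]
      refine Finset.sum_congr rfl fun j _ => ?_
      rw [map_mul, aeval_C, map_pow, aeval_X, Module.End.mul_apply]
      rfl
    have h2 : ∀ j : Fin d, (∑ j : Fin d, C (c j) * X ^ (j : ℕ)).coeff (j : ℕ) = c j := by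
      intro j
      rw [finsetSum_coeff, Finset.sum_eq_single j]
      · rw [coeff_C_mul, coeff_X_pow, if_pos rfl, mul_one]
      · intro i _ hi
        rw [coeff_C_mul, coeff_X_pow, if_neg (fun hh => hi (Fin.ext hh.symm)), mul_zero]
      · intro hj
        exact absurd (Finset.mem_univ j) hj
    have h3 : (∑ j : Fin d, C (c j) * X ^ (j : ℕ)) = 0 := by
      by_contra h0
      have hd0 : 0 < d := by
        rcases Nat.eq_zero_or_pos d with h4 | h4
        · subst h4
          exact absurd (Finset.sum_of_isEmpty _) h0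
        · exact h4
      have h4 : (∑ j : Fin d, C (c j) * X ^ (j : ℕ)).natDegree < d := by
        have h5 : ∀ j ∈ (Finset.univ : Finset (Fin d)),
            (C (c j) * X ^ (j : ℕ)).natDegree ≤ d - 1 := by
          intro j _
          refine (natDegree_C_mul_X_pow_le _ _).trans ?_
          have := j.2
          omega
        have h6 := natDegree_sum_le_of_forall_le Finset.univ _ h5
        omega
      have h5 := ir_inj' hf p hp (ir_ndvd h0 (by rw [hd]; exact h4))
      exact hv (h5 (by rw [h1, map_zero]))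
    intro j
    rw [← h2 j, h3, coeff_zero]
  have h2 : Submodule.span F (Set.range fun j : Fin d => (p ^ (j : ℕ)) v) ≤ cyc p v := by
    refine Submodule.span_mono ?_
    rintro _ ⟨j, rfl⟩
    exact ⟨j, rfl⟩
  have h3 := Submodule.finrank_mono h2
  rw [finrank_span_eq_card hli, Fintype.card_fin] at h3
  omega

private theorem ir_killed {d : ℕ} {f : F[X]} (p : Module.End F (Fin d → F)) (v : Fin d → F)
    (h : Module.finrank F (cyc p v) = d) (hv : aeval p f v = 0) : aeval p f = 0 := by
  have htop : cyc p v = ⊤ := Submodule.eq_top_of_finrank_eq (by rw [h, Module.finrank_fin_fun])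
  refine LinearMap.ext fun w => ?_
  have hw : w ∈ cyc p v := by rw [htop]; exact Submodule.mem_top
  have hle : cyc p v ≤ LinearMap.ker (aeval p f) := by
    refine Submodule.span_le.2 ?_
    rintro _ ⟨j, rfl⟩
    rw [SetLike.mem_coe, LinearMap.mem_ker]
    show aeval p f ((p ^ j) v) = 0
    have h1 : aeval p f * p ^ j = p ^ j * aeval p f := by
      have h2 : (p ^ j : Module.End F (Fin d → F)) = aeval p (X ^ j : F[X]) := by
        rw [map_pow, aeval_X]
      rw [h2, ← map_mul, ← map_mul, mul_comm]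
    rw [← Module.End.mul_apply, h1, Module.End.mul_apply, hv, map_zero]
  exact LinearMap.mem_ker.1 (hle hw)

private theorem ir_big0 {V : Type} [AddCommGroup V] [Module F V] (p : Module.End F V) : Big 0 p := by
  intro φ hφ hd
  obtain ⟨a, rfl⟩ : ∃ a, φ = C a := ⟨_, eq_C_of_natDegree_le_zero hd⟩
  have ha : a ≠ 0 := fun h => hφ (by rw [h, map_zero])
  have h1 : a = 1 := (by decide : ∀ a : F, a ≠ 0 → a = 1) a ha
  rw [h1, map_one, map_one]
  exact fun x y h => h

theorem irr_count {d : ℕ} (hd : 1 ≤ d) {f : F[X]} (hf : f ∈ IrrP d) :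
    {p : GLn d | aeval p.toLinearMap f = 0}.ncard * (2 ^ d - 1) = gl F d := by
  obtain ⟨hm, h0⟩ := ir_monic hf
  have h1 := cyc_count hd 0 0 f hm hf.2.1 (by rw [h0]; exact one_ne_zero)
    (fun p hp _ => hp.natDegree_pos)
  have h2 : {g : GLn 0 | Big 0 g.toLinearMap}.ncard = gl F 0 := by
    have h3 : {g : GLn 0 | Big 0 g.toLinearMap} = Set.univ :=
      Set.eq_univ_of_forall fun g => ir_big0 _
    rw [h3, Set.ncard_univ]
    rfl
  rw [h2] at h1
  have h3 := Nat.eq_of_mul_eq_mul_right (gl_pos F 0) h1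
  have h4 : gl F d = {x : GLn (d + 0) × (Fin (d + 0) → F) | Big 0 x.1.toLinearMap ∧
        Module.finrank F (cyc x.1.toLinearMap x.2) = d ∧
        aeval x.1.toLinearMap f x.2 = 0}.ncard := h3.symm
  rw [h4]
  have h5 : ({x : GLn (d + 0) × (Fin (d + 0) → F) | Big 0 x.1.toLinearMap ∧
        Module.finrank F (cyc x.1.toLinearMap x.2) = d ∧
        aeval x.1.toLinearMap f x.2 = 0} : Set (GLn d × (Fin d → F))) =
      {p : GLn d | aeval p.toLinearMap f = 0} ×ˢ ({0}ᶜ : Set (Fin d → F)) := by
    ext ⟨g, v⟩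
    constructor
    · rintro ⟨-, h6, h7⟩
      refine ⟨ir_killed g.toLinearMap v h6 h7, ?_⟩
      intro hv
      have hv' : v = 0 := hv
      have h8 : cyc g.toLinearMap v = ⊥ := by
        unfold cyc
        rw [Submodule.span_eq_bot]
        rintro _ ⟨j, rfl⟩
        rw [hv']
        exact map_zero _
      have h9 : Module.finrank F (cyc g.toLinearMap v) = d := h6
      rw [h8, finrank_bot] at h9
      omega
    · rintro ⟨h6, h7⟩
      have h8 : aeval g.toLinearMap f = 0 := h6
      refine ⟨ir_big0 _, ir_cyc hf.1 hf.2.1 g.toLinearMap h8 v h7, ?_⟩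
      show aeval g.toLinearMap f v = 0
      rw [h8]
      rfl
  have h6 : ({0}ᶜ : Set (Fin d → F)).ncard = 2 ^ d - 1 := by
    rw [Set.ncard_compl, Set.ncard_singleton]
    congr 1
    rw [Nat.card_fun, Nat.card_eq_fintype_card, ZMod.card, Nat.card_eq_fintype_card, Fintype.card_fin]
  rw [← h6, ← Set.ncard_prod]
  exact (congrArg Set.ncard h5).symm

theorem irr_prp {d : ℕ} (hd : 1 ≤ d) {f : F[X]} (hf : f ∈ IrrP d) :
    prp d {p : GLn d | aeval p.toLinearMap f = 0} = 1 / (2 ^ d - 1) := by
  have h := irr_count hd hf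
  unfold prp
  rw [← h]
  have h1 : 1 ≤ 2 ^ d := Nat.one_le_two_pow
  have h2 : 2 ^ 1 ≤ 2 ^ d := Nat.pow_le_pow_right (by norm_num) hd
  push_cast [Nat.cast_sub h1]
  have h3 : ({p : GLn d | aeval p.toLinearMap f = 0}.ncard : ℝ) ≠ 0 := by
    have h4 : {p : GLn d | aeval p.toLinearMap f = 0}.ncard ≠ 0 := by
      intro h5
      rw [h5, zero_mul] at h
      exact absurd h (gl_pos F d).ne
    exact_mod_cast h4
  have h4 : (2 : ℝ) ^ d - 1 ≠ 0 := by
    have h5 : (2 : ℝ) ^ 1 ≤ 2 ^ d := by exact_mod_cast h2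
    linarith
  field_simp

theorem irr_inj {V : Type} [AddCommGroup V] [Module F V] {f : F[X]} (hf : Irreducible f)
    (p : Module.End F V) (hp : aeval p f = 0) {φ : F[X]} (h : ¬ f ∣ φ) :
    Function.Injective (aeval p φ) := ir_inj' hf p hp h

private theorem ir_uniq {d : ℕ} (hd : 1 ≤ d) {f g : F[X]} (hf : f ∈ IrrP d) (hg : g ∈ IrrP d)
    (p : GLn d) (h1 : aeval p.toLinearMap f = 0) (h2 : aeval p.toLinearMap g = 0) : f = g := by
  by_contra hne
  have h3 : ¬ f ∣ g := by
    intro h4
    have h5 : Associated f g := hf.1.associated_of_dvd hg.1 h4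
    exact hne (eq_of_monic_of_associated (ir_monic hf).1 (ir_monic hg).1 h5)
  have h4 := ir_inj' hf.1 p.toLinearMap h1 h3
  rw [h2] at h4
  have h5 : (fun _ : Fin d => (1 : F)) = 0 := h4 rfl
  exact one_ne_zero (congrFun h5 ⟨0, hd⟩)

theorem irr_set {d : ℕ} (hd : 1 ≤ d) {S : Set F[X]} (hS : S ⊆ IrrP d) :
    prp d {p : GLn d | ∃ f ∈ S, aeval p.toLinearMap f = 0} = (S.ncard : ℝ) / (2 ^ d - 1) := by
  classical
  obtain ⟨s, rfl⟩ := ((ir_finite d).subset hS).exists_finset_coe
  rw [Set.ncard_coe_finset]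
  have key : ∀ s : Finset F[X], (∀ f ∈ s, f ∈ IrrP d) →
      prp d {p : GLn d | ∃ f ∈ s, aeval p.toLinearMap f = 0} = (s.card : ℝ) / (2 ^ d - 1) := by
    intro s
    induction s using Finset.induction_on with
    | empty =>
      intro _
      have h1 : {p : GLn d | ∃ f ∈ (∅ : Finset F[X]), aeval p.toLinearMap f = 0} = ∅ := by
        ext p
        simp
      rw [h1]
      unfold prp
      simp
    | insert a s ha ih =>
      intro hs
      have h1 : {p : GLn d | ∃ f ∈ insert a s, aeval p.toLinearMap f = 0} =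
          {p : GLn d | aeval p.toLinearMap a = 0} ∪
            {p : GLn d | ∃ f ∈ s, aeval p.toLinearMap f = 0} := by
        ext p
        constructor
        · rintro ⟨f, hf, hp⟩
          rcases Finset.mem_insert.1 hf with h2 | h2
          · rw [h2] at hp
            exact Or.inl hp
          · exact Or.inr ⟨f, h2, hp⟩
        · rintro (h2 | ⟨f, hf, hp⟩)
          · exact ⟨a, Finset.mem_insert_self _ _, h2⟩
          · exact ⟨f, Finset.mem_insert_of_mem hf, hp⟩
      have h2 : Disjoint {p : GLn d | aeval p.toLinearMap a = 0}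
          {p : GLn d | ∃ f ∈ s, aeval p.toLinearMap f = 0} := by
        rw [Set.disjoint_left]
        rintro p h3 ⟨f, hf, hp⟩
        have h4 := ir_uniq hd (hs a (Finset.mem_insert_self _ _)) (hs f (Finset.mem_insert_of_mem hf))
          p h3 hp
        rw [h4] at ha
        exact ha hf
      rw [h1, ← prp_add h2, irr_prp hd (hs a (Finset.mem_insert_self _ _)),
        ih fun f hf => hs f (Finset.mem_insert_of_mem hf), Finset.card_insert_of_notMem ha]
      push_cast
      ring
  have h1 := key s fun f hf => hS hf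
  rw [← h1]
  rfl

end Pool.Agent.TWO
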