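import Pool.Agent.TWO.NA

/-!
# TWO/NB (1.2 h): lower bounds for the numbers of primitive polynomials

`f ∈ IrrP e` divides `X^(2^e - 1) - 1`.  If `f ∣ X^k - 1` with `0 < k < 2^e - 1`, then
`f ∣ X^(gcd(k, 2^e-1)) - 1` (`gcd (X^a - 1, X^b - 1) = X^(gcd a b) - 1`; or with the root `α` in
`AdjoinRoot f`: `orderOf α ∣ gcd`).
* `e = 3, 5, 7`: `2^e - 1` is prime, so `f ∣ X - 1`, impossible by degree: `PrimP e = IrrP e`.
* `e = 4`: proper divisors `1, 3, 5` of `15`; `f ∣ X^3 - 1` impossible (degree 4), and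
  `dvd_card` with `M = 5`: at most one `f ∣ X^5 - 1`.
* `e = 9`: `511 = 7 · 73`: `f ∣ X^7 - 1` is impossible by degree (9 > 7), `dvd_card` with `M = 73`:
  at most `8`.  So at least `56 - 8 = 48`.
* `e = 11`: `2047 = 23 · 89`: `dvd_card` with `M = 23`, `M = 89`: at most `2 + 8`.
-/

open Polynomial Module

namespace Pool.Agent.TWO

private theorem dvd_iff (f : (ZMod 2)[X]) (k : ℕ) :
    f ∣ X ^ k - 1 ↔ (AdjoinRoot.root f) ^ k = 1 := by
  rw [← AdjoinRoot.mk_eq_zero, map_sub, map_pow, AdjoinRoot.mk_X, map_one, sub_eq_zero]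

private theorem root_pow {e : ℕ} {f : (ZMod 2)[X]} (hf : f ∈ IrrP e) :
    (AdjoinRoot.root f) ^ (2 ^ e - 1) = 1 := by
  obtain ⟨hirr, hd, hX⟩ := hf
  have : Fact (Irreducible f) := ⟨hirr⟩
  have hf0 : f ≠ 0 := hirr.ne_zero
  have hfin : Module.Finite (ZMod 2) (AdjoinRoot f) :=
    Module.Finite.of_basis (AdjoinRoot.powerBasis hf0).basis
  have hfin' : Finite (AdjoinRoot f) := Module.finite_of_finite (ZMod 2)
  have : Fintype (AdjoinRoot f) := Fintype.ofFinite _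
  have hcard : Fintype.card (AdjoinRoot f) = 2 ^ e := by
    rw [Module.card_eq_pow_finrank (K := ZMod 2) (V := AdjoinRoot f), ZMod.card,
      (AdjoinRoot.powerBasis hf0).finrank, AdjoinRoot.powerBasis_dim, hd]
  have hne : AdjoinRoot.root f ≠ 0 := by
    intro h0
    have h1 : f ∣ X := by
      rw [← AdjoinRoot.mk_eq_zero, AdjoinRoot.mk_X, h0]
    have h2 : Associated f X := hirr.associated_of_dvd irreducible_X h1
    have h3 : f.Monic := by
      have h4 : f.leadingCoeff ≠ 0 := leadingCoeff_ne_zero.2 hf0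
      have h5 : ∀ c : ZMod 2, c ≠ 0 → c = 1 := by decide
      exact h5 _ h4
    exact hX (eq_of_monic_of_associated h3 monic_X h2)
  rw [← hcard]
  exact FiniteField.pow_card_sub_one_eq_one _ hne

private theorem gcd_dvd {e k : ℕ} {f : (ZMod 2)[X]} (hf : f ∈ IrrP e) (hk0 : 0 < k)
    (hk : k < 2 ^ e - 1) (h : f ∣ X ^ k - 1) :
    ∃ g : ℕ, g ∣ 2 ^ e - 1 ∧ g < 2 ^ e - 1 ∧ e ≤ g ∧ f ∣ X ^ g - 1 := by
  refine ⟨Nat.gcd k (2 ^ e - 1), Nat.gcd_dvd_right _ _,
    (Nat.le_of_dvd hk0 (Nat.gcd_dvd_left _ _)).trans_lt hk, ?_, ?_⟩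
  · have h1 : f ∣ X ^ (Nat.gcd k (2 ^ e - 1)) - 1 := by
      rw [dvd_iff, pow_gcd_eq_one, ← dvd_iff]
      exact ⟨h, root_pow hf⟩
    have h2 : 0 < Nat.gcd k (2 ^ e - 1) := Nat.gcd_pos_of_pos_left _ hk0
    have h3 := natDegree_le_of_dvd h1 (X_pow_sub_C_ne_zero h2 (1 : ZMod 2))
    have h4 : (X ^ (Nat.gcd k (2 ^ e - 1)) - 1 : (ZMod 2)[X]).natDegree =
        Nat.gcd k (2 ^ e - 1) := natDegree_X_pow_sub_C (r := (1 : ZMod 2))
    rw [h4, hf.2.1] at h3
    exact h3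
  · rw [dvd_iff, pow_gcd_eq_one, ← dvd_iff]
    exact ⟨h, root_pow hf⟩

private theorem prim_eq {e : ℕ} (h : ∀ g : ℕ, g ∣ 2 ^ e - 1 → g < 2 ^ e - 1 → e ≤ g → False) :
    PrimP e = IrrP e := by
  ext f
  constructor
  · exact fun hf => hf.1
  · intro hf
    refine ⟨hf, fun k hk0 hk hd => ?_⟩
    obtain ⟨g, h1, h2, h3, -⟩ := gcd_dvd hf hk0 hk hd
    exact h g h1 h2 h3

private theorem prim_ge {e g₁ g₂ : ℕ} (h : ∀ g : ℕ, g ∣ 2 ^ e - 1 → g < 2 ^ e - 1 → e ≤ g →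
    g = g₁ ∨ g = g₂) : (IrrP e).ncard ≤ (PrimP e).ncard +
      ({f | f ∈ IrrP e ∧ f ∣ X ^ g₁ - 1}.ncard + {f | f ∈ IrrP e ∧ f ∣ X ^ g₂ - 1}.ncard) := by
  have hsub : IrrP e ⊆ PrimP e ∪
      ({f | f ∈ IrrP e ∧ f ∣ X ^ g₁ - 1} ∪ {f | f ∈ IrrP e ∧ f ∣ X ^ g₂ - 1}) := by
    intro f hf
    by_cases hp : f ∈ PrimP e
    · exact Or.inl hp
    · right
      have h1 : ∃ k : ℕ, 0 < k ∧ k < 2 ^ e - 1 ∧ f ∣ X ^ k - 1 := by
        by_contra hcon
        push Not at hcon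
        exact hp ⟨hf, fun k hk0 hk => hcon k hk0 hk⟩
      obtain ⟨k, hk0, hk, hd⟩ := h1
      obtain ⟨g, h1, h2, h3, h4⟩ := gcd_dvd hf hk0 hk hd
      rcases h g h1 h2 h3 with rfl | rfl
      · exact Or.inl ⟨hf, h4⟩
      · exact Or.inr ⟨hf, h4⟩
  have hfin : (PrimP e ∪
      ({f | f ∈ IrrP e ∧ f ∣ X ^ g₁ - 1} ∪ {f | f ∈ IrrP e ∧ f ∣ X ^ g₂ - 1})).Finite :=
    ((irr_finite e).subset fun f hf => hf.1).union
      (((irr_finite e).subset fun f hf => hf.1).union ((irr_finite e).subset fun f hf => hf.1))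
  exact (Set.ncard_le_ncard hsub hfin).trans ((Set.ncard_union_le _ _).trans
    (Nat.add_le_add_left (Set.ncard_union_le _ _) _))

private theorem prim_ge1 {e g₁ : ℕ} (h : ∀ g : ℕ, g ∣ 2 ^ e - 1 → g < 2 ^ e - 1 → e ≤ g →
    g = g₁) : (IrrP e).ncard ≤ (PrimP e).ncard + {f | f ∈ IrrP e ∧ f ∣ X ^ g₁ - 1}.ncard := by
  have hsub : IrrP e ⊆ PrimP e ∪ {f | f ∈ IrrP e ∧ f ∣ X ^ g₁ - 1} := by
    intro f hf
    by_cases hp : f ∈ PrimP e
    · exact Or.inl hp
    · right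
      have h1 : ∃ k : ℕ, 0 < k ∧ k < 2 ^ e - 1 ∧ f ∣ X ^ k - 1 := by
        by_contra hcon
        push Not at hcon
        exact hp ⟨hf, fun k hk0 hk => hcon k hk0 hk⟩
      obtain ⟨k, hk0, hk, hd⟩ := h1
      obtain ⟨g, h1, h2, h3, h4⟩ := gcd_dvd hf hk0 hk hd
      have h5 := h g h1 h2 h3
      subst h5
      exact ⟨hf, h4⟩
  exact (Set.ncard_le_ncard hsub (((irr_finite e).subset fun f hf => hf.1).union
    ((irr_finite e).subset fun f hf => hf.1))).trans (Set.ncard_union_le _ _)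

theorem prim_vals : 2 ≤ (PrimP 3).ncard ∧ 2 ≤ (PrimP 4).ncard ∧ 6 ≤ (PrimP 5).ncard ∧
    18 ≤ (PrimP 7).ncard ∧ 48 ≤ (PrimP 9).ncard ∧ 176 ≤ (PrimP 11).ncard := by
  obtain ⟨-, -, v3, v4, v5, -, v7, -, v9, -, v11, -, -⟩ := irr_vals
  have hp : ∀ p : ℕ, p.Prime → ∀ g : ℕ, g ∣ p → g < p → g = 1 := by
    intro p hp g hg hlt
    rcases (Nat.dvd_prime hp).1 hg with h | h
    · exact h
    · omega
  refine ⟨?_, ?_, ?_, ?_, ?_, ?_⟩
  · rw [prim_eq fun g h1 h2 h3 => by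
      have := hp 7 (by norm_num) g (by simpa using h1) (by simpa using h2)
      omega, v3]
  · have h1 := prim_ge1 (e := 4) (g₁ := 5) (fun g h1 h2 h3 => by
      have h4 : g ∣ 15 := by simpa using h1
      have h5 : g < 15 := by simpa using h2
      interval_cases g <;> omega)
    have h2 := dvd_card (e := 4) (M := 5) (by norm_num)
    rw [v4] at h1
    omega
  · rw [prim_eq fun g h1 h2 h3 => by
      have := hp 31 (by norm_num) g (by simpa using h1) (by simpa using h2)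
      omega, v5]
  · rw [prim_eq fun g h1 h2 h3 => by
      have := hp 127 (by norm_num) g (by simpa using h1) (by simpa using h2)
      omega, v7]
  · have h1 := prim_ge1 (e := 9) (g₁ := 73) (fun g h1 h2 h3 => by
      have h4 : g ∣ 511 := by simpa using h1
      have h5 : g < 511 := by simpa using h2
      have h6 : g ∈ Nat.divisors 511 := Nat.mem_divisors.2 ⟨h4, by norm_num⟩
      have h7 : Nat.divisors 511 = {1, 7, 73, 511} := by decide +kernel
      rw [h7] at h6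
      simp only [Finset.mem_insert, Finset.mem_singleton] at h6
      omega)
    have h2 := dvd_card (e := 9) (M := 73) (by norm_num)
    rw [v9] at h1
    omega
  · have h1 := prim_ge (e := 11) (g₁ := 23) (g₂ := 89) (fun g h1 h2 h3 => by
      have h4 : g ∣ 2047 := by simpa using h1
      have h5 : g < 2047 := by simpa using h2
      have h6 : g ∈ Nat.divisors 2047 := Nat.mem_divisors.2 ⟨h4, by norm_num⟩
      have h7 : Nat.divisors 2047 = {1, 23, 89, 2047} := by decide +kernel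
      rw [h7] at h6
      simp only [Finset.mem_insert, Finset.mem_singleton] at h6
      omega)
    have h2 := dvd_card (e := 11) (M := 23) (by norm_num)
    have h3 := dvd_card (e := 11) (M := 89) (by norm_num)
    rw [v11] at h1
    omega

end Pool.Agent.TWO
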