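import Pool.Agent.TWO.Split

/-!
# TWO/UVal: lower bounds for the proportions of unipotent elements
-/

open Polynomial

namespace Pool.Agent.TWO

open Pool.Agent.PSD

private theorem uv_card (n : ℕ) : gl F n = ∏ i ∈ Finset.range n, (2 ^ n - 2 ^ i) := by
  have b := Module.finBasisOfFinrankEq (ZMod 2) (Fin n → F) (Module.finrank_fin_fun F)
  have e : ((Fin n → F) ≃ₗ[ZMod 2] (Fin n → F)) ≃ GL (Fin n) (ZMod 2) :=
    (LinearMap.GeneralLinearGroup.generalLinearEquiv (ZMod 2) (Fin n → F)).symm.toEquiv.trans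
      (Units.mapEquiv (LinearMap.toMatrixAlgEquiv b).toMulEquiv).toEquiv
  unfold gl
  rw [Nat.card_congr e, Matrix.card_GL_field, ZMod.card, Finset.prod_range]

theorem gl_vals : gl F 0 = 1 ∧ gl F 1 = 1 ∧ gl F 2 = 6 ∧ gl F 3 = 168 ∧ gl F 4 = 20160 := by
  refine ⟨?_, ?_, ?_, ?_, ?_⟩
  · rw [uv_card]; rfl
  · rw [uv_card]; rfl
  · rw [uv_card]; rfl
  · rw [uv_card]; rfl
  · rw [uv_card]; rfl

private theorem uv_nil {V : Type} [AddCommGroup V] [Module F V] [Module.Finite F V]
    {N : Module.End F V} (hN : IsNilpotent N) {K : ℕ}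
    (hr : Module.finrank F (LinearMap.range (N ^ K)) = 1) : N ^ (K + 1) = 0 := by
  by_contra hne
  have hle : LinearMap.range (N ^ (K + 1)) ≤ LinearMap.range (N ^ K) := by
    rw [pow_succ]
    exact LinearMap.range_comp_le_range N (N ^ K)
  have h1 : LinearMap.range (N ^ (K + 1)) ≠ ⊥ := by
    intro h
    exact hne (LinearMap.range_eq_bot.1 h)
  have h2 : 1 ≤ Module.finrank F (LinearMap.range (N ^ (K + 1))) := by
    rw [Nat.one_le_iff_ne_zero]
    intro h
    exact h1 (Submodule.finrank_eq_zero.1 h)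
  have h3 : LinearMap.range (N ^ (K + 1)) = LinearMap.range (N ^ K) :=
    Submodule.eq_of_le_of_finrank_le hle (by rw [hr]; exact h2)
  have h4 : ∀ t : ℕ, LinearMap.range (N ^ (K + t)) = LinearMap.range (N ^ K) := by
    intro t
    induction t with
    | zero => rfl
    | succ t ih =>
      have h5 : ∀ m : ℕ, LinearMap.range (N ^ (m + 1)) = (LinearMap.range (N ^ m)).map N := by
        intro m
        rw [pow_succ']
        exact LinearMap.range_comp (N ^ m) N
      rw [← add_assoc, h5, ih, ← h5, h3]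
  obtain ⟨M, hM⟩ := hN
  have h6 := h4 M
  rw [pow_add, hM, mul_zero, LinearMap.range_zero] at h6
  rw [← h6, finrank_bot] at hr
  exact zero_ne_one hr

private theorem uv_one {K i : ℕ} (hK : 1 ≤ K) : (1 : GLn i) ∈ ZK K i := by
  show ((1 : GLn i).toLinearMap - 1 : Module.End F (Fin i → F)) ^ K = 0
  have h1 : ((1 : GLn i).toLinearMap - 1 : Module.End F (Fin i → F)) = 0 := by
    apply LinearMap.ext
    intro x
    show x - x = 0
    exact sub_self x
  rw [h1, zero_pow (by omega)]

private theorem uv_one_un {K i : ℕ} (hK : 1 ≤ K) : (1 : GLn i) ∉ UN K i := by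
  rintro ⟨-, h⟩
  have h1 : ((1 : GLn i).toLinearMap - 1 : Module.End F (Fin i → F)) = 0 := by
    apply LinearMap.ext
    intro x
    show x - x = 0
    exact sub_self x
  rw [h1, zero_pow (by omega), LinearMap.range_zero, finrank_bot] at h
  exact zero_ne_one h

private theorem uv_un_zk {K L i : ℕ} (hL : K + 1 ≤ L) : UN K i ⊆ ZK L i := by
  rintro p ⟨h1, h2⟩
  show (p.toLinearMap - 1 : Module.End F (Fin i → F)) ^ L = 0
  have h3 := uv_nil h1 h2
  obtain ⟨t, rfl⟩ : ∃ t, L = K + 1 + t := ⟨L - (K + 1), by omega⟩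
  rw [pow_add, h3, zero_mul]

private theorem uv_disj {i : ℕ} : Disjoint (UN 1 i) (UN 2 i) := by
  rw [Set.disjoint_left]
  rintro p ⟨h1, h2⟩ ⟨-, h3⟩
  have h4 := uv_nil h1 h2
  rw [h4, LinearMap.range_zero, finrank_bot] at h3
  exact zero_ne_one h3

private theorem uv_sub {i : ℕ} (h : gl F i = 1) {K : ℕ} (hK : 1 ≤ K) : prp i (ZK K i) = 1 := by
  have h1 : Nat.card (GLn i) = 1 := h
  rw [Nat.card_eq_one_iff_unique] at h1
  obtain ⟨hs, -⟩ := h1
  have h2 : ZK K i = Set.univ := by
    apply Set.eq_univ_of_forall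
    intro p
    rw [Subsingleton.elim p 1]
    exact uv_one hK
  rw [h2, prp_univ]

private theorem uv_single {i : ℕ} : prp i {(1 : GLn i)} = 1 / (gl F i : ℝ) := by
  unfold prp
  rw [Set.ncard_singleton, Nat.cast_one]

private theorem uv_two : prp 2 (UN 1 2) = 1 / 2 := by
  have h : prp 2 (UN 1 2) = prp 0 (ZK 1 0) / (2 ^ 1 * 4 ^ 0) := split_prp (K := 1) le_rfl 0
  rw [h, uv_sub gl_vals.1 le_rfl]
  norm_num

private theorem uv_three : prp 3 (UN 1 3) = 1 / 8 := by
  have h : prp 3 (UN 1 3) = prp 1 (ZK 1 1) / (2 ^ 1 * 4 ^ 1) := split_prp (K := 1) le_rfl 1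
  rw [h, uv_sub gl_vals.2.1 le_rfl]
  norm_num

private theorem uv_three' : prp 3 (UN 2 3) = 1 / 4 := by
  have h : prp 3 (UN 2 3) = prp 0 (ZK 2 0) / (2 ^ 2 * 4 ^ 0) :=
    split_prp (K := 2) (by norm_num) 0
  rw [h, uv_sub gl_vals.1 (by norm_num)]
  norm_num

theorem zz_le {K : ℕ} (hK : K ∈ ({1, 2, 4, 8} : Finset ℕ)) {i : ℕ} (hi : i < 4) :
    zz K i ≤ prp i (ZK K i) := by
  have hK1 : 1 ≤ K := by
    simp only [Finset.mem_insert, Finset.mem_singleton] at hK
    omega
  obtain ⟨g0, g1, g2, g3, -⟩ := gl_vals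
  have hsing : ∀ i, 1 / (gl F i : ℝ) ≤ prp i (ZK K i) := by
    intro i
    rw [← uv_single]
    apply prp_mono
    rw [Set.singleton_subset_iff]
    exact uv_one hK1
  have hmain : 2 ≤ K → ∀ i, 1 / (gl F i : ℝ) + prp i (UN 1 i) ≤ prp i (ZK K i) := by
    intro hK2 i
    rw [← uv_single, prp_add (by
      rw [Set.disjoint_singleton_left]
      exact uv_one_un le_rfl)]
    apply prp_mono
    apply Set.union_subset
    · rw [Set.singleton_subset_iff]
      exact uv_one hK1
    · exact uv_un_zk (by omega)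
  have hmain3 : 3 ≤ K → ∀ i, 1 / (gl F i : ℝ) + prp i (UN 1 i) + prp i (UN 2 i) ≤
      prp i (ZK K i) := by
    intro hK3 i
    rw [← uv_single, prp_add (by
      rw [Set.disjoint_singleton_left]
      exact uv_one_un le_rfl), prp_add (by
      rw [Set.disjoint_union_left, Set.disjoint_singleton_left]
      exact ⟨uv_one_un (by norm_num), uv_disj⟩)]
    apply prp_mono
    apply Set.union_subset
    · apply Set.union_subset
      · rw [Set.singleton_subset_iff]
        exact uv_one hK1
      · exact uv_un_zk (by omega)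
    · exact uv_un_zk (by omega)
  have hi' : i = 0 ∨ i = 1 ∨ i = 2 ∨ i = 3 := by omega
  rcases hi' with rfl | rfl | rfl | rfl
  · rw [uv_sub g0 hK1]
    unfold zz
    norm_num
  · rw [uv_sub g1 hK1]
    unfold zz
    norm_num
  · by_cases h1 : K = 1
    · have h2 := hsing 2
      rw [g2] at h2
      unfold zz
      rw [if_neg (by norm_num), if_pos rfl, if_pos h1]
      push_cast at h2
      exact h2
    · have h2 := hmain (by omega) 2
      rw [g2, uv_two] at h2
      unfold zz
      rw [if_neg (by norm_num), if_pos rfl, if_neg h1]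
      push_cast at h2
      linarith
  · by_cases h1 : K = 1
    · have h2 := hsing 3
      rw [g3] at h2
      unfold zz
      rw [if_neg (by norm_num), if_neg (by norm_num), if_pos h1]
      push_cast at h2
      exact h2
    · by_cases h3 : K = 2
      · have h2 := hmain (by omega) 3
        rw [g3, uv_three] at h2
        unfold zz
        rw [if_neg (by norm_num), if_neg (by norm_num), if_neg h1, if_pos h3]
        push_cast at h2
        linarith
      · have h2 := hmain3 (by omega) 3
        rw [g3, uv_three, uv_three'] at h2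
        unfold zz
        rw [if_neg (by norm_num), if_neg (by norm_num), if_neg h1, if_neg h3]
        push_cast at h2
        linarith

theorem un_ge {K : ℕ} (hK : K ∈ ({1, 2, 4, 8} : Finset ℕ)) {i : ℕ} (hi : i < 4) :
    zz K i / (2 ^ K * 4 ^ i) ≤ prp (K + 1 + i) (UN K (K + 1 + i)) := by
  have hK1 : 1 ≤ K := by
    simp only [Finset.mem_insert, Finset.mem_singleton] at hK
    omega
  rw [split_prp hK1 i]
  exact div_le_div_of_nonneg_right (zz_le hK hi) (by positivity)

end Pool.Agent.TWO
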