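import Pool.Agent.TWO.QuadF
import Pool.Agent.TWO.Irr
import Pool.Agent.TWO.UVal

/-!
# TWO/Quad4: elements of order three without fixed vectors in dimension 4
-/

open Polynomial

namespace Pool.Agent.TWO

open Pool.Agent.PSD

private theorem q4_two (v : Fin 4 → F) : v + v = 0 := by
  funext i
  exact CharTwo.add_self_eq_zero (v i)

private theorem q4_sc (c : F) : c = 0 ∨ c = 1 := by
  revert c
  decide

private theorem q4_ae (p : GLn 4) (v : Fin 4 → F) :
    aeval p.toLinearMap (X ^ 2 + X + 1 : F[X]) v = p (p v) + p v + v := by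
  rw [map_add, map_add, map_pow, aeval_X, map_one, pow_two, LinearMap.add_apply, LinearMap.add_apply,
    Module.End.mul_apply]
  rfl

private theorem q4_iff (p : GLn 4) :
    aeval p.toLinearMap (X ^ 2 + X + 1 : F[X]) = 0 ↔ ∀ v, p (p v) = p v + v := by
  constructor
  · intro h v
    have h1 := q4_ae p v
    rw [h, LinearMap.zero_apply] at h1
    have h2 : p (p v) + (p v + v) = 0 := by rw [← add_assoc]; exact h1.symm
    have h3 : p (p v) + (p v + v) + (p v + v) = p v + v := by rw [h2, zero_add]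
    rwa [add_assoc, q4_two, add_zero] at h3
  · intro h
    refine LinearMap.ext fun v => ?_
    rw [q4_ae, h v, LinearMap.zero_apply, add_assoc, q4_two]

/-- an element of order three -/
private def q4p : GLn 4 where
  toFun x := ![x 1, x 0 + x 1, x 3, x 2 + x 3]
  map_add' x y := by
    funext i
    fin_cases i
    · rfl
    · show (x 0 + y 0) + (x 1 + y 1) = (x 0 + x 1) + (y 0 + y 1)
      ring
    · rfl
    · show (x 2 + y 2) + (x 3 + y 3) = (x 2 + x 3) + (y 2 + y 3)
      ring
  map_smul' c x := by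
    funext i
    fin_cases i
    · rfl
    · show c * x 0 + c * x 1 = c * (x 0 + x 1)
      ring
    · rfl
    · show c * x 2 + c * x 3 = c * (x 2 + x 3)
      ring
  invFun y := ![y 0 + y 1, y 0, y 2 + y 3, y 2]
  left_inv x := by
    funext i
    have h2 : ∀ c : F, c + c = 0 := fun c => CharTwo.add_self_eq_zero c
    fin_cases i
    · show x 1 + (x 0 + x 1) = x 0
      linear_combination h2 (x 1)
    · rfl
    · show x 3 + (x 2 + x 3) = x 2
      linear_combination h2 (x 3)
    · rfl
  right_inv y := by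
    funext i
    have h2 : ∀ c : F, c + c = 0 := fun c => CharTwo.add_self_eq_zero c
    fin_cases i
    · rfl
    · show y 0 + y 1 + y 0 = y 1
      linear_combination h2 (y 0)
    · rfl
    · show y 2 + y 3 + y 2 = y 3
      linear_combination h2 (y 2)

private theorem q4p_apply (x : Fin 4 → F) : q4p x = ![x 1, x 0 + x 1, x 3, x 2 + x 3] := rfl

private theorem q4p_sq (x : Fin 4 → F) : q4p (q4p x) = q4p x + x := by
  rw [q4p_apply, q4p_apply]
  funext i
  fin_cases i
  · show x 0 + x 1 = x 1 + x 0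
    ring
  · show x 1 + (x 0 + x 1) = (x 0 + x 1) + x 1
    ring
  · show x 2 + x 3 = x 3 + x 2
    ring
  · show x 3 + (x 2 + x 3) = (x 2 + x 3) + x 3
    ring

/-- two basis vectors -/
private def q4a : Fin 4 → F := ![1, 0, 0, 0]

private def q4b : Fin 4 → F := ![0, 0, 1, 0]

private theorem q4_dec (x : Fin 4 → F) :
    x = x 0 • q4a + x 1 • q4p q4a + x 2 • q4b + x 3 • q4p q4b := by
  rw [q4p_apply, q4p_apply]
  funext i
  fin_cases i
  · show x 0 = x 0 * 1 + x 1 * 0 + x 2 * 0 + x 3 * 0
    ring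
  · show x 1 = x 0 * 0 + x 1 * (1 + 0) + x 2 * 0 + x 3 * (0 + 0)
    ring
  · show x 2 = x 0 * 0 + x 1 * 0 + x 2 * 1 + x 3 * 0
    ring
  · show x 3 = x 0 * 0 + x 1 * (0 + 0) + x 2 * 0 + x 3 * (1 + 0)
    ring

private theorem q4_cj (h : GLn 4) (y : Fin 4 → F) : cj h q4p (h y) = h (q4p y) := by
  rw [cj_apply, LinearEquiv.symm_apply_apply]

private theorem q4_exp (h : GLn 4) (x : Fin 4 → F) :
    h x = x 0 • h q4a + x 1 • cj h q4p (h q4a) + x 2 • h q4b + x 3 • cj h q4p (h q4b) := by
  have h1 : h x = h (x 0 • q4a + x 1 • q4p q4a + x 2 • q4b + x 3 • q4p q4b) :=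
    congrArg h (q4_dec x)
  rw [map_add, map_add, map_add, map_smul, map_smul, map_smul, map_smul] at h1
  rw [q4_cj, q4_cj]
  exact h1

/-- the map with given values -/
private def q4L (p : GLn 4) (v w : Fin 4 → F) : Module.End F (Fin 4 → F) :=
  (LinearMap.proj 0 : (Fin 4 → F) →ₗ[F] F).smulRight v +
    (LinearMap.proj 1 : (Fin 4 → F) →ₗ[F] F).smulRight (p v) +
    (LinearMap.proj 2 : (Fin 4 → F) →ₗ[F] F).smulRight w +
    (LinearMap.proj 3 : (Fin 4 → F) →ₗ[F] F).smulRight (p w)

private theorem q4L_apply (p : GLn 4) (v w x : Fin 4 → F) :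
    q4L p v w x = x 0 • v + x 1 • p v + x 2 • w + x 3 • p w := rfl

private theorem q4L_inj (p : GLn 4) (hp : ∀ v, p (p v) = p v + v) {v w : Fin 4 → F}
    (hv : v ≠ 0) (h0 : w ≠ 0) (h1 : w ≠ v) (h2 : w ≠ p v) (h3 : w ≠ v + p v) :
    Function.Injective (q4L p v w) := by
  have hpv : p v ≠ 0 := fun h => hv ((LinearEquiv.map_eq_zero_iff p).1 h)
  have hvp : v + p v ≠ 0 := by
    intro h
    have h4 := hp v
    rw [add_comm, h] at h4
    exact hpv ((LinearEquiv.map_eq_zero_iff p).1 h4)
  have hw : ∀ a b : F, w ≠ a • v + b • p v := by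
    intro a b
    rcases q4_sc a with ha | ha <;> rcases q4_sc b with hb | hb
    · rw [ha, hb, zero_smul, zero_smul, add_zero]
      exact h0
    · rw [ha, hb, zero_smul, one_smul, zero_add]
      exact h2
    · rw [ha, hb, zero_smul, one_smul, add_zero]
      exact h1
    · rw [ha, hb, one_smul, one_smul]
      exact h3
  have heq : ∀ y z : Fin 4 → F, y + z = 0 → z = y := by
    intro y z h
    have h4 : y + z + z = z := by rw [h, zero_add]
    rw [add_assoc, q4_two, add_zero] at h4
    exact h4.symm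
  rw [injective_iff_map_eq_zero]
  intro x hx
  rw [q4L_apply] at hx
  rcases q4_sc (x 2) with h22 | h22 <;> rcases q4_sc (x 3) with h33 | h33
  · rw [h22, h33, zero_smul, zero_smul, add_zero, add_zero] at hx
    rcases q4_sc (x 0) with h00 | h00 <;> rcases q4_sc (x 1) with h11 | h11
    · funext i
      fin_cases i
      · exact h00
      · exact h11
      · exact h22
      · exact h33
    · rw [h00, h11, zero_smul, one_smul, zero_add] at hx
      exact absurd hx hpv
    · rw [h00, h11, zero_smul, one_smul, add_zero] at hx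
      exact absurd hx hv
    · rw [h00, h11, one_smul, one_smul] at hx
      exact absurd hx hvp
  · rw [h22, h33, zero_smul, one_smul, add_zero] at hx
    have h4 := heq _ _ hx
    have h5 := hp w
    rw [h4, map_add, map_smul, map_smul, hp v] at h5
    exfalso
    refine hw (x 0 + x 1) (x 0) ?_
    have h7 : w = x 0 • p v + x 1 • (p v + v) + (x 0 • v + x 1 • p v) := by
      rw [h5, add_comm, ← add_assoc, q4_two, zero_add]
    rw [h7, smul_add, add_smul]
    have h8 := q4_two (x 1 • p v)
    calc x 0 • p v + (x 1 • p v + x 1 • v) + (x 0 • v + x 1 • p v)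
        = x 0 • v + x 1 • v + x 0 • p v + (x 1 • p v + x 1 • p v) := by abel
      _ = _ := by rw [h8, add_zero]
  · rw [h22, h33, zero_smul, one_smul, add_zero] at hx
    exact absurd (heq _ _ hx) (hw _ _)
  · rw [h22, h33, one_smul, one_smul, add_assoc] at hx
    have h4 := heq _ _ hx
    have h5 : p (w + p w) = w := by
      rw [map_add, hp w, ← add_assoc, q4_two, zero_add]
    rw [h4, map_add, map_smul, map_smul, hp v] at h5
    exfalso
    refine hw (x 1) (x 0 + x 1) ?_
    rw [← h5, smul_add, add_smul]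
    abel

private theorem q4_card {p : GLn 4} (hp : ∀ v, p (p v) = p v + v) {v : Fin 4 → F} (hv : v ≠ 0) :
    (Finset.univ \ ({0, v, p v, v + p v} : Finset (Fin 4 → F))).card = 12 := by
  have hpv : p v ≠ 0 := fun h => hv ((LinearEquiv.map_eq_zero_iff p).1 h)
  have hvp : v + p v ≠ 0 := by
    intro h
    have h4 := hp v
    rw [add_comm, h] at h4
    exact hpv ((LinearEquiv.map_eq_zero_iff p).1 h4)
  have hne : v ≠ p v := by
    intro h
    apply hvp
    rw [← h]
    exact q4_two v
  have h1 : v ≠ v + p v := fun h => hpv (left_eq_add.1 h)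
  have h2 : p v ≠ v + p v := fun h => hv (right_eq_add.1 h)
  have h3 : ({0, v, p v, v + p v} : Finset (Fin 4 → F)).card = 4 := by
    rw [Finset.card_insert_of_notMem, Finset.card_insert_of_notMem, Finset.card_insert_of_notMem,
      Finset.card_singleton]
    · rw [Finset.mem_singleton]
      exact h2
    · rw [Finset.mem_insert, Finset.mem_singleton]
      rintro (h | h)
      · exact hne h
      · exact h1 h
    · rw [Finset.mem_insert, Finset.mem_insert, Finset.mem_singleton]
      rintro (h | h | h)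
      · exact hv h.symm
      · exact hpv h.symm
      · exact hvp h.symm
  have h4 : (Finset.univ : Finset (Fin 4 → F)).card = 16 := by
    rw [Finset.card_univ, Fintype.card_fun, ZMod.card, Fintype.card_fin]
    norm_num
  rw [Finset.card_sdiff_of_subset (Finset.subset_univ _), h3, h4]

private theorem q4_count :
    {p : GLn 4 | aeval p.toLinearMap (X ^ 2 + X + 1 : F[X]) = 0}.ncard * 180 = gl F 4 := by
  classical
  have hfg : Fintype (GLn 4) := Fintype.ofFinite _
  obtain ⟨S, hS⟩ : ∃ S : Finset (GLn 4), S = Finset.univ.filter fun p => ∀ v, p (p v) = p v + v := ⟨_, rfl⟩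
  have hSm : ∀ p, p ∈ S ↔ ∀ v, p (p v) = p v + v := by
    intro p
    rw [hS, Finset.mem_filter]
    exact ⟨fun h => h.2, fun h => ⟨Finset.mem_univ _, h⟩⟩
  have hset : {p : GLn 4 | aeval p.toLinearMap (X ^ 2 + X + 1 : F[X]) = 0} = (S : Set (GLn 4)) := by
    ext p
    rw [Finset.mem_coe, hSm]
    exact q4_iff p
  rw [hset, Set.ncard_coe_finset]
  obtain ⟨T, hT⟩ : ∃ T : Finset (Σ _ : GLn 4, Σ _ : Fin 4 → F, Fin 4 → F),
      T = S.sigma fun p => (Finset.univ \ {0} : Finset (Fin 4 → F)).sigma fun v =>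
        (Finset.univ \ ({0, v, p v, v + p v} : Finset (Fin 4 → F))) := ⟨_, rfl⟩
  have hTc : T.card = S.card * 180 := by
    rw [hT, Finset.card_sigma]
    have h1 : ∀ p ∈ S, ((Finset.univ \ {0} : Finset (Fin 4 → F)).sigma fun v =>
        (Finset.univ \ ({0, v, p v, v + p v} : Finset (Fin 4 → F)))).card = 180 := by
      intro p hp
      rw [Finset.card_sigma]
      have h2 : ∀ v ∈ (Finset.univ \ {0} : Finset (Fin 4 → F)),
          (Finset.univ \ ({0, v, p v, v + p v} : Finset (Fin 4 → F))).card = 12 := by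
        intro v hv
        rw [Finset.mem_sdiff, Finset.mem_singleton] at hv
        exact q4_card ((hSm p).1 hp) hv.2
      rw [Finset.sum_congr rfl h2, Finset.sum_const, smul_eq_mul]
      have h4 : (Finset.univ : Finset (Fin 4 → F)).card = 16 := by
        rw [Finset.card_univ, Fintype.card_fun, ZMod.card, Fintype.card_fin]
        norm_num
      rw [Finset.card_sdiff_of_subset (Finset.subset_univ _), Finset.card_singleton, h4]
    rw [Finset.sum_congr rfl h1, Finset.sum_const, smul_eq_mul]
  have hTm : ∀ (p : GLn 4) (v w : Fin 4 → F), (⟨p, ⟨v, w⟩⟩ : Σ _ : GLn 4, Σ _ : Fin 4 → F, Fin 4 → F) ∈ T ↔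
      (∀ v, p (p v) = p v + v) ∧ v ≠ 0 ∧ w ≠ 0 ∧ w ≠ v ∧ w ≠ p v ∧ w ≠ v + p v := by
    intro p v w
    rw [hT, Finset.mem_sigma, Finset.mem_sigma, Finset.mem_sdiff, Finset.mem_sdiff, hSm]
    simp only [Finset.mem_univ, true_and, Finset.mem_insert, Finset.mem_singleton, not_or, ne_eq]
  rw [← hTc]
  unfold gl
  rw [Nat.card_eq_fintype_card, ← Finset.card_univ]
  symm
  refine Finset.card_bij (fun h _ => ⟨cj h q4p, ⟨h q4a, h q4b⟩⟩) ?_ ?_ ?_
  · intro h _
    rw [hTm]
    have hab : q4a ≠ 0 ∧ q4b ≠ 0 ∧ q4b ≠ q4a ∧ q4b ≠ q4p q4a ∧ q4b ≠ q4a + q4p q4a := by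
      rw [q4p_apply]
      refine ⟨?_, ?_, ?_, ?_, ?_⟩
      · intro h
        exact absurd (congrFun h 0) (by decide)
      · intro h
        exact absurd (congrFun h 2) (by decide)
      · intro h
        exact absurd (congrFun h 0) (by decide)
      · intro h
        exact absurd (congrFun h 2) (by decide)
      · intro h
        exact absurd (congrFun h 2) (by decide)
    obtain ⟨a1, a2, a3, a4, a5⟩ := hab
    refine ⟨?_, ?_, ?_, ?_, ?_, ?_⟩
    · intro v
      obtain ⟨y, rfl⟩ := h.surjective v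
      rw [q4_cj, q4_cj, q4p_sq, map_add]
    · exact fun h1 => a1 ((LinearEquiv.map_eq_zero_iff h).1 h1)
    · exact fun h1 => a2 ((LinearEquiv.map_eq_zero_iff h).1 h1)
    · exact fun h1 => a3 (h.injective h1)
    · intro h1
      rw [q4_cj] at h1
      exact a4 (h.injective h1)
    · intro h1
      rw [q4_cj, ← map_add] at h1
      exact a5 (h.injective h1)
  · intro h _ h' _ heq
    have e1 : cj h q4p = cj h' q4p := congrArg Sigma.fst heq
    have e2 : h q4a = h' q4a :=
      congrArg (fun x : (Σ _ : GLn 4, Σ _ : Fin 4 → F, Fin 4 → F) => x.2.1) heq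
    have e3 : h q4b = h' q4b :=
      congrArg (fun x : (Σ _ : GLn 4, Σ _ : Fin 4 → F, Fin 4 → F) => x.2.2) heq
    refine LinearEquiv.ext fun x => ?_
    rw [q4_exp h, q4_exp h', e1, e2, e3]
  · rintro ⟨p, v, w⟩ hm
    rw [hTm] at hm
    obtain ⟨hp, hv, h0, h1, h2, h3⟩ := hm
    have hinj := q4L_inj p hp hv h0 h1 h2 h3
    obtain ⟨h, hh⟩ : ∃ h : GLn 4, ∀ x, h x = q4L p v w x :=
      ⟨LinearEquiv.ofInjectiveEndo (q4L p v w) hinj, fun x => rfl⟩
    have ha : h q4a = v := by
      rw [hh, q4L_apply]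
      show (1 : F) • v + (0 : F) • p v + (0 : F) • w + (0 : F) • p w = v
      rw [one_smul, zero_smul, zero_smul, zero_smul, add_zero, add_zero, add_zero]
    have hb : h q4b = w := by
      rw [hh, q4L_apply]
      show (0 : F) • v + (0 : F) • p v + (1 : F) • w + (0 : F) • p w = w
      rw [one_smul, zero_smul, zero_smul, zero_smul, add_zero, add_zero, zero_add]
    have hc : cj h q4p = p := by
      refine LinearEquiv.ext fun y => ?_
      obtain ⟨x, rfl⟩ := h.surjective y
      rw [q4_cj, hh, hh, q4L_apply, q4L_apply, q4p_apply]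
      show x 1 • v + (x 0 + x 1) • p v + x 3 • w + (x 2 + x 3) • p w =
        p (x 0 • v + x 1 • p v + x 2 • w + x 3 • p w)
      rw [map_add, map_add, map_add, map_smul, map_smul, map_smul, map_smul, hp v, hp w, add_smul,
        add_smul, smul_add, smul_add]
      abel
    refine ⟨h, Finset.mem_univ _, ?_⟩
    rw [ha, hb, hc]

theorem quad_four :
    prp 4 {p : GLn 4 | aeval p.toLinearMap (X ^ 2 + X + 1 : F[X]) = 0} = 1 / 180 := by
  have h1 := q4_count
  have h2 := gl_vals.2.2.2.2
  rw [h2] at h1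
  unfold prp
  have h3 : {p : GLn 4 | aeval p.toLinearMap (X ^ 2 + X + 1 : F[X]) = 0}.ncard = 112 := by omega
  rw [h2, h3]
  norm_num

theorem quad_two :
    prp 2 {p : GLn 2 | aeval p.toLinearMap (X ^ 2 + X + 1 : F[X]) = 0} = 1 / 3 := by
  rw [irr_prp (by norm_num) quad_irr]
  norm_num

theorem cub_three {f : F[X]} (hf : f ∈ IrrP 3) :
    prp 3 {p : GLn 3 | aeval p.toLinearMap f = 0} = 1 / 7 := by
  rw [irr_prp (by norm_num) hf]
  norm_num

/-- a map killed by nothing: in dimension zero every polynomial is zero -/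
theorem zero_prp (f : F[X]) : prp 0 {p : GLn 0 | aeval p.toLinearMap f = 0} = 1 := by
  have h1 : {p : GLn 0 | aeval p.toLinearMap f = 0} = Set.univ := by
    refine Set.eq_univ_of_forall fun p => ?_
    show aeval p.toLinearMap f = 0
    refine LinearMap.ext fun x => ?_
    exact Subsingleton.elim _ _
  rw [h1, prp_univ]

end Pool.Agent.TWO
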