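import Pool.Agent.TWO.CBas

/-!
# TWO/QuadF: irreducible polynomials of degree at most three

The irreducible polynomials over the field with two elements of degree at most three, and the condition
`Big` in terms of them.
-/

open Polynomial

namespace Pool.Agent.TWO

open Pool.Agent.PSD

private theorem qf_two (a : F) : a = 0 ∨ a = 1 := by
  revert a
  decide

private theorem qf_deg2 : (X ^ 2 + X + 1 : F[X]).natDegree = 2 := by compute_degree!

private theorem qf_deg3 : (X ^ 3 + X + 1 : F[X]).natDegree = 3 := by compute_degree!

private theorem qf_deg3' : (X ^ 3 + X ^ 2 + 1 : F[X]).natDegree = 3 := by compute_degree!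

private theorem qf_deg1 : (X + 1 : F[X]).natDegree = 1 := by compute_degree!

private theorem qf_ne {f : F[X]} (h : 2 ≤ f.natDegree) : f ≠ X := by
  rintro rfl
  rw [natDegree_X] at h
  omega

private theorem qf_ex {f : F[X]} (h : f.natDegree ≤ 3) :
    f = C (f.coeff 3) * X ^ 3 + C (f.coeff 2) * X ^ 2 + C (f.coeff 1) * X + C (f.coeff 0) := by
  have h1 := f.as_sum_range' 4 (by omega)
  rw [Finset.sum_range_succ, Finset.sum_range_succ, Finset.sum_range_succ, Finset.sum_range_one] at h1
  simp only [← C_mul_X_pow_eq_monomial] at h1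
  rw [pow_zero, mul_one, pow_one] at h1
  nth_rewrite 1 [h1]
  ring

theorem quad_irr : (X ^ 2 + X + 1 : F[X]) ∈ IrrP 2 := by
  refine ⟨irreducible_of_degree_le_three_of_not_isRoot (by rw [qf_deg2]; decide) fun x => ?_,
    qf_deg2, qf_ne (by rw [qf_deg2])⟩
  rw [IsRoot.def]
  simp only [eval_add, eval_pow, eval_X, eval_one]
  revert x
  decide

theorem cub_irr : (X ^ 3 + X + 1 : F[X]) ∈ IrrP 3 ∧ (X ^ 3 + X ^ 2 + 1 : F[X]) ∈ IrrP 3 := by
  refine ⟨⟨irreducible_of_degree_le_three_of_not_isRoot (by rw [qf_deg3]; decide) fun x => ?_,
    qf_deg3, qf_ne (by rw [qf_deg3]; decide)⟩,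
    ⟨irreducible_of_degree_le_three_of_not_isRoot (by rw [qf_deg3']; decide) fun x => ?_,
    qf_deg3', qf_ne (by rw [qf_deg3']; decide)⟩⟩
  · rw [IsRoot.def]
    simp only [eval_add, eval_pow, eval_X, eval_one]
    revert x
    decide
  · rw [IsRoot.def]
    simp only [eval_add, eval_pow, eval_X, eval_one]
    revert x
    decide

/-- `IrrP 2` and `IrrP 3` -/
theorem ir_two_three : IrrP 1 = {(X + 1 : F[X])} ∧ IrrP 2 = {(X ^ 2 + X + 1 : F[X])} ∧
    IrrP 3 = {(X ^ 3 + X + 1 : F[X]), (X ^ 3 + X ^ 2 + 1 : F[X])} := by
  have hroot : ∀ f : F[X], Irreducible f → 2 ≤ f.natDegree → f.natDegree ≤ 3 →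
      f.coeff 0 ≠ 0 ∧ f.coeff 3 + f.coeff 2 + f.coeff 1 + f.coeff 0 ≠ 0 := by
    intro f hf h2 h3
    have h4 := hf.not_isRoot_of_natDegree_ne_one (by omega) (x := 0)
    have h5 := hf.not_isRoot_of_natDegree_ne_one (by omega) (x := 1)
    rw [IsRoot.def] at h4 h5
    refine ⟨fun h => h4 ?_, fun h => h5 ?_⟩
    · rw [← coeff_zero_eq_eval_zero, h]
    · rw [qf_ex h3]
      simp only [eval_add, eval_mul, eval_pow, eval_X, eval_C, one_pow, mul_one]
      exact h
  refine ⟨?_, ?_, ?_⟩
  · ext f
    rw [Set.mem_singleton_iff]
    constructor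
    · rintro ⟨_, h1, h2⟩
      have h3 : f.coeff 3 = 0 := coeff_eq_zero_of_natDegree_lt (by omega)
      have h4 : f.coeff 2 = 0 := coeff_eq_zero_of_natDegree_lt (by omega)
      have h5 : f.coeff 1 = 1 := by
        rcases qf_two (f.coeff 1) with h | h
        · exfalso
          have : f.leadingCoeff ≠ 0 := leadingCoeff_ne_zero.mpr (by
            rintro rfl
            simp at h1)
          rw [leadingCoeff, h1] at this
          exact this h
        · exact h
      have h6 := qf_ex (f := f) (by omega)
      rw [h3, h4, h5] at h6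
      rcases qf_two (f.coeff 0) with h | h
      · exfalso
        apply h2
        rw [h6, h]
        simp
      · rw [h6, h]
        simp
    · rintro rfl
      refine ⟨irreducible_of_degree_eq_one (by compute_degree!), qf_deg1, ?_⟩
      intro h
      have := congrArg (fun p : F[X] => p.coeff 0) h
      simp at this
  · ext f
    rw [Set.mem_singleton_iff]
    constructor
    · rintro ⟨hf, h1, _⟩
      obtain ⟨h2, h3⟩ := hroot f hf (by omega) (by omega)
      have h4 : f.coeff 3 = 0 := coeff_eq_zero_of_natDegree_lt (by omega)
      have h5 : f.coeff 2 = 1 := by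
        rcases qf_two (f.coeff 2) with h | h
        · exfalso
          have : f.leadingCoeff ≠ 0 := leadingCoeff_ne_zero.mpr hf.ne_zero
          rw [leadingCoeff, h1] at this
          exact this h
        · exact h
      have h6 : f.coeff 0 = 1 := (qf_two _).resolve_left h2
      have h7 : f.coeff 1 = 1 := by
        rcases qf_two (f.coeff 1) with h | h
        · exfalso
          apply h3
          rw [h4, h5, h6, h]
          decide
        · exact h
      rw [qf_ex (f := f) (by omega), h4, h5, h6, h7]
      simp
    · rintro rfl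
      exact quad_irr
  · ext f
    rw [Set.mem_insert_iff, Set.mem_singleton_iff]
    constructor
    · rintro ⟨hf, h1, _⟩
      obtain ⟨h2, h3⟩ := hroot f hf (by omega) (by omega)
      have h5 : f.coeff 3 = 1 := by
        rcases qf_two (f.coeff 3) with h | h
        · exfalso
          have : f.leadingCoeff ≠ 0 := leadingCoeff_ne_zero.mpr hf.ne_zero
          rw [leadingCoeff, h1] at this
          exact this h
        · exact h
      have h6 : f.coeff 0 = 1 := (qf_two _).resolve_left h2
      rw [h5, h6] at h3
      rcases qf_two (f.coeff 1) with h7 | h7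
      · rcases qf_two (f.coeff 2) with h8 | h8
        · exfalso
          apply h3
          rw [h7, h8]
          decide
        · right
          rw [qf_ex (f := f) (by omega), h5, h6, h7, h8]
          simp
      · rcases qf_two (f.coeff 2) with h8 | h8
        · left
          rw [qf_ex (f := f) (by omega), h5, h6, h7, h8]
          simp
        · exfalso
          apply h3
          rw [h7, h8]
          decide
    · rintro (rfl | rfl)
      · exact cub_irr.1
      · exact cub_irr.2

private theorem qf_big {n : ℕ} (g : GLn n) (k : ℕ)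
    (h : ∀ p : F[X], Irreducible p → p.natDegree ≤ k → p ≠ X →
      Function.Injective (aeval g.toLinearMap p)) : Big k g.toLinearMap := by
  have key : ∀ m : ℕ, ∀ φ : F[X], φ ≠ 0 → φ.natDegree ≤ m → φ.natDegree ≤ k →
      Function.Injective (aeval g.toLinearMap φ) := by
    intro m
    induction m with
    | zero =>
      intro φ h0 h1 _
      obtain ⟨a, ha⟩ := natDegree_eq_zero.mp (Nat.le_zero.mp h1)
      have h2 : a = 1 := by
        rcases qf_two a with h | h
        · exfalso
          apply h0
          rw [← ha, h, C_0]
        · exact h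
      rw [← ha, h2, C_1, map_one]
      exact fun x y hxy => hxy
    | succ m ih =>
      intro φ h0 h1 h2
      by_cases h3 : φ.natDegree ≤ m
      · exact ih φ h0 h3 h2
      · have hu : ¬ IsUnit φ := by
          intro hu
          have := natDegree_eq_zero_of_isUnit hu
          omega
        obtain ⟨p, hp, r, rfl⟩ := WfDvdMonoid.exists_irreducible_factor hu h0
        have hr : r ≠ 0 := right_ne_zero_of_mul h0
        have h4 : (p * r).natDegree = p.natDegree + r.natDegree := natDegree_mul hp.ne_zero hr
        have h5 : 0 < p.natDegree := hp.natDegree_pos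
        rw [map_mul]
        have h6 : Function.Injective (aeval g.toLinearMap r) := ih r hr (by omega) (by omega)
        have h7 : Function.Injective (aeval g.toLinearMap p) := by
          by_cases hX : p = X
          · rw [hX, aeval_X]
            exact g.injective
          · exact h p hp (by omega) hX
        exact h7.comp h6
  intro φ h0 h1
  exact key φ.natDegree φ h0 le_rfl h1

/-- `Big 1` and `Big 3` in terms of the irreducible polynomials of degree at most three -/
theorem big_iff {n : ℕ} (g : GLn n) :
    (Big 1 g.toLinearMap ↔ Function.Injective (aeval g.toLinearMap (X + 1 : F[X]))) ∧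
    (Big 3 g.toLinearMap ↔ Function.Injective (aeval g.toLinearMap (X + 1 : F[X])) ∧
      Function.Injective (aeval g.toLinearMap (X ^ 2 + X + 1 : F[X])) ∧
      Function.Injective (aeval g.toLinearMap (X ^ 3 + X + 1 : F[X])) ∧
      Function.Injective (aeval g.toLinearMap (X ^ 3 + X ^ 2 + 1 : F[X]))) := by
  obtain ⟨i1, i2, i3⟩ := ir_two_three
  constructor
  · constructor
    · intro h
      refine h _ ?_ (by rw [qf_deg1])
      intro h0
      have := qf_deg1
      rw [h0, natDegree_zero] at this
      omega
    · intro h
      refine qf_big g 1 fun p hp h1 hX => ?_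
      have h2 : p ∈ IrrP 1 := ⟨hp, le_antisymm h1 hp.natDegree_pos, hX⟩
      rw [i1, Set.mem_singleton_iff] at h2
      rw [h2]
      exact h
  · constructor
    · intro h
      have hne : ∀ f : F[X], 0 < f.natDegree → f ≠ 0 := by
        rintro f hf rfl
        rw [natDegree_zero] at hf
        omega
      refine ⟨h _ (hne _ (by rw [qf_deg1]; decide)) (by rw [qf_deg1]; decide),
        h _ (hne _ (by rw [qf_deg2]; decide)) (by rw [qf_deg2]; decide),
        h _ (hne _ (by rw [qf_deg3]; decide)) (by rw [qf_deg3]),
        h _ (hne _ (by rw [qf_deg3']; decide)) (by rw [qf_deg3'])⟩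
    · rintro ⟨h1, h2, h3, h4⟩
      refine qf_big g 3 fun p hp hd hX => ?_
      have h0 := hp.natDegree_pos
      have h5 : p.natDegree = 1 ∨ p.natDegree = 2 ∨ p.natDegree = 3 := by omega
      rcases h5 with h5 | h5 | h5
      · have h6 : p ∈ IrrP 1 := ⟨hp, h5, hX⟩
        rw [i1, Set.mem_singleton_iff] at h6
        rw [h6]
        exact h1
      · have h6 : p ∈ IrrP 2 := ⟨hp, h5, hX⟩
        rw [i2, Set.mem_singleton_iff] at h6
        rw [h6]
        exact h2
      · have h6 : p ∈ IrrP 3 := ⟨hp, h5, hX⟩
        rw [i3, Set.mem_insert_iff, Set.mem_singleton_iff] at h6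
        rcases h6 with h6 | h6
        · rw [h6]
          exact h3
        · rw [h6]
          exact h4

end Pool.Agent.TWO
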