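import Pool.Agent.TWO.Strip
import Pool.Agent.TWO.Irr
import Pool.Agent.TWO.NB
import Pool.Agent.TWO.QuadF
import Pool.Agent.TWO.Quad4
import Pool.Agent.TWO.GDefs

/-!
# TWO/EClass: proportions of the classes `E1`, `E2`, `E2s`, `E3` of `GDefs`

Block sums of elements killed by irreducible polynomials, `dec_prp` and `irr_set`.
-/

open Polynomial

namespace Pool.Agent.TWO

open Pool.Agent.PSD

private theorem ec_one {a : F} (h : a ≠ 0) : a = 1 := by
  revert a
  decide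

/-- automorphisms of `F^a` killed by a polynomial of `S` -/
private def KP (a : ℕ) (S : Set F[X]) : Set (GLn a) :=
  {p | ∃ f ∈ S, aeval p.toLinearMap f = 0}

private theorem ec_ci (a : ℕ) (S : Set F[X]) : CI (KP a S) := by
  rintro g ⟨f, hf, hg⟩ h
  refine ⟨f, hf, ?_⟩
  rw [← cj_eq_mul]
  apply LinearMap.ext
  intro x
  obtain ⟨x, rfl⟩ := h.surjective x
  rw [aeval_cj, hg, LinearMap.zero_apply, map_zero, LinearMap.zero_apply]

/-- an irreducible polynomial of degree larger than the dimension is injective -/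
private theorem ec_inj {b : ℕ} (q : GLn b) {f : F[X]} (hf : Irreducible f) (hd : b < f.natDegree) :
    Function.Injective (aeval q.toLinearMap f) := by
  have h1 : aeval q.toLinearMap q.toLinearMap.charpoly = 0 := LinearMap.aeval_self_charpoly _
  have h2 : ¬ f ∣ q.toLinearMap.charpoly := by
    intro h
    have h3 := natDegree_le_of_dvd h (LinearMap.charpoly_monic _).ne_zero
    rw [LinearMap.charpoly_natDegree, Module.finrank_fin_fun] at h3
    omega
  have h3 : IsCoprime f q.toLinearMap.charpoly := (hf.coprime_iff_not_dvd).2 h2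
  obtain ⟨s, t, hst⟩ := h3
  rw [injective_iff_map_eq_zero]
  intro x hx
  have h4 : aeval q.toLinearMap (s * f + t * q.toLinearMap.charpoly) x = x := by
    rw [hst, map_one]
    rfl
  rw [map_add, map_mul, map_mul, h1, mul_zero, add_zero, Module.End.mul_apply, hx, map_zero] at h4
  exact h4.symm

private theorem ec_prod {S : Set F[X]} (hfin : S.Finite) {b : ℕ} {q : GLn b}
    (h : ∀ f ∈ S, Function.Injective (aeval q.toLinearMap f)) :
    Function.Injective (aeval q.toLinearMap (∏ f ∈ hfin.toFinset, f)) := by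
  have key : ∀ T : Finset F[X], (∀ f ∈ T, Function.Injective (aeval q.toLinearMap f)) →
      Function.Injective (aeval q.toLinearMap (∏ f ∈ T, f)) := by
    intro T
    induction T using Finset.induction_on with
    | empty =>
      intro _
      rw [Finset.prod_empty, map_one]
      exact Function.injective_id
    | insert f T hfT ih =>
      intro hT
      rw [Finset.prod_insert hfT, map_mul]
      exact (hT f (Finset.mem_insert_self _ _)).comp
        (ih fun g hg => hT g (Finset.mem_insert_of_mem hg))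
  exact key _ fun f hf => h f (hfin.mem_toFinset.1 hf)

/-- proportion of block sums -/
private theorem ec_gen {a b : ℕ} (ha : 1 ≤ a) {S : Set F[X]} (hS : S ⊆ IrrP a) (Q : Set (GLn b))
    (hQ : CI Q) (hinj : ∀ f ∈ S, ∀ q ∈ Q, Function.Injective (aeval q.toLinearMap f))
    (E : Set (GLn (a + b))) (hE : Dc (KP a S) Q ⊆ E) :
    (S.ncard : ℝ) / (2 ^ a - 1) * prp b Q ≤ prp (a + b) E := by
  have hfin : S.Finite := (irr_finite a).subset hS
  have h1 : prp a (KP a S) = (S.ncard : ℝ) / (2 ^ a - 1) := irr_set ha hS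
  rw [← h1]
  refine le_trans (le_of_eq ?_) (prp_mono hE)
  symm
  refine dec_prp (KP a S) Q (∏ f ∈ hfin.toFinset, f) (ec_ci a S) hQ ?_ ?_
  · rintro p ⟨f, hf, hp⟩
    have h2 : f ∣ ∏ f ∈ hfin.toFinset, f := Finset.dvd_prod_of_mem _ (hfin.mem_toFinset.2 hf)
    obtain ⟨c, hc⟩ := h2
    rw [hc, map_mul, hp, zero_mul]
  · intro q hq
    exact ec_prod hfin fun f hf => hinj f hf q hq

/-- a nonzero vector in an automorphism killed by an irreducible polynomial -/
private theorem ec_ann {a : ℕ} {p : GLn a} {f : F[X]} (hf : Irreducible f)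
    (hp : aeval p.toLinearMap f = 0) {u : Fin a → F} (hu : u ≠ 0) : AnnEq p.toLinearMap f u := by
  refine ⟨by rw [hp]; rfl, ?_⟩
  intro ψ h0 hd h
  have h1 : ¬ f ∣ ψ := by
    intro h
    have h2 := natDegree_le_of_dvd h h0
    omega
  apply hu
  apply irr_inj hf p.toLinearMap hp h1
  rw [h, map_zero]

private theorem ec_left {a b : ℕ} {g : GLn (a + b)}
    {e : (Fin (a + b) → F) ≃ₗ[F] ((Fin a → F) × (Fin b → F))} {p : GLn a} {q : GLn b}
    (h : cj e g = blk p 0 q) {f : F[X]} {u : Fin a → F} (hu : AnnEq p.toLinearMap f u) :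
    AnnEq g.toLinearMap f (e.symm (u, 0)) := by
  have key : ∀ ψ : F[X], aeval g.toLinearMap ψ (e.symm (u, 0)) =
      e.symm (aeval p.toLinearMap ψ u, 0) := by
    intro ψ
    apply e.injective
    rw [← aeval_cj, h, LinearEquiv.apply_symm_apply, LinearEquiv.apply_symm_apply, blk_aeval_zero,
      map_zero]
  refine ⟨?_, ?_⟩
  · rw [key, hu.1]
    exact map_zero _
  · intro ψ h0 hd h1
    rw [key] at h1
    have h2 : ((aeval p.toLinearMap ψ u, 0) : (Fin a → F) × (Fin b → F)) = 0 :=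
      (LinearEquiv.map_eq_zero_iff e.symm).1 h1
    exact hu.2 ψ h0 hd (congrArg Prod.fst h2)

private theorem ec_right {a b : ℕ} {g : GLn (a + b)}
    {e : (Fin (a + b) → F) ≃ₗ[F] ((Fin a → F) × (Fin b → F))} {p : GLn a} {q : GLn b}
    (h : cj e g = blk p 0 q) {f : F[X]} {w : Fin b → F} (hw : AnnEq q.toLinearMap f w) :
    AnnEq g.toLinearMap f (e.symm (0, w)) := by
  have key : ∀ ψ : F[X], aeval g.toLinearMap ψ (e.symm (0, w)) =
      e.symm (0, aeval q.toLinearMap ψ w) := by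
    intro ψ
    apply e.injective
    rw [← aeval_cj, h, LinearEquiv.apply_symm_apply, LinearEquiv.apply_symm_apply, blk_aeval_zero,
      map_zero]
  refine ⟨?_, ?_⟩
  · rw [key, hw.1]
    exact map_zero _
  · intro ψ h0 hd h1
    rw [key] at h1
    have h2 : ((0, aeval q.toLinearMap ψ w) : (Fin a → F) × (Fin b → F)) = 0 :=
      (LinearEquiv.map_eq_zero_iff e.symm).1 h1
    exact hw.2 ψ h0 hd (congrArg Prod.snd h2)

private theorem ec_fix {a b : ℕ} {g : GLn (a + b)}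
    {e : (Fin (a + b) → F) ≃ₗ[F] ((Fin a → F) × (Fin b → F))} {p : GLn a} {q : GLn b}
    (h : cj e g = blk p 0 q) {w : Fin b → F} (hw0 : w ≠ 0) (hw : q w = w) :
    e.symm (0, w) ≠ 0 ∧ g (e.symm (0, w)) = e.symm (0, w) := by
  constructor
  · intro h1
    have h2 : ((0, w) : (Fin a → F) × (Fin b → F)) = 0 :=
      (LinearEquiv.map_eq_zero_iff e.symm).1 h1
    exact hw0 (congrArg Prod.snd h2)
  · apply e.injective
    rw [← cj_apply, h, blk_apply, LinearEquiv.apply_symm_apply, hw, map_zero, LinearMap.zero_apply,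
      add_zero]

/-- the only automorphism of `F^1` fixes the vector `1` -/
private theorem ec_line (q : GLn 1) : ∃ w : Fin 1 → F, w ≠ 0 ∧ q w = w := by
  have hne : (fun _ => 1 : Fin 1 → F) ≠ 0 := by
    intro h
    have h1 := congrFun h 0
    exact absurd h1 (by decide)
  refine ⟨fun _ => 1, hne, ?_⟩
  have h2 : q (fun _ => 1) ≠ 0 := by
    intro h
    exact hne ((LinearEquiv.map_eq_zero_iff q).1 h)
  funext i
  have hi : i = 0 := Subsingleton.elim _ _
  subst hi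
  apply ec_one
  intro h
  apply h2
  funext j
  have hj : j = 0 := Subsingleton.elim _ _
  rw [hj, h]
  rfl

private theorem ec_vec {a : ℕ} (ha : 1 ≤ a) : ∃ u : Fin a → F, u ≠ 0 := by
  refine ⟨fun _ => 1, ?_⟩
  intro h
  have h1 : (1 : F) = 0 := congrFun h ⟨0, ha⟩
  exact absurd h1 (by decide)

theorem e1_ge {n : ℕ} (hn : 3 ≤ n) :
    ((PrimP (n - 1)).ncard : ℝ) / (2 ^ (n - 1) - 1) ≤ prp n {g : GLn n | E1 n g} := by
  obtain ⟨a, rfl⟩ : ∃ a, n = a + 1 := ⟨n - 1, by omega⟩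
  have ha : 2 ≤ a := by omega
  rw [Nat.add_sub_cancel]
  have h := ec_gen (a := a) (b := 1) (by omega) (S := PrimP a) (fun f hf => hf.1) Set.univ
    (fun _ _ _ => Set.mem_univ _) (fun f hf q _ => ec_inj q hf.1.1 (by rw [hf.1.2.1]; omega))
    {g : GLn (a + 1) | E1 (a + 1) g} ?_
  · rwa [prp_univ, mul_one] at h
  · rintro g ⟨e, p, ⟨f, hf, hp⟩, q, -, hg⟩
    obtain ⟨u, hu⟩ := ec_vec (a := a) (by omega)
    obtain ⟨w, hw0, hw⟩ := ec_line q
    refine ⟨⟨f, by rw [Nat.add_sub_cancel]; exact hf, e.symm (u, 0),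
      ec_left hg (ec_ann hf.1.1 hp hu)⟩, e.symm (0, w), ?_⟩
    exact ec_fix hg hw0 hw

private theorem e2_gen {a : ℕ} (ha : 4 ≤ a) :
    ((IrrP a).ncard : ℝ) / (2 ^ a - 1) * (2 / 7) ≤ prp (a + 3) {g : GLn (a + 3) | E2 (a + 3) g} := by
  have h3 : prp 3 (KP 3 (IrrP 3)) = 2 / 7 := by
    have h : prp 3 (KP 3 (IrrP 3)) = ((IrrP 3).ncard : ℝ) / (2 ^ 3 - 1) :=
      irr_set (by norm_num) (fun f hf => hf)
    rw [h, irr_vals.2.2.1]
    norm_num
  have h := ec_gen (a := a) (b := 3) (by omega) (S := IrrP a) (fun f hf => hf) (KP 3 (IrrP 3))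
    (ec_ci 3 _) (fun f hf q _ => ec_inj q hf.1 (by rw [hf.2.1]; omega))
    {g : GLn (a + 3) | E2 (a + 3) g} ?_
  · rwa [h3] at h
  · rintro g ⟨e, p, ⟨f, hf, hp⟩, q, ⟨f', hf', hq⟩, hg⟩
    obtain ⟨u, hu⟩ := ec_vec (a := a) (by omega)
    obtain ⟨w, hw⟩ := ec_vec (a := 3) (by norm_num)
    exact ⟨⟨f, by rw [Nat.add_sub_cancel]; exact hf, e.symm (u, 0), ec_left hg (ec_ann hf.1 hp hu)⟩,
      f', hf', e.symm (0, w), ec_right hg (ec_ann hf'.1 hq hw)⟩

theorem e2_ge {n : ℕ} (hn : n = 8 ∨ n = 10 ∨ n = 12) :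
    ((IrrP (n - 3)).ncard : ℝ) / (2 ^ (n - 3) - 1) * (2 / 7) ≤ prp n {g : GLn n | E2 n g} := by
  obtain ⟨a, rfl⟩ : ∃ a, n = a + 3 := ⟨n - 3, by omega⟩
  rw [Nat.add_sub_cancel]
  exact e2_gen (by omega)

private theorem ec_dc_ci {a b : ℕ} (P : Set (GLn a)) (Q : Set (GLn b)) : CI (Dc P Q) := by
  rintro g ⟨e, p, hp, q, hq, hg⟩ h
  refine ⟨h.symm.trans e, p, hp, q, hq, ?_⟩
  rw [← hg]
  ext1 x
  show e (h.symm ((h * g * h⁻¹) (h (e.symm x)))) = e (g (e.symm x))
  have h1 : (h * g * h⁻¹) (h (e.symm x)) = h (g (e.symm x)) := by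
    show h (g (h⁻¹ (h (e.symm x)))) = _
    have h2 : h⁻¹ (h (e.symm x)) = e.symm x := LinearEquiv.symm_apply_apply h _
    rw [h2]
  rw [h1, LinearEquiv.symm_apply_apply]

theorem e2s_ge : 2 / 21 ≤ prp 6 {g : GLn 6 | E2s g} := by
  have h3 : prp 3 (Dc (KP 2 (IrrP 2)) (Set.univ : Set (GLn 1))) = 1 / 3 := by
    have h4 : prp (2 + 1) (Dc (KP 2 (IrrP 2)) (Set.univ : Set (GLn 1))) = prp 2 (KP 2 (IrrP 2)) * prp 1 Set.univ := by
      have hfin := irr_finite 2
      refine dec_prp (KP 2 (IrrP 2)) Set.univ (∏ f ∈ hfin.toFinset, f) (ec_ci 2 _)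
        (fun _ _ _ => Set.mem_univ _) ?_ ?_
      · rintro p ⟨f, hf, hp⟩
        have h2 : f ∣ ∏ f ∈ hfin.toFinset, f := Finset.dvd_prod_of_mem _ (hfin.mem_toFinset.2 hf)
        obtain ⟨c, hc⟩ := h2
        rw [hc, map_mul, hp, zero_mul]
      · intro q _
        exact ec_prod hfin fun f hf => ec_inj q hf.1 (by rw [hf.2.1]; norm_num)
    rw [prp_univ, mul_one] at h4
    have h5 : prp 2 (KP 2 (IrrP 2)) = ((IrrP 2).ncard : ℝ) / (2 ^ 2 - 1) :=
      irr_set (by norm_num) (fun f hf => hf)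
    rw [h5, irr_vals.2.1] at h4
    norm_num at h4
    exact h4
  have h := ec_gen (a := 3) (b := 3) (by norm_num) (S := IrrP 3) (fun f hf => hf)
    (Dc (KP 2 (IrrP 2)) (Set.univ : Set (GLn 1))) (ec_dc_ci (a := 2) (b := 1) _ _) ?_
    {g : GLn (3 + 3) | E2s g} ?_
  · rw [h3, irr_vals.2.2.1] at h
    norm_num at h
    exact h
  · rintro f hf q ⟨e, p, ⟨f', hf', hp⟩, q', -, hq⟩
    rw [injective_iff_map_eq_zero]
    intro x hx
    have h1 : aeval (cj e q).toLinearMap f (e x) = 0 := by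
      rw [aeval_cj, hx, map_zero]
    rw [hq] at h1
    obtain ⟨u, w, huw⟩ : ∃ u w, e x = (u, w) := ⟨_, _, rfl⟩
    rw [huw, blk_aeval_zero] at h1
    have h2 : aeval p.toLinearMap f u = 0 := congrArg Prod.fst h1
    have h3 : aeval q'.toLinearMap f w = 0 := congrArg Prod.snd h1
    have h4 : u = 0 := ec_inj p hf.1 (by rw [hf.2.1]; norm_num) (by rw [h2, map_zero])
    have h5 : w = 0 := ec_inj q' hf.1 (by rw [hf.2.1]; norm_num) (by rw [h3, map_zero])
    rw [h4, h5] at huw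
    exact (LinearEquiv.map_eq_zero_iff e).1 huw
  · rintro g ⟨e, p, ⟨f, hf, hp⟩, q, ⟨e', p', ⟨f', hf', hp'⟩, q', -, hq⟩, hg⟩
    obtain ⟨u, hu⟩ := ec_vec (a := 3) (by norm_num)
    obtain ⟨u', hu'⟩ := ec_vec (a := 2) (by norm_num)
    obtain ⟨w, hw0, hw⟩ := ec_line q'
    obtain ⟨h1, h2⟩ := ec_fix (a := 2) (b := 1) hq hw0 hw
    obtain ⟨h3, h4⟩ := ec_fix (a := 3) (b := 3) hg h1 h2
    exact ⟨⟨f, hf, e.symm (u, 0), ec_left hg (ec_ann hf.1 hp hu)⟩,
      ⟨f', hf', e.symm (0, e'.symm (u', 0)),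
        ec_right hg (ec_left (a := 2) (b := 1) hq (ec_ann hf'.1 hp' hu'))⟩, _, h3, h4⟩

theorem e3_ge : 2 / 15 ≤ prp 4 {g : GLn 4 | E3 g} := by
  have h1 : prp 4 (KP 4 (PrimP 4)) = ((PrimP 4).ncard : ℝ) / (2 ^ 4 - 1) :=
    irr_set (by norm_num) (fun f hf => hf.1)
  have h2 : (2 : ℝ) ≤ ((PrimP 4).ncard : ℝ) := by exact_mod_cast prim_vals.2.1
  have h3 : KP 4 (PrimP 4) ⊆ {g : GLn 4 | E3 g} := by
    rintro g ⟨f, hf, hg⟩
    obtain ⟨u, hu⟩ := ec_vec (a := 4) (by norm_num)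
    exact ⟨f, hf, u, ec_ann hf.1.1 hg hu⟩
  have h4 := prp_mono h3
  rw [h1] at h4
  norm_num at h4 ⊢
  linarith

end Pool.Agent.TWO
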