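import Pool.Agent.TWO.GDefs

/-!
# TWO/GSta: orders of pair stabilisers

`pair_card`: `GL(V)` is transitive on the linearly independent pairs; orbit-stabiliser.
`stab_dvd`: a computation with concrete numbers.
-/

open Polynomial Module

namespace Pool.Agent.TWO

variable {V : Type} [AddCommGroup V] [Module (ZMod 2) V] [FiniteDimensional (ZMod 2) V]

theorem card_gl (n : ℕ) (hn : finrank (ZMod 2) V = n) :
    Nat.card (V ≃ₗ[ZMod 2] V) = ∏ i ∈ Finset.range n, (2 ^ n - 2 ^ i) := by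
  have b := Module.finBasisOfFinrankEq (ZMod 2) V hn
  have e : (V ≃ₗ[ZMod 2] V) ≃ GL (Fin n) (ZMod 2) :=
    (LinearMap.GeneralLinearGroup.generalLinearEquiv (ZMod 2) V).symm.toEquiv.trans
      (Units.mapEquiv (LinearMap.toMatrixAlgEquiv b).toMulEquiv).toEquiv
  rw [Nat.card_congr e, Matrix.card_GL_field, ZMod.card, Finset.prod_range]

private theorem sta_indep {w₁ w₂ : V} (h₁ : w₁ ≠ 0) (h₂ : w₂ ≠ 0) (h₁₂ : w₁ ≠ w₂) :
    LinearIndependent (ZMod 2) ![w₁, w₂] := by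
  rw [LinearIndependent.pair_iff]
  intro s t h
  have hc : ∀ c : ZMod 2, c = 0 ∨ c = 1 := by decide
  rcases hc s with hs | hs <;> rcases hc t with ht | ht
  · exact ⟨hs, ht⟩
  · rw [hs, ht, zero_smul, one_smul, zero_add] at h
    exact absurd h h₂
  · rw [hs, ht, zero_smul, one_smul, add_zero] at h
    exact absurd h h₁
  · rw [hs, ht, one_smul, one_smul] at h
    exfalso
    apply h₁₂
    have h2 : w₂ + w₂ = 0 := by
      rw [← two_smul (ZMod 2) w₂]
      have h3 : (2 : ZMod 2) = 0 := by decide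
      rw [h3, zero_smul]
    exact (eq_neg_of_add_eq_zero_left h).trans (eq_neg_of_add_eq_zero_left h2).symm

private theorem sta_trans {s t : Fin 2 → V} (hs : LinearIndependent (ZMod 2) s)
    (ht : LinearIndependent (ZMod 2) t) : ∃ g : V ≃ₗ[ZMod 2] V, ∀ i, g (s i) = t i := by
  have hsc : ∀ i, (hs.linearCombinationEquiv (Finsupp.single i 1) : V) = s i := fun i => by simp
  have htc : ∀ i, (ht.linearCombinationEquiv (Finsupp.single i 1) : V) = t i := fun i => by simp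
  obtain ⟨g, hg⟩ := Submodule.exists_linearEquiv_restrict_eq
    (hs.linearCombinationEquiv.symm ≪≫ₗ ht.linearCombinationEquiv)
  refine ⟨g, fun i => ?_⟩
  rw [← hsc i, ← hg, ← htc i, LinearEquiv.trans_apply, LinearEquiv.symm_apply_apply]

theorem pair_card {n : ℕ} (hn : finrank (ZMod 2) V = n) {w₁ w₂ : V} (h₁ : w₁ ≠ 0) (h₂ : w₂ ≠ 0)
    (h₁₂ : w₁ ≠ w₂) :
    Nat.card {g : V ≃ₗ[ZMod 2] V // g w₁ = w₁ ∧ g w₂ = w₂} * ((2 ^ n - 1) * (2 ^ n - 2)) =
      Nat.card (V ≃ₗ[ZMod 2] V) := by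
  haveI : Finite V := Module.finite_of_finite (ZMod 2)
  have hi := sta_indep h₁ h₂ h₁₂
  have h2 : 2 ≤ finrank (ZMod 2) V := by
    have h3 := hi.fintype_card_le_finrank
    rwa [Fintype.card_fin] at h3
  have h4 : Nat.card {s : Fin 2 → V // LinearIndependent (ZMod 2) s} = (2 ^ n - 1) * (2 ^ n - 2) := by
    rw [card_linearIndependent h2, Fin.prod_univ_two, hn, ZMod.card]
    rfl
  have e1 : MulAction.orbit (V ≃ₗ[ZMod 2] V) (![w₁, w₂] : Fin 2 → V) =
      {s : Fin 2 → V | LinearIndependent (ZMod 2) s} := by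
    ext s
    constructor
    · rintro ⟨g, rfl⟩
      exact hi.map' g.toLinearMap g.ker
    · intro hs
      obtain ⟨g, hg⟩ := sta_trans hi hs
      exact ⟨g, funext hg⟩
  have e2 : Nat.card (MulAction.stabilizer (V ≃ₗ[ZMod 2] V) (![w₁, w₂] : Fin 2 → V)) =
      Nat.card {g : V ≃ₗ[ZMod 2] V // g w₁ = w₁ ∧ g w₂ = w₂} := by
    refine Nat.card_congr (Equiv.subtypeEquivRight fun g => ?_)
    rw [MulAction.mem_stabilizer_iff]
    constructor
    · intro h
      exact ⟨congrFun h 0, congrFun h 1⟩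
    · rintro ⟨ha, hb⟩
      funext i
      fin_cases i
      · exact ha
      · exact hb
  have e3 := Nat.card_congr (MulAction.orbitProdStabilizerEquivGroup (V ≃ₗ[ZMod 2] V)
    (![w₁, w₂] : Fin 2 → V))
  rw [Nat.card_prod, e2, e1] at e3
  rw [← h4, mul_comm]
  exact e3

theorem stab_dvd {n r : ℕ}
    (hnr : (n = 6 ∧ r = 7) ∨ (n = 8 ∧ r = 31) ∨ (n = 10 ∧ r = 127) ∨ (n = 12 ∧ r = 73))
    (hn : finrank (ZMod 2) V = n) {w₁ w₂ : V} (h₁ : w₁ ≠ 0) (h₂ : w₂ ≠ 0) (h₁₂ : w₁ ≠ w₂) :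
    ¬ r ^ 2 ∣ Nat.card {g : V ≃ₗ[ZMod 2] V // g w₁ = w₁ ∧ g w₂ = w₂} := by
  rintro ⟨q, hq⟩
  have h := pair_card hn h₁ h₂ h₁₂
  rw [card_gl n hn, hq] at h
  have hd : r ^ 2 * ((2 ^ n - 1) * (2 ^ n - 2)) ∣ ∏ i ∈ Finset.range n, (2 ^ n - 2 ^ i) :=
    ⟨q, by rw [← h]; ring⟩
  revert hd
  rcases hnr with ⟨rfl, rfl⟩ | ⟨rfl, rfl⟩ | ⟨rfl, rfl⟩ | ⟨rfl, rfl⟩
  · simp only [Finset.prod_range_succ, Finset.prod_range_zero]
    norm_num
  · simp only [Finset.prod_range_succ, Finset.prod_range_zero]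
    norm_num
  · simp only [Finset.prod_range_succ, Finset.prod_range_zero]
    norm_num
  · simp only [Finset.prod_range_succ, Finset.prod_range_zero]
    norm_num

end Pool.Agent.TWO
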