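import Pool.Agent.TWO.GMc
import Pool.Agent.TWO.GSta

/-!
# TWO/GFoA: dimension four: a two-transitive group without transvections has order 2520
-/

open Polynomial Module

namespace Pool.Agent.TWO

variable {V : Type} [AddCommGroup V] [Module (ZMod 2) V] [FiniteDimensional (ZMod 2) V]

private theorem fin_gl (V : Type) [AddCommGroup V] [Module (ZMod 2) V] [FiniteDimensional (ZMod 2) V] :
    Finite (V ≃ₗ[ZMod 2] V) := by
  have hfV : Finite V := Module.finite_of_finite (ZMod 2)
  exact DFunLike.finite _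

private theorem zo' (c : ZMod 2) : c = 0 ∨ c = 1 := by
  revert c
  decide

omit [FiniteDimensional (ZMod 2) V] in
private theorem tt (x : V) : x + x = 0 := by
  have h : (2 : ZMod 2) • x = x + x := two_smul _ _
  rw [← h, (by decide : (2 : ZMod 2) = 0), zero_smul]

/-- involutions in dimension three -/
private theorem tv_of_inv (hn : finrank (ZMod 2) V = 3) (s : V ≃ₗ[ZMod 2] V) (h2 : s ^ 2 = 1)
    (h1 : s ≠ 1) : IsTv s := by
  unfold IsTv
  set N : V →ₗ[ZMod 2] V := s.toLinearMap - 1 with hN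
  have hNv : ∀ v, N v = s v - v := fun v => rfl
  have hss : ∀ v, s (s v) = v := by
    intro v
    have h : (s ^ 2) v = v := by rw [h2]; rfl
    rw [pow_two] at h
    exact h
  have hle : LinearMap.range N ≤ LinearMap.ker N := by
    rintro _ ⟨v, rfl⟩
    rw [LinearMap.mem_ker, hNv, hNv, map_sub, hss]
    have : v - s v - (s v - v) = (v + v) - (s v + s v) := by abel
    rw [this, tt, tt, sub_zero]
  have h3 := LinearMap.finrank_range_add_finrank_ker N
  have h4 := Submodule.finrank_mono hle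
  have h5 : finrank (ZMod 2) (LinearMap.range N) ≠ 0 := by
    intro h
    rw [Submodule.finrank_eq_zero, LinearMap.range_eq_bot] at h
    apply h1
    ext v
    have h6 := hNv v
    rw [h, LinearMap.zero_apply] at h6
    exact (sub_eq_zero.1 h6.symm)
  omega

/-- elements of order seven in dimension three -/
private theorem seven_trans (hn : finrank (ZMod 2) V = 3) (x : V ≃ₗ[ZMod 2] V) (hx : orderOf x = 7) :
    ∀ a b : V, a ≠ 0 → b ≠ 0 → ∃ j : ℕ, (x ^ j) a = b := by
  classical
  have hfV : Finite V := Module.finite_of_finite (ZMod 2)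
  have hftV : Fintype V := Fintype.ofFinite V
  have hV : Fintype.card V = 8 := by
    rw [← Nat.card_eq_fintype_card, Module.natCard_eq_pow_finrank (K := ZMod 2), hn, Nat.card_zmod]
    norm_num
  have hit : ∀ (j : ℕ) (v : V), (x ^ j) v = (x : V → V)^[j] v := by
    intro j
    induction j with
    | zero => intro v; rfl
    | succ j ih =>
      intro v
      rw [pow_succ, Function.iterate_succ_apply, ← ih]
      rfl
  have hone : ∃ v : V, x v ≠ v := by
    by_contra hc
    push Not at hc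
    have h : x = 1 := by
      ext v
      exact hc v
    rw [h, orderOf_one] at hx
    omega
  obtain ⟨v, hv⟩ := hone
  have h7 : (x : V → V)^[7] v = v := by
    rw [← hit, ← hx, pow_orderOf_eq_one]
    rfl
  have hmp : Function.minimalPeriod (x : V → V) v = 7 := by
    have h1 : Function.minimalPeriod (x : V → V) v ∣ 7 := Function.IsPeriodicPt.minimalPeriod_dvd h7
    rcases (Nat.dvd_prime (by norm_num : Nat.Prime 7)).1 h1 with h | h
    · exfalso
      apply hv
      exact Function.minimalPeriod_eq_one_iff_isFixedPt.1 h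
    · exact h
  have hv0 : v ≠ 0 := by
    intro h
    apply hv
    rw [h, map_zero]
  have himg : (Finset.range 7).image (fun j => (x ^ j) v) = Finset.univ.erase (0 : V) := by
    apply Finset.eq_of_subset_of_card_le
    · intro y hy
      obtain ⟨j, -, rfl⟩ := Finset.mem_image.1 hy
      rw [Finset.mem_erase]
      exact ⟨fun h => hv0 ((LinearEquiv.map_eq_zero_iff _).1 h), Finset.mem_univ _⟩
    · rw [Finset.card_erase_of_mem (Finset.mem_univ _), Finset.card_univ, hV, Finset.card_image_of_injOn,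
        Finset.card_range]
      intro i hi j hj hij
      have h := Function.iterate_injOn_Iio_minimalPeriod (f := (x : V → V)) (x := v)
      rw [hmp] at h
      apply h (by simpa using hi) (by simpa using hj)
      have h1 : (x ^ i) v = (x ^ j) v := hij
      rw [hit, hit] at h1
      exact h1
  have hall : ∀ b : V, b ≠ 0 → ∃ j, j < 7 ∧ (x ^ j) v = b := by
    intro b hb
    have h : b ∈ (Finset.range 7).image (fun j => (x ^ j) v) := by
      rw [himg, Finset.mem_erase]
      exact ⟨hb, Finset.mem_univ _⟩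
    obtain ⟨j, hj, h1⟩ := Finset.mem_image.1 h
    exact ⟨j, Finset.mem_range.1 hj, h1⟩
  intro a b ha hb
  obtain ⟨i, hi, hia⟩ := hall a ha
  obtain ⟨j, hj, hjb⟩ := hall b hb
  refine ⟨j + (7 - i), ?_⟩
  rw [← hia, ← hjb]
  have h1 : (x ^ (j + (7 - i))) ((x ^ i) v) = (x ^ (j + (7 - i)) * x ^ i) v := rfl
  rw [h1, ← pow_add]
  have h2 : j + (7 - i) + i = j + 7 := by omega
  have h3 : x ^ 7 = 1 := by
    rw [← hx]
    exact pow_orderOf_eq_one x
  rw [h2, pow_add, h3, mul_one]

private theorem seven_self (hn : finrank (ZMod 2) V = 3) (x : V ≃ₗ[ZMod 2] V) (hx : orderOf x = 7)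
    (hs : ∀ f : (ZMod 2)[X],
    finrank (ZMod 2) (LinearMap.ker (aeval (x : V →ₗ[ZMod 2] V) f)) =
      finrank (ZMod 2) (LinearMap.ker (aeval ((x⁻¹ : V ≃ₗ[ZMod 2] V) : V →ₗ[ZMod 2] V) f))) :
    False := by
  have htr := seven_trans hn x hx
  have hpow : ∀ (j : ℕ) (v : V), ((x : V →ₗ[ZMod 2] V) ^ j) v = (x ^ j) v := by
    intro j
    induction j with
    | zero => intro v; rfl
    | succ j ih =>
      intro v
      rw [pow_succ, pow_succ, Module.End.mul_apply, ih]
      rfl
  have hx7 : x ^ 7 = 1 := by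
    rw [← hx]
    exact pow_orderOf_eq_one x
  have hx1 : ¬ ∀ u, x u = u := by
    intro hc
    have h : x = 1 := by
      ext v
      exact hc v
    rw [h, orderOf_one] at hx
    omega
  have hker : ∀ (f : (ZMod 2)[X]) (a : V), a ≠ 0 → aeval (x : V →ₗ[ZMod 2] V) f a = 0 →
      ∀ b, aeval (x : V →ₗ[ZMod 2] V) f b = 0 := by
    intro f a ha hfa b
    by_cases hb : b = 0
    · rw [hb, map_zero]
    · obtain ⟨j, hj⟩ := htr a b ha hb
      rw [← hj, ← hpow]
      have h1 : aeval (x : V →ₗ[ZMod 2] V) f (((x : V →ₗ[ZMod 2] V) ^ j) a) =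
          (aeval (x : V →ₗ[ZMod 2] V) (f * X ^ j)) a := by
        rw [map_mul, map_pow, aeval_X]
        rfl
      have h2 : (aeval (x : V →ₗ[ZMod 2] V) (f * X ^ j)) a =
          ((x : V →ₗ[ZMod 2] V) ^ j) (aeval (x : V →ₗ[ZMod 2] V) f a) := by
        rw [mul_comm, map_mul, map_pow, aeval_X]
        rfl
      rw [h1, h2, hfa, map_zero]
  -- the two cubics
  have hP : ∀ (y : V ≃ₗ[ZMod 2] V) (v : V), aeval (y : V →ₗ[ZMod 2] V) (X ^ 3 + X + 1 : (ZMod 2)[X]) v =
      y (y (y v)) + y v + v := by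
    intro y v
    rw [map_add, map_add, map_pow, aeval_X, map_one]
    rfl
  have hR : ∀ (y : V ≃ₗ[ZMod 2] V) (v : V), aeval (y : V →ₗ[ZMod 2] V) (X ^ 3 + X ^ 2 + 1 : (ZMod 2)[X]) v =
      y (y (y v)) + y (y v) + v := by
    intro y v
    rw [map_add, map_add, map_pow, map_pow, aeval_X, map_one]
    rfl
  have hall : ∀ f : (ZMod 2)[X], (∀ v, aeval (x : V →ₗ[ZMod 2] V) f v = 0) →
      ∀ v, aeval ((x⁻¹ : V ≃ₗ[ZMod 2] V) : V →ₗ[ZMod 2] V) f v = 0 := by
    intro f hf v
    have h1 : LinearMap.ker (aeval (x : V →ₗ[ZMod 2] V) f) = ⊤ := by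
      rw [eq_top_iff]
      intro u _
      exact hf u
    have h2 := hs f
    rw [h1, finrank_top] at h2
    have h3 := Submodule.eq_top_of_finrank_eq h2.symm
    have h4 : v ∈ LinearMap.ker (aeval ((x⁻¹ : V ≃ₗ[ZMod 2] V) : V →ₗ[ZMod 2] V) f) := by
      rw [h3]
      trivial
    exact h4
  have hxi : ∀ v, (x⁻¹ : V ≃ₗ[ZMod 2] V) (x v) = v := by
    intro v
    have h : (x⁻¹ : V ≃ₗ[ZMod 2] V) (x v) = (x⁻¹ * x) v := rfl
    rw [h, inv_mul_cancel]
    rfl
  have hend : ¬ ∀ u, x (x u) + x u = 0 := by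
    intro hc
    apply hx1
    intro u
    apply x.injective
    have h1 := hc u
    have h2 : x (x u) = x (x u) + x u + x u := by
      rw [add_assoc, tt, add_zero]
    rw [h2, h1, zero_add]
  have hnP : ¬ ∀ v, aeval (x : V →ₗ[ZMod 2] V) (X ^ 3 + X + 1 : (ZMod 2)[X]) v = 0 := by
    intro hc
    apply hend
    intro u
    have h1 := hc u
    have h2 := hall _ hc (x (x (x u)))
    rw [hP] at h1 h2
    rw [hxi, hxi, hxi] at h2
    have h3 : x (x u) + x u = (x (x (x u)) + x u + u) + (u + x (x u) + x (x (x u))) := by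
      have : (x (x (x u)) + x u + u) + (u + x (x u) + x (x (x u))) =
        (x (x (x u)) + x (x (x u))) + (u + u) + (x (x u) + x u) := by abel
      rw [this, tt, tt, add_zero, zero_add]
    rw [h3, h1, h2, add_zero]
  have hnR : ¬ ∀ v, aeval (x : V →ₗ[ZMod 2] V) (X ^ 3 + X ^ 2 + 1 : (ZMod 2)[X]) v = 0 := by
    intro hc
    apply hend
    intro u
    have h1 := hc u
    have h2 := hall _ hc (x (x (x u)))
    rw [hR] at h1 h2
    rw [hxi, hxi, hxi] at h2
    have h3 : x (x u) + x u = (x (x (x u)) + x (x u) + u) + (u + x u + x (x (x u))) := by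
      have : (x (x (x u)) + x (x u) + u) + (u + x u + x (x (x u))) =
        (x (x (x u)) + x (x (x u))) + (u + u) + (x (x u) + x u) := by abel
      rw [this, tt, tt, add_zero, zero_add]
    rw [h3, h1, h2, add_zero]
  obtain ⟨a, ha⟩ : ∃ a : V, a ≠ 0 := by
    have hnt : Nontrivial V := Module.nontrivial_of_finrank_pos (R := ZMod 2) (by omega)
    exact exists_ne 0
  have hpoly : ((X - 1) * ((X ^ 3 + X + 1) * (X ^ 3 + X ^ 2 + 1)) : (ZMod 2)[X]) = X ^ 7 - 1 := by
    have h2 : (2 : (ZMod 2)[X]) = 0 := CharTwo.two_eq_zero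
    linear_combination (X ^ 3 * (X - 1)) * h2
  have hR0 : aeval (x : V →ₗ[ZMod 2] V) (X ^ 3 + X ^ 2 + 1 : (ZMod 2)[X]) a ≠ 0 :=
    fun h => hnR (hker _ a ha h)
  have hP0 : aeval (x : V →ₗ[ZMod 2] V) (X ^ 3 + X + 1 : (ZMod 2)[X])
      (aeval (x : V →ₗ[ZMod 2] V) (X ^ 3 + X ^ 2 + 1 : (ZMod 2)[X]) a) ≠ 0 :=
    fun h => hnP (hker _ _ hR0 h)
  have h7 : aeval (x : V →ₗ[ZMod 2] V) (X ^ 7 - 1 : (ZMod 2)[X]) a = 0 := by
    rw [map_sub, map_pow, aeval_X, map_one, LinearMap.sub_apply, hpow, hx7]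
    exact sub_self _
  rw [← hpoly, map_mul, map_mul, Module.End.mul_apply, Module.End.mul_apply] at h7
  apply hx1
  intro u
  have h8 := hker _ _ hP0 h7 u
  rw [map_sub, aeval_X, map_one] at h8
  exact sub_eq_zero.1 h8

private theorem three_top (hn : finrank (ZMod 2) V = 3) {D : Subgroup (V ≃ₗ[ZMod 2] V)}
    (hirr : IrrSub D) (h14 : 14 ∣ Nat.card D) : D = ⊤ := by
  have hfin := fin_gl V
  have hp7 : Fact (Nat.Prime 7) := ⟨by norm_num⟩
  obtain ⟨s, hs⟩ := exists_prime_orderOf_dvd_card' (G := D) 2 ((by norm_num : 2 ∣ 14).trans h14)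
  obtain ⟨x, hx⟩ := exists_prime_orderOf_dvd_card' (G := D) 7 ((by norm_num : 7 ∣ 14).trans h14)
  have hs2 : (s : V ≃ₗ[ZMod 2] V) ^ 2 = 1 := by
    have h := pow_orderOf_eq_one s
    rw [hs] at h
    rw [← Subgroup.coe_pow, h]
    rfl
  have hs1 : (s : V ≃ₗ[ZMod 2] V) ≠ 1 := by
    intro h
    have h2 : s = 1 := Subtype.ext h
    rw [h2, orderOf_one] at hs
    omega
  have hx7 : orderOf (x : V ≃ₗ[ZMod 2] V) = 7 := by
    rw [Subgroup.orderOf_coe, hx]
  rcases tv_theorem hirr ⟨s, s.2, tv_of_inv hn _ hs2 hs1⟩ with h | h | h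
  · exact h
  · exact (seven_self hn x hx7 (h x x.2)).elim
  · exfalso
    obtain ⟨ι, hι, W, m, h3, hc, hind, -, hW, -⟩ := h
    obtain ⟨i, j, hij⟩ := Fintype.exists_pair_of_one_lt_card (α := ι) hc
    have h1 := Submodule.finrank_add_finrank_le_of_disjoint (hind.pairwiseDisjoint hij)
    rw [hW, hW, hn] at h1
    omega

/-- the action of the stabiliser of `w` on the quotient -/
private noncomputable def rho (H : Subgroup (V ≃ₗ[ZMod 2] V)) (w : V) :
    MulAction.stabilizer H w →* ((V ⧸ Submodule.span (ZMod 2) {w}) ≃ₗ[ZMod 2]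
      (V ⧸ Submodule.span (ZMod 2) {w})) where
  toFun d := Submodule.Quotient.equiv _ _ (d.1.1 : V ≃ₗ[ZMod 2] V) (by
    have h : (d.1.1 : V ≃ₗ[ZMod 2] V) w = w := d.2
    rw [Submodule.map_span, Set.image_singleton]
    congr 2)
  map_one' := by
    ext x
    obtain ⟨v, rfl⟩ := Submodule.Quotient.mk_surjective _ x
    rfl
  map_mul' a b := by
    ext x
    obtain ⟨v, rfl⟩ := Submodule.Quotient.mk_surjective _ x
    rfl

omit [FiniteDimensional (ZMod 2) V] in
private theorem rho_mk (H : Subgroup (V ≃ₗ[ZMod 2] V)) (w : V) (d : MulAction.stabilizer H w) (v : V) :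
    rho H w d (Submodule.Quotient.mk v) = Submodule.Quotient.mk ((d.1.1 : V ≃ₗ[ZMod 2] V) v) := rfl

omit [FiniteDimensional (ZMod 2) V] in
private theorem mem_sp (w v : V) : v ∈ Submodule.span (ZMod 2) {w} ↔ v = 0 ∨ v = w := by
  rw [Submodule.mem_span_singleton]
  constructor
  · rintro ⟨c, rfl⟩
    rcases zo' c with h | h
    · left
      rw [h, zero_smul]
    · right
      rw [h, one_smul]
  · rintro (h | h)
    · exact ⟨0, by rw [h, zero_smul]⟩
    · exact ⟨1, by rw [h, one_smul]⟩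

private theorem rho_inj (H : Subgroup (V ≃ₗ[ZMod 2] V)) (hno : ¬ ∃ t ∈ H, IsTv t) (w : V) (hw : w ≠ 0) :
    Function.Injective (rho H w) := by
  rw [injective_iff_map_eq_one]
  intro d hd
  by_contra hne
  apply hno
  refine ⟨d.1.1, d.1.2, ?_⟩
  unfold IsTv
  set N : V →ₗ[ZMod 2] V := (d.1.1 : V ≃ₗ[ZMod 2] V).toLinearMap - 1 with hN
  have hNv : ∀ v, N v = (d.1.1 : V ≃ₗ[ZMod 2] V) v - v := fun v => rfl
  have hle : LinearMap.range N ≤ Submodule.span (ZMod 2) {w} := by
    rintro _ ⟨v, rfl⟩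
    have h1 := rho_mk H w d v
    rw [hd] at h1
    have h2 : (Submodule.Quotient.mk ((d.1.1 : V ≃ₗ[ZMod 2] V) v) : V ⧸ Submodule.span (ZMod 2) {w}) =
      Submodule.Quotient.mk v := h1.symm
    rw [Submodule.Quotient.eq] at h2
    exact h2
  have h4 := Submodule.finrank_mono hle
  rw [finrank_span_singleton hw] at h4
  have h5 : finrank (ZMod 2) (LinearMap.range N) ≠ 0 := by
    intro h
    rw [Submodule.finrank_eq_zero, LinearMap.range_eq_bot] at h
    apply hne
    apply Subtype.ext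
    apply Subtype.ext
    ext v
    have h6 := hNv v
    rw [h, LinearMap.zero_apply] at h6
    exact (sub_eq_zero.1 h6.symm)
  omega

theorem four_card (hn : finrank (ZMod 2) V = 4) {H : Subgroup (V ≃ₗ[ZMod 2] V)}
    (h2 : TwoTrans H) (hno : ¬ ∃ t ∈ H, IsTv t) : Nat.card H = 2520 := by
  have hfin := fin_gl V
  have hfV : Finite V := Module.finite_of_finite (ZMod 2)
  have hV : Nat.card V = 16 := by
    rw [Module.natCard_eq_pow_finrank (K := ZMod 2), hn, Nat.card_zmod]
    norm_num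
  obtain ⟨w, hw⟩ : ∃ w : V, w ≠ 0 := by
    have hnt : Nontrivial V := Module.nontrivial_of_finrank_pos (R := ZMod 2) (by omega)
    exact exists_ne 0
  have hQ : finrank (ZMod 2) (V ⧸ Submodule.span (ZMod 2) {w}) = 3 := by
    have h := Submodule.finrank_quotient_add_finrank (Submodule.span (ZMod 2) {w})
    rw [finrank_span_singleton hw, hn] at h
    omega
  have hinj := rho_inj H hno w hw
  have hcard : Nat.card (rho H w).range = Nat.card (MulAction.stabilizer H w) :=
    (Nat.card_congr (MonoidHom.ofInjective hinj).toEquiv).symm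
  -- another vector
  obtain ⟨x, hx0, hxw⟩ : ∃ x : V, x ≠ 0 ∧ x ≠ w := by
    by_contra hc
    push Not at hc
    have h : (Set.univ : Set V) ⊆ {0, w} := by
      intro v _
      by_cases h : v = 0
      · left
        exact h
      · right
        exact hc v h
    have h1 := Set.ncard_le_ncard h (Set.toFinite _)
    rw [Set.ncard_univ, hV, Set.ncard_pair (Ne.symm hw)] at h1
    omega
  have horb : MulAction.orbit (MulAction.stabilizer H w) x = {0, w}ᶜ := by
    ext y
    rw [MulAction.mem_orbit_iff]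
    constructor
    · rintro ⟨d, rfl⟩
      have hd : (d.1.1 : V ≃ₗ[ZMod 2] V) w = w := d.2
      have hdx : d • x = (d.1.1 : V ≃ₗ[ZMod 2] V) x := rfl
      rw [hdx, Set.mem_compl_iff]
      rintro (h | h)
      · exact hx0 ((LinearEquiv.map_eq_zero_iff _).1 h)
      · exact hxw ((d.1.1 : V ≃ₗ[ZMod 2] V).injective (h.trans hd.symm))
    · intro hy
      have hy0 : y ≠ 0 := fun h => hy (Or.inl h)
      have hyw : y ≠ w := fun h => hy (Or.inr h)
      obtain ⟨h, hH, hhw, hhx⟩ := h2 w x w y hw hx0 (Ne.symm hxw) hw hy0 (Ne.symm hyw)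
      exact ⟨⟨⟨h, hH⟩, hhw⟩, hhx⟩
  have h14 : 14 ∣ Nat.card (MulAction.stabilizer H w) := by
    have h3 := MulAction.index_stabilizer (MulAction.stabilizer H w) x
    rw [horb, Set.ncard_compl, hV, Set.ncard_pair (Ne.symm hw)] at h3
    rw [← Subgroup.card_mul_index (MulAction.stabilizer (MulAction.stabilizer H w) x), h3]
    exact Dvd.intro_left _ rfl
  have horb2 : MulAction.orbit H w = {0}ᶜ := by
    ext y
    rw [MulAction.mem_orbit_iff]
    constructor
    · rintro ⟨d, rfl⟩
      have hdx : d • w = (d.1 : V ≃ₗ[ZMod 2] V) w := rfl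
      rw [hdx, Set.mem_compl_iff]
      intro h
      exact hw ((LinearEquiv.map_eq_zero_iff _).1 h)
    · intro hy
      have hy0 : y ≠ 0 := fun h => hy h
      by_cases hyw : y = w
      · exact ⟨1, by rw [one_smul, hyw]⟩
      · obtain ⟨h, hH, hhw, -⟩ := h2 w y y w hw hy0 (Ne.symm hyw) hy0 hw hyw
        exact ⟨⟨h, hH⟩, hhw⟩
  have hirr : IrrSub (rho H w).range := by
    intro S hS
    by_cases hbot : S = ⊥
    · left
      exact hbot
    · right
      obtain ⟨a, haS, ha0⟩ := Submodule.exists_mem_ne_zero_of_ne_bot hbot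
      obtain ⟨a, rfl⟩ := Submodule.Quotient.mk_surjective _ a
      rw [eq_top_iff]
      rintro b -
      obtain ⟨b, rfl⟩ := Submodule.Quotient.mk_surjective _ b
      have ha : ¬ (a = 0 ∨ a = w) := by
        intro h
        apply ha0
        rw [Submodule.Quotient.mk_eq_zero, mem_sp]
        exact h
      by_cases hb : b = 0 ∨ b = w
      · have h3 : (Submodule.Quotient.mk b : V ⧸ Submodule.span (ZMod 2) {w}) = 0 := by
          rw [Submodule.Quotient.mk_eq_zero, mem_sp]
          exact hb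
        rw [h3]
        exact S.zero_mem
      · rw [not_or] at ha hb
        obtain ⟨h, hH, hhw, hhx⟩ := h2 w a w b hw ha.1 (Ne.symm ha.2) hw hb.1 (Ne.symm hb.2)
        have h3 := hS (rho H w ⟨⟨h, hH⟩, hhw⟩) ⟨_, rfl⟩ _ haS
        rw [rho_mk] at h3
        have h4 : (h : V ≃ₗ[ZMod 2] V) a = b := hhx
        rw [← h4]
        exact h3
  have htop := three_top hQ hirr (by rw [hcard]; exact h14)
  have h168 : Nat.card (MulAction.stabilizer H w) = 168 := by
    rw [← hcard, htop, Subgroup.card_top, card_gl 3 hQ]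
    simp [Finset.prod_range_succ]
  rw [← Subgroup.card_mul_index (MulAction.stabilizer H w), h168, MulAction.index_stabilizer, horb2,
    Set.ncard_compl, hV, Set.ncard_singleton]

end Pool.Agent.TWO
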