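import Pool.Agent.TWO.GDefs

/-!
# TWO/GFoB (1.6 h): dimension four: a group of order 2520 has no elements of order 15

`V` of dimension `4`, `|H| = 2520 = 2^3 · 3^2 · 5 · 7`; suppose `s ∈ H`, `E3 s`: `AnnEq s f v`, `f`
irreducible of degree `4`, `f ∤ X^k - 1` for `0 < k < 15`.
1. `V = ker f(s)` (dimension `≥ 4`), `f ∣ X^15 - 1`, so `s^15 = 1`; the order of `s` is `15`.
2. `y = s^3` has order `5`, `P = ⟨y⟩` is a Sylow 5-subgroup of `H`.
3. `y` acts irreducibly: the centraliser `C` of `y` in `GL(V)` has at most `15` elements: for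
   `v ≠ 0` the vectors `y^j v`, `j < 4`, span `V`: the annihilator of `v` under `y` divides
   `X^5 - 1 = (X - 1)(X^4+X^3+X^2+X+1)`, the quartic is irreducible over `ZMod 2`, and `y` has no
   nonzero fixed vector (its fixed space is invariant under `s`, whose annihilators are all `(f)`,
   so it would be `V`, `y = 1`).  So an element `h` commuting with `y` is determined by `h v ≠ 0`.
4. `N = N_H(P)`: `N / (N ∩ C)` embeds in the automorphism group of `P`, of order `4`; `N ∩ C` contains
   `⟨s⟩` of order `15` and has at most `15` elements, so it has order `15` and `|N| = 15 k`,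
   `k ∣ 4`.  The number of Sylow 5-subgroups of `H` is `2520 / (15 k) = 168, 84, 42`, and it is
   `≡ 1 mod 5` (`card_sylow_modEq_one`, `Sylow.card_eq_index_normalizer` or the like): but
   `168 ≡ 3`, `84 ≡ 4`, `42 ≡ 2`.  Contradiction.
-/

open Polynomial Module

namespace Pool.Agent.TWO

variable {V : Type} [AddCommGroup V] [Module (ZMod 2) V] [FiniteDimensional (ZMod 2) V]

private theorem ann_dvd {g : Module.End (ZMod 2) V} {f p : (ZMod 2)[X]} {v : V} (h : AnnEq g f v)
    (hf : f.natDegree ≠ 0) (hp : aeval g p v = 0) : f ∣ p := by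
  by_contra h0
  have h1 : p % f ≠ 0 := fun h1 => h0 ((EuclideanDomain.mod_eq_zero).1 h1)
  refine h.2 (p % f) h1 (natDegree_mod_lt p hf) ?_
  have h2 : p = f * (p / f) + p % f := (EuclideanDomain.div_add_mod p f).symm
  have h3 : aeval g p v = aeval g (f * (p / f)) v + aeval g (p % f) v := by
    conv_lhs => rw [h2]
    rw [map_add, LinearMap.add_apply]
  rw [hp, mul_comm, map_mul, Module.End.mul_apply, h.1, map_zero, zero_add] at h3
  exact h3.symm

private theorem pow_apply' (s : V ≃ₗ[ZMod 2] V) (k : ℕ) (v : V) : (s.toLinearMap ^ k) v = (s ^ k) v := by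
  induction k with
  | zero => rfl
  | succ k ih =>
    rw [pow_succ', pow_succ', Module.End.mul_apply, ih]
    rfl

private theorem card_sub {c : V ≃ₗ[ZMod 2] V} {r : ℕ} (hr : r.Prime) (hcr : c ^ r = 1)
    (S : Submodule (ZMod 2) V) (hcS : ∀ x ∈ S, c x ∈ S) (h0 : ∀ x ∈ S, c x = x → x = 0) :
    2 ^ finrank (ZMod 2) S ≡ 1 [MOD r] := by
  classical
  have : Fact r.Prime := ⟨hr⟩
  have : Finite V := Module.finite_of_finite (ZMod 2)
  have : Fintype S := Fintype.ofFinite _
  let f : Function.End S := fun x => ⟨c x, hcS x x.2⟩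
  have hf : ∀ (k : ℕ) (x : S), ((f ^ k) x : V) = (c ^ k) x := by
    intro k
    induction k with
    | zero => intro x; rfl
    | succ k ih =>
      intro x
      rw [pow_succ', pow_succ']
      show c ((f ^ k) x : V) = c ((c ^ k) x)
      rw [ih]
  have hf1 : f ^ r ^ 1 = 1 := by
    rw [pow_one]
    funext x
    apply Subtype.ext
    rw [hf, hcr]
    rfl
  have h1 := Equiv.Perm.card_fixedPoints_modEq hf1
  have h2 : Fintype.card S = 2 ^ finrank (ZMod 2) S := by
    rw [← Nat.card_eq_fintype_card, Module.natCard_eq_pow_finrank (K := ZMod 2), Nat.card_zmod]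
  have h3 : Fintype.card f.fixedPoints = 1 := by
    rw [Fintype.card_eq_one_iff]
    refine ⟨⟨0, ?_⟩, ?_⟩
    · show f 0 = 0
      apply Subtype.ext
      show c 0 = 0
      exact map_zero c
    · rintro ⟨x, hx⟩
      apply Subtype.ext
      apply Subtype.ext
      have h4 : f x = x := hx
      exact h0 x x.2 (congrArg Subtype.val h4)
  rw [h2, h3] at h1
  exact h1

theorem four_syl (hn : finrank (ZMod 2) V = 4) {H : Subgroup (V ≃ₗ[ZMod 2] V)}
    (hH : Nat.card H = 2520) : ∀ g ∈ H, ¬ E3 g := by
  classical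
  rintro s hs ⟨f, hf, v, hv⟩
  have : Finite V := Module.finite_of_finite (ZMod 2)
  have hf4 : f.natDegree = 4 := hf.1.2.1
  have hv0 : v ≠ 0 := by
    intro h
    refine hv.2 1 one_ne_zero (by rw [natDegree_one, hf4]; norm_num) ?_
    rw [h, map_zero]
  have hk : ∀ k, 0 < k → k < 15 → (s ^ k) v ≠ v := by
    intro k h0 h15 he
    refine hf.2 k h0 (by norm_num; exact h15) (ann_dvd hv (by rw [hf4]; norm_num) ?_)
    rw [map_sub, map_pow, aeval_X, map_one, LinearMap.sub_apply, pow_apply', he]
    exact sub_self v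
  have hcV : Nat.card V = 16 := by
    rw [Module.natCard_eq_pow_finrank (K := ZMod 2), hn, Nat.card_zmod]
    norm_num
  have hcV' : Nat.card {x : V // x ≠ 0} = 15 := by
    have : Fintype V := Fintype.ofFinite V
    rw [Nat.card_eq_fintype_card, Fintype.card_subtype_compl, Fintype.card_subtype_eq,
      ← Nat.card_eq_fintype_card, hcV]
  have hinj : Function.Injective fun j : Fin 15 => (⟨(s ^ (j : ℕ)) v, fun h => hv0
      ((LinearEquiv.map_eq_zero_iff _).1 h)⟩ : {x : V // x ≠ 0}) := by
    have key : ∀ i j : ℕ, i < j → j < 15 → (s ^ i) v ≠ (s ^ j) v := by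
      intro i j hij hj he
      have h1 : s ^ j = s ^ i * s ^ (j - i) := by rw [← pow_add]; congr 1; omega
      rw [h1] at he
      have h2 : (s ^ i) v = (s ^ i) ((s ^ (j - i)) v) := he
      exact hk (j - i) (by omega) (by omega) ((s ^ i).injective h2).symm
    intro i j hij
    have h1 : (s ^ (i : ℕ)) v = (s ^ (j : ℕ)) v := congrArg Subtype.val hij
    rcases lt_trichotomy (i : ℕ) (j : ℕ) with h | h | h
    · exact absurd h1 (key _ _ h j.2)
    · exact Fin.ext h
    · exact absurd h1.symm (key _ _ h i.2)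
  have hsurj : ∀ x : V, x ≠ 0 → ∃ j : ℕ, j < 15 ∧ (s ^ j) v = x := by
    have hb := (Nat.bijective_iff_injective_and_card _).2 ⟨hinj, by rw [hcV', Nat.card_eq_fintype_card,
      Fintype.card_fin]⟩
    intro x hx
    obtain ⟨j, hj⟩ := hb.2 ⟨x, hx⟩
    exact ⟨j, j.2, congrArg Subtype.val hj⟩
  have hall : ∀ h : V ≃ₗ[ZMod 2] V, h * s = s * h → h v = v → h = 1 := by
    intro h hc hhv
    ext x
    by_cases hx : x = 0
    · rw [hx, map_zero, map_zero]
    · obtain ⟨j, _, rfl⟩ := hsurj x hx
      have h1 : h * s ^ j = s ^ j * h := ((Commute.pow_right (show Commute h s from hc)) j)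
      have h2 : h ((s ^ j) v) = (s ^ j) (h v) := congrArg (fun t : V ≃ₗ[ZMod 2] V => t v) h1
      rw [h2, hhv]
      rfl
  have hs15 : s ^ 15 = 1 := by
    have h1 : (s ^ 15) v ≠ 0 := fun h => hv0 ((LinearEquiv.map_eq_zero_iff _).1 h)
    obtain ⟨j, hj, hj2⟩ := hsurj _ h1
    have h2 : s ^ 15 = s ^ j * s ^ (15 - j) := by rw [← pow_add]; congr 1; omega
    have h3 : (s ^ (15 - j)) v = v := by
      rw [h2] at hj2
      exact ((s ^ j).injective hj2).symm
    have h4 : j = 0 := by
      by_contra h4
      exact hk (15 - j) (by omega) (by omega) h3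
    rw [h4] at h3
    exact hall _ ((Commute.refl s).pow_left 15) h3
  -- the element of order 5
  have hy5 : (s ^ 3) ^ 5 = 1 := by rw [← pow_mul]; exact hs15
  have hyfix : ∀ x : V, (s ^ 3) x = x → x = 0 := by
    intro x hx
    by_contra h0
    obtain ⟨j, _, rfl⟩ := hsurj x h0
    apply hk 3 (by norm_num) (by norm_num)
    apply (s ^ j).injective
    have h1 : s ^ 3 * s ^ j = s ^ j * s ^ 3 := by rw [← pow_add, ← pow_add, add_comm]
    exact (congrArg (fun t : V ≃ₗ[ZMod 2] V => t v) h1).symm.trans hx
  have hcent : ∀ h : V ≃ₗ[ZMod 2] V, h * s ^ 3 = s ^ 3 * h → h v = v → h = 1 := by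
    intro h hc hhv
    let F : Submodule (ZMod 2) V := LinearMap.ker (h.toLinearMap - 1)
    have hF : ∀ x, x ∈ F ↔ h x = x := by
      intro x
      show (h.toLinearMap - 1) x = 0 ↔ _
      rw [LinearMap.sub_apply, sub_eq_zero]
      rfl
    have h1 := card_sub (by norm_num) hy5 F (by
      intro x hx
      rw [hF] at hx ⊢
      have h2 : h ((s ^ 3) x) = (s ^ 3) (h x) := congrArg (fun t : V ≃ₗ[ZMod 2] V => t x) hc
      rw [h2, hx]) fun x _ hx => hyfix x hx
    have h2 : finrank (ZMod 2) F ≤ 4 := hn ▸ Submodule.finrank_le F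
    have h3 : 0 < finrank (ZMod 2) F := by
      rw [Module.finrank_pos_iff]
      exact ⟨⟨⟨v, (hF v).2 hhv⟩, 0, fun h4 => hv0 (congrArg Subtype.val h4)⟩⟩
    have h4 : finrank (ZMod 2) F = 4 := by
      generalize finrank (ZMod 2) F = d at h1 h2 h3
      interval_cases d
      · exact absurd h1 (by decide)
      · exact absurd h1 (by decide)
      · exact absurd h1 (by decide)
      · rfl
    have h5 : F = ⊤ := Submodule.eq_top_of_finrank_eq (h4.trans hn.symm)
    ext x
    exact (hF x).1 (h5 ▸ Submodule.mem_top)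
  -- the group
  have : Finite H := Nat.finite_of_card_ne_zero (by rw [hH]; norm_num)
  have : Fact (Nat.Prime 5) := ⟨by norm_num⟩
  let s' : H := ⟨s, hs⟩
  have hso : orderOf s' = 15 := by
    rw [orderOf_eq_iff (by norm_num)]
    refine ⟨Subtype.ext hs15, fun m hm hm0 h => hk m hm0 hm ?_⟩
    have h1 : s ^ m = 1 := congrArg Subtype.val h
    rw [h1]
    rfl
  let y : H := s' ^ 3
  have hy : y ^ 5 = 1 := Subtype.ext hy5
  have hyo : orderOf y = 5 := by
    refine orderOf_eq_prime hy fun h => ?_
    have h1 : s ^ 3 = 1 := congrArg Subtype.val h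
    apply hk 3 (by norm_num) (by norm_num)
    rw [h1]
    rfl
  let P : Subgroup H := Subgroup.zpowers y
  have hP : Nat.card P = 5 := by rw [Nat.card_zpowers, hyo]
  have hPi : P.index = 504 := by
    have h1 := P.card_mul_index
    rw [hP, hH] at h1
    omega
  have hPg : IsPGroup 5 P := IsPGroup.of_card (n := 1) (by rw [hP]; rfl)
  let Q : Sylow 5 H := hPg.toSylow (by rw [hPi]; norm_num)
  have hQ := Q.card_eq_index_normalizer
  have hQ1 := card_sylow_modEq_one 5 H
  rw [hQ] at hQ1
  have hQP : (Q : Set H) = (P : Set H) := rfl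
  rw [hQP] at hQ1
  let N : Subgroup H := Subgroup.normalizer (P : Set H)
  have hN1 : N.index ≡ 1 [MOD 5] := hQ1
  have hN2 : Nat.card N * N.index = 2520 := by rw [N.card_mul_index, hH]
  -- the centralizer
  have hC : Nat.card (Subgroup.centralizer (P : Set H)) = 15 := by
    have hmem : ∀ h : H, h ∈ Subgroup.centralizer (P : Set H) → (h : V ≃ₗ[ZMod 2] V) * s ^ 3 = s ^ 3 * h := by
      intro h hh
      have h1 := Subgroup.mem_centralizer_iff.1 hh y (Subgroup.mem_zpowers y)
      exact (congrArg Subtype.val h1).symm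
    have h1 : Nat.card (Subgroup.centralizer (P : Set H)) ≤ 15 := by
      rw [← hcV']
      refine Nat.card_le_card_of_injective (fun h => ⟨(h : H).1 v, fun h1 => hv0
        ((LinearEquiv.map_eq_zero_iff _).1 h1)⟩) ?_
      intro a b hab
      have h2 : (a : H).1 v = (b : H).1 v := congrArg Subtype.val hab
      have h3 := hcent ((b⁻¹ * a : Subgroup.centralizer (P : Set H)) : H).1 (hmem _ (b⁻¹ * a).2) (by
        show (b : H).1⁻¹ ((a : H).1 v) = v
        rw [h2]
        exact (b : H).1.symm_apply_apply v)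
      have h4 : b⁻¹ * a = 1 := Subtype.ext (Subtype.ext h3)
      exact (inv_mul_eq_one.1 h4).symm
    have h2 : s' ∈ Subgroup.centralizer (P : Set H) := by
      rw [Subgroup.mem_centralizer_iff]
      intro z hz
      obtain ⟨k, rfl⟩ := Subgroup.mem_zpowers_iff.1 hz
      exact (((Commute.refl s').pow_left 3).zpow_left k)
    have h3 : 15 ∣ Nat.card (Subgroup.centralizer (P : Set H)) := by
      have h4 := orderOf_dvd_natCard (⟨s', h2⟩ : Subgroup.centralizer (P : Set H))
      rwa [Subgroup.orderOf_mk, hso] at h4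
    have h4 := Nat.le_of_dvd Nat.card_pos h3
    omega
  have hCN : Subgroup.centralizer (P : Set H) ≤ N := Subgroup.centralizer_le_normalizer (P : Set H)
  have hker : Nat.card P.normalizerMonoidHom.ker = 15 := by
    rw [Subgroup.normalizerMonoidHom_ker]
    rw [← hC]
    exact Nat.card_congr (Subgroup.subgroupOfEquivOfLe hCN).toEquiv
  have hran : Nat.card P.normalizerMonoidHom.range ∣ 4 := by
    have : IsCyclic P := inferInstance
    have h1 := IsCyclic.card_mulAut P
    rw [hP, Nat.totient_prime (by norm_num)] at h1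
    have h2 := Subgroup.card_subgroup_dvd_card P.normalizerMonoidHom.range
    rwa [h1] at h2
  have hcard : Nat.card N = Nat.card P.normalizerMonoidHom.range * 15 := by
    rw [← hker, ← Nat.card_congr (QuotientGroup.quotientKerEquivRange P.normalizerMonoidHom).toEquiv,
      ← Subgroup.card_eq_card_quotient_mul_card_subgroup]
  have h4 := Nat.le_of_dvd (by norm_num) hran
  generalize Nat.card P.normalizerMonoidHom.range = k at hcard hran h4
  rw [hcard] at hN2
  have h5 : k * N.index = 168 := by
    have : 15 * (k * N.index) = 15 * 168 := by rw [← mul_assoc, mul_comm 15 k]; exact hN2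
    exact Nat.eq_of_mul_eq_mul_left (by norm_num) this
  generalize N.index = m at h5 hN1
  interval_cases k
  · omega
  · have : m = 168 := by omega
    rw [this] at hN1
    exact absurd hN1 (by decide)
  · have : m = 84 := by omega
    rw [this] at hN1
    exact absurd hN1 (by decide)
  · exact absurd hran (by decide)
  · have : m = 42 := by omega
    rw [this] at hN1
    exact absurd hN1 (by decide)

end Pool.Agent.TWO
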