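import Pool.Agent.TWO.GDefs

/-!
# TWO/GImp: subgroups permuting blocks miss the elements of `Gd`
-/

open Polynomial Module

namespace Pool.Agent.TWO

variable {V : Type} [AddCommGroup V] [Module (ZMod 2) V] [FiniteDimensional (ZMod 2) V]

private theorem gi_card {ι : Type} [Fintype ι] {W : ι → Submodule (ZMod 2) V} {m : ℕ}
    (hind : iSupIndep W) (htop : iSup W = ⊤) (hdim : ∀ i, finrank (ZMod 2) (W i) = m) :
    finrank (ZMod 2) V = Fintype.card ι * m := by
  classical
  have h1 := DirectSum.isInternal_submodule_of_iSupIndep_of_iSup_eq_top hind htop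
  have e := LinearEquiv.ofBijective (DirectSum.coeLinearMap W) h1
  rw [← e.finrank_eq, Module.finrank_directSum, Finset.sum_congr rfl fun i _ => hdim i,
    Finset.sum_const, Finset.card_univ, smul_eq_mul]

private theorem gi_inj {ι : Type} {W : ι → Submodule (ZMod 2) V} {m : ℕ} (hm : 3 ≤ m)
    (hind : iSupIndep W) (hdim : ∀ i, finrank (ZMod 2) (W i) = m) (g : V ≃ₗ[ZMod 2] V) {π : ι → ι}
    (hπ : ∀ i, ∀ x ∈ W i, g x ∈ W (π i)) : Function.Injective π := by
  intro i j hij
  by_contra hne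
  have h1 : ∀ i, (W i).map (g : V →ₗ[ZMod 2] V) = W (π i) := by
    intro i
    apply Submodule.eq_of_le_of_finrank_eq
    · rintro _ ⟨x, hx, rfl⟩
      exact hπ i x hx
    · rw [LinearEquiv.finrank_map_eq, hdim, hdim]
  have h2 : W i = W j := by
    apply Submodule.map_injective_of_injective (f := (g : V →ₗ[ZMod 2] V)) g.injective
    show (W i).map (g : V →ₗ[ZMod 2] V) = (W j).map (g : V →ₗ[ZMod 2] V)
    rw [h1, h1, hij]
  have h3 : Disjoint (W i) (W j) := hind.pairwiseDisjoint hne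
  rw [h2, disjoint_self] at h3
  have h4 := hdim j
  rw [h3, finrank_bot] at h4
  omega

omit [FiniteDimensional (ZMod 2) V] in
private theorem gi_pow {ι : Type} {W : ι → Submodule (ZMod 2) V} {g : Module.End (ZMod 2) V}
    {π : ι → ι} (hπ : ∀ i, ∀ x ∈ W i, g x ∈ W (π i)) (k : ℕ) :
    ∀ i, ∀ x ∈ W i, (g ^ k) x ∈ W (π^[k] i) := by
  induction k with
  | zero => intro i x hx; simpa using hx
  | succ k ih =>
    intro i x hx
    rw [pow_succ, Function.iterate_succ_apply]
    exact ih _ _ (hπ i x hx)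

omit [FiniteDimensional (ZMod 2) V] in
private theorem gi_aeval {S : Submodule (ZMod 2) V} {G : Module.End (ZMod 2) V}
    (h : ∀ x ∈ S, G x ∈ S) (q : (ZMod 2)[X]) : ∀ x ∈ S, aeval G q x ∈ S := by
  induction q using Polynomial.induction_on with
  | C a =>
    intro x hx
    rw [aeval_C, Module.algebraMap_end_apply]
    exact S.smul_mem _ hx
  | add p q hp hq =>
    intro x hx
    rw [map_add]
    exact S.add_mem (hp x hx) (hq x hx)
  | monomial n a ih =>
    intro x hx
    have e : (C a * X ^ (n + 1) : (ZMod 2)[X]) = C a * X ^ n * X := by ring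
    rw [e, map_mul (aeval G) (C a * X ^ n) X, aeval_X]
    exact ih _ (h x hx)

omit [FiniteDimensional (ZMod 2) V] in
/-- one component of a nonzero vector -/
private theorem gi_split {ι : Type} [Fintype ι] {W : ι → Submodule (ZMod 2) V}
    (htop : iSup W = ⊤) {v : V} (hv : v ≠ 0) :
    ∃ i, ∃ w ∈ W i, ∃ c ∈ ⨆ (j : ι) (_ : j ≠ i), W j, w ≠ 0 ∧ v = w + c := by
  classical
  have h1 : v ∈ ⨆ i ∈ (Finset.univ : Finset ι), W i := by
    have : (⨆ i ∈ (Finset.univ : Finset ι), W i) = ⊤ := by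
      rw [← htop]
      simp
    rw [this]
    trivial
  obtain ⟨μ, hμ⟩ := (Submodule.mem_iSup_finset_iff_exists_sum _ _).1 h1
  have h2 : ∃ i, (μ i : V) ≠ 0 := by
    by_contra h
    push Not at h
    apply hv
    rw [← hμ]
    exact Finset.sum_eq_zero fun i _ => h i
  obtain ⟨i, hi⟩ := h2
  refine ⟨i, μ i, (μ i).2, ∑ j ∈ Finset.univ.erase i, (μ j : V), ?_, hi, ?_⟩
  · refine Submodule.sum_mem _ fun j hj => ?_
    exact Submodule.mem_iSup_of_mem j (Submodule.mem_iSup_of_mem (Finset.ne_of_mem_erase hj) (μ j).2)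
  · rw [← hμ, Finset.add_sum_erase _ (fun j => (μ j : V)) (Finset.mem_univ i)]

/-- an irreducible annihilator of a nonzero vector of a subspace has small degree -/
private theorem gi_deg {S : Submodule (ZMod 2) V} {G : Module.End (ZMod 2) V}
    (h : ∀ x ∈ S, G x ∈ S) {p : (ZMod 2)[X]} (hp : Irreducible p) {w : V} (hw : w ∈ S) (hw0 : w ≠ 0)
    (h0 : aeval G p w = 0) : p.natDegree ≤ finrank (ZMod 2) S := by
  let L : degreeLT (ZMod 2) p.natDegree →ₗ[ZMod 2] S :=
    { toFun := fun q => ⟨aeval G (q : (ZMod 2)[X]) w, gi_aeval h _ w hw⟩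
      map_add' := fun q r => Subtype.ext (by
        show aeval G ((q : (ZMod 2)[X]) + (r : (ZMod 2)[X])) w = _
        rw [map_add]
        rfl)
      map_smul' := fun a q => Subtype.ext (by
        show aeval G (a • (q : (ZMod 2)[X])) w = _
        rw [map_smul]
        rfl) }
  have hL : Function.Injective L := by
    rw [injective_iff_map_eq_zero]
    rintro ⟨q, hq⟩ h1
    by_contra hq0
    have hq0' : q ≠ 0 := fun h => hq0 (Subtype.ext h)
    have h2 : aeval G q w = 0 := congrArg Subtype.val h1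
    have h3 : ¬ p ∣ q := by
      intro hd
      have h4 := degree_le_of_dvd hd hq0'
      have h5 := mem_degreeLT.1 hq
      rw [degree_eq_natDegree hp.ne_zero] at h4
      exact absurd h5 (not_lt.2 h4)
    obtain ⟨a, b, hab⟩ := (hp.coprime_iff_not_dvd.2 h3)
    have h4 : aeval G (a * p + b * q) w = 0 := by
      rw [map_add, map_mul, map_mul]
      show aeval G a (aeval G p w) + aeval G b (aeval G q w) = 0
      rw [h0, h2, map_zero, map_zero, add_zero]
    rw [hab, map_one] at h4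
    exact hw0 h4
  have h5 := LinearMap.finrank_le_finrank_of_injective hL
  rw [(degreeLTEquiv (ZMod 2) p.natDegree).finrank_eq, finrank_fin_fun] at h5
  exact h5

/-- the power `α ^ s` of a root of `f` -/
private theorem gi_field {f : (ZMod 2)[X]} (hf : Irreducible f) (hX : f ≠ X) (s : ℕ) :
    ∃ p : (ZMod 2)[X], Irreducible p ∧ p.natDegree ∣ f.natDegree ∧ f ∣ expand (ZMod 2) s p ∧
      f ∣ X ^ (s * (2 ^ p.natDegree - 1)) - 1 := by
  have : Fact (Irreducible f) := ⟨hf⟩
  have hfd : FiniteDimensional (ZMod 2) (AdjoinRoot f) :=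
    (AdjoinRoot.powerBasis hf.ne_zero).finite
  obtain ⟨α, hα⟩ : ∃ α : AdjoinRoot f, α = AdjoinRoot.root f := ⟨_, rfl⟩
  have hmk : ∀ q : (ZMod 2)[X], aeval α q = 0 → f ∣ q := by
    intro q hq
    rw [hα, AdjoinRoot.aeval_eq] at hq
    exact AdjoinRoot.mk_eq_zero.1 hq
  have hint : IsIntegral (ZMod 2) (α ^ s) := IsIntegral.of_finite _ _
  have hα0 : α ≠ 0 := by
    intro h
    have h1 : f ∣ X := hmk X (by rw [aeval_X, h])
    have h2 : Associated f X := (hf.dvd_irreducible_iff_associated irreducible_X).1 h1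
    have h3 : f.Monic := by
      have h4 : f.leadingCoeff ≠ 0 := leadingCoeff_ne_zero.2 hf.ne_zero
      rcases (by decide : ∀ c : ZMod 2, c = 0 ∨ c = 1) f.leadingCoeff with h5 | h5
      · exact absurd h5 h4
      · exact h5
    exact hX (eq_of_monic_of_associated h3 monic_X h2)
  have hp := minpoly.irreducible hint
  refine ⟨minpoly (ZMod 2) (α ^ s), hp, ?_, ?_, ?_⟩
  · have h1 := minpoly.degree_dvd hint
    have h2 : finrank (ZMod 2) (AdjoinRoot f) = f.natDegree := by
      rw [(AdjoinRoot.powerBasis hf.ne_zero).finrank, AdjoinRoot.powerBasis_dim]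
    rwa [h2] at h1
  · apply hmk
    rw [expand_aeval]
    exact minpoly.aeval _ _
  · apply hmk
    obtain ⟨d, hd⟩ : ∃ d, d = (minpoly (ZMod 2) (α ^ s)).natDegree := ⟨_, rfl⟩
    have h1 : minpoly (ZMod 2) (α ^ s) ∣ X ^ (Nat.card (ZMod 2)) ^ d - X := by
      rw [← hp.natDegree_dvd_iff_dvd_X_pow_card_pow_sub_X, hd]
    have h2 : aeval (α ^ s) (X ^ (Nat.card (ZMod 2)) ^ d - X : (ZMod 2)[X]) = 0 := by
      obtain ⟨r, hr⟩ := h1
      rw [hr, map_mul, minpoly.aeval, zero_mul]
    rw [Nat.card_zmod, map_sub, map_pow, aeval_X] at h2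
    rw [← hd, map_sub, map_pow, aeval_X, map_one]
    have h3 : α ^ s ≠ 0 := pow_ne_zero _ hα0
    have h4 : (α ^ s) ^ (2 ^ d - 1) * α ^ s = 1 * α ^ s := by
      rw [← pow_succ, Nat.sub_add_cancel Nat.one_le_two_pow, one_mul]
      exact sub_eq_zero.1 h2
    rw [pow_mul, mul_right_cancel₀ h3 h4, sub_self]

theorem imp_excl {H : Subgroup (V ≃ₗ[ZMod 2] V)} (hB : Blocks H) {n : ℕ}
    (hn : finrank (ZMod 2) V = n) {g : V ≃ₗ[ZMod 2] V} (hg : g ∈ H) {e : ℕ} (he : n < 2 * e)
    {f : (ZMod 2)[X]} (hf : f ∈ Gd n e) (v : V) : ¬ AnnEq g.toLinearMap f v := by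
  intro hv
  obtain ⟨ι, hι, W, m, hm, hc, hind, htop, hdim, hperm⟩ := hB
  obtain ⟨⟨hfi, hfe, hfX⟩, -, hfd⟩ := hf
  have he0 : 0 < e := by
    rw [← hfe]
    exact hfi.natDegree_pos
  have hv0 : v ≠ 0 := by
    have h1 := hv.2 1 one_ne_zero (by rw [natDegree_one, hfe]; exact he0)
    intro h
    apply h1
    rw [h, map_zero]
  have hnm : n = Fintype.card ι * m := by rw [← hn, gi_card hind htop hdim]
  choose π hπ using hperm g hg
  have hinj := gi_inj hm hind hdim g hπ
  obtain ⟨i, w, hw, c, hcC, hw0, hvw⟩ := gi_split htop hv0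
  obtain ⟨s, hs⟩ : ∃ s, s = Function.minimalPeriod π i := ⟨_, rfl⟩
  have hper : π^[s] i = i := by
    rw [hs]
    exact Function.isPeriodicPt_minimalPeriod π i
  have hs1 : 1 ≤ s := by
    rw [hs]
    exact Function.minimalPeriod_pos_of_mem_periodicPts (hinj.mem_periodicPts i)
  have hst : s ≤ Fintype.card ι := by
    rw [hs]
    exact Function.minimalPeriod_le_card
  have h3s : 3 * s ≤ n := by
    rw [hnm, mul_comm 3 s]
    exact Nat.mul_le_mul hst hm
  have hme : m < e := by
    have h1 : 2 * m ≤ n := by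
      rw [hnm]
      exact Nat.mul_le_mul_right m hc
    omega
  obtain ⟨p, hp, hpd, hfp, hfX⟩ := gi_field hfi hfX s
  obtain ⟨G, hG⟩ : ∃ G : Module.End (ZMod 2) V, G = g.toLinearMap ^ s := ⟨_, rfl⟩
  have hGp := gi_pow (g := g.toLinearMap) hπ s
  have hGi : ∀ x ∈ W i, G x ∈ W i := by
    intro x hx
    have h1 := hGp i x hx
    rw [hper] at h1
    rw [hG]
    exact h1
  have hGC : ∀ x ∈ ⨆ (j : ι) (_ : j ≠ i), W j, G x ∈ ⨆ (j : ι) (_ : j ≠ i), W j := by
    have h1 : (⨆ (j : ι) (_ : j ≠ i), W j) ≤ (⨆ (j : ι) (_ : j ≠ i), W j).comap G := by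
      refine iSup_le fun j => iSup_le fun hj => ?_
      intro x hx
      rw [Submodule.mem_comap, hG]
      have h2 : π^[s] j ≠ i := by
        intro h
        rw [← hper] at h
        exact hj (hinj.iterate s h)
      exact Submodule.mem_iSup_of_mem _ (Submodule.mem_iSup_of_mem h2 (hGp j x hx))
    exact fun x hx => h1 hx
  have h0 : aeval G p v = 0 := by
    have h1 : aeval G p = aeval g.toLinearMap (expand (ZMod 2) s p) := by
      rw [expand_aeval, hG]
    rw [h1]
    obtain ⟨r, hr⟩ := hfp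
    rw [hr, mul_comm, map_mul]
    show aeval g.toLinearMap r (aeval g.toLinearMap f v) = 0
    rw [hv.1, map_zero]
  have hpw : aeval G p w = 0 := by
    have h1 := gi_aeval hGi p w hw
    have h2 := gi_aeval hGC p c hcC
    rw [hvw, map_add] at h0
    have h3 : aeval G p w = -aeval G p c := eq_neg_of_add_eq_zero_left h0
    have h4 : aeval G p w ∈ ⨆ (j : ι) (_ : j ≠ i), W j := by
      rw [h3]
      exact Submodule.neg_mem _ h2
    exact (Submodule.disjoint_def.1 (hind i)) _ h1 h4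
  have hdm := gi_deg hGi hp hw hw0 hpw
  rw [hdim] at hdm
  rw [hfe] at hpd
  exact hfd s hs1 h3s p.natDegree hpd (by omega) hfX

end Pool.Agent.TWO
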