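import Pool.Agent.TWO.GDefs

/-!
# TWO/GSelf: self-reciprocal subgroups miss the elements of `Gd`

If `f(g) v = 0` and `dim ker f(g) = dim ker f(g⁻¹)`, then both kernels have dimension at least
`e = deg f > n/2`, so they share a nonzero vector `x`; its annihilator under `g` is `(f)` and
contains `f.reverse`, so `f.reverse = f`.
-/

open Polynomial Module

namespace Pool.Agent.TWO

variable {V : Type} [AddCommGroup V] [Module (ZMod 2) V] [FiniteDimensional (ZMod 2) V]

private theorem ann_dvd {g : Module.End (ZMod 2) V} {f p : (ZMod 2)[X]} {v : V} (h : AnnEq g f v)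
    (hf : f.natDegree ≠ 0) (hp : aeval g p v = 0) : f ∣ p := by
  by_contra h0
  have h1 : p % f ≠ 0 := fun h1 => h0 ((EuclideanDomain.mod_eq_zero).1 h1)
  refine h.2 (p % f) h1 (natDegree_mod_lt p hf) ?_
  have h2 : p = f * (p / f) + p % f := (EuclideanDomain.div_add_mod p f).symm
  have h3 : aeval g p v = aeval g (f * (p / f)) v + aeval g (p % f) v := by
    conv_lhs => rw [h2]
    rw [map_add, LinearMap.add_apply]
  rw [hp, mul_comm, map_mul, Module.End.mul_apply, h.1, map_zero, zero_add] at h3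
  exact h3.symm

private theorem dim_ker {g : Module.End (ZMod 2) V} {f : (ZMod 2)[X]} {v : V} (h : AnnEq g f v) :
    f.natDegree ≤ finrank (ZMod 2) (LinearMap.ker (aeval g f)) := by
  let L : (ZMod 2)[X] →ₗ[ZMod 2] V := (LinearMap.applyₗ v) ∘ₗ (aeval g).toLinearMap
  have hL : ∀ q, L q = aeval g q v := fun q => rfl
  have hker : ∀ q, L q ∈ LinearMap.ker (aeval g f) := by
    intro q
    rw [LinearMap.mem_ker, hL, ← Module.End.mul_apply, ← map_mul, mul_comm, map_mul, Module.End.mul_apply, h.1,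
      map_zero]
  let L1 : degreeLT (ZMod 2) f.natDegree →ₗ[ZMod 2] LinearMap.ker (aeval g f) :=
    (L.codRestrict _ hker).domRestrict _
  have hinj : Function.Injective L1 := by
    rw [injective_iff_map_eq_zero]
    intro q hq
    by_contra h0
    have h1 : (q : (ZMod 2)[X]) ≠ 0 := fun h1 => h0 (Subtype.ext h1)
    refine h.2 q h1 ?_ (congrArg Subtype.val hq)
    have h2 := mem_degreeLT.1 q.2
    exact (natDegree_lt_iff_degree_lt h1).2 h2
  have h1 := LinearMap.finrank_le_finrank_of_injective hinj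
  rwa [(degreeLTEquiv (ZMod 2) f.natDegree).finrank_eq, finrank_fin_fun] at h1

private theorem ann_all {g : Module.End (ZMod 2) V} {f : (ZMod 2)[X]} (hf : Irreducible f) {x : V}
    (hx : aeval g f x = 0) (h0 : x ≠ 0) : AnnEq g f x := by
  refine ⟨hx, fun q hq hd hqx => h0 ?_⟩
  have h1 : IsCoprime f q := (hf.coprime_iff_not_dvd).2 fun h => absurd (natDegree_le_of_dvd h hq) (by omega)
  obtain ⟨a, b, hab⟩ := h1
  have h2 : aeval g (a * f + b * q) x = x := by rw [hab, map_one]; rfl
  rw [map_add, map_mul, map_mul, LinearMap.add_apply, Module.End.mul_apply, Module.End.mul_apply, hx, hqx, map_zero,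
    map_zero, add_zero] at h2
  exact h2.symm

private theorem rev_apply (g : V ≃ₗ[ZMod 2] V) (N : ℕ) (u : V) :
    ∀ p : (ZMod 2)[X], p.natDegree ≤ N →
      aeval g.toLinearMap (reflect N p) u =
        (g.toLinearMap ^ N) (aeval ((g⁻¹ : V ≃ₗ[ZMod 2] V) : V →ₗ[ZMod 2] V) p u) := by
  have hgi : ∀ x : V, g.toLinearMap (((g⁻¹ : V ≃ₗ[ZMod 2] V) : V →ₗ[ZMod 2] V) x) = x := by
    intro x
    have h1 : (g * g⁻¹) x = g (g⁻¹ x) := rfl
    rw [mul_inv_cancel] at h1
    exact h1.symm
  have hpow : ∀ (k : ℕ) (x : V), (g.toLinearMap ^ k)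
      ((((g⁻¹ : V ≃ₗ[ZMod 2] V) : V →ₗ[ZMod 2] V) ^ k) x) = x := by
    intro k
    induction k with
    | zero => intro x; rfl
    | succ k ih =>
      intro x
      rw [pow_succ g.toLinearMap, pow_succ' ((g⁻¹ : V ≃ₗ[ZMod 2] V) : V →ₗ[ZMod 2] V),
        Module.End.mul_apply, Module.End.mul_apply, hgi, ih]
  apply Polynomial.induction_with_natDegree_le
  · rw [reflect_zero, map_zero, map_zero, LinearMap.zero_apply, map_zero]
  · intro k r _ hk
    have h1 : reflect N (C r * X ^ k : (ZMod 2)[X]) = C r * X ^ (N - k) := by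
      rw [reflect_C_mul_X_pow, revAt_le hk]
    rw [h1, map_mul, map_mul, aeval_C, aeval_C, map_pow, map_pow, aeval_X, aeval_X,
      Module.End.mul_apply, Module.End.mul_apply, Module.algebraMap_end_apply,
      Module.algebraMap_end_apply, map_smul]
    congr 1
    have h2 : g.toLinearMap ^ N = g.toLinearMap ^ (N - k) * g.toLinearMap ^ k := by
      rw [← pow_add, Nat.sub_add_cancel hk]
    rw [h2, Module.End.mul_apply, hpow]
  · intro p q _ _ hp hq
    rw [reflect_add, map_add, map_add, LinearMap.add_apply, LinearMap.add_apply, map_add, hp, hq]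

theorem self_excl {H : Subgroup (V ≃ₗ[ZMod 2] V)} (hS : SelfRec H) {n : ℕ}
    (hn : finrank (ZMod 2) V = n) {g : V ≃ₗ[ZMod 2] V} (hg : g ∈ H) {e : ℕ} (he : n < 2 * e)
    {f : (ZMod 2)[X]} (hf : f ∈ Gd n e) (v : V) : ¬ AnnEq g.toLinearMap f v := by
  intro hv
  obtain ⟨⟨hfi, hfd, _⟩, hrev, _⟩ := hf
  have h1 := dim_ker hv
  have h2 := hS g hg f
  set U := LinearMap.ker (aeval (g : V →ₗ[ZMod 2] V) f) with hU
  set U' := LinearMap.ker (aeval ((g⁻¹ : V ≃ₗ[ZMod 2] V) : V →ₗ[ZMod 2] V) f) with hU'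
  have hdis : Disjoint U U' := by
    rw [Submodule.disjoint_def]
    intro x hx hx'
    by_contra hx0
    have h3 : AnnEq g.toLinearMap f x := ann_all hfi (LinearMap.mem_ker.mp hx) hx0
    have h4 : aeval g.toLinearMap f.reverse x = 0 := by
      have h5 := rev_apply g f.natDegree x f le_rfl
      rw [LinearMap.mem_ker.mp hx', map_zero] at h5
      exact h5
    obtain ⟨c, hc⟩ := ann_dvd h3 (by omega) h4
    have hr0 : f.reverse ≠ 0 := fun h => hfi.ne_zero (reverse_eq_zero.mp h)
    have hc0 : c ≠ 0 := fun h => hr0 (by rw [hc, h, mul_zero])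
    have h5 : f.reverse.natDegree ≤ f.natDegree := reverse_natDegree_le f
    rw [hc, natDegree_mul hfi.ne_zero hc0] at h5
    have h6 : c.natDegree = 0 := by omega
    obtain ⟨a, ha⟩ := natDegree_eq_zero.mp h6
    apply hrev
    rcases (by decide : ∀ c : ZMod 2, c = 0 ∨ c = 1) a with h | h
    · exact absurd (by rw [← ha, h, C_0]) hc0
    · rw [hc, ← ha, h, C_1, mul_one]
  have h3 := Submodule.finrank_add_finrank_le_of_disjoint hdis
  have h4 : finrank (ZMod 2) U = finrank (ZMod 2) U' := h2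
  have h5 : f.natDegree ≤ finrank (ZMod 2) U := h1
  omega

end Pool.Agent.TWO
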