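import Pool.Agent.TWO.GDefs

/-!
# TWO/GE1: structure of the elements of type `(n-1, 1)`

`E1 n g`: `g` has a vector whose annihilator is generated by a primitive polynomial `f` of degree
`n - 1`, and a nonzero fixed vector `w`.  Then `V = ker f(g) ⊕ ⟨w⟩` and the powers of `g` are
transitive on the nonzero vectors of `ker f(g)`.
-/

open Polynomial Module

namespace Pool.Agent.TWO

variable {V : Type} [AddCommGroup V] [Module (ZMod 2) V] [FiniteDimensional (ZMod 2) V]

private theorem ann_dvd {g : Module.End (ZMod 2) V} {f p : (ZMod 2)[X]} {v : V} (h : AnnEq g f v)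
    (hf : f.natDegree ≠ 0) (hp : aeval g p v = 0) : f ∣ p := by
  by_contra h0
  have h1 : p % f ≠ 0 := fun h1 => h0 ((EuclideanDomain.mod_eq_zero).1 h1)
  refine h.2 (p % f) h1 (natDegree_mod_lt p hf) ?_
  have h2 : p = f * (p / f) + p % f := (EuclideanDomain.div_add_mod p f).symm
  have h3 : aeval g p v = aeval g (f * (p / f)) v + aeval g (p % f) v := by
    conv_lhs => rw [h2]
    rw [map_add, LinearMap.add_apply]
  rw [hp, mul_comm, map_mul, Module.End.mul_apply, h.1, map_zero, zero_add] at h3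
  exact h3.symm

private theorem pow_apply' (s : V ≃ₗ[ZMod 2] V) (k : ℕ) (v : V) : (s.toLinearMap ^ k) v = (s ^ k) v := by
  induction k with
  | zero => rfl
  | succ k ih =>
    rw [pow_succ', pow_succ', Module.End.mul_apply, ih]
    rfl

private theorem dim_ker {g : Module.End (ZMod 2) V} {f : (ZMod 2)[X]} {v : V} (h : AnnEq g f v) :
    f.natDegree ≤ finrank (ZMod 2) (LinearMap.ker (aeval g f)) := by
  let L : (ZMod 2)[X] →ₗ[ZMod 2] V := (LinearMap.applyₗ v) ∘ₗ (aeval g).toLinearMap
  have hL : ∀ q, L q = aeval g q v := fun q => rfl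
  have hker : ∀ q, L q ∈ LinearMap.ker (aeval g f) := by
    intro q
    rw [LinearMap.mem_ker, hL, ← Module.End.mul_apply, ← map_mul, mul_comm, map_mul, Module.End.mul_apply, h.1,
      map_zero]
  let L1 : degreeLT (ZMod 2) f.natDegree →ₗ[ZMod 2] LinearMap.ker (aeval g f) :=
    (L.codRestrict _ hker).domRestrict _
  have hinj : Function.Injective L1 := by
    rw [injective_iff_map_eq_zero]
    intro q hq
    by_contra h0
    have h1 : (q : (ZMod 2)[X]) ≠ 0 := fun h1 => h0 (Subtype.ext h1)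
    refine h.2 q h1 ?_ (congrArg Subtype.val hq)
    have h2 := mem_degreeLT.1 q.2
    exact (natDegree_lt_iff_degree_lt h1).2 h2
  have h1 := LinearMap.finrank_le_finrank_of_injective hinj
  rwa [(degreeLTEquiv (ZMod 2) f.natDegree).finrank_eq, finrank_fin_fun] at h1

private theorem ann_all {g : Module.End (ZMod 2) V} {f : (ZMod 2)[X]} (hf : Irreducible f) {x : V}
    (hx : aeval g f x = 0) (h0 : x ≠ 0) : AnnEq g f x := by
  refine ⟨hx, fun q hq hd hqx => h0 ?_⟩
  have h1 : IsCoprime f q := (hf.coprime_iff_not_dvd).2 fun h => absurd (natDegree_le_of_dvd h hq) (by omega)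
  obtain ⟨a, b, hab⟩ := h1
  have h2 : aeval g (a * f + b * q) x = x := by rw [hab, map_one]; rfl
  rw [map_add, map_mul, map_mul, LinearMap.add_apply, Module.End.mul_apply, Module.End.mul_apply, hx, hqx, map_zero,
    map_zero, add_zero] at h2
  exact h2.symm

theorem e1_data {n : ℕ} (h3 : 3 ≤ n) (hn : finrank (ZMod 2) V = n) {g : V ≃ₗ[ZMod 2] V}
    (hg : E1 n g) : ∃ (w : V) (U : Submodule (ZMod 2) V), w ≠ 0 ∧ g w = w ∧
      IsCompl U (Submodule.span (ZMod 2) {w}) ∧ (∀ x ∈ U, g x ∈ U) ∧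
      ∀ x ∈ U, ∀ y ∈ U, x ≠ 0 → y ≠ 0 → ∃ j : ℕ, (g ^ j) x = y := by
  classical
  obtain ⟨⟨f, ⟨⟨hfi, hfd, _⟩, hfp⟩, v, hv⟩, w, hw, hgw⟩ := hg
  set U : Submodule (ZMod 2) V := LinearMap.ker (aeval g.toLinearMap f) with hU
  have hmem : ∀ x, x ∈ U ↔ aeval g.toLinearMap f x = 0 := fun x => LinearMap.mem_ker
  have hdU : n - 1 ≤ finrank (ZMod 2) U := by
    have := dim_ker hv
    rwa [hfd] at this
  have hwU : w ∉ U := by
    intro h
    have h1 := ann_all hfi ((hmem w).mp h) hw
    refine h1.2 (X - 1) (X_sub_C_ne_zero (1 : ZMod 2)) ?_ ?_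
    · have : (X - 1 : (ZMod 2)[X]).natDegree = 1 := natDegree_X_sub_C (1 : ZMod 2)
      rw [this, hfd]
      omega
    · rw [map_sub, aeval_X, map_one, LinearMap.sub_apply]
      show g w - w = 0
      rw [hgw, sub_self]
  have hdis : Disjoint U (Submodule.span (ZMod 2) {w}) := by
    rw [Submodule.disjoint_def]
    intro x hx hxw
    obtain ⟨a, rfl⟩ := Submodule.mem_span_singleton.mp hxw
    rcases (by decide : ∀ c : ZMod 2, c = 0 ∨ c = 1) a with h | h
    · rw [h, zero_smul]
    · rw [h, one_smul] at hx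
      exact absurd hx hwU
  have hspan : finrank (ZMod 2) (Submodule.span (ZMod 2) {w}) = 1 := finrank_span_singleton hw
  have htop : U ⊔ Submodule.span (ZMod 2) {w} = ⊤ := by
    apply Submodule.eq_top_of_disjoint _ _ _ hdis
    rw [hspan, hn]
    omega
  have hcompl : IsCompl U (Submodule.span (ZMod 2) {w}) := ⟨hdis, codisjoint_iff.mpr htop⟩
  have hdim := Submodule.finrank_add_eq_of_isCompl hcompl
  rw [hspan, hn] at hdim
  have hinv : ∀ x ∈ U, g x ∈ U := by
    intro x hx
    rw [hmem] at hx ⊢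
    have h1 : aeval g.toLinearMap f (g x) = aeval g.toLinearMap (f * X) x := by
      rw [map_mul, aeval_X, Module.End.mul_apply]; rfl
    rw [h1, mul_comm, map_mul, Module.End.mul_apply, hx, map_zero]
  have hpinv : ∀ (j : ℕ), ∀ x ∈ U, (g ^ j) x ∈ U := by
    intro j
    induction j with
    | zero => intro x hx; exact hx
    | succ j ih =>
      intro x hx
      have h1 : (g ^ (j + 1)) x = g ((g ^ j) x) := by rw [pow_succ']; rfl
      rw [h1]
      exact hinv _ (ih x hx)
  refine ⟨w, U, hw, hgw, hcompl, hinv, ?_⟩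
  intro x hx y hy hx0 hy0
  have : Finite V := Module.finite_of_finite (ZMod 2)
  have hann : AnnEq g.toLinearMap f x := ann_all hfi ((hmem x).mp hx) hx0
  set M := 2 ^ (n - 1) - 1 with hM
  let F : Fin M → {z : U // z ≠ 0} := fun j => ⟨⟨(g ^ (j : ℕ)) x, hpinv j x hx⟩, fun h => hx0 (by
    have h1 : (g ^ (j : ℕ)) x = 0 := congrArg Subtype.val h
    exact (LinearEquiv.map_eq_zero_iff _).mp h1)⟩
  have key : ∀ i j : ℕ, i < j → j < M → (g ^ i) x = (g ^ j) x → False := by
    intro i j hij hjM h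
    have h1 : (g ^ (j - i)) x = x := by
      have h2 : g ^ j = g ^ i * g ^ (j - i) := by rw [← pow_add, Nat.add_sub_cancel' hij.le]
      rw [h2] at h
      have h4 : (g ^ i) x = (g ^ i) ((g ^ (j - i)) x) := h
      exact ((g ^ i).injective h4).symm
    refine hfp (j - i) (by omega) (by omega) (ann_dvd hann (by omega) ?_)
    rw [map_sub, map_pow, aeval_X, map_one, LinearMap.sub_apply, pow_apply', h1]
    exact sub_self x
  have hFinj : Function.Injective F := by
    intro i j hij
    have h1 : (g ^ (i : ℕ)) x = (g ^ (j : ℕ)) x := congrArg (fun z => ((z.1 : U) : V)) hij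
    rcases lt_trichotomy (i : ℕ) (j : ℕ) with h | h | h
    · exact absurd (key _ _ h j.2 h1) id
    · exact Fin.ext h
    · exact absurd (key _ _ h i.2 h1.symm) id
  have hcardU : Nat.card U = 2 ^ (n - 1) := by
    rw [Module.natCard_eq_pow_finrank (K := ZMod 2), Nat.card_zmod]
    congr 1
    omega
  have hcard : Nat.card {z : U // z ≠ 0} = M := by
    have : Fintype U := Fintype.ofFinite _
    rw [Nat.card_eq_fintype_card, Fintype.card_subtype_compl, Fintype.card_subtype_eq,
      ← Nat.card_eq_fintype_card, hcardU]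
  have hbij : Function.Bijective F := by
    have : Fintype {z : U // z ≠ 0} := Fintype.ofFinite _
    rw [Fintype.bijective_iff_injective_and_card]
    refine ⟨hFinj, ?_⟩
    rw [Fintype.card_fin, ← Nat.card_eq_fintype_card, hcard]
  obtain ⟨j, hj⟩ := hbij.2 ⟨⟨y, hy⟩, fun h => hy0 (congrArg Subtype.val h)⟩
  exact ⟨j, congrArg (fun z => ((z.1 : U) : V)) hj⟩

end Pool.Agent.TWO
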