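import Pool.Agent.TWO.GDefs

/-!
# TWO/GE2 (1.6 h): structure of the elements of type `(n-3, 3)`, `n = 8, 10, 12`

`E2 n g`: `AnnEq g f v`, `f` irreducible of degree `e = n - 3` (`5, 7, 9`), `AnnEq g p v'`, `p`
irreducible of degree `3`.  Put `U = ker f(g)`, `W = ker p(g)`: invariant, dimensions `≥ e` and
`≥ 3` (independent vectors `g^j v`, `g^j v'`), intersection `0` (`f`, `p` coprime), so
`IsCompl U W`, `finrank U = e`, `finrank W = 3`.  `c = g^7`.
* on `W`: `p ∣ X^7 - 1` (`p ∣ X^(2^3-1) - 1`, `p ≠ X`), so `c = 1` on `W`.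
* on `U`: `f ∣ X^(2^e-1) - 1`, `2^5 - 1 = 31`, `2^7 - 1 = 127` (prime), `2^9 - 1 = 7 · 73`.  With
  `r = 31, 127, 73` we get `c^r = 1` on `U` (`31, 127` divide `7 r`; `7 · 73 = 511`), so `c^r = 1`.
* every nonzero `x ∈ U` has annihilator `(f)` under `g` (irreducible).  `c` is nontrivial on `U`:
  otherwise `f ∣ X^7 - 1`, but the irreducible factors of `X^7 - 1 = (X-1)(X^3+X+1)(X^3+X^2+1)`
  have degree `≤ 3` (or: `α^7 = 1` with `ord(2 mod 7) = 3` puts `α` in the field with 8 elements).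
* irreducible: let `S ≤ U` be invariant under `c`, `S ≠ ⊥`, `x ∈ S`, `x ≠ 0`.  Identify `U` with
  `K = AdjoinRoot f` by `q(g) x ↔ q(α)` (`2^e` elements).  The subring `ZMod 2[α^7]` of `K` is a
  subfield with `2^d` elements, `d ∣ e`; if `d < e` then (`e` = 5, 7: `d = 1`; `e = 9`: `d ∣ 3`)
  `α^7` lies in the field with `2`, resp. `8`, elements, `α^(7(2^d-1)) = 1` with `d = 1` resp. `3`;
  together with `α^(2^e-1) = 1`: `α = 1`, resp. `α^7 = 1` (as `gcd(49, 511) = 7`), impossible as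
  above.  So `ZMod 2[α^7] = K`, hence `S ∋ q(g) x` for all `q` and `S = U`.
-/

open Polynomial Module

namespace Pool.Agent.TWO

variable {V : Type} [AddCommGroup V] [Module (ZMod 2) V] [FiniteDimensional (ZMod 2) V]

private theorem ann_dvd {g : Module.End (ZMod 2) V} {f p : (ZMod 2)[X]} {v : V} (h : AnnEq g f v)
    (hf : f.natDegree ≠ 0) (hp : aeval g p v = 0) : f ∣ p := by
  by_contra h0
  have h1 : p % f ≠ 0 := fun h1 => h0 ((EuclideanDomain.mod_eq_zero).1 h1)
  refine h.2 (p % f) h1 (natDegree_mod_lt p hf) ?_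
  have h2 : p = f * (p / f) + p % f := (EuclideanDomain.div_add_mod p f).symm
  have h3 : aeval g p v = aeval g (f * (p / f)) v + aeval g (p % f) v := by
    conv_lhs => rw [h2]
    rw [map_add, LinearMap.add_apply]
  rw [hp, mul_comm, map_mul, Module.End.mul_apply, h.1, map_zero, zero_add] at h3
  exact h3.symm

private theorem pow_apply' (s : V ≃ₗ[ZMod 2] V) (k : ℕ) (v : V) : (s.toLinearMap ^ k) v = (s ^ k) v := by
  induction k with
  | zero => rfl
  | succ k ih =>
    rw [pow_succ', pow_succ', Module.End.mul_apply, ih]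
    rfl

private theorem card_sub {c : V ≃ₗ[ZMod 2] V} {r : ℕ} (hr : r.Prime) (hcr : c ^ r = 1)
    (S : Submodule (ZMod 2) V) (hcS : ∀ x ∈ S, c x ∈ S) (h0 : ∀ x ∈ S, c x = x → x = 0) :
    2 ^ finrank (ZMod 2) S ≡ 1 [MOD r] := by
  classical
  have : Fact r.Prime := ⟨hr⟩
  have : Finite V := Module.finite_of_finite (ZMod 2)
  have : Fintype S := Fintype.ofFinite _
  let f : Function.End S := fun x => ⟨c x, hcS x x.2⟩
  have hf : ∀ (k : ℕ) (x : S), ((f ^ k) x : V) = (c ^ k) x := by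
    intro k
    induction k with
    | zero => intro x; rfl
    | succ k ih =>
      intro x
      rw [pow_succ', pow_succ']
      show c ((f ^ k) x : V) = c ((c ^ k) x)
      rw [ih]
  have hf1 : f ^ r ^ 1 = 1 := by
    rw [pow_one]
    funext x
    apply Subtype.ext
    rw [hf, hcr]
    rfl
  have h1 := Equiv.Perm.card_fixedPoints_modEq hf1
  have h2 : Fintype.card S = 2 ^ finrank (ZMod 2) S := by
    rw [← Nat.card_eq_fintype_card, Module.natCard_eq_pow_finrank (K := ZMod 2), Nat.card_zmod]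
  have h3 : Fintype.card f.fixedPoints = 1 := by
    rw [Fintype.card_eq_one_iff]
    refine ⟨⟨0, ?_⟩, ?_⟩
    · show f 0 = 0
      apply Subtype.ext
      show c 0 = 0
      exact map_zero c
    · rintro ⟨x, hx⟩
      apply Subtype.ext
      apply Subtype.ext
      have h4 : f x = x := hx
      exact h0 x x.2 (congrArg Subtype.val h4)
  rw [h2, h3] at h1
  exact h1

private theorem pow_dvd {f : (ZMod 2)[X]} (hf : Irreducible f) (h2 : 2 ≤ f.natDegree) :
    f ∣ X ^ (2 ^ f.natDegree - 1) - 1 := by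
  classical
  have hfact : Fact (Irreducible f) := ⟨hf⟩
  have hfin : Module.Finite (ZMod 2) (AdjoinRoot f) := (AdjoinRoot.powerBasis hf.ne_zero).finite
  have hfin2 : Finite (AdjoinRoot f) := Module.finite_of_finite (ZMod 2)
  have hft : Fintype (AdjoinRoot f) := Fintype.ofFinite _
  have hc : Fintype.card (AdjoinRoot f) = 2 ^ f.natDegree := by
    rw [← Nat.card_eq_fintype_card, Module.natCard_eq_pow_finrank (K := ZMod 2), Nat.card_zmod,
      (AdjoinRoot.powerBasis hf.ne_zero).finrank, AdjoinRoot.powerBasis_dim]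
  have h0 : AdjoinRoot.root f ≠ 0 := by
    intro h
    have h3 : AdjoinRoot.mk f X = 0 := h
    rw [AdjoinRoot.mk_eq_zero] at h3
    have h4 := natDegree_le_of_dvd h3 X_ne_zero
    rw [natDegree_X] at h4
    omega
  have h3 := FiniteField.pow_card_sub_one_eq_one (AdjoinRoot.root f) h0
  rw [← AdjoinRoot.mk_eq_zero, map_sub, map_pow, AdjoinRoot.mk_X, map_one, ← hc, h3, sub_self]

private theorem pow_fix {g : V ≃ₗ[ZMod 2] V} {f : (ZMod 2)[X]} {k : ℕ} (h : f ∣ X ^ k - 1) {x : V}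
    (hx : aeval g.toLinearMap f x = 0) : (g ^ k) x = x := by
  obtain ⟨q, hq⟩ := h
  have h1 : aeval g.toLinearMap (X ^ k - 1 : (ZMod 2)[X]) x = 0 := by
    rw [hq, mul_comm, map_mul, Module.End.mul_apply, hx, map_zero]
  rw [map_sub, map_pow, aeval_X, map_one, LinearMap.sub_apply, pow_apply', sub_eq_zero] at h1
  exact h1

private theorem dim_ker {g : Module.End (ZMod 2) V} {f : (ZMod 2)[X]} {v : V} (h : AnnEq g f v) :
    f.natDegree ≤ finrank (ZMod 2) (LinearMap.ker (aeval g f)) := by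
  let L : (ZMod 2)[X] →ₗ[ZMod 2] V := (LinearMap.applyₗ v) ∘ₗ (aeval g).toLinearMap
  have hL : ∀ q, L q = aeval g q v := fun q => rfl
  have hker : ∀ q, L q ∈ LinearMap.ker (aeval g f) := by
    intro q
    rw [LinearMap.mem_ker, hL, ← Module.End.mul_apply, ← map_mul, mul_comm, map_mul, Module.End.mul_apply, h.1,
      map_zero]
  let L1 : degreeLT (ZMod 2) f.natDegree →ₗ[ZMod 2] LinearMap.ker (aeval g f) :=
    (L.codRestrict _ hker).domRestrict _
  have hinj : Function.Injective L1 := by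
    rw [injective_iff_map_eq_zero]
    intro q hq
    by_contra h0
    have h1 : (q : (ZMod 2)[X]) ≠ 0 := fun h1 => h0 (Subtype.ext h1)
    refine h.2 q h1 ?_ (congrArg Subtype.val hq)
    have h2 := mem_degreeLT.1 q.2
    exact (natDegree_lt_iff_degree_lt h1).2 h2
  have h1 := LinearMap.finrank_le_finrank_of_injective hinj
  rwa [(degreeLTEquiv (ZMod 2) f.natDegree).finrank_eq, finrank_fin_fun] at h1

private theorem ann_all {g : Module.End (ZMod 2) V} {f : (ZMod 2)[X]} (hf : Irreducible f) {x : V}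
    (hx : aeval g f x = 0) (h0 : x ≠ 0) : AnnEq g f x := by
  refine ⟨hx, fun q hq hd hqx => h0 ?_⟩
  have h1 : IsCoprime f q := (hf.coprime_iff_not_dvd).2 fun h => absurd (natDegree_le_of_dvd h hq) (by omega)
  obtain ⟨a, b, hab⟩ := h1
  have h2 : aeval g (a * f + b * q) x = x := by rw [hab, map_one]; rfl
  rw [map_add, map_mul, map_mul, LinearMap.add_apply, Module.End.mul_apply, Module.End.mul_apply, hx, hqx, map_zero,
    map_zero, add_zero] at h2
  exact h2.symm

private theorem not_dvd7 {f : (ZMod 2)[X]} (hf : Irreducible f) (h3 : 3 < f.natDegree) : ¬ f ∣ X ^ 7 - 1 := by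
  have h2 : (2 : (ZMod 2)[X]) = 0 := by
    have : ((2 : ℕ) : (ZMod 2)[X]) = 0 := CharP.cast_eq_zero _ _
    exact_mod_cast this
  have h7 : (X ^ 7 - 1 : (ZMod 2)[X]) = (X - C 1) * (X ^ 3 + X + 1) * (X ^ 3 + X ^ 2 + 1) := by
    rw [C_1]
    linear_combination (-X ^ 3 * (X - 1)) * h2
  have hd : ∀ q : (ZMod 2)[X], q.natDegree ≤ 3 → q ≠ 0 → ¬ f ∣ q := fun q hq h0 h =>
    absurd (natDegree_le_of_dvd h h0) (by omega)
  have m1 : (X ^ 3 + X + 1 : (ZMod 2)[X]).natDegree = 3 := by compute_degree!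
  have m2 : (X ^ 3 + X ^ 2 + 1 : (ZMod 2)[X]).natDegree = 3 := by compute_degree!
  have n1 : (X ^ 3 + X + 1 : (ZMod 2)[X]) ≠ 0 := fun h => by
    rw [h, natDegree_zero] at m1
    omega
  have n2 : (X ^ 3 + X ^ 2 + 1 : (ZMod 2)[X]) ≠ 0 := fun h => by
    rw [h, natDegree_zero] at m2
    omega
  rw [h7]
  intro h
  rcases hf.prime.dvd_or_dvd h with h | h
  · rcases hf.prime.dvd_or_dvd h with h | h
    · exact hd _ (by rw [natDegree_X_sub_C]; norm_num) (X_sub_C_ne_zero 1) h
    · exact hd _ m1.le n1 h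
  · exact hd _ m2.le n2 h

theorem e2_data {n r : ℕ} (hnr : (n = 8 ∧ r = 31) ∨ (n = 10 ∧ r = 127) ∨ (n = 12 ∧ r = 73))
    (hn : finrank (ZMod 2) V = n) {g : V ≃ₗ[ZMod 2] V} (hg : E2 n g) :
    (g ^ 7) ^ r = 1 ∧ ∃ U W : Submodule (ZMod 2) V, IsCompl U W ∧ finrank (ZMod 2) W = 3 ∧
      finrank (ZMod 2) U = n - 3 ∧ (∀ x ∈ W, (g ^ 7) x = x) ∧ (∀ x ∈ U, (g ^ 7) x ∈ U) ∧
      (∀ S : Submodule (ZMod 2) V, S ≤ U → (∀ x ∈ S, (g ^ 7) x ∈ S) → S = ⊥ ∨ S = U) ∧
      ∃ x ∈ U, (g ^ 7) x ≠ x := by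
  obtain ⟨⟨f, hf, v, hv⟩, p, hp, w, hw⟩ := hg
  have hfd : f.natDegree = n - 3 := hf.2.1
  have hpd : p.natDegree = 3 := hp.2.1
  have hn8 : 8 ≤ n := by omega
  have hr : r.Prime := by
    rcases hnr with ⟨_, rfl⟩ | ⟨_, rfl⟩ | ⟨_, rfl⟩ <;> norm_num
  obtain ⟨U, hU⟩ : ∃ U, U = LinearMap.ker (aeval g.toLinearMap f) := ⟨_, rfl⟩
  obtain ⟨W, hW⟩ : ∃ W, W = LinearMap.ker (aeval g.toLinearMap p) := ⟨_, rfl⟩
  have hmU : ∀ x, x ∈ U ↔ aeval g.toLinearMap f x = 0 := fun x => by rw [hU, LinearMap.mem_ker]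
  have hmW : ∀ x, x ∈ W ↔ aeval g.toLinearMap p x = 0 := fun x => by rw [hW, LinearMap.mem_ker]
  have hdU : n - 3 ≤ finrank (ZMod 2) U := by
    have := dim_ker hv
    rwa [hfd, ← hU] at this
  have hdW : 3 ≤ finrank (ZMod 2) W := by
    have := dim_ker hw
    rwa [hpd, ← hW] at this
  have hdisj : Disjoint U W := by
    rw [Submodule.disjoint_def]
    intro x hxU hxW
    by_contra h0
    rw [hmU] at hxU
    rw [hmW] at hxW
    exact (ann_all hf.1 hxU h0).2 p hp.1.ne_zero (by omega) hxW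
  have h1 := Submodule.finrank_sup_add_finrank_inf_eq U W
  rw [hdisj.eq_bot, finrank_bot, add_zero] at h1
  have h2 : finrank (ZMod 2) (U ⊔ W : Submodule (ZMod 2) V) ≤ n := hn ▸ Submodule.finrank_le _
  have hfU : finrank (ZMod 2) U = n - 3 := by omega
  have hfW : finrank (ZMod 2) W = 3 := by omega
  have hsup : U ⊔ W = ⊤ := Submodule.eq_top_of_finrank_eq (by rw [hn]; omega)
  have hcompl : IsCompl U W := ⟨hdisj, codisjoint_iff.2 hsup⟩
  -- the powers
  have hpW : ∀ x ∈ W, (g ^ 7) x = x := by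
    intro x hx
    have h3 := pow_dvd hp.1 (by omega)
    rw [hpd] at h3
    exact pow_fix h3 ((hmW x).1 hx)
  have hfr : f ∣ X ^ (7 * r) - 1 := by
    have h3 := pow_dvd hf.1 (by omega)
    rw [hfd] at h3
    refine h3.trans ?_
    obtain ⟨k, hk⟩ : 2 ^ (n - 3) - 1 ∣ 7 * r := by
      rcases hnr with ⟨rfl, rfl⟩ | ⟨rfl, rfl⟩ | ⟨rfl, rfl⟩
      · exact ⟨7, by norm_num⟩
      · exact ⟨7, by norm_num⟩
      · exact ⟨1, by norm_num⟩
    rw [hk]
    exact pow_one_sub_dvd_pow_mul_sub_one _ _ _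
  have hcr : (g ^ 7) ^ r = 1 := by
    rw [← pow_mul]
    ext x
    obtain ⟨u, hu, w, hw, rfl⟩ := Submodule.mem_sup.1 (hsup ▸ Submodule.mem_top : x ∈ U ⊔ W)
    rw [map_add, pow_fix hfr ((hmU u).1 hu)]
    have h3 : (g ^ (7 * r)) w = w := by
      rw [pow_mul]
      generalize r = k
      induction k with
      | zero => rfl
      | succ k ih =>
        rw [pow_succ]
        show ((g ^ 7) ^ k) ((g ^ 7) w) = w
        rw [hpW w hw, ih]
    rw [h3]
    rfl
  have hcU : ∀ x ∈ U, (g ^ 7) x ∈ U := by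
    intro x hx
    rw [hmU] at hx ⊢
    have h3 : (g ^ 7) x = aeval g.toLinearMap (X ^ 7 : (ZMod 2)[X]) x := by
      rw [map_pow, aeval_X, pow_apply']
    rw [h3, ← Module.End.mul_apply, ← map_mul, mul_comm, map_mul, Module.End.mul_apply, hx, map_zero]
  have hfixU : ∀ x ∈ U, (g ^ 7) x = x → x = 0 := by
    intro x hx h3
    by_contra h0
    have h4 := ann_all hf.1 ((hmU x).1 hx) h0
    refine not_dvd7 hf.1 (by omega) (ann_dvd h4 (by omega) ?_)
    rw [map_sub, map_pow, aeval_X, map_one, LinearMap.sub_apply, pow_apply', h3]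
    exact sub_self x
  refine ⟨hcr, U, W, hcompl, hfW, hfU, hpW, hcU, ?_, v, (hmU v).2 hv.1, fun h3 => ?_⟩
  · intro S hSU hcS
    have h3 := card_sub hr hcr S hcS fun x hx => hfixU x (hSU hx)
    have h4 := Submodule.finrank_mono hSU
    rw [hfU] at h4
    have h5 : finrank (ZMod 2) S = 0 ∨ finrank (ZMod 2) S = n - 3 := by
      generalize finrank (ZMod 2) S = d at h3 h4
      rcases hnr with ⟨rfl, rfl⟩ | ⟨rfl, rfl⟩ | ⟨rfl, rfl⟩
      · interval_cases d
        · exact Or.inl rfl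
        · exact absurd h3 (by decide)
        · exact absurd h3 (by decide)
        · exact absurd h3 (by decide)
        · exact absurd h3 (by decide)
        · exact Or.inr rfl
      · interval_cases d
        · exact Or.inl rfl
        · exact absurd h3 (by decide)
        · exact absurd h3 (by decide)
        · exact absurd h3 (by decide)
        · exact absurd h3 (by decide)
        · exact absurd h3 (by decide)
        · exact absurd h3 (by decide)
        · exact Or.inr rfl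
      · interval_cases d
        · exact Or.inl rfl
        · exact absurd h3 (by decide)
        · exact absurd h3 (by decide)
        · exact absurd h3 (by decide)
        · exact absurd h3 (by decide)
        · exact absurd h3 (by decide)
        · exact absurd h3 (by decide)
        · exact absurd h3 (by decide)
        · exact absurd h3 (by decide)
        · exact Or.inr rfl
    rcases h5 with h5 | h5
    · exact Or.inl (Submodule.finrank_eq_zero.1 h5)
    · exact Or.inr (Submodule.eq_of_le_of_finrank_eq hSU (h5.trans hfU.symm))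
  · have h4 := hfixU v ((hmU v).2 hv.1) h3
    refine hv.2 1 one_ne_zero (by rw [natDegree_one]; omega) ?_
    rw [h4, map_zero]

end Pool.Agent.TWO
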