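import Pool.Agent.TWO.GDefs

/-!
# TWO/GE2s (1.4 h): structure of the elements of type `(3, 2, 1)` in dimension six
-/

open Polynomial Module

namespace Pool.Agent.TWO

variable {V : Type} [AddCommGroup V] [Module (ZMod 2) V] [FiniteDimensional (ZMod 2) V]

omit [FiniteDimensional (ZMod 2) V] in
private theorem mem_inv {φ : Module.End (ZMod 2) V} {S : Submodule (ZMod 2) V} (hS : ∀ x ∈ S, φ x ∈ S) {x : V}
    (hx : x ∈ S) (q : (ZMod 2)[X]) : aeval φ q x ∈ S := by
  rw [Polynomial.aeval_endomorphism]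
  unfold Polynomial.sum
  have hp : ∀ n : ℕ, (φ ^ n) x ∈ S := by
    intro n
    induction n with
    | zero => exact hx
    | succ n ih =>
      rw [pow_succ']
      exact hS _ ih
  exact S.sum_mem fun n _ => S.smul_mem _ (hp n)

private theorem dim_le {φ : Module.End (ZMod 2) V} {S : Submodule (ZMod 2) V} (hS : ∀ x ∈ S, φ x ∈ S) {x : V}
    (hx : x ∈ S) {d : ℕ} (hA : ∀ p : (ZMod 2)[X], p ≠ 0 → p.natDegree < d → aeval φ p x ≠ 0) :
    d ≤ finrank (ZMod 2) S := by
  let L : degreeLT (ZMod 2) d →ₗ[ZMod 2] S :=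
    { toFun := fun q => ⟨aeval φ q.1 x, mem_inv hS hx q.1⟩
      map_add' := by
        intro a b
        apply Subtype.ext
        simp
      map_smul' := by
        intro a b
        apply Subtype.ext
        simp }
  have hL : Function.Injective L := by
    rw [← LinearMap.ker_eq_bot, LinearMap.ker_eq_bot']
    rintro ⟨q, hq⟩ h0
    by_contra hne
    have hq0 : q ≠ 0 := fun h => hne (Subtype.ext h)
    rw [mem_degreeLT] at hq
    exact hA q hq0 ((natDegree_lt_iff_degree_lt hq0).2 hq) (congrArg Subtype.val h0)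
  have h1 := LinearMap.finrank_le_finrank_of_injective hL
  rw [LinearEquiv.finrank_eq (degreeLTEquiv (ZMod 2) d), finrank_fin_fun] at h1
  exact h1

private theorem dvd_of {f : (ZMod 2)[X]} {e : ℕ} (hf : f ∈ IrrP e) (he : 2 ≤ e) : f ∣ X ^ (2 ^ e - 1) - 1 := by
  obtain ⟨hi, hd, _⟩ := hf
  have h1 := (hi.natDegree_dvd_iff_dvd_X_pow_card_pow_sub_X (n := e)).1 (by rw [hd])
  rw [Nat.card_zmod] at h1
  have h2 : (X : (ZMod 2)[X]) ^ 2 ^ e - X = X * (X ^ (2 ^ e - 1) - 1) := by
    have h3 : 2 ^ e = (2 ^ e - 1) + 1 := by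
      have : 0 < 2 ^ e := by positivity
      omega
    rw [mul_sub, mul_one, ← pow_succ', ← h3]
  rw [h2] at h1
  rcases hi.prime.dvd_or_dvd h1 with h | h
  · exfalso
    have := natDegree_le_of_dvd h X_ne_zero
    rw [hd, natDegree_X] at this
    omega
  · exact h

private theorem cop {f p : (ZMod 2)[X]} (hf : Irreducible f) (hp : Irreducible p) (h : f.natDegree ≠ p.natDegree) :
    IsCoprime f p := by
  rw [hf.coprime_iff_not_dvd]
  intro hd
  have ha : Associated f p := hf.associated_of_dvd hp hd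
  exact h (natDegree_eq_of_degree_eq (degree_eq_degree_of_associated ha))

theorem e2s_data (hn : finrank (ZMod 2) V = 6) {g : V ≃ₗ[ZMod 2] V} (hg : E2s g) :
    (g ^ 3) ^ 7 = 1 ∧ ∃ U W : Submodule (ZMod 2) V, IsCompl U W ∧ finrank (ZMod 2) W = 3 ∧
      finrank (ZMod 2) U = 3 ∧ (∀ x ∈ W, (g ^ 3) x = x) ∧ (∀ x ∈ U, (g ^ 3) x ∈ U) ∧
      (∀ S : Submodule (ZMod 2) V, S ≤ U → (∀ x ∈ S, (g ^ 3) x ∈ S) → S = ⊥ ∨ S = U) ∧
      ∃ x ∈ U, (g ^ 3) x ≠ x := by
  obtain ⟨⟨f, hf, v, hv⟩, ⟨p, hp, v', hv'⟩, w, hw0, hw⟩ := hg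
  obtain ⟨φ, hφ⟩ : ∃ φ : Module.End (ZMod 2) V, φ = g.toLinearMap := ⟨_, rfl⟩
  rw [← hφ] at hv hv'
  have hφ1 : ∀ x, φ x = g x := fun x => by rw [hφ]; rfl
  have hpow : ∀ (k : ℕ) (x : V), (g ^ k) x = (φ ^ k) x := by
    intro k
    induction k with
    | zero => intro x; rfl
    | succ k ih =>
      intro x
      rw [pow_succ, pow_succ]
      show (g ^ k) (g x) = (φ ^ k) (φ x)
      rw [ih, hφ1]
  have hae : ∀ (k : ℕ) (x : V), aeval φ (X ^ k - 1 : (ZMod 2)[X]) x = (g ^ k) x - x := by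
    intro k x
    rw [map_sub, map_pow, aeval_X, map_one, hpow]
    rfl
  have hfi := hf.1
  have hfd := hf.2.1
  have hpi := hp.1
  have hpd := hp.2.1
  have hX1 : Irreducible (X - 1 : (ZMod 2)[X]) := by
    have := irreducible_X_sub_C (1 : ZMod 2)
    rwa [C_1] at this
  have hX1d : (X - 1 : (ZMod 2)[X]).natDegree = 1 := by
    have := natDegree_X_sub_C (1 : ZMod 2)
    rwa [C_1] at this
  set U := LinearMap.ker (aeval φ f) with hU
  set A := LinearMap.ker (aeval φ p) with hA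
  set B := LinearMap.ker (aeval φ (X - 1 : (ZMod 2)[X])) with hB
  have hinv : ∀ q : (ZMod 2)[X], ∀ x ∈ LinearMap.ker (aeval φ q), φ x ∈ LinearMap.ker (aeval φ q) := by
    intro q x hx
    rw [LinearMap.mem_ker] at hx ⊢
    have h1 : aeval φ q (φ x) = aeval φ (q * X) x := by
      rw [aeval_mul, aeval_X]
      rfl
    rw [h1, mul_comm, aeval_mul, Module.End.mul_apply, hx, map_zero]
  have hvU : v ∈ U := hv.1
  have hv'A : v' ∈ A := hv'.1
  have dU : 3 ≤ finrank (ZMod 2) U := by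
    refine dim_le (hinv f) hvU ?_
    rw [← hfd]
    exact hv.2
  have dA : 2 ≤ finrank (ZMod 2) A := by
    refine dim_le (hinv p) hv'A ?_
    intro q hq0 hqd
    exact hv'.2 q hq0 (lt_of_lt_of_eq hqd hpd.symm)
  have hwB : w ∈ B := by
    rw [hB, LinearMap.mem_ker]
    have := hae 1 w
    rw [pow_one, pow_one] at this
    rw [this, hw, sub_self]
  have dB : 1 ≤ finrank (ZMod 2) B := by
    rw [Nat.one_le_iff_ne_zero]
    intro h0
    rw [Submodule.finrank_eq_zero] at h0
    rw [h0] at hwB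
    exact hw0 ((Submodule.mem_bot _).1 hwB)
  have c1 : IsCoprime f p := cop hfi hpi (by rw [hfd, hpd]; norm_num)
  have c2 : IsCoprime f (X - 1) := cop hfi hX1 (by rw [hfd, hX1d]; norm_num)
  have c3 : IsCoprime p (X - 1) := cop hpi hX1 (by rw [hpd, hX1d]; norm_num)
  have disAB : Disjoint A B := disjoint_ker_aeval_of_isCoprime φ c3
  have disUW : Disjoint U (A ⊔ B) := by
    rw [sup_ker_aeval_eq_ker_aeval_mul_of_coprime φ c3]
    exact disjoint_ker_aeval_of_isCoprime φ (c1.mul_right c2)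
  have e1 := Submodule.finrank_sup_add_finrank_inf_eq A B
  rw [disAB.eq_bot, finrank_bot, add_zero] at e1
  have e2 := Submodule.finrank_sup_add_finrank_inf_eq U (A ⊔ B)
  rw [disUW.eq_bot, finrank_bot, add_zero] at e2
  have e3 := Submodule.finrank_le (U ⊔ (A ⊔ B))
  rw [hn] at e3
  have dU' : finrank (ZMod 2) U = 3 := by omega
  have dW' : finrank (ZMod 2) (A ⊔ B : Submodule (ZMod 2) V) = 3 := by omega
  have htop : U ⊔ (A ⊔ B) = ⊤ := by
    apply Submodule.eq_top_of_finrank_eq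
    rw [hn]
    omega
  have hU7 : ∀ x ∈ U, (g ^ 7) x = x := by
    intro x hx
    obtain ⟨r, hr⟩ := dvd_of hf (by norm_num)
    have h1 := hae 7 x
    have h2 : (X ^ 7 - 1 : (ZMod 2)[X]) = f * r := hr
    rw [h2, mul_comm, aeval_mul, Module.End.mul_apply, LinearMap.mem_ker.1 hx, map_zero] at h1
    exact (sub_eq_zero.1 h1.symm)
  have hA3 : ∀ x ∈ A, (g ^ 3) x = x := by
    intro x hx
    obtain ⟨r, hr⟩ := dvd_of hp (by norm_num)
    have h1 := hae 3 x
    have h2 : (X ^ 3 - 1 : (ZMod 2)[X]) = p * r := hr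
    rw [h2, mul_comm, aeval_mul, Module.End.mul_apply, LinearMap.mem_ker.1 hx, map_zero] at h1
    exact (sub_eq_zero.1 h1.symm)
  have hB1 : ∀ x ∈ B, g x = x := by
    intro x hx
    have h1 := hae 1 x
    rw [pow_one, pow_one, LinearMap.mem_ker.1 hx] at h1
    exact (sub_eq_zero.1 h1.symm)
  have hfix : ∀ (k : ℕ) (x : V), g x = x → (g ^ k) x = x := by
    intro k x hx
    induction k with
    | zero => rfl
    | succ k ih =>
      rw [pow_succ]
      show (g ^ k) (g x) = x
      rw [hx, ih]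
  have hW3 : ∀ x ∈ A ⊔ B, (g ^ 3) x = x := by
    intro x hx
    obtain ⟨a, ha, b, hb, rfl⟩ := Submodule.mem_sup.1 hx
    rw [map_add, hA3 a ha, hfix 3 b (hB1 b hb)]
  have hUg : ∀ x ∈ U, g x ∈ U := fun x hx => by
    rw [← hφ1]
    exact hinv f x hx
  have hUk : ∀ (k : ℕ), ∀ x ∈ U, (g ^ k) x ∈ U := by
    intro k
    induction k with
    | zero => intro x hx; exact hx
    | succ k ih =>
      intro x hx
      rw [pow_succ]
      exact ih _ (hUg x hx)
  have hit : ∀ (h : V ≃ₗ[ZMod 2] V) (k : ℕ) (x : V), h x = x → (h ^ k) x = x := by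
    intro h k x hx
    induction k with
    | zero => rfl
    | succ k ih =>
      rw [pow_succ]
      show (h ^ k) (h x) = x
      rw [hx, ih]
  refine ⟨?_, U, A ⊔ B, ⟨disUW, codisjoint_iff.2 htop⟩, dW', dU', hW3, hUk 3, ?_, v, hvU, ?_⟩
  · apply LinearEquiv.ext
    intro x
    have hx : x ∈ U ⊔ (A ⊔ B) := by rw [htop]; trivial
    obtain ⟨a, ha, b, hb, rfl⟩ := Submodule.mem_sup.1 hx
    show ((g ^ 3) ^ 7) (a + b) = a + b
    rw [map_add]
    have h1 : ((g ^ 3) ^ 7) a = a := by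
      rw [← pow_mul, mul_comm, pow_mul]
      exact hit _ 3 a (hU7 a ha)
    have h2 : ((g ^ 3) ^ 7) b = b := hit _ 7 b (hW3 b hb)
    rw [h1, h2]
  · intro S hS hSinv
    have hSg : ∀ x ∈ S, φ x ∈ S := by
      intro x hx
      have hk : ∀ k : ℕ, ∀ x ∈ S, ((g ^ 3) ^ k) x ∈ S := by
        intro k
        induction k with
        | zero => intro x hx; exact hx
        | succ k ih =>
          intro x hx
          rw [pow_succ]
          exact ih _ (hSinv x hx)
      have h1 : ((g ^ 3) ^ 5) x = g x := by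
        have : (g ^ 3) ^ 5 = g * (g ^ 7) ^ 2 := by
          rw [← pow_mul, ← pow_mul, ← pow_succ']
        rw [this]
        show g (((g ^ 7) ^ 2) x) = g x
        rw [hit _ 2 x (hU7 x (hS hx))]
      rw [hφ1, ← h1]
      exact hk 5 x hx
    by_cases hb : S = ⊥
    · exact Or.inl hb
    · right
      obtain ⟨x, hx, hx0⟩ := Submodule.exists_mem_ne_zero_of_ne_bot hb
      have h3 : 3 ≤ finrank (ZMod 2) S := by
        refine dim_le hSg hx ?_
        intro q hq0 hqd hq
        have hcop : IsCoprime f q := by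
          rw [hfi.coprime_iff_not_dvd]
          intro hd
          have := natDegree_le_of_dvd hd hq0
          rw [hfd] at this
          omega
        have := (disjoint_ker_aeval_of_isCoprime φ hcop).le_bot
          (Submodule.mem_inf.2 ⟨hS hx, LinearMap.mem_ker.2 hq⟩)
        exact hx0 ((Submodule.mem_bot _).1 this)
      exact Submodule.eq_of_le_of_finrank_le hS (by rw [dU']; exact h3)
  · intro h3
    have h7 := hU7 v hvU
    have h1 : g v = v := by
      have h6 : (g ^ 6) v = v := by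
        have : g ^ 6 = (g ^ 3) ^ 2 := by rw [← pow_mul]
        rw [this]
        exact hit _ 2 v h3
      have : g ^ 7 = g * g ^ 6 := by rw [← pow_succ']
      rw [this] at h7
      have h8 : g ((g ^ 6) v) = v := h7
      rwa [h6] at h8
    refine hv.2 (X - 1) hX1.ne_zero (by rw [hX1d, hfd]; norm_num) ?_
    have := hae 1 v
    rw [pow_one, pow_one] at this
    rw [this, h1, sub_self]

end Pool.Agent.TWO
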