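import Pool.Agent.TWO.GDefs

/-!
# TWO/GFra: Frattini argument in the stabiliser of a pair of vectors

`H` two-transitive, `c ∈ H` of prime order `r` fixes the different nonzero vectors `w₁, w₂`, and
`r²` does not divide the order of the stabiliser of `w₁, w₂` in `GL(V)`; then a `2`-element of `H`
swaps `w₁, w₂` and normalises the group generated by `c`.
-/

open Polynomial Module

namespace Pool.Agent.TWO

variable {V : Type} [AddCommGroup V] [Module (ZMod 2) V] [FiniteDimensional (ZMod 2) V]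

/-- a cyclic subgroup of prime order is a Sylow subgroup -/
private theorem fra_card {S : Type} [Group S] [Finite S] {r : ℕ} [Fact r.Prime] {c : S} (hcr : c ^ r = 1)
    (hc1 : c ≠ 1) (hS : ¬ r ^ 2 ∣ Nat.card S) :
    Nat.card (Subgroup.zpowers c) = r ^ (Nat.card S).factorization r := by
  have hr : r.Prime := Fact.out
  have h1 : orderOf c = r := orderOf_eq_prime hcr hc1
  have h2 : r ∣ Nat.card S := h1 ▸ orderOf_dvd_natCard c
  have h3 : (Nat.card S).factorization r = 1 := by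
    have h0 : Nat.card S ≠ 0 := Nat.card_pos.ne'
    have h4 : 1 ≤ (Nat.card S).factorization r := by
      rw [← hr.pow_dvd_iff_le_factorization h0, pow_one]
      exact h2
    have h5 : ¬ 2 ≤ (Nat.card S).factorization r := by
      rw [← hr.pow_dvd_iff_le_factorization h0]
      exact hS
    omega
  rw [Nat.card_zpowers, h1, h3, pow_one]

private theorem fra_conj {G : Type} [Group G] [Finite G] (S : Subgroup G) {c : G} (hcS : c ∈ S) {r : ℕ}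
    (hr : r.Prime) (hcr : c ^ r = 1) (hc1 : c ≠ 1) (hS : ¬ r ^ 2 ∣ Nat.card S) {h : G}
    (hh : h * c * h⁻¹ ∈ S) : ∃ k ∈ S, ∃ i : ℕ, k * h * c = c ^ i * (k * h) := by
  haveI : Fact r.Prime := ⟨hr⟩
  obtain ⟨c', hc'⟩ : ∃ c' : S, c' = ⟨c, hcS⟩ := ⟨_, rfl⟩
  obtain ⟨d', hd'⟩ : ∃ d' : S, d' = ⟨h * c * h⁻¹, hh⟩ := ⟨_, rfl⟩
  have hc'v : (c' : G) = c := by rw [hc']
  have hd'v : (d' : G) = h * c * h⁻¹ := by rw [hd']
  have c1 : c' ^ r = 1 := by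
    apply Subtype.ext
    rw [Subgroup.coe_pow, hc'v, hcr, Subgroup.coe_one]
  have c2 : c' ≠ 1 := by
    intro h0
    apply hc1
    rw [← hc'v, h0, Subgroup.coe_one]
  have d1 : d' ^ r = 1 := by
    apply Subtype.ext
    rw [Subgroup.coe_pow, hd'v, conj_pow, hcr, Subgroup.coe_one]
    group
  have d2 : d' ≠ 1 := by
    intro h0
    apply hc1
    have h1 : h * c * h⁻¹ = 1 := by rw [← hd'v, h0, Subgroup.coe_one]
    rwa [conj_eq_one_iff] at h1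
  obtain ⟨k, hk⟩ := MulAction.exists_smul_eq S (Sylow.ofCard _ (fra_card d1 d2 hS))
    (Sylow.ofCard _ (fra_card c1 c2 hS))
  have h1 : k * d' * k⁻¹ ∈ Subgroup.zpowers c' := by
    have h2 : k * d' * k⁻¹ ∈ ((k • (Sylow.ofCard _ (fra_card d1 d2 hS) : Sylow r S) : Sylow r S) : Subgroup S) := by
      rw [Sylow.coe_subgroup_smul]
      have h3 : d' ∈ ((Sylow.ofCard _ (fra_card d1 d2 hS) : Sylow r S) : Subgroup S) :=
        Subgroup.mem_zpowers d'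
      exact Subgroup.smul_mem_pointwise_smul d' (MulAut.conj k) _ h3
    rw [hk] at h2
    exact h2
  rw [← mem_powers_iff_mem_zpowers] at h1
  obtain ⟨i, hi⟩ := h1
  refine ⟨k, k.2, i, ?_⟩
  have h2 := congrArg (fun x : S => (x : G)) hi
  simp only [Subgroup.coe_pow, Subgroup.coe_mul, Subgroup.coe_inv, hc'v, hd'v] at h2
  rw [h2]
  group

theorem frattini {H : Subgroup (V ≃ₗ[ZMod 2] V)} (h2 : TwoTrans H) {c : V ≃ₗ[ZMod 2] V}
    (hc : c ∈ H) {r : ℕ} (hr : r.Prime) (hcr : c ^ r = 1) (hc1 : c ≠ 1) {w₁ w₂ : V}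
    (h₁ : w₁ ≠ 0) (h₂ : w₂ ≠ 0) (h₁₂ : w₁ ≠ w₂) (hcw₁ : c w₁ = w₁) (hcw₂ : c w₂ = w₂)
    (hst : ¬ r ^ 2 ∣ Nat.card {g : V ≃ₗ[ZMod 2] V // g w₁ = w₁ ∧ g w₂ = w₂}) :
    ∃ t ∈ H, t w₁ = w₂ ∧ t w₂ = w₁ ∧ (∃ a : ℕ, t ^ (2 ^ a) = 1) ∧ ∃ i : ℕ, t * c = c ^ i * t := by
  haveI : Finite V := Module.finite_of_finite (ZMod 2)
  haveI : Finite (V ≃ₗ[ZMod 2] V) :=
    Finite.of_injective (fun g : V ≃ₗ[ZMod 2] V => (g : V → V)) DFunLike.coe_injective
  have hinv : ∀ (g : V ≃ₗ[ZMod 2] V) (x y : V), g x = y → g⁻¹ y = x := by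
    intro g x y hg
    rw [← hg]
    exact g.symm_apply_apply x
  let K : Subgroup (V ≃ₗ[ZMod 2] V) :=
    { carrier := {g | g w₁ = w₁ ∧ g w₂ = w₂}
      mul_mem' := by
        rintro a b ⟨ha1, ha2⟩ ⟨hb1, hb2⟩
        exact ⟨by rw [LinearEquiv.mul_apply, hb1, ha1], by rw [LinearEquiv.mul_apply, hb2, ha2]⟩
      one_mem' := ⟨rfl, rfl⟩
      inv_mem' := by
        rintro a ⟨ha1, ha2⟩
        exact ⟨hinv a _ _ ha1, hinv a _ _ ha2⟩ }
  have hKm : ∀ g, g ∈ K ↔ g w₁ = w₁ ∧ g w₂ = w₂ := fun g => Iff.rfl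
  have hcS : c ∈ H ⊓ K := ⟨hc, hcw₁, hcw₂⟩
  have hS : ¬ r ^ 2 ∣ Nat.card (H ⊓ K : Subgroup (V ≃ₗ[ZMod 2] V)) := by
    intro hd
    exact hst (hd.trans (Subgroup.card_dvd_of_le (inf_le_right : H ⊓ K ≤ K)))
  obtain ⟨h, hh, e1, e2⟩ := h2 w₁ w₂ w₂ w₁ h₁ h₂ h₁₂ h₂ h₁ h₁₂.symm
  have hconj : h * c * h⁻¹ ∈ H ⊓ K := by
    refine ⟨H.mul_mem (H.mul_mem hh hc) (H.inv_mem hh), ?_, ?_⟩
    · show h (c (h⁻¹ w₁)) = w₁
      rw [hinv h _ _ e2, hcw₂, e2]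
    · show h (c (h⁻¹ w₂)) = w₂
      rw [hinv h _ _ e1, hcw₁, e1]
  obtain ⟨k, hk, i, hki⟩ := fra_conj (H ⊓ K) hcS hr hcr hc1 hS hconj
  obtain ⟨n, hn⟩ : ∃ n, n = k * h := ⟨_, rfl⟩
  rw [← hn] at hki
  have hnH : n ∈ H := by
    rw [hn]
    exact H.mul_mem hk.1 hh
  have hn1 : n w₁ = w₂ := by
    rw [hn, LinearEquiv.mul_apply, e1]
    exact hk.2.2
  have hn2 : n w₂ = w₁ := by
    rw [hn, LinearEquiv.mul_apply, e2]
    exact hk.2.1
  obtain ⟨a, o, ho, hao⟩ := Nat.exists_eq_two_pow_mul_odd (n := orderOf n) (orderOf_pos n).ne'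
  have hpow : ∀ m : ℕ, (n ^ (2 * m)) w₁ = w₁ ∧ (n ^ (2 * m)) w₂ = w₂ := by
    intro m
    induction m with
    | zero => exact ⟨rfl, rfl⟩
    | succ m ih =>
      have h3 : 2 * (m + 1) = 1 + (1 + 2 * m) := by ring
      rw [h3, pow_add, pow_add, pow_one, LinearEquiv.mul_apply, LinearEquiv.mul_apply, ih.1,
        LinearEquiv.mul_apply, LinearEquiv.mul_apply, ih.2, hn1, hn2, hn1]
      exact ⟨rfl, rfl⟩
  have hsc : ∀ m : ℕ, ∃ j : ℕ, SemiconjBy (n ^ m) c (c ^ j) := by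
    intro m
    induction m with
    | zero => exact ⟨1, by rw [pow_zero, pow_one]; exact SemiconjBy.one_left c⟩
    | succ m ih =>
      obtain ⟨j, hj⟩ := ih
      have h3 : SemiconjBy n c (c ^ i) := hki
      have h4 := h3.pow_right j
      rw [← pow_mul] at h4
      refine ⟨i * j, ?_⟩
      rw [pow_succ']
      exact h4.mul_left hj
  obtain ⟨m, hm⟩ := ho
  refine ⟨n ^ o, H.pow_mem hnH o, ?_, ?_, ⟨a, ?_⟩, ?_⟩
  · rw [hm, add_comm, pow_add, pow_one, LinearEquiv.mul_apply, (hpow m).1, hn1]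
  · rw [hm, add_comm, pow_add, pow_one, LinearEquiv.mul_apply, (hpow m).2, hn2]
  · rw [← pow_mul, mul_comm, ← hao, pow_orderOf_eq_one]
  · obtain ⟨j, hj⟩ := hsc o
    exact ⟨j, hj⟩

end Pool.Agent.TWO
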