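import Pool.Agent.TWO.GNrm
import Pool.Agent.TWO.GFra

/-!
# TWO/GSwp: an element with a three-dimensional fixed space gives a transvection

`V = U ⊕ W`, `dim W = 3`, `dim U` odd, `c` of prime order is trivial on `W`, irreducible and
nontrivial on `U`.  The Frattini argument gives a 2-element normalising `⟨c⟩` which swaps two vectors
of `W`; it is trivial on `U`, and a power of it is an involution of `W`, so a transvection.
-/

open Polynomial Module

namespace Pool.Agent.TWO

variable {V : Type} [AddCommGroup V] [Module (ZMod 2) V] [FiniteDimensional (ZMod 2) V]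

private theorem pow_sub_mem {c : V ≃ₗ[ZMod 2] V} {U : Submodule (ZMod 2) V}
    (hcU : ∀ x ∈ U, c x ∈ U) (h : ∀ z : V, c z - z ∈ U) (i : ℕ) (z : V) :
    (c ^ i) z - z ∈ U := by
  induction i with
  | zero => simp
  | succ i ih =>
    have h1 : (c ^ (i + 1)) z = c ((c ^ i) z) := by rw [pow_succ']; rfl
    have h2 : (c ^ (i + 1)) z - z = c ((c ^ i) z - z) + (c z - z) := by
      rw [h1, map_sub]; abel
    rw [h2]
    exact U.add_mem (hcU _ ih) (h z)

private theorem pow_fix {c : V ≃ₗ[ZMod 2] V} {x : V} (h : c x = x) (j : ℕ) : (c ^ j) x = x := by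
  induction j with
  | zero => rfl
  | succ j ih =>
    have h1 : (c ^ (j + 1)) x = c ((c ^ j) x) := by rw [pow_succ']; rfl
    rw [h1, ih, h]

private theorem pow_map {t : V ≃ₗ[ZMod 2] V} {W : Submodule (ZMod 2) V}
    (h : ∀ x ∈ W, t x ∈ W) (j : ℕ) : ∀ x ∈ W, (t ^ j) x ∈ W := by
  induction j with
  | zero => intro x hx; exact hx
  | succ j ih =>
    intro x hx
    have h1 : (t ^ (j + 1)) x = t ((t ^ j) x) := by rw [pow_succ']; rfl
    rw [h1]
    exact h _ (ih x hx)

theorem tv_of_swap {H : Subgroup (V ≃ₗ[ZMod 2] V)} (h2 : TwoTrans H) {c : V ≃ₗ[ZMod 2] V}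
    (hc : c ∈ H) {r : ℕ} (hr : r.Prime) (hcr : c ^ r = 1) {U W : Submodule (ZMod 2) V}
    (hUW : IsCompl U W) (hW : finrank (ZMod 2) W = 3) (hcW : ∀ x ∈ W, c x = x)
    (hcU : ∀ x ∈ U, c x ∈ U)
    (hirr : ∀ S : Submodule (ZMod 2) V, S ≤ U → (∀ x ∈ S, c x ∈ S) → S = ⊥ ∨ S = U)
    (hc1 : ∃ x ∈ U, c x ≠ x) (hodd : Odd (finrank (ZMod 2) U))
    (hst : ∀ w₁ w₂ : V, w₁ ≠ 0 → w₂ ≠ 0 → w₁ ≠ w₂ →
      ¬ r ^ 2 ∣ Nat.card {g : V ≃ₗ[ZMod 2] V // g w₁ = w₁ ∧ g w₂ = w₂}) :
    ∃ t ∈ H, IsTv t := by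
  classical
  -- two vectors in `W`
  let b := Module.finBasisOfFinrankEq (ZMod 2) W hW
  have hb0 : ((b 0 : W) : V) ≠ 0 := fun h => b.ne_zero 0 (Subtype.ext h)
  have hb1 : ((b 1 : W) : V) ≠ 0 := fun h => b.ne_zero 1 (Subtype.ext h)
  have hb01 : ((b 0 : W) : V) ≠ (b 1 : W) := fun h => by
    have h3 : b 0 = b 1 := Subtype.ext h
    have h4 := b.injective h3
    exact absurd h4 (by decide)
  have hcne : c ≠ 1 := by
    obtain ⟨x, _, hx⟩ := hc1
    intro h
    exact hx (by rw [h]; rfl)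
  obtain ⟨t, htH, ht1, ht2, hta, i, hti⟩ := frattini h2 hc hr hcr hcne hb0 hb1 hb01
    (hcW _ (b 0).2) (hcW _ (b 1).2) (hst _ _ hb0 hb1 hb01)
  have hdec : ∀ x : V, ∃ u ∈ U, ∃ w ∈ W, x = u + w := by
    intro x
    have hx : x ∈ U ⊔ W := by rw [hUW.sup_eq_top]; exact Submodule.mem_top
    obtain ⟨u, hu, w, hw, h⟩ := Submodule.mem_sup.mp hx
    exact ⟨u, hu, w, hw, h.symm⟩
  -- fixed vectors of `c` in `U`
  have hfixU : ∀ u ∈ U, c u = u → u = 0 := by
    intro u hu hcu
    let S : Submodule (ZMod 2) V := U ⊓ LinearMap.ker (c.toLinearMap - 1)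
    have hmS : ∀ x, x ∈ S ↔ x ∈ U ∧ c x = x := by
      intro x
      simp only [S, Submodule.mem_inf, LinearMap.mem_ker, LinearMap.sub_apply,
        LinearEquiv.coe_coe, Module.End.one_apply, sub_eq_zero]
    rcases hirr S inf_le_left (fun x hx => (hmS _).mpr
        ⟨hcU x ((hmS x).mp hx).1, by rw [((hmS x).mp hx).2]; exact ((hmS x).mp hx).2⟩) with h | h
    · have : u ∈ S := (hmS u).mpr ⟨hu, hcu⟩
      rw [h] at this
      exact (Submodule.mem_bot _).mp this
    · exfalso
      obtain ⟨x, hxU, hx⟩ := hc1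
      rw [← h] at hxU
      exact hx ((hmS x).mp hxU).2
  have hfix : ∀ x : V, c x = x → x ∈ W := by
    intro x hx
    obtain ⟨u, hu, w, hw, rfl⟩ := hdec x
    rw [map_add, hcW w hw] at hx
    have h3 : c u = u := add_right_cancel hx
    rw [hfixU u hu h3, zero_add]
    exact hw
  have hsubU : ∀ z : V, c z - z ∈ U := by
    intro z
    obtain ⟨u, hu, w, hw, rfl⟩ := hdec z
    have h3 : c (u + w) - (u + w) = c u - u := by rw [map_add, hcW w hw]; abel
    rw [h3]
    exact U.sub_mem (hcU u hu) hu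
  -- `t W ≤ W`
  have hndvd : ¬ r ∣ i := by
    rintro ⟨k, rfl⟩
    apply hcne
    have h3 : t * c = t := by rw [hti, pow_mul, hcr, one_pow, one_mul]
    exact mul_left_cancel (h3.trans (mul_one t).symm)
  have hcop : Nat.Coprime i r := ((Nat.Prime.coprime_iff_not_dvd hr).mpr hndvd).symm
  obtain ⟨j, hj⟩ : ∃ j : ℕ, (c ^ i) ^ j = c := by
    obtain ⟨j, hj⟩ := Nat.exists_mul_mod_eq_one_of_coprime hcop hr.one_lt
    refine ⟨j, ?_⟩
    have h3 : i * j = r * (i * j / r) + 1 := by
      have := Nat.div_add_mod (i * j) r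
      rw [hj.2] at this
      exact this.symm
    rw [← pow_mul, h3, pow_add, pow_mul, hcr, one_pow, one_mul, pow_one]
  have htW : ∀ x ∈ W, t x ∈ W := by
    intro x hx
    apply hfix
    have h3 : (c ^ i) (t x) = t x := by
      have h4 : (t * c) x = (c ^ i * t) x := by rw [hti]
      have h5 : (t * c) x = t (c x) := rfl
      have h6 : (c ^ i * t) x = (c ^ i) (t x) := rfl
      rw [h5, h6, hcW x hx] at h4
      exact h4.symm
    have h4 : ((c ^ i) ^ j) (t x) = t x := pow_fix h3 j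
    rwa [hj] at h4
  -- `t U ≤ U`
  have htU : ∀ x ∈ U, t x ∈ U := by
    intro x hx
    let f : U →ₗ[ZMod 2] U :=
      LinearMap.codRestrict U ((c.toLinearMap - 1).comp U.subtype) (fun y => by
        simpa using hsubU y)
    have hfinj : Function.Injective f := by
      rw [injective_iff_map_eq_zero]
      intro y hy
      have h3 : c (y : V) - y = 0 := by
        have := congrArg Subtype.val hy
        simpa [f] using this
      exact Subtype.ext (hfixU y y.2 (sub_eq_zero.mp h3))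
    obtain ⟨y, hy⟩ := (LinearMap.injective_iff_surjective.mp hfinj) ⟨x, hx⟩
    have h3 : c (y : V) - y = x := by
      have := congrArg Subtype.val hy
      simpa [f] using this
    have h4 : t (c (y : V)) = (c ^ i) (t y) := by
      have h5 : (t * c) (y : V) = (c ^ i * t) y := by rw [hti]
      exact h5
    rw [← h3, map_sub, h4]
    exact pow_sub_mem hcU hsubU i (t y)
  have htfix : ∀ x ∈ U, t x = x := odd_norm hr hcr hcU htU hirr hc1 hodd hta ⟨i, hti⟩
  -- an involution
  have htne : t ≠ 1 := by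
    intro h
    rw [h] at ht1
    exact hb01 ht1
  have hfind := Nat.find_spec hta
  set a := Nat.find hta with ha
  have ha0 : a ≠ 0 := by
    intro h
    rw [h, pow_zero, pow_one] at hfind
    exact htne hfind
  obtain ⟨m, hm⟩ := Nat.exists_eq_succ_of_ne_zero ha0
  have hsne : t ^ (2 ^ m) ≠ 1 := by
    intro h
    have := Nat.find_min' hta h
    rw [← ha, hm] at this
    omega
  set s := t ^ (2 ^ m) with hs
  have hs2 : s * s = 1 := by
    rw [hs, ← pow_add, ← two_mul, ← pow_succ', ← Nat.succ_eq_add_one, ← hm]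
    exact hfind
  have hsH : s ∈ H := H.pow_mem htH _
  have hsW : ∀ x ∈ W, s x ∈ W := pow_map htW _
  have hsU : ∀ x ∈ U, s x = x := fun x hx => pow_fix (htfix x hx) _
  refine ⟨s, hsH, ?_⟩
  -- rank
  set N : V →ₗ[ZMod 2] V := s.toLinearMap - 1 with hN
  have hNa : ∀ x, N x = s x - x := fun x => rfl
  have hss : ∀ x, s (s x) = x := fun x => by
    have h3 : (s * s) x = s (s x) := rfl
    rw [← h3, hs2]; rfl
  have hNN : ∀ x, N (N x) = 0 := by
    intro x
    have h3 : N (N x) = (x + x) - (s x + s x) := by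
      rw [hNa, hNa, map_sub, hss]; abel
    have h4 : ∀ y : V, y + y = 0 := fun y => by
      rw [← two_nsmul, ← Nat.cast_smul_eq_nsmul (ZMod 2)]
      have : ((2 : ℕ) : ZMod 2) = 0 := by decide
      rw [this, zero_smul]
    rw [h3, h4, h4, sub_zero]
  have hNU : U ≤ LinearMap.ker N := fun x hx => by
    rw [LinearMap.mem_ker, hNa, hsU x hx, sub_self]
  have hRK : LinearMap.range N ≤ LinearMap.ker N := by
    rintro _ ⟨x, rfl⟩
    exact LinearMap.mem_ker.mpr (hNN x)
  have hRW : LinearMap.range N ≤ W := by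
    rintro _ ⟨x, rfl⟩
    obtain ⟨u, hu, w, hw, rfl⟩ := hdec x
    rw [map_add, LinearMap.mem_ker.mp (hNU hu), zero_add, hNa]
    exact W.sub_mem (hsW w hw) hw
  have hdisj : U ⊓ LinearMap.range N = ⊥ :=
    le_bot_iff.mp ((inf_le_inf_left U hRW).trans hUW.disjoint.le_bot)
  have h3 := LinearMap.finrank_range_add_finrank_ker N
  have h4 := Submodule.finrank_sup_add_finrank_inf_eq U (LinearMap.range N)
  rw [hdisj, finrank_bot, add_zero] at h4
  have h5 : finrank (ZMod 2) ((U ⊔ LinearMap.range N : Submodule (ZMod 2) V)) ≤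
      finrank (ZMod 2) (LinearMap.ker N) := Submodule.finrank_mono (sup_le hNU hRK)
  have h6 := Submodule.finrank_add_eq_of_isCompl hUW
  have h7 : finrank (ZMod 2) (LinearMap.range N) ≠ 0 := by
    intro h0
    have h8 : LinearMap.range N = ⊥ := Submodule.finrank_eq_zero.mp h0
    apply hsne
    apply LinearEquiv.ext
    intro x
    have h9 : N x = 0 := by
      have : N x ∈ LinearMap.range N := ⟨x, rfl⟩
      rw [h8] at this
      exact (Submodule.mem_bot _).mp this
    rw [hNa, sub_eq_zero] at h9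
    exact h9
  show finrank (ZMod 2) (LinearMap.range N) = 1
  omega

end Pool.Agent.TWO
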