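import Pool.Agent.TWO.GTwo
import Pool.Agent.TWO.GSwp
import Pool.Agent.TWO.GSta
import Pool.Agent.TWO.GE1
import Pool.Agent.TWO.GE2
import Pool.Agent.TWO.GE2s

/-!
# TWO/GSm (0.7 h): the dimensions 6, 8, 10, 12

Assembly.  Suppose `g₁ ∈ H` with `E1 n g₁` and `g₂ ∈ H` with `E2 n g₂` (resp. `E2s g₂`).
`e1_data` and `trans_two`: `TwoTrans H`.  `e2_data` / `e2s_data`, `stab_dvd` and `tv_of_swap`
(with `c = g₂^7`, resp. `g₂^3`) give a transvection in `H`.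
-/

open Polynomial Module

namespace Pool.Agent.TWO

variable {V : Type} [AddCommGroup V] [Module (ZMod 2) V] [FiniteDimensional (ZMod 2) V]

theorem small_even {n : ℕ} (h8 : n = 8 ∨ n = 10 ∨ n = 12) (hn : finrank (ZMod 2) V = n)
    {H : Subgroup (V ≃ₗ[ZMod 2] V)} (hirr : IrrSub H) (hno : ¬ ∃ t ∈ H, IsTv t) :
    (∀ g ∈ H, ¬ E1 n g) ∨ ∀ g ∈ H, ¬ E2 n g := by
  by_contra hcon
  push Not at hcon
  obtain ⟨⟨g₁, hg₁, h1⟩, g₂, hg₂, h2⟩ := hcon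
  obtain ⟨w, U₁, hw, hgw, hU₁, hg₁U, htr⟩ := e1_data (by omega) hn h1
  have htwo := trans_two hirr (by omega) hg₁ hw hgw hU₁ hg₁U htr
  obtain ⟨r, hr, hnr⟩ : ∃ r : ℕ, r.Prime ∧
      ((n = 8 ∧ r = 31) ∨ (n = 10 ∧ r = 127) ∨ (n = 12 ∧ r = 73)) := by
    rcases h8 with h | h | h
    · exact ⟨31, by norm_num, Or.inl ⟨h, rfl⟩⟩
    · exact ⟨127, by norm_num, Or.inr (Or.inl ⟨h, rfl⟩)⟩
    · exact ⟨73, by norm_num, Or.inr (Or.inr ⟨h, rfl⟩)⟩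
  obtain ⟨hcr, U, W, hUW, hW, hU, hcW, hcU, hirr', hc1⟩ := e2_data hnr hn h2
  refine hno (tv_of_swap htwo (H.pow_mem hg₂ 7) hr hcr hUW hW hcW hcU hirr' hc1 ?_
    fun w₁ w₂ h₁ h₂ h₁₂ => stab_dvd (Or.inr hnr) hn h₁ h₂ h₁₂)
  rw [hU]
  rcases h8 with h | h | h
  · rw [h]
    decide
  · rw [h]
    decide
  · rw [h]
    decide

theorem small_six (hn : finrank (ZMod 2) V = 6)
    {H : Subgroup (V ≃ₗ[ZMod 2] V)} (hirr : IrrSub H) (hno : ¬ ∃ t ∈ H, IsTv t) :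
    (∀ g ∈ H, ¬ E1 6 g) ∨ ∀ g ∈ H, ¬ E2s g := by
  by_contra hcon
  push Not at hcon
  obtain ⟨⟨g₁, hg₁, h1⟩, g₂, hg₂, h2⟩ := hcon
  obtain ⟨w, U₁, hw, hgw, hU₁, hg₁U, htr⟩ := e1_data (by omega) hn h1
  have htwo := trans_two hirr (by omega) hg₁ hw hgw hU₁ hg₁U htr
  obtain ⟨hcr, U, W, hUW, hW, hU, hcW, hcU, hirr', hc1⟩ := e2s_data hn h2
  refine hno (tv_of_swap htwo (H.pow_mem hg₂ 3) (by norm_num) hcr hUW hW hcW hcU hirr' hc1 ?_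
    fun w₁ w₂ h₁ h₂ h₁₂ => stab_dvd (Or.inl ⟨rfl, rfl⟩) hn h₁ h₂ h₁₂)
  rw [hU]
  decide

end Pool.Agent.TWO
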