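import Pool.Agent.TWO.GMc
import Pool.Agent.TWO.GImp
import Pool.Agent.TWO.GSelf
import Pool.Agent.TWO.GSm
import Pool.Agent.TWO.GFoA
import Pool.Agent.TWO.GFoB

/-!
# TWO/GMain (0.5 h): the group theoretic results used in the assembly

* `G1`: `tv_theorem`, `imp_excl`, `self_excl`.
* `G2`, `G2s`: `small_even`, `small_six`.
* `G3`: `e1_data`, `trans_two`, `four_card`, `four_syl`.
-/

open Polynomial Module

namespace Pool.Agent.TWO

variable {V : Type} [AddCommGroup V] [Module (ZMod 2) V] [FiniteDimensional (ZMod 2) V]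

/-- irreducible proper subgroups with a transvection miss the elements with a factor in `Gd` -/
theorem G1 {n : ℕ} (hn : finrank (ZMod 2) V = n) {H : Subgroup (V ≃ₗ[ZMod 2] V)}
    (hirr : IrrSub H) (hH : H ≠ ⊤) (ht : ∃ t ∈ H, IsTv t) {g : V ≃ₗ[ZMod 2] V} (hg : g ∈ H)
    {e : ℕ} (he : n < 2 * e) {f : (ZMod 2)[X]} (hf : f ∈ Gd n e) (v : V) :
    ¬ AnnEq g.toLinearMap f v := by
  rcases tv_theorem hirr ht with h | h | h
  · exact absurd h hH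
  · exact self_excl h hn hg he hf v
  · exact imp_excl h hn hg he hf v

/-- dimensions 8, 10, 12 -/
theorem G2 {n : ℕ} (h8 : n = 8 ∨ n = 10 ∨ n = 12) (hn : finrank (ZMod 2) V = n)
    {H : Subgroup (V ≃ₗ[ZMod 2] V)} (hirr : IrrSub H) (hno : ¬ ∃ t ∈ H, IsTv t) :
    (∀ g ∈ H, ¬ E1 n g) ∨ ∀ g ∈ H, ¬ E2 n g := small_even h8 hn hirr hno

/-- dimension 6 -/
theorem G2s (hn : finrank (ZMod 2) V = 6) {H : Subgroup (V ≃ₗ[ZMod 2] V)} (hirr : IrrSub H)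
    (hno : ¬ ∃ t ∈ H, IsTv t) : (∀ g ∈ H, ¬ E1 6 g) ∨ ∀ g ∈ H, ¬ E2s g :=
  small_six hn hirr hno

/-- dimension 4 -/
theorem G3 (hn : finrank (ZMod 2) V = 4) {H : Subgroup (V ≃ₗ[ZMod 2] V)} (hirr : IrrSub H)
    (hno : ¬ ∃ t ∈ H, IsTv t) : (∀ g ∈ H, ¬ E1 4 g) ∨ ∀ g ∈ H, ¬ E3 g := by
  by_cases h : ∃ g ∈ H, E1 4 g
  · right
    obtain ⟨g, hg, h1⟩ := h
    obtain ⟨w, U, hw, hgw, hU, hgU, htr⟩ := e1_data (by norm_num) hn h1
    exact four_syl hn (four_card hn (trans_two hirr (by omega) hg hw hgw hU hgU htr) hno)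
  · left
    intro g hg h1
    exact h ⟨g, hg, h1⟩

end Pool.Agent.TWO
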