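import Pool.Agent.TWO.CDefs

/-!
# TWO/IsoP: `PSL_n(2)` is `GL_n(2)`

`psl_iso`: an isomorphism `ProjectiveSpecialLinearGroup (Fin n) F ≃* GLn n` which maps the class of
`A` to the automorphism `Matrix.toLin' A`.

Over the field with two elements the center is trivial and every determinant is one.
-/

open Polynomial

namespace Pool.Agent.TWO

private theorem ip_two (c : F) : c = 0 ∨ c = 1 := by
  revert c
  decide

private theorem ip_center {n : ℕ} {A : Matrix.SpecialLinearGroup (Fin n) F}
    (hA : A ∈ Subgroup.center (Matrix.SpecialLinearGroup (Fin n) F)) : A = 1 := by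
  obtain ⟨r, hr, h1⟩ := Matrix.SpecialLinearGroup.mem_center_iff.1 hA
  rcases Nat.eq_zero_or_pos n with h0 | h0
  · subst h0
    exact Subsingleton.elim _ _
  · rcases ip_two r with h2 | h2
    · rw [h2, Fintype.card_fin, zero_pow h0.ne'] at hr
      exact absurd hr (by decide)
    · apply Subtype.ext
      rw [← h1, h2, map_one]
      rfl

private theorem ip_surj {n : ℕ} (g : GLn n) :
    ∃ A : Matrix.SpecialLinearGroup (Fin n) F, Matrix.SpecialLinearGroup.toLin' A = g := by
  have h1 : LinearMap.toMatrix' (g.toLinearMap) * LinearMap.toMatrix' (g.symm.toLinearMap) = 1 := by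
    rw [← LinearMap.toMatrix'_comp]
    have h2 : g.toLinearMap ∘ₗ g.symm.toLinearMap = LinearMap.id := by
      ext x
      simp
    rw [h2, LinearMap.toMatrix'_id]
  have h3 : (LinearMap.toMatrix' (g.toLinearMap)).det ≠ 0 := by
    intro h4
    have h5 := congrArg Matrix.det h1
    rw [Matrix.det_mul, h4, zero_mul, Matrix.det_one] at h5
    exact absurd h5 (by decide)
  refine ⟨⟨LinearMap.toMatrix' g.toLinearMap, (ip_two _).resolve_left h3⟩, ?_⟩
  apply LinearEquiv.ext
  intro x
  rw [Matrix.SpecialLinearGroup.toLin'_apply]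
  show Matrix.toLin' (LinearMap.toMatrix' g.toLinearMap) x = g x
  rw [Matrix.toLin'_toMatrix']
  rfl

theorem psl_iso (n : ℕ) :
    ∃ e : Matrix.ProjectiveSpecialLinearGroup (Fin n) F ≃* GLn n,
      ∀ (A : Matrix.SpecialLinearGroup (Fin n) F) (x : Fin n → F),
        e (QuotientGroup.mk A) x = Matrix.toLin' A.1 x := by
  have h1 : ∀ A : Matrix.SpecialLinearGroup (Fin n) F,
      A ∈ Subgroup.center (Matrix.SpecialLinearGroup (Fin n) F) →
        Matrix.SpecialLinearGroup.toLin' A = 1 := by
    intro A hA
    rw [ip_center hA, map_one]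
  have h2 : Function.Bijective (QuotientGroup.lift
      (Subgroup.center (Matrix.SpecialLinearGroup (Fin n) F))
      (Matrix.SpecialLinearGroup.toLin' : Matrix.SpecialLinearGroup (Fin n) F →* GLn n) h1) := by
    constructor
    · intro x y
      refine QuotientGroup.induction_on x fun A => QuotientGroup.induction_on y fun B h => ?_
      rw [QuotientGroup.lift_mk, QuotientGroup.lift_mk] at h
      rw [Matrix.SpecialLinearGroup.toLin'_injective h]
    · intro g
      obtain ⟨A, hA⟩ := ip_surj g
      exact ⟨QuotientGroup.mk A, hA⟩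
  exact ⟨MulEquiv.ofBijective _ h2, fun A x => rfl⟩

end Pool.Agent.TWO
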