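import Pool.Agent.TWO.Lim

/-!
# TWO/LInf: the numerical lower bound for `n ≥ 45`

The terms of small degree are estimated with the exact numbers of irreducible polynomials and the
bounds of `Lim`, the terms of large degree with `d * N d ≤ 2 ^ d - 1` and a geometric series.
-/

namespace Pool.Agent.TWO

open Pool.Agent.PSD

private theorem geo {r : ℝ} (h1 : r < 1) (D : ℕ) {M : ℕ} (hM : D ≤ M) :
    ∑ d ∈ Finset.Icc (D + 1) M, r ^ d = (r ^ (D + 1) - r ^ (M + 1)) / (1 - r) := by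
  have h2 : 1 - r ≠ 0 := by
    have : 0 < 1 - r := by linarith
    exact this.ne'
  induction M, hM using Nat.le_induction with
  | base => rw [Finset.Icc_eq_empty (by omega), Finset.sum_empty, sub_self, zero_div]
  | succ M hM ih =>
    rw [Finset.sum_Icc_succ_top (by omega), ih]
    field_simp
    ring

private theorem coef {N : ℕ → ℝ} (hN : IsN N) {c D d : ℕ} (hc : 2 ≤ c) (hd : D + 1 ≤ d) :
    0 ≤ N d / (2 ^ (c * d) - 2 ^ ((c - 1) * d)) ∧
    N d / (2 ^ (c * d) - 2 ^ ((c - 1) * d)) ≤ (1 / (2 : ℝ) ^ (c - 1)) ^ d / (D + 1) := by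
  have h0 : N d * d ≤ 2 ^ d - 1 := by
    rw [← hN.2 d (by omega)]
    have h1 : (d : ℝ) * N d ≤ ∑ x ∈ d.divisors, (x : ℝ) * N x :=
      Finset.single_le_sum (s := d.divisors) (f := fun x : ℕ => (x : ℝ) * N x)
        (fun x _ => mul_nonneg (Nat.cast_nonneg _) (hN.1 x))
        (Nat.mem_divisors_self d (by omega))
    linarith
  have h1 : (2 : ℝ) ^ (c * d) - 2 ^ ((c - 1) * d) = 2 ^ ((c - 1) * d) * (2 ^ d - 1) := by
    have h2 : c * d = (c - 1) * d + d := by
      obtain ⟨c', rfl⟩ : ∃ c', c = c' + 1 := ⟨c - 1, by omega⟩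
      rw [Nat.add_sub_cancel]
      ring
    rw [h2, pow_add]
    ring
  have hd0 : (0 : ℝ) < d := by
    have : 0 < d := by omega
    exact_mod_cast this
  have hp : (0 : ℝ) < 2 ^ d - 1 := by
    have h3 : (1 : ℝ) < 2 ^ d := one_lt_pow₀ (by norm_num) (by omega)
    linarith
  have hq : (0 : ℝ) < 2 ^ ((c - 1) * d) := by positivity
  have hD : (D : ℝ) + 1 ≤ d := by exact_mod_cast hd
  have hD0 : (0 : ℝ) < (D : ℝ) + 1 := by positivity
  rw [h1]
  refine ⟨div_nonneg (hN.1 d) (mul_pos hq hp).le, ?_⟩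
  rw [div_pow, one_pow, ← pow_mul, div_le_iff₀ (mul_pos hq hp)]
  have h2 : 1 / (2 : ℝ) ^ ((c - 1) * d) / (D + 1) * (2 ^ ((c - 1) * d) * (2 ^ d - 1)) =
      (2 ^ d - 1) / (D + 1) := by
    field_simp
  rw [h2, le_div_iff₀ hD0]
  calc N d * (D + 1) ≤ N d * d := mul_le_mul_of_nonneg_left hD (hN.1 d)
    _ ≤ _ := h0

private theorem dd_inf {b N : ℕ → ℝ} (hN : IsN N) {k c m D : ℕ} (hc : 2 ≤ c) (hD : k ≤ D)
    (hDm : D ≤ m / c) (u : ℕ → ℝ) (hu : ∀ d ∈ Finset.Icc (k + 1) D, b (m - c * d) ≤ u d)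
    (hb : ∀ n, 0 ≤ b n ∧ b n ≤ 1) :
    b m - ∑ d ∈ Finset.Icc (k + 1) D, N d / (2 ^ (c * d) - 2 ^ ((c - 1) * d)) * u d -
      (1 / (2 : ℝ) ^ (c - 1)) ^ (D + 1) / (1 - 1 / 2 ^ (c - 1)) / (D + 1) ≤ DD b N k c m := by
  unfold DD
  have hs : Finset.Icc (k + 1) (m / c) = Finset.Icc (k + 1) D ∪ Finset.Icc (D + 1) (m / c) := by
    ext x
    simp only [Finset.mem_union, Finset.mem_Icc]
    omega
  have hdis : Disjoint (Finset.Icc (k + 1) D) (Finset.Icc (D + 1) (m / c)) := by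
    rw [Finset.disjoint_left]
    intro x h1 h2
    rw [Finset.mem_Icc] at h1 h2
    omega
  rw [hs, Finset.sum_union hdis]
  have h1 : ∑ d ∈ Finset.Icc (k + 1) D, N d * b (m - c * d) / (2 ^ (c * d) - 2 ^ ((c - 1) * d)) ≤
      ∑ d ∈ Finset.Icc (k + 1) D, N d / (2 ^ (c * d) - 2 ^ ((c - 1) * d)) * u d := by
    refine Finset.sum_le_sum fun d hd => ?_
    have h2 := (coef hN (D := k) hc (Finset.mem_Icc.1 hd).1).1
    rw [mul_div_right_comm]
    exact mul_le_mul_of_nonneg_left (hu d hd) h2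
  have hc2 : (2 : ℝ) ≤ 2 ^ (c - 1) := by
    calc (2 : ℝ) = 2 ^ 1 := by norm_num
      _ ≤ 2 ^ (c - 1) := pow_le_pow_right₀ (by norm_num) (by omega)
  have hr0 : (0 : ℝ) < 1 / 2 ^ (c - 1) := by positivity
  have hr1 : 1 / (2 : ℝ) ^ (c - 1) < 1 := by
    rw [div_lt_one (by positivity)]
    linarith
  have h3 : ∑ d ∈ Finset.Icc (D + 1) (m / c),
      N d * b (m - c * d) / (2 ^ (c * d) - 2 ^ ((c - 1) * d)) ≤
      (1 / (2 : ℝ) ^ (c - 1)) ^ (D + 1) / (1 - 1 / 2 ^ (c - 1)) / (D + 1) := by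
    calc _ ≤ ∑ d ∈ Finset.Icc (D + 1) (m / c), (1 / (2 : ℝ) ^ (c - 1)) ^ d / (D + 1) := by
          refine Finset.sum_le_sum fun d hd => ?_
          obtain ⟨h4, h5⟩ := coef hN (D := D) hc (Finset.mem_Icc.1 hd).1
          rw [mul_div_right_comm]
          refine le_trans (mul_le_mul_of_nonneg_left (hb _).2 h4) ?_
          rw [mul_one]
          exact h5
      _ = (∑ d ∈ Finset.Icc (D + 1) (m / c), (1 / (2 : ℝ) ^ (c - 1)) ^ d) / (D + 1) := by
          rw [Finset.sum_div]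
      _ ≤ _ := by
          rw [geo hr1 D hDm]
          have hD0 : (0 : ℝ) < (D : ℝ) + 1 := by positivity
          refine div_le_div_of_nonneg_right (div_le_div_of_nonneg_right ?_ (by linarith)) hD0.le
          have : 0 < (1 / (2 : ℝ) ^ (c - 1)) ^ (m / c + 1) := by positivity
          linarith
  linarith

private theorem nval {N : ℕ → ℝ} (hN : IsN N) : N 2 = 1 ∧ N 3 = 2 ∧ N 4 = 3 ∧ N 5 = 6 ∧ N 6 = 9 ∧
    N 7 = 18 ∧ N 8 = 30 ∧ N 9 = 56 ∧ N 10 = 99 ∧ N 11 = 186 ∧ N 12 = 335 := by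
  refine ⟨?_, ?_, ?_, ?_, ?_, ?_, ?_, ?_, ?_, ?_, ?_⟩ <;>
    rw [tabN hN (by norm_num) (by norm_num)] <;> norm_num [TWO.gt, tN]

theorem d0_inf {b3 N : ℕ → ℝ} (h3 : IsRec 3 e3 b3) (hN : IsN N) {m : ℕ} (hm : 30 ≤ m) :
    14349 / 100000 ≤ DD b3 N 3 2 m := by
  have h := dd_inf hN (b := b3) (k := 3) (c := 2) (m := m) (D := 12) (by norm_num) (by norm_num)
    (by omega) (fun d => if d ≤ 8 then 14687 / 100000 else 1484 / 10000) (fun d hd => by
      have h1 := Finset.mem_Icc.1 hd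
      show b3 (m - 2 * d) ≤ if d ≤ 8 then 14687 / 100000 else 1484 / 10000
      split_ifs with h2
      · exact (lim3 h3 (by omega)).2
      · exact (up3 h3 (m - 2 * d)).2.2.2 (by omega)) fun n => ⟨(up3 h3 n).1, (up3 h3 n).2.1⟩
  refine le_trans ?_ h
  have h4 := (lim3 h3 (m := m) (by omega)).1
  obtain ⟨-, -, n4, n5, n6, n7, n8, n9, n10, n11, n12⟩ := nval hN
  have hs : Finset.Icc (3 + 1) 12 = ({4, 5, 6, 7, 8, 9, 10, 11, 12} : Finset ℕ) := by decide
  rw [hs, Finset.sum_insert (by decide), Finset.sum_insert (by decide),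
    Finset.sum_insert (by decide), Finset.sum_insert (by decide), Finset.sum_insert (by decide),
    Finset.sum_insert (by decide), Finset.sum_insert (by decide), Finset.sum_insert (by decide),
    Finset.sum_singleton, n4, n5, n6, n7, n8, n9, n10, n11, n12]
  norm_num
  linarith

theorem w2_inf {b1 N : ℕ → ℝ} (h1 : IsRec 1 e1 b1) (hN : IsN N) {m : ℕ} (hm : 39 ≤ m) :
    28118 / 100000 ≤ DD b1 N 1 3 m := by
  have h := dd_inf hN (b := b1) (k := 1) (c := 3) (m := m) (D := 12) (by norm_num) (by norm_num)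
    (by omega) (fun _ => 2889 / 10000) (fun d hd => by
      have h2 := Finset.mem_Icc.1 hd
      exact (up1 h1 (m - 3 * d)).2.2 (by omega)) fun n => ⟨(up1 h1 n).1, (up1 h1 n).2.1⟩
  refine le_trans ?_ h
  have h4 := (lim1 h1 (m := m) (by omega)).1
  obtain ⟨n2, n3, n4, n5, n6, n7, n8, n9, n10, n11, n12⟩ := nval hN
  have hs : Finset.Icc (1 + 1) 12 = ({2, 3, 4, 5, 6, 7, 8, 9, 10, 11, 12} : Finset ℕ) := by decide
  rw [hs, Finset.sum_insert (by decide), Finset.sum_insert (by decide),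
    Finset.sum_insert (by decide), Finset.sum_insert (by decide), Finset.sum_insert (by decide),
    Finset.sum_insert (by decide), Finset.sum_insert (by decide), Finset.sum_insert (by decide),
    Finset.sum_insert (by decide), Finset.sum_insert (by decide),
    Finset.sum_singleton, n2, n3, n4, n5, n6, n7, n8, n9, n10, n11, n12]
  norm_num
  linarith

theorem w4_inf {b1 N : ℕ → ℝ} (h1 : IsRec 1 e1 b1) (hN : IsN N) {m : ℕ} (hm : 33 ≤ m) :
    28838 / 100000 ≤ DD b1 N 1 5 m := by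
  have h := dd_inf hN (b := b1) (k := 1) (c := 5) (m := m) (D := 5) (by norm_num) (by norm_num)
    (by omega) (fun _ => 2889 / 10000) (fun d hd => by
      have h2 := Finset.mem_Icc.1 hd
      exact (up1 h1 (m - 5 * d)).2.2 (by omega)) fun n => ⟨(up1 h1 n).1, (up1 h1 n).2.1⟩
  refine le_trans ?_ h
  have h4 := (lim1 h1 (m := m) (by omega)).1
  obtain ⟨n2, n3, n4, n5, -⟩ := nval hN
  have hs : Finset.Icc (1 + 1) 5 = ({2, 3, 4, 5} : Finset ℕ) := by decide
  rw [hs, Finset.sum_insert (by decide), Finset.sum_insert (by decide),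
    Finset.sum_insert (by decide), Finset.sum_singleton, n2, n3, n4, n5]
  norm_num
  linarith

private theorem zz_nn (K i : ℕ) : 0 ≤ zz K i := by
  unfold zz
  split_ifs <;> norm_num

private theorem cub_inf {f : ℕ → ℝ} {x : ℝ} {M : ℕ} (h : ∀ m, M ≤ m → x ≤ f m) {m : ℕ}
    (hm : M + 3 ≤ m) : 8 / 7 * x ≤ cub f m := by
  unfold cub
  rw [if_pos (by omega)]
  have h1 := h m (by omega)
  have h2 := h (m - 3) (by omega)
  linarith

private theorem quad_inf {f : ℕ → ℝ} {x : ℝ} {M : ℕ} (h : ∀ m, M ≤ m → x ≤ f m) {m : ℕ}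
    (hm : M + 4 ≤ m) : (1 + 1 / 3 + 1 / 180) * x ≤ quad f m := by
  unfold quad
  rw [if_pos (by omega), if_pos (by omega)]
  have h1 := h m (by omega)
  have h2 := h (m - 2) (by omega)
  have h3 := h (m - 4) (by omega)
  linarith

/-- lower bound of `WW` -/
private noncomputable def lw (K : ℕ) : ℝ :=
  if K = 1 then (1 + 1 / 3 + 1 / 180) * (8 / 7 * (8 / 7 * (14349 / 100000)))
  else if K = 2 then 28118 / 100000 else 28838 / 100000

theorem tvl_inf {b1 b3 N : ℕ → ℝ} (h1 : IsRec 1 e1 b1) (h3 : IsRec 3 e3 b3) (hN : IsN N) {n : ℕ}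
    (hn : 45 ≤ n) : 89 / 325 < TvL b1 b3 N n := by
  have hw : ∀ K ∈ ({1, 2, 4, 8} : Finset ℕ), ∀ i ∈ Finset.range 4,
      lw K ≤ WW b1 b3 N K (n - (K + 1 + i)) := by
    intro K hK i hi
    have hi' := Finset.mem_range.1 hi
    have hK' : K = 1 ∨ K = 2 ∨ K = 4 ∨ K = 8 := by
      simpa only [Finset.mem_insert, Finset.mem_singleton] using hK
    unfold lw WW
    by_cases c1 : K = 1
    · rw [if_pos c1, if_pos c1]
      unfold W0
      exact quad_inf (M := 36) (fun m hm => cub_inf (M := 33) (fun m hm =>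
        cub_inf (M := 30) (fun m hm => d0_inf h3 hN hm) hm) hm) (by omega)
    · rw [if_neg c1, if_neg c1]
      by_cases c2 : K = 2
      · rw [if_pos c2, if_pos c2]
        exact w2_inf h1 hN (by omega)
      · rw [if_neg c2, if_neg c2]
        exact w4_inf h1 hN (by omega)
  have hT : ∑ K ∈ ({1, 2, 4, 8} : Finset ℕ), ∑ i ∈ Finset.range 4,
      zz K i / (2 ^ K * 4 ^ i) * lw K ≤ TvL b1 b3 N n := by
    unfold TvL
    refine Finset.sum_le_sum fun K hK => Finset.sum_le_sum fun i hi => ?_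
    have hi' := Finset.mem_range.1 hi
    have hK' : K = 1 ∨ K = 2 ∨ K = 4 ∨ K = 8 := by
      simpa only [Finset.mem_insert, Finset.mem_singleton] using hK
    rw [if_pos (by omega)]
    exact mul_le_mul_of_nonneg_left (hw K hK i hi) (div_nonneg (zz_nn K i) (by positivity))
  refine lt_of_lt_of_le ?_ hT
  rw [Finset.sum_insert (by decide), Finset.sum_insert (by decide), Finset.sum_insert (by decide),
    Finset.sum_singleton]
  simp only [Finset.sum_range_succ, Finset.sum_range_zero]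
  norm_num [zz, lw]

end Pool.Agent.TWO
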