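import Pool.Agent.TWO.GDefs
import Pool.Agent.PSD.Tot

/-!
# TWO/NA: numbers of irreducible polynomials over `F_2`
-/

open Polynomial Module

namespace Pool.Agent.TWO

theorem irr_finite (d : ℕ) : (IrrP d).Finite := by
  refine (Pool.Agent.PSD.finite_natDegree_le (ZMod 2) d).subset ?_
  rintro f ⟨_, h2, _⟩
  exact h2.le

private theorem na_one {a : ZMod 2} (h : a ≠ 0) : a = 1 := by
  revert a
  decide

private theorem na_monic {f : (ZMod 2)[X]} (h : f ≠ 0) : f.Monic :=
  na_one (leadingCoeff_ne_zero.2 h)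

private theorem na_IP (d : ℕ) (c : (ZMod 2)ˣ) : Pool.Agent.PSD.IP (ZMod 2) d c = IrrP d := by
  have hc : (c : ZMod 2) = 1 := na_one c.ne_zero
  have hm : ∀ a : ZMod 2, (-1) ^ d * a = a := by
    intro a
    have h1 : (-1 : ZMod 2) = 1 := by decide
    rw [h1, one_pow, one_mul]
  ext f
  constructor
  · rintro ⟨_, h2, h3, h4⟩
    refine ⟨h2, h3, ?_⟩
    rintro rfl
    rw [hm, hc, coeff_X_zero] at h4
    exact absurd h4 (by decide)
  · rintro ⟨h1, h2, h3⟩
    refine ⟨na_monic h1.ne_zero, h1, h2, ?_⟩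
    rw [hm, hc]
    apply na_one
    intro h0
    apply h3
    have h4 : X ∣ f := X_dvd_iff.2 h0
    have h5 : Associated (X : (ZMod 2)[X]) f := irreducible_X.associated_of_dvd h1 h4
    exact (eq_of_monic_of_associated monic_X (na_monic h1.ne_zero) h5).symm

private theorem na_ID (d : ℕ) : Pool.Agent.PSD.ID (ZMod 2) d = ((IrrP d).ncard : ℝ) := by
  unfold Pool.Agent.PSD.ID
  have h1 : ∀ c : (ZMod 2)ˣ, c ≠ 1 → ((Pool.Agent.PSD.IR (ZMod 2) d c : ℕ) : ℝ) = 0 := by
    intro c hc
    exact absurd (Units.ext (na_one c.ne_zero)) hc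
  rw [Fintype.sum_eq_single 1 h1]
  unfold Pool.Agent.PSD.IR
  rw [na_IP]

theorem irr_sum {r : ℕ} (hr : 1 ≤ r) : ∑ d ∈ r.divisors, d * (IrrP d).ncard = 2 ^ r - 1 := by
  have h1 := Pool.Agent.PSD.sum_ID (ZMod 2) hr
  rw [Finset.sum_congr rfl (fun d _ => by rw [na_ID])] at h1
  rw [ZMod.card] at h1
  have h2 : 1 ≤ 2 ^ r := Nat.one_le_two_pow
  have h3 : ((∑ d ∈ r.divisors, d * (IrrP d).ncard + 1 : ℕ) : ℝ) = ((2 ^ r : ℕ) : ℝ) := by
    push_cast
    push_cast at h1
    rw [h1]
    ring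
  have h4 := Nat.cast_injective h3
  omega

private theorem na_1 : (IrrP 1).ncard = 1 := by
  have h := irr_sum (r := 1) (by norm_num)
  rw [Nat.divisors_one, Finset.sum_singleton] at h
  omega

theorem irr_vals : (IrrP 1).ncard = 1 ∧ (IrrP 2).ncard = 1 ∧ (IrrP 3).ncard = 2 ∧
    (IrrP 4).ncard = 3 ∧ (IrrP 5).ncard = 6 ∧ (IrrP 6).ncard = 9 ∧ (IrrP 7).ncard = 18 ∧
    (IrrP 8).ncard = 30 ∧ (IrrP 9).ncard = 56 ∧ (IrrP 10).ncard = 99 ∧ (IrrP 11).ncard = 186 ∧
    (IrrP 12).ncard = 335 ∧ (IrrP 13).ncard = 630 := by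
  have h1 := na_1
  have h2 := irr_sum (r := 2) (by norm_num)
  have h3 := irr_sum (r := 3) (by norm_num)
  have h4 := irr_sum (r := 4) (by norm_num)
  have h5 := irr_sum (r := 5) (by norm_num)
  have h6 := irr_sum (r := 6) (by norm_num)
  have h7 := irr_sum (r := 7) (by norm_num)
  have h8 := irr_sum (r := 8) (by norm_num)
  have h9 := irr_sum (r := 9) (by norm_num)
  have h10 := irr_sum (r := 10) (by norm_num)
  have h11 := irr_sum (r := 11) (by norm_num)
  have h12 := irr_sum (r := 12) (by norm_num)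
  have h13 := irr_sum (r := 13) (by norm_num)
  rw [(by decide : Nat.divisors 2 = {1, 2}), Finset.sum_insert (by decide), Finset.sum_singleton] at h2
  rw [(by decide : Nat.divisors 3 = {1, 3}), Finset.sum_insert (by decide), Finset.sum_singleton] at h3
  rw [(by decide : Nat.divisors 4 = {1, 2, 4}), Finset.sum_insert (by decide), Finset.sum_insert (by decide),
    Finset.sum_singleton] at h4
  rw [(by decide : Nat.divisors 5 = {1, 5}), Finset.sum_insert (by decide), Finset.sum_singleton] at h5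
  rw [(by decide : Nat.divisors 6 = {1, 2, 3, 6}), Finset.sum_insert (by decide),
    Finset.sum_insert (by decide), Finset.sum_insert (by decide), Finset.sum_singleton] at h6
  rw [(by decide : Nat.divisors 7 = {1, 7}), Finset.sum_insert (by decide), Finset.sum_singleton] at h7
  rw [(by decide : Nat.divisors 8 = {1, 2, 4, 8}), Finset.sum_insert (by decide),
    Finset.sum_insert (by decide), Finset.sum_insert (by decide), Finset.sum_singleton] at h8
  rw [(by decide : Nat.divisors 9 = {1, 3, 9}), Finset.sum_insert (by decide), Finset.sum_insert (by decide),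
    Finset.sum_singleton] at h9
  rw [(by decide : Nat.divisors 10 = {1, 2, 5, 10}), Finset.sum_insert (by decide),
    Finset.sum_insert (by decide), Finset.sum_insert (by decide), Finset.sum_singleton] at h10
  rw [(by decide : Nat.divisors 11 = {1, 11}), Finset.sum_insert (by decide), Finset.sum_singleton] at h11
  rw [(by decide : Nat.divisors 12 = {1, 2, 3, 4, 6, 12}), Finset.sum_insert (by decide),
    Finset.sum_insert (by decide), Finset.sum_insert (by decide), Finset.sum_insert (by decide),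
    Finset.sum_insert (by decide), Finset.sum_singleton] at h12
  rw [(by decide : Nat.divisors 13 = {1, 13}), Finset.sum_insert (by decide), Finset.sum_singleton] at h13
  norm_num at h2 h3 h4 h5 h6 h7 h8 h9 h10 h11 h12 h13
  refine ⟨h1, ?_, ?_, ?_, ?_, ?_, ?_, ?_, ?_, ?_, ?_, ?_, ?_⟩ <;> omega

theorem irr_le {d : ℕ} (hd : 2 ≤ d) : d * (IrrP d).ncard ≤ 2 ^ d - 2 := by
  have h1 := irr_sum (r := d) (by omega)
  have h2 : ({1, d} : Finset ℕ) ⊆ d.divisors := by
    intro x hx
    rw [Finset.mem_insert, Finset.mem_singleton] at hx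
    rw [Nat.mem_divisors]
    rcases hx with rfl | rfl
    · exact ⟨one_dvd _, by omega⟩
    · exact ⟨dvd_rfl, by omega⟩
  have h3 := Finset.sum_le_sum_of_subset (f := fun d => d * (IrrP d).ncard) h2
  rw [h1, Finset.sum_insert (by rw [Finset.mem_singleton]; omega), Finset.sum_singleton, na_1] at h3
  omega

private theorem na_le (d : ℕ) : d * (IrrP d).ncard ≤ 2 ^ d := by
  rcases Nat.lt_or_ge d 2 with h | h
  · interval_cases d
    · norm_num
    · rw [na_1]
      norm_num
  · exact (irr_le h).trans (Nat.sub_le _ _)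

private theorem na_geom (n : ℕ) : ∑ i ∈ Finset.range n, 2 ^ i + 1 = 2 ^ n := by
  induction n with
  | zero => rfl
  | succ n ih =>
    rw [Finset.sum_range_succ, pow_succ]
    omega

theorem irr_ge {e : ℕ} (he : Odd e) : 2 ^ e ≤ e * (IrrP e).ncard + 2 ^ (e / 3 + 1) := by
  obtain ⟨m, hm⟩ := he
  have h1 := irr_sum (r := e) (by omega)
  rw [← Nat.cons_self_properDivisors (by omega : e ≠ 0), Finset.sum_cons] at h1
  have h2 : ∑ d ∈ e.properDivisors, d * (IrrP d).ncard ≤ ∑ d ∈ Finset.range (e / 3 + 1), 2 ^ d := by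
    refine (Finset.sum_le_sum fun d _ => na_le d).trans (Finset.sum_le_sum_of_subset ?_)
    intro d hd
    rw [Nat.mem_properDivisors] at hd
    obtain ⟨⟨q, hq⟩, hlt⟩ := hd
    rw [Finset.mem_range]
    have hq3 : 3 ≤ q := by
      by_contra hcon
      have : q = 0 ∨ q = 1 ∨ q = 2 := by omega
      rcases this with rfl | rfl | rfl
      · omega
      · omega
      · omega
    have h3 : d * 3 ≤ e := by
      rw [hq]
      exact Nat.mul_le_mul_left d hq3
    omega
  have h3 := na_geom (e / 3 + 1)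
  omega

theorem dvd_card {e M : ℕ} (hM : 1 ≤ M) : e * {f | f ∈ IrrP e ∧ f ∣ X ^ M - 1}.ncard ≤ M := by
  have hfin : {f | f ∈ IrrP e ∧ f ∣ X ^ M - 1}.Finite := (irr_finite e).subset fun f hf => hf.1
  obtain ⟨s, hs⟩ : ∃ s : Finset (ZMod 2)[X], s = hfin.toFinset := ⟨_, rfl⟩
  have hms : ∀ f, f ∈ s ↔ f ∈ IrrP e ∧ f ∣ X ^ M - 1 := by
    intro f
    rw [hs, Set.Finite.mem_toFinset, Set.mem_setOf_eq]
  have hcard : {f | f ∈ IrrP e ∧ f ∣ X ^ M - 1}.ncard = s.card := by
    rw [Set.ncard_eq_toFinset_card _ hfin, hs]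
  rw [hcard]
  have hmon : ∀ f ∈ s, f.Monic := fun f hf => na_monic ((hms f).1 hf).1.1.ne_zero
  have h1 : ∏ f ∈ s, f ∣ X ^ M - 1 := by
    apply Finset.prod_dvd_of_coprime
    · intro f hf g hg hfg
      show IsCoprime f g
      have hf' := (hms f).1 hf
      have hg' := (hms g).1 hg
      rw [hf'.1.1.coprime_iff_not_dvd]
      intro hd
      exact hfg (eq_of_monic_of_associated (hmon f hf) (hmon g hg) (hf'.1.1.associated_of_dvd hg'.1.1 hd))
    · intro f hf
      exact ((hms f).1 hf).2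
  have h0 : (X ^ M - 1 : (ZMod 2)[X]) ≠ 0 := by
    rw [← C_1]
    exact X_pow_sub_C_ne_zero hM 1
  have h2 := natDegree_le_of_dvd h1 h0
  rw [← C_1, natDegree_X_pow_sub_C, natDegree_prod_of_monic _ _ hmon,
    Finset.sum_congr rfl (fun f hf => ((hms f).1 hf).1.2.1), Finset.sum_const, smul_eq_mul] at h2
  rw [mul_comm]
  exact h2

end Pool.Agent.TWO
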