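import Pool.Agent.TWO.GDefs

/-!
# TWO/GTv: first facts on transvections over `F_2`

`Cen H φ` is the subspace of the centres `a` (with `φ a = 0`, `1 + a ⊗ φ ∈ H`), see `GDefs`.
Conjugation with an element of `H` maps `Cen H φ` to `Cen H (φ ∘ h⁻¹)`.
-/

open Polynomial Module

namespace Pool.Agent.TWO

variable {V : Type} [AddCommGroup V] [Module (ZMod 2) V]

private theorem z2 (c : ZMod 2) : c = 0 ∨ c = 1 :=
  (by decide : ∀ c : ZMod 2, c = 0 ∨ c = 1) c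

private theorem aself (a : V) : a + a = 0 := by
  have h : ((1 : ZMod 2) + 1) • a = 0 := by
    rw [show (1 : ZMod 2) + 1 = 0 by decide, zero_smul]
  rwa [add_smul, one_smul] at h

theorem isTv_iff (t : V ≃ₗ[ZMod 2] V) :
    IsTv t ↔ ∃ (a : V) (φ : Module.Dual (ZMod 2) V), a ≠ 0 ∧ φ ≠ 0 ∧ φ a = 0 ∧
      ∀ v : V, t v = v + φ v • a := by
  unfold IsTv
  rw [finrank_eq_one_iff']
  constructor
  · rintro ⟨⟨a, w, hw⟩, ha0, hall⟩
    have ha : a ≠ 0 := fun h => ha0 (Subtype.ext h)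
    obtain ⟨f, hf⟩ : ∃ f : Module.Dual (ZMod 2) V, f a ≠ 0 := by
      by_contra hcon
      push Not at hcon
      exact ha ((Module.forall_dual_apply_eq_zero_iff (ZMod 2) a).1 hcon)
    have hf1 : f a = 1 := (z2 (f a)).resolve_left hf
    have hφ : ∀ v, (t.toLinearMap - 1) v = f ((t.toLinearMap - 1) v) • a := by
      intro v
      obtain ⟨c, hc⟩ := hall ⟨(t.toLinearMap - 1) v, v, rfl⟩
      have hc' : c • a = (t.toLinearMap - 1) v := congrArg Subtype.val hc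
      rw [← hc', map_smul, hf1, smul_eq_mul, mul_one]
    have ht : ∀ v, t v = v + (f.comp (t.toLinearMap - 1)) v • a := by
      intro v
      have h1 : (t.toLinearMap - 1) v = t v - v := rfl
      have h2 := hφ v
      rw [LinearMap.comp_apply, ← h2, h1]
      abel
    refine ⟨a, f.comp (t.toLinearMap - 1), ha, ?_, ?_, ht⟩
    · intro h0
      have h1 : (f.comp (t.toLinearMap - 1)) w = 0 := by rw [h0]; rfl
      rw [LinearMap.comp_apply, hw, hf1] at h1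
      exact one_ne_zero h1
    · rcases z2 ((f.comp (t.toLinearMap - 1)) a) with h0 | h1
      · exact h0
      · exfalso
        have h2 := ht a
        rw [h1, one_smul, aself] at h2
        exact ha ((LinearEquiv.map_eq_zero_iff t).1 h2)
  · rintro ⟨a, φ, ha, hφ, hφa, hall⟩
    have hsub : ∀ v, (t.toLinearMap - 1) v = φ v • a := by
      intro v
      have h1 : (t.toLinearMap - 1) v = t v - v := rfl
      rw [h1, hall v]
      abel
    obtain ⟨w, hw⟩ : ∃ w, φ w ≠ 0 := by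
      by_contra hcon
      push Not at hcon
      exact hφ (LinearMap.ext fun v => by rw [hcon v]; rfl)
    have hw1 : φ w = 1 := (z2 (φ w)).resolve_left hw
    refine ⟨⟨a, w, by rw [hsub w, hw1, one_smul]⟩, fun h => ha (congrArg Subtype.val h), ?_⟩
    rintro ⟨x, v, hv⟩
    have h3 : φ v • a = x := (hsub v).symm.trans hv
    exact ⟨φ v, Subtype.ext h3⟩

theorem cen_le_ker (H : Subgroup (V ≃ₗ[ZMod 2] V)) (φ : Module.Dual (ZMod 2) V) :
    Cen H φ ≤ LinearMap.ker φ := fun _ ha => ha.1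

theorem cen_map {H : Subgroup (V ≃ₗ[ZMod 2] V)} {h : V ≃ₗ[ZMod 2] V} (hh : h ∈ H)
    (φ : Module.Dual (ZMod 2) V) :
    (Cen H φ).map (h : V →ₗ[ZMod 2] V) =
      Cen H (φ.comp ((h.symm : V ≃ₗ[ZMod 2] V) : V →ₗ[ZMod 2] V)) := by
  ext b
  rw [Submodule.mem_map]
  constructor
  · rintro ⟨a, ⟨ha, t, ht, hta⟩, rfl⟩
    refine ⟨?_, h * t * h⁻¹, H.mul_mem (H.mul_mem hh ht) (H.inv_mem hh), fun v => ?_⟩
    · show φ (h.symm (h a)) = 0
      rw [LinearEquiv.symm_apply_apply, ha]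
    · show h (t (h.symm v)) = v + φ (h.symm v) • h a
      rw [hta, map_add, map_smul, LinearEquiv.apply_symm_apply]
  · rintro ⟨hb, t, ht, htb⟩
    refine ⟨h.symm b, ⟨hb, h⁻¹ * t * h, H.mul_mem (H.mul_mem (H.inv_mem hh) ht) hh, fun v => ?_⟩,
      LinearEquiv.apply_symm_apply h b⟩
    show h.symm (t (h v)) = v + φ v • h.symm b
    have h1 : t (h v) = h v + φ (h.symm (h v)) • b := htb (h v)
    rw [h1, LinearEquiv.symm_apply_apply, map_add, map_smul, LinearEquiv.symm_apply_apply]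

theorem comm_rel {H : Subgroup (V ≃ₗ[ZMod 2] V)} {φ ψ : Module.Dual (ZMod 2) V} {a b : V}
    (ha : a ∈ Cen H φ) (hb : b ∈ Cen H ψ) (h1 : φ b = 1) (h2 : ψ a = 0) : a ∈ Cen H ψ := by
  have hb' := hb
  obtain ⟨ha1, t, ht, hta⟩ := ha
  obtain ⟨hb1, s, hs, hsb⟩ := hb
  have hab : a + b ∈ Cen H ψ := by
    refine ⟨by rw [map_add, h2, hb1, add_zero], t * s * t⁻¹,
      H.mul_mem (H.mul_mem ht hs) (H.inv_mem ht), fun v => ?_⟩
    show t (s (t.symm v)) = v + ψ v • (a + b)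
    have e1 : t (t.symm v) = v := LinearEquiv.apply_symm_apply t v
    have e2 : ψ v = ψ (t.symm v) := by
      have h3 := congrArg ψ e1
      rw [hta (t.symm v), map_add, map_smul, h2, smul_zero, add_zero] at h3
      exact h3.symm
    rw [hsb, map_add, e1, map_smul, ← e2, hta b, h1, one_smul, add_comm b a]
  have h3 := (Cen H ψ).sub_mem hab hb'
  rwa [add_sub_cancel_right] at h3

theorem ax_map {H : Subgroup (V ≃ₗ[ZMod 2] V)} {h : V ≃ₗ[ZMod 2] V} (hh : h ∈ H) {k : ℕ}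
    {φ : Module.Dual (ZMod 2) V} (hφ : φ ∈ Ax H k) :
    (φ.comp ((h.symm : V ≃ₗ[ZMod 2] V) : V →ₗ[ZMod 2] V)) ∈ Ax H k := by
  refine ⟨fun h0 => hφ.1 (LinearMap.ext fun v => ?_), ?_⟩
  · have h1 : (φ.comp ((h.symm : V ≃ₗ[ZMod 2] V) : V →ₗ[ZMod 2] V)) (h v) = 0 := by
      rw [h0]; rfl
    have h2 : φ (h.symm (h v)) = 0 := h1
    rwa [LinearEquiv.symm_apply_apply] at h2
  · rw [← cen_map hh φ, LinearEquiv.finrank_map_eq]
    exact hφ.2

theorem span_ax {H : Subgroup (V ≃ₗ[ZMod 2] V)} (hirr : IrrSub H) {k : ℕ}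
    (hne : (Ax H k).Nonempty) (v : V) (hv : v ≠ 0) : ∃ φ ∈ Ax H k, φ v = 1 := by
  by_contra hcon
  push Not at hcon
  have hv0 : ∀ φ ∈ Ax H k, φ v = 0 := fun φ hφ => (z2 (φ v)).resolve_right (hcon φ hφ)
  have hmem : ∀ x, x ∈ (⨅ φ ∈ Ax H k, LinearMap.ker φ : Submodule (ZMod 2) V) ↔
      ∀ φ ∈ Ax H k, φ x = 0 := by
    intro x
    simp only [Submodule.mem_iInf, LinearMap.mem_ker]
  rcases hirr (⨅ φ ∈ Ax H k, LinearMap.ker φ) (by
    intro h hh x hx
    rw [hmem] at hx ⊢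
    intro φ hφ
    have h1 := ax_map (H.inv_mem hh) hφ
    have h2 := hx _ h1
    exact h2) with h0 | h0
  · have : v ∈ (⨅ φ ∈ Ax H k, LinearMap.ker φ : Submodule (ZMod 2) V) := (hmem v).2 hv0
    rw [h0, Submodule.mem_bot] at this
    exact hv this
  · obtain ⟨φ, hφ⟩ := hne
    refine hφ.1 (LinearMap.ext fun x => ?_)
    have : x ∈ (⨅ φ ∈ Ax H k, LinearMap.ker φ : Submodule (ZMod 2) V) := by
      rw [h0]; exact Submodule.mem_top
    exact (hmem x).1 this φ hφ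

theorem span_cen {H : Subgroup (V ≃ₗ[ZMod 2] V)} (hirr : IrrSub H)
    (hex : ∃ ψ : Module.Dual (ZMod 2) V, ψ ≠ 0 ∧ Cen H ψ ≠ ⊥) (φ : Module.Dual (ZMod 2) V)
    (hφ : φ ≠ 0) : ∃ ψ : Module.Dual (ZMod 2) V, ψ ≠ 0 ∧ ∃ b ∈ Cen H ψ, φ b = 1 := by
  by_contra hcon
  push Not at hcon
  have hall : ∀ ψ : Module.Dual (ZMod 2) V, ψ ≠ 0 → ∀ b ∈ Cen H ψ, φ b = 0 :=
    fun ψ hψ b hb => (z2 (φ b)).resolve_right (hcon ψ hψ b hb)
  rcases hirr (Submodule.span (ZMod 2) {b | ∃ ψ : Module.Dual (ZMod 2) V, ψ ≠ 0 ∧ b ∈ Cen H ψ}) (by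
    intro h hh x hx
    induction hx using Submodule.span_induction with
    | mem x hx =>
      obtain ⟨ψ, hψ, hx⟩ := hx
      refine Submodule.subset_span ⟨ψ.comp ((h.symm : V ≃ₗ[ZMod 2] V) : V →ₗ[ZMod 2] V), ?_, ?_⟩
      · intro h0
        refine hψ (LinearMap.ext fun v => ?_)
        have h1 : (ψ.comp ((h.symm : V ≃ₗ[ZMod 2] V) : V →ₗ[ZMod 2] V)) (h v) = 0 := by
          rw [h0]; rfl
        have h2 : ψ (h.symm (h v)) = 0 := h1
        rwa [LinearEquiv.symm_apply_apply] at h2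
      · rw [← cen_map hh ψ]
        exact Submodule.mem_map_of_mem hx
    | zero => rw [map_zero]; exact Submodule.zero_mem _
    | add x y _ _ hx hy => rw [map_add]; exact Submodule.add_mem _ hx hy
    | smul c x _ hx => rw [map_smul]; exact Submodule.smul_mem _ c hx) with h0 | h0
  · obtain ⟨ψ, hψ, hne⟩ := hex
    refine hne (le_bot_iff.1 fun x hx => ?_)
    have : x ∈ Submodule.span (ZMod 2) {b | ∃ ψ : Module.Dual (ZMod 2) V, ψ ≠ 0 ∧ b ∈ Cen H ψ} :=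
      Submodule.subset_span ⟨ψ, hψ, hx⟩
    rwa [h0] at this
  · have hle : Submodule.span (ZMod 2) {b | ∃ ψ : Module.Dual (ZMod 2) V, ψ ≠ 0 ∧ b ∈ Cen H ψ} ≤
        LinearMap.ker φ := by
      rw [Submodule.span_le]
      rintro b ⟨ψ, hψ, hb⟩
      exact hall ψ hψ b hb
    refine hφ (LinearMap.ext fun x => ?_)
    have : x ∈ Submodule.span (ZMod 2) {b | ∃ ψ : Module.Dual (ZMod 2) V, ψ ≠ 0 ∧ b ∈ Cen H ψ} := by
      rw [h0]; exact Submodule.mem_top
    exact hle this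

end Pool.Agent.TWO
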