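import Pool.Agent.TWO.OrdE
import Pool.Agent.TWO.TvK
import Pool.Agent.TWO.QuadF
import Pool.Agent.TWO.Irr
import Pool.Agent.TWO.GTv

/-!
# TWO/OddE: the classes `E1`, `E2`, `E2s`, `E3` consist of elements of odd order, so they are
disjoint from `TV`

Such an element is killed by a product of different irreducible polynomials, which divides
`X^o - 1` with `o` odd; no power of an element of odd order is a transvection.
-/

open Polynomial

namespace Pool.Agent.TWO

open Pool.Agent.PSD

private theorem od_self {n : ℕ} (a : Fin n → F) : a + a = 0 := by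
  have h : ((1 : F) + 1) • a = 0 := by
    rw [show (1 : F) + 1 = 0 by decide, zero_smul]
  rwa [add_smul, one_smul] at h

theorem odd_not_tv {n : ℕ} {g : GLn n} {o : ℕ} (ho : Odd o) (h : g ^ o = 1) : g ∉ TV n := by
  rintro ⟨k, hk⟩
  obtain ⟨a, φ, ha, hφ, hφa, hall⟩ := (isTv_iff _).1 hk
  have h1 : (g ^ k) ^ o = 1 := by
    rw [← pow_mul, mul_comm, pow_mul, h, one_pow]
  have h2 : (g ^ k) ^ 2 = 1 := by
    ext1 v
    show (g ^ k * g ^ k) v = v
    show (g ^ k) ((g ^ k) v) = v
    rw [hall v, hall, map_add, map_smul, hφa, smul_zero, add_zero, add_assoc, od_self, add_zero]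
  obtain ⟨m, hm⟩ := ho
  rw [hm, pow_add, pow_mul, h2, one_pow, one_mul, pow_one] at h1
  apply hφ
  apply LinearMap.ext
  intro v
  have h3 := hall v
  rw [h1] at h3
  have h4 : φ v • a = 0 := by
    have h5 : v = v + φ v • a := h3
    exact left_eq_add.1 h5
  rcases smul_eq_zero.1 h4 with h5 | h5
  · exact h5
  · exact absurd h5 ha

private theorem od_dim {n : ℕ} {g : Module.End F (Fin n → F)} {f : F[X]} {v : Fin n → F}
    (h : AnnEq g f v) : f.natDegree ≤ Module.finrank F (LinearMap.ker (aeval g f)) := by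
  let L : F[X] →ₗ[F] (Fin n → F) := (LinearMap.applyₗ v) ∘ₗ (aeval g).toLinearMap
  have hL : ∀ q, L q = aeval g q v := fun q => rfl
  have hker : ∀ q, L q ∈ LinearMap.ker (aeval g f) := by
    intro q
    rw [LinearMap.mem_ker, hL, ← Module.End.mul_apply, ← map_mul, mul_comm, map_mul,
      Module.End.mul_apply, h.1, map_zero]
  let L1 : degreeLT F f.natDegree →ₗ[F] LinearMap.ker (aeval g f) :=
    (L.codRestrict _ hker).domRestrict _
  have hinj : Function.Injective L1 := by
    rw [injective_iff_map_eq_zero]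
    intro q hq
    by_contra h0
    have h1 : (q : F[X]) ≠ 0 := fun h1 => h0 (Subtype.ext h1)
    refine h.2 q h1 ?_ (congrArg Subtype.val hq)
    have h2 := mem_degreeLT.1 q.2
    exact (natDegree_lt_iff_degree_lt h1).2 h2
  have h1 := LinearMap.finrank_le_finrank_of_injective hinj
  rwa [(degreeLTEquiv F f.natDegree).finrank_eq, Module.finrank_fin_fun] at h1

private theorem od_fix {n : ℕ} {g : GLn n} {w : Fin n → F} (hw : w ≠ 0) (h : g w = w) :
    1 ≤ Module.finrank F (LinearMap.ker (aeval g.toLinearMap (X + 1 : F[X]))) := by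
  have h1 : w ∈ LinearMap.ker (aeval g.toLinearMap (X + 1 : F[X])) := by
    rw [LinearMap.mem_ker, map_add, map_one, aeval_X, LinearMap.add_apply]
    show g w + w = 0
    rw [h, od_self]
  have h2 : LinearMap.ker (aeval g.toLinearMap (X + 1 : F[X])) ≠ ⊥ := by
    intro h3
    rw [h3, Submodule.mem_bot] at h1
    exact hw h1
  exact Submodule.one_le_finrank_iff.2 h2

private theorem od_sum {n : ℕ} (g : Module.End F (Fin n → F)) {f h : F[X]} (hc : IsCoprime f h) :
    Module.finrank F (LinearMap.ker (aeval g f)) + Module.finrank F (LinearMap.ker (aeval g h)) ≤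
      Module.finrank F (LinearMap.ker (aeval g (f * h))) := by
  rw [← Polynomial.sup_ker_aeval_eq_ker_aeval_mul_of_coprime g hc]
  have h1 := Submodule.finrank_sup_add_finrank_inf_eq (LinearMap.ker (aeval g f))
    (LinearMap.ker (aeval g h))
  rw [(Polynomial.disjoint_ker_aeval_of_isCoprime g hc).eq_bot, finrank_bot, add_zero] at h1
  rw [h1]

private theorem od_top {n : ℕ} (g : Module.End F (Fin n → F)) {P : F[X]}
    (h : n ≤ Module.finrank F (LinearMap.ker (aeval g P))) : aeval g P = 0 := by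
  have h1 : LinearMap.ker (aeval g P) = ⊤ := by
    apply Submodule.eq_top_of_finrank_eq
    apply le_antisymm (Submodule.finrank_le _)
    rw [Module.finrank_fin_fun]
    exact h
  exact LinearMap.ker_eq_top.1 h1

private theorem od_one {n : ℕ} {g : GLn n} {P : F[X]} {o : ℕ} (ho : Odd o)
    (h : aeval g.toLinearMap P = 0) (hP : P ∣ X ^ o - 1) : g ∉ TV n := by
  refine odd_not_tv ho ?_
  obtain ⟨c, hc⟩ := hP
  have h1 : aeval g.toLinearMap (X ^ o - 1 : F[X]) = 0 := by
    rw [hc, map_mul, h, zero_mul]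
  rw [map_sub, map_pow, aeval_X, map_one, sub_eq_zero] at h1
  have hpow : ∀ (k : ℕ) (x : Fin n → F), (g ^ k) x = (g.toLinearMap ^ k) x := by
    intro k
    induction k with
    | zero => intro x; rfl
    | succ k ih =>
      intro x
      rw [pow_succ, pow_succ, Module.End.mul_apply, ← ih]
      rfl
  ext1 x
  rw [hpow, h1]
  rfl

private theorem od_mono {f : F[X]} {a b : ℕ} (h : f ∣ X ^ a - 1) (hab : a ∣ b) :
    f ∣ X ^ b - 1 := by
  obtain ⟨c, rfl⟩ := hab
  have h1 := sub_dvd_pow_sub_pow (X ^ a : F[X]) 1 c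
  rw [one_pow, ← pow_mul] at h1
  exact h.trans h1

private theorem od_dvd {d : ℕ} {f : F[X]} (hf : f ∈ IrrP d) : f ∣ X ^ (2 ^ d - 1) - 1 := by
  obtain ⟨hirr, hdeg, hX⟩ := hf
  have h1 := (hirr.natDegree_dvd_iff_dvd_X_pow_card_pow_sub_X (n := d)).1 (by rw [hdeg])
  rw [Nat.card_zmod] at h1
  have h2 : (X ^ 2 ^ d - X : F[X]) = X * (X ^ (2 ^ d - 1) - 1) := by
    have h3 : 2 ^ d = (2 ^ d - 1) + 1 := (Nat.sub_add_cancel Nat.one_le_two_pow).symm
    rw [mul_sub, mul_one, ← pow_succ', ← h3]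
  rw [h2] at h1
  have h3 : IsCoprime f X := by
    rw [hirr.coprime_iff_not_dvd]
    intro h
    apply hX
    have h2 := (hirr.dvd_irreducible_iff_associated Polynomial.irreducible_X).1 h
    have h3 : f.Monic := by
      have h4 := leadingCoeff_ne_zero.2 hirr.ne_zero
      have h5 : ∀ c : ZMod 2, c ≠ 0 → c = 1 := by decide
      exact h5 _ h4
    exact eq_of_monic_of_associated h3 monic_X h2
  exact h3.dvd_of_dvd_mul_left h1

private theorem od_lin (o : ℕ) : (X + 1 : F[X]) ∣ X ^ o - 1 := by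
  have h1 : (X + 1 : F[X]) = X - 1 := by
    have h2 : (-1 : F[X]) = 1 := by
      have h3 : (-1 : F) = 1 := by decide
      rw [← C_1, ← C_neg, h3]
    rw [sub_eq_add_neg, h2]
  rw [h1]
  have h2 := sub_dvd_pow_sub_pow (X : F[X]) 1 o
  rwa [one_pow] at h2

private theorem od_lin_deg : (X + 1 : F[X]).natDegree = 1 := by
  have h := natDegree_X_add_C (1 : F)
  rwa [C_1] at h

/-- an irreducible polynomial is coprime to a nonzero polynomial of smaller degree -/
private theorem od_cop {f h : F[X]} (hf : Irreducible f) (h0 : h ≠ 0)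
    (hd : h.natDegree < f.natDegree) : IsCoprime f h := by
  rw [hf.coprime_iff_not_dvd]
  intro h1
  have h2 := natDegree_le_of_dvd h1 h0
  omega

private theorem od_lin_ne : (X + 1 : F[X]) ≠ 0 := by
  intro h
  have h1 := od_lin_deg
  rw [h, natDegree_zero] at h1
  exact absurd h1 (by norm_num)

private theorem od_odd {d : ℕ} (hd : 1 ≤ d) : Odd (2 ^ d - 1) := by
  have h1 : Even (2 ^ d) := (Nat.even_pow.2 ⟨even_two, by omega⟩)
  exact Nat.Even.sub_odd Nat.one_le_two_pow h1 odd_one

theorem e1_disj {n : ℕ} (hn : 3 ≤ n) : Disjoint (TV n) {g : GLn n | E1 n g} := by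
  rw [Set.disjoint_right]
  rintro g ⟨⟨f, hf, v, hv⟩, w, hw0, hw⟩
  have hd : f.natDegree = n - 1 := hf.1.2.1
  have hc : IsCoprime f (X + 1) := od_cop hf.1.1 od_lin_ne (by rw [od_lin_deg, hd]; omega)
  have h1 := od_sum g.toLinearMap hc
  have h2 := od_dim hv
  have h3 := od_fix hw0 hw
  refine od_one (od_odd (d := n - 1) (by omega)) (od_top g.toLinearMap (P := f * (X + 1)) ?_)
    (hc.mul_dvd (od_dvd hf.1) (od_lin _))
  omega

theorem e2_disj {n : ℕ} (hn : n = 8 ∨ n = 10 ∨ n = 12) :
    Disjoint (TV n) {g : GLn n | E2 n g} := by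
  rw [Set.disjoint_right]
  rintro g ⟨⟨f, hf, v, hv⟩, f', hf', v', hv'⟩
  have hd : f.natDegree = n - 3 := hf.2.1
  have hd' : f'.natDegree = 3 := hf'.2.1
  have hc : IsCoprime f f' := od_cop hf.1 hf'.1.ne_zero (by rw [hd', hd]; omega)
  have h1 := od_sum g.toLinearMap hc
  have h2 := od_dim hv
  have h3 := od_dim hv'
  refine od_one ((od_odd (d := n - 3) (by omega)).mul (od_odd (d := 3) (by omega)))
    (od_top g.toLinearMap (P := f * f') ?_)
    (hc.mul_dvd (od_mono (od_dvd hf) (Dvd.intro _ rfl)) (od_mono (od_dvd hf') (Dvd.intro_left _ rfl)))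
  omega

theorem e2s_disj : Disjoint (TV 6) {g : GLn 6 | E2s g} := by
  rw [Set.disjoint_right]
  rintro g ⟨⟨f, hf, v, hv⟩, ⟨f', hf', v', hv'⟩, w, hw0, hw⟩
  have hd : f.natDegree = 3 := hf.2.1
  have hd' : f'.natDegree = 2 := hf'.2.1
  have hc1 : IsCoprime f f' := od_cop hf.1 hf'.1.ne_zero (by rw [hd', hd]; omega)
  have hc2 : IsCoprime f (X + 1) := od_cop hf.1 od_lin_ne (by rw [od_lin_deg, hd]; omega)
  have hc3 : IsCoprime f' (X + 1) := od_cop hf'.1 od_lin_ne (by rw [od_lin_deg, hd']; omega)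
  have hc4 : IsCoprime f (f' * (X + 1)) := hc1.mul_right hc2
  have h1 := od_sum g.toLinearMap hc4
  have h0 := od_sum g.toLinearMap hc3
  have h2 := od_dim hv
  have h3 := od_dim hv'
  have h4 := od_fix hw0 hw
  refine od_one ((od_odd (d := 3) (by omega)).mul (od_odd (d := 2) (by omega)))
    (od_top g.toLinearMap (P := f * (f' * (X + 1))) ?_)
    (hc4.mul_dvd (od_mono (od_dvd hf) (Dvd.intro _ rfl))
      (hc3.mul_dvd (od_mono (od_dvd hf') (Dvd.intro_left _ rfl)) (od_lin _)))
  omega

theorem e3_disj : Disjoint (TV 4) {g : GLn 4 | E3 g} := by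
  rw [Set.disjoint_right]
  rintro g ⟨f, hf, v, hv⟩
  have hd : f.natDegree = 4 := hf.1.2.1
  have h2 := od_dim hv
  refine od_one (od_odd (d := 4) (by omega)) (od_top g.toLinearMap (P := f) ?_) (od_dvd hf.1)
  omega

end Pool.Agent.TWO
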