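import Pool.Agent.TWO.TvD
import Pool.Agent.TWO.BigN
import Pool.Agent.TWO.EClass
import Pool.Agent.TWO.NA
import Pool.Agent.TWO.NB
import Pool.Agent.TWO.OddE
import Pool.Agent.TWO.LInf
import Pool.Agent.TWO.IsoP
import Pool.Agent.TWO.DerP
import Pool.Agent.TWO.CInv
import Pool.Agent.TWO.GMain
import Pool.Agent.PSD.Main

/-!
# TWO/Main: every transitive action of `PSL_n(2)` (assembly)
-/

open Polynomial

namespace Pool.Agent.TWO

open Pool.Agent.PSD

private theorem fr (n : ℕ) : Module.finrank (ZMod 2) (Fin n → F) = n := Module.finrank_fin_fun F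

/-- the transvection class alone -/
private theorem tv_gt {n : ℕ} (hn : n = 3 ∨ n = 5 ∨ n = 7 ∨ n = 9 ∨ n = 11 ∨ 13 ≤ n) :
    89 / 325 < prp n (TV n) := by
  refine lt_of_lt_of_le ?_ (tvl_le n)
  by_cases h : n < 45
  · exact tvl_fin rec_one rec_three isN hn h
  · exact tvl_inf rec_one rec_three isN (by omega)

private theorem union_gt {n : ℕ} {S : Set (GLn n)} (hd : Disjoint (TV n) S) {a : ℝ}
    (ha : a ≤ prp n S) (h : 89 / 325 < TvL (bb F 1) (bb F 3) (ID F) n + a) :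
    89 / 325 < prp n (TV n ∪ S) := by
  rw [← prp_add hd]
  have := tvl_le n
  linarith

/-- a proper irreducible subgroup misses a large class -/
theorem key {n : ℕ} (hn : 3 ≤ n) (H : Subgroup (GLn n)) (hH : H ≠ ⊤) (hI : IrrSub H) :
    ∃ C : Set (GLn n), CI C ∧ (∀ g ∈ C, g ∉ H) ∧ 89 / 325 < prp n C := by
  by_cases ht : ∃ t ∈ H, IsTv t
  · refine ⟨BG n, ci_bg n, ?_, bg_gt hn⟩
    rintro g ⟨e, he, f, hf, v, hv⟩ hg
    exact G1 (fr n) hI hH ht hg he hf v hv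
  have hTV : ∀ g ∈ TV n, g ∉ H := by
    rintro g ⟨k, hk⟩ hg
    exact ht ⟨g ^ k, H.pow_mem hg k, hk⟩
  have hun : ∀ S : Set (GLn n), (∀ g ∈ S, g ∉ H) → ∀ g ∈ TV n ∪ S, g ∉ H := by
    rintro S hS g (hg | hg)
    · exact hTV g hg
    · exact hS g hg
  obtain ⟨s4, s6, s8, s10, s12⟩ := tvl_small rec_one rec_three isN
  obtain ⟨p3, p4, p5, p7, p9, p11⟩ := prim_vals
  obtain ⟨-, -, i3, -, i5, -, i7, -, i9, -, i11, -, i13⟩ := irr_vals
  have p3' : (2 : ℝ) ≤ ((PrimP 3).ncard : ℝ) := by exact_mod_cast p3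
  have p5' : (6 : ℝ) ≤ ((PrimP 5).ncard : ℝ) := by exact_mod_cast p5
  have p7' : (18 : ℝ) ≤ ((PrimP 7).ncard : ℝ) := by exact_mod_cast p7
  have p9' : (48 : ℝ) ≤ ((PrimP 9).ncard : ℝ) := by exact_mod_cast p9
  have p11' : (176 : ℝ) ≤ ((PrimP 11).ncard : ℝ) := by exact_mod_cast p11
  have hcase : (n = 3 ∨ n = 5 ∨ n = 7 ∨ n = 9 ∨ n = 11 ∨ 13 ≤ n) ∨ n = 4 ∨ n = 6 ∨ n = 8 ∨
      n = 10 ∨ n = 12 := by omega
  rcases hcase with h | rfl | rfl | rfl | rfl | rfl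
  · exact ⟨TV n, ci_tv n, hTV, tv_gt h⟩
  · rcases G3 (fr 4) hI ht with h | h
    · refine ⟨TV 4 ∪ {g | E1 4 g}, ci_union (ci_tv 4) (ci_e1 4 4), hun _ fun g hg hgH => h g hgH hg,
        union_gt (e1_disj hn) (e1_ge hn) ?_⟩
      norm_num at s4 ⊢
      linarith
    · exact ⟨TV 4 ∪ {g | E3 g}, ci_union (ci_tv 4) (ci_e3 4), hun _ fun g hg hgH => h g hgH hg,
        union_gt e3_disj e3_ge s4⟩
  · rcases G2s (fr 6) hI ht with h | h
    · refine ⟨TV 6 ∪ {g | E1 6 g}, ci_union (ci_tv 6) (ci_e1 6 6), hun _ fun g hg hgH => h g hgH hg,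
        union_gt (e1_disj hn) (e1_ge hn) ?_⟩
      norm_num at s6 ⊢
      linarith
    · exact ⟨TV 6 ∪ {g | E2s g}, ci_union (ci_tv 6) (ci_e2s 6), hun _ fun g hg hgH => h g hgH hg,
        union_gt e2s_disj e2s_ge s6⟩
  · rcases G2 (Or.inl rfl) (fr 8) hI ht with h | h
    · refine ⟨TV 8 ∪ {g | E1 8 g}, ci_union (ci_tv 8) (ci_e1 8 8), hun _ fun g hg hgH => h g hgH hg,
        union_gt (e1_disj hn) (e1_ge hn) ?_⟩
      norm_num at s8 ⊢
      linarith
    · refine ⟨TV 8 ∪ {g | E2 8 g}, ci_union (ci_tv 8) (ci_e2 8 8), hun _ fun g hg hgH => h g hgH hg,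
        union_gt (e2_disj (Or.inl rfl)) (e2_ge (Or.inl rfl)) ?_⟩
      norm_num [i5] at s8 ⊢
      linarith
  · rcases G2 (Or.inr (Or.inl rfl)) (fr 10) hI ht with h | h
    · refine ⟨TV 10 ∪ {g | E1 10 g}, ci_union (ci_tv 10) (ci_e1 10 10),
        hun _ fun g hg hgH => h g hgH hg, union_gt (e1_disj hn) (e1_ge hn) ?_⟩
      norm_num at s10 ⊢
      linarith
    · refine ⟨TV 10 ∪ {g | E2 10 g}, ci_union (ci_tv 10) (ci_e2 10 10),
        hun _ fun g hg hgH => h g hgH hg, union_gt (e2_disj (Or.inr (Or.inl rfl)))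
        (e2_ge (Or.inr (Or.inl rfl))) ?_⟩
      norm_num [i7] at s10 ⊢
      linarith
  · rcases G2 (Or.inr (Or.inr rfl)) (fr 12) hI ht with h | h
    · refine ⟨TV 12 ∪ {g | E1 12 g}, ci_union (ci_tv 12) (ci_e1 12 12),
        hun _ fun g hg hgH => h g hgH hg, union_gt (e1_disj hn) (e1_ge hn) ?_⟩
      norm_num at s12 ⊢
      linarith
    · refine ⟨TV 12 ∪ {g | E2 12 g}, ci_union (ci_tv 12) (ci_e2 12 12),
        hun _ fun g hg hgH => h g hgH hg, union_gt (e2_disj (Or.inr (Or.inr rfl)))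
        (e2_ge (Or.inr (Or.inr rfl))) ?_⟩
      norm_num [i9] at s12 ⊢
      linarith

theorem main {n : ℕ} (hn : 3 ≤ n) {G : Type} [Group G]
    (e : G ≃* Matrix.ProjectiveSpecialLinearGroup (Fin n) (ZMod 2)) {Ω : Type} [MulAction G Ω]
    [MulAction.IsPretransitive G Ω] [Nontrivial Ω] :
    89 / 325 * (Nat.card G : ℝ) < (Nat.card {g : G // ∀ x : Ω, g • x ≠ x} : ℝ) := by
  classical
  obtain ⟨ε, hε⟩ := psl_iso n
  let e' : G ≃* GLn n := e.trans ε
  haveI : Finite G := Finite.of_equiv _ e'.symm.toEquiv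
  have hpos : (0 : ℝ) < (Nat.card G : ℝ) := by exact_mod_cast Nat.card_pos
  obtain ⟨ω, ω', hne⟩ := exists_pair_ne Ω
  let H : Subgroup (GLn n) := (MulAction.stabilizer G ω).map e'.toMonoidHom
  have hmem : ∀ g : GLn n, g ∉ H → e'.symm g ∉ MulAction.stabilizer G ω := by
    intro g hg h
    exact hg ⟨e'.symm g, h, by simp⟩
  have hH : H ≠ ⊤ := by
    intro h
    obtain ⟨a, ha⟩ := MulAction.exists_smul_eq G ω ω'
    have h1 : e' a ∈ H := h ▸ Subgroup.mem_top _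
    obtain ⟨b, hb, hb'⟩ := h1
    have h2 : b = a := e'.injective hb'
    rw [h2] at hb
    exact hne ((MulAction.mem_stabilizer_iff.1 hb).symm.trans ha)
  by_cases hI : IrrSub H
  · obtain ⟨C, hC, hCH, hlt⟩ := key hn H hH hI
    have h1 := der_gl e' ω C hC fun g hg => hmem g (hCH g hg)
    exact lt_of_lt_of_le (mul_lt_mul_of_pos_right hlt hpos) h1
  · unfold IrrSub at hI
    push_neg at hI
    obtain ⟨S, hS, hS0, hS1⟩ := hI
    have h1 := Pool.Agent.PSD.main (n := n) (by omega) (K := ZMod 2) (by omega) e ω S hS0 hS1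
      (by
        intro A hA x hx
        have h2 : e' (e.symm (QuotientGroup.mk A)) ∈ H := ⟨_, hA, rfl⟩
        have h3 := hS _ h2 x hx
        have h4 : e' (e.symm (QuotientGroup.mk A)) = ε (QuotientGroup.mk A) := by
          show ε (e (e.symm (QuotientGroup.mk A))) = _
          rw [e.apply_symm_apply]
        rw [h4, hε] at h3
        exact h3)
    refine lt_of_lt_of_le ?_ h1
    exact mul_lt_mul_of_pos_right (by norm_num) hpos

end Pool.Agent.TWO
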