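import Pool.Agent.TWO.Strip
import Pool.Agent.TWO.Irr
import Pool.Agent.TWO.GDefs

/-!
# TWO/AnnC: elements with a large irreducible factor
-/

open Polynomial

namespace Pool.Agent.TWO

open Pool.Agent.PSD

/-- elements with a factor of degree `> n/2` in `Gd` -/
def BG (n : ℕ) : Set (GLn n) :=
  {g | ∃ e : ℕ, n < 2 * e ∧ ∃ f ∈ Gd n e, ∃ v : Fin n → F, AnnEq g.toLinearMap f v}

private theorem ac_cop {V : Type} [AddCommGroup V] [Module F V] (q : Module.End F V) {f c : F[X]}
    (h : IsCoprime f c) {v : V} (hf : aeval q f v = 0) (hc : aeval q c v = 0) : v = 0 := by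
  obtain ⟨a, b, hab⟩ := h
  have h1 : aeval q (a * f + b * c) v = 0 := by
    rw [map_add, map_mul, map_mul, LinearMap.add_apply, Module.End.mul_apply, Module.End.mul_apply,
      hf, hc, map_zero, map_zero, add_zero]
  rw [hab, map_one] at h1
  exact h1

private theorem ac_small {b e : ℕ} (hb : b < e) {f : F[X]} (hf : f ∈ IrrP e)
    (q : Module.End F (Fin b → F)) : Function.Injective (aeval q f) := by
  rw [injective_iff_map_eq_zero]
  intro v hv
  have h1 : ¬ f ∣ q.charpoly := by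
    intro hd
    have h2 := natDegree_le_of_dvd hd (LinearMap.charpoly_monic q).ne_zero
    rw [LinearMap.charpoly_natDegree, Module.finrank_fin_fun, hf.2.1] at h2
    omega
  have h2 : IsCoprime f q.charpoly := hf.1.coprime_iff_not_dvd.2 h1
  refine ac_cop q h2 hv ?_
  rw [LinearMap.aeval_self_charpoly]
  rfl

private theorem ac_ci {n : ℕ} (S : Set F[X]) :
    CI {p : GLn n | ∃ f ∈ S, aeval p.toLinearMap f = 0} := by
  rintro g ⟨f, hf, hg⟩ h
  refine ⟨f, hf, ?_⟩
  rw [← cj_eq_mul]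
  refine LinearMap.ext fun x => ?_
  obtain ⟨y, rfl⟩ := h.surjective x
  rw [aeval_cj, hg, LinearMap.zero_apply, LinearMap.zero_apply, map_zero]

/-- polynomials of degree `< e` applied to a vector -/
private noncomputable def acL {V : Type} [AddCommGroup V] [Module F V] (g : Module.End F V) (e : ℕ)
    (v : V) : (Fin e → F) →ₗ[F] V :=
  (LinearMap.applyₗ v).comp ((aeval g).toLinearMap.comp
    ((degreeLT F e).subtype.comp (degreeLTEquiv F e).symm.toLinearMap))

private theorem acL_eq {V : Type} [AddCommGroup V] [Module F V] (g : Module.End F V) (e : ℕ)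
    (v : V) (x : Fin e → F) : ∃ φ : F[X], degree φ < e ∧ acL g e v x = aeval g φ v ∧ (φ = 0 → x = 0) := by
  refine ⟨((degreeLTEquiv F e).symm x : F[X]), mem_degreeLT.1 ((degreeLTEquiv F e).symm x).2, rfl, ?_⟩
  intro h
  have h1 : (degreeLTEquiv F e).symm x = 0 := Subtype.ext h
  exact (LinearEquiv.map_eq_zero_iff _).1 h1

theorem ann_ge {n e : ℕ} (he : 1 ≤ e) (h1 : e ≤ n) (h2 : n < 2 * e) {S : Set F[X]}
    (hS : S ⊆ IrrP e) :
    (S.ncard : ℝ) / (2 ^ e - 1) ≤
      prp n {g : GLn n | ∃ f ∈ S, ∃ v : Fin n → F, AnnEq g.toLinearMap f v} := by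
  obtain ⟨b, rfl⟩ := Nat.exists_eq_add_of_le h1
  have hfin : S.Finite := (ir_finite e).subset hS
  have hP : CI {p : GLn e | ∃ f ∈ S, aeval p.toLinearMap f = 0} := ac_ci S
  have hQ : CI (Set.univ : Set (GLn b)) := fun _ _ _ => Set.mem_univ _
  have hdec := dec_prp (a := e) (b := b) {p : GLn e | ∃ f ∈ S, aeval p.toLinearMap f = 0} Set.univ
    (∏ f ∈ hfin.toFinset, f) hP hQ (by
      rintro p ⟨f, hf, hp⟩
      obtain ⟨c, hc⟩ := Finset.dvd_prod_of_mem (fun f : F[X] => f) (hfin.mem_toFinset.2 hf)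
      rw [hc, map_mul, hp, zero_mul]) (by
      intro q _
      refine Finset.prod_induction (fun f : F[X] => f)
        (fun φ => Function.Injective (aeval q.toLinearMap φ)) ?_ ?_ ?_
      · intro φ ψ hφ hψ
        rw [map_mul]
        intro x y hxy
        exact hψ (hφ hxy)
      · rw [map_one]
        exact fun x y hxy => hxy
      · intro f hf
        exact ac_small (by omega) (hS (hfin.mem_toFinset.1 hf)) q.toLinearMap)
  rw [irr_set he hS, prp_univ, mul_one] at hdec
  rw [← hdec]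
  refine prp_mono ?_
  rintro g ⟨e₀, p, ⟨f, hf, hp⟩, q, _, hg⟩
  have hne : (fun _ => 1 : Fin e → F) ≠ 0 := by
    intro h
    have h3 := congrFun h ⟨0, by omega⟩
    exact one_ne_zero h3
  refine ⟨f, hf, e₀.symm ((fun _ => 1 : Fin e → F), 0), ?_⟩
  have key : ∀ φ : F[X], e₀ (aeval g.toLinearMap φ (e₀.symm ((fun _ => 1 : Fin e → F), 0))) =
      (aeval p.toLinearMap φ (fun _ => 1 : Fin e → F), 0) := by
    intro φ
    rw [← aeval_cj, hg, LinearEquiv.apply_symm_apply, blk_aeval_zero, map_zero]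
  have hfi := hS hf
  refine ⟨?_, ?_⟩
  · apply e₀.injective
    rw [key f, hp, map_zero]
    rfl
  · intro φ h0 hd hφ
    have h3 := key φ
    rw [hφ, map_zero] at h3
    have h4 : aeval p.toLinearMap φ (fun _ => 1 : Fin e → F) = 0 := (congrArg Prod.fst h3).symm
    have h5 : ¬ f ∣ φ := by
      intro hdv
      have h6 := natDegree_le_of_dvd hdv h0
      omega
    exact hne ((injective_iff_map_eq_zero _).1 (irr_inj hfi.1 p.toLinearMap hp h5) _ h4)

theorem ann_disj {n e e' : ℕ} {g : GLn n} {f f' : F[X]} {v v' : Fin n → F} (hf : f ∈ IrrP e)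
    (hf' : f' ∈ IrrP e') (h : AnnEq g.toLinearMap f v) (h' : AnnEq g.toLinearMap f' v')
    (h1 : n < 2 * e) (h2 : n < 2 * e') : e = e' := by
  by_contra hne
  have hnd : ¬ f ∣ f' := by
    intro hd
    have h3 := (hf.1.associated_of_dvd hf'.1 hd)
    have h4 := natDegree_eq_of_degree_eq (degree_eq_degree_of_associated h3)
    rw [hf.2.1, hf'.2.1] at h4
    exact hne h4
  have hcop : IsCoprime f f' := hf.1.coprime_iff_not_dvd.2 hnd
  have hann : ∀ (a : ℕ) (w : Fin n → F) (h0 : F[X]), AnnEq g.toLinearMap h0 w → h0.natDegree = a →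
      ∀ x : Fin a → F, acL g.toLinearMap a w x = 0 → x = 0 := by
    intro a w h0 hw ha x hx
    obtain ⟨φ, hφ1, hφ2, hφ3⟩ := acL_eq g.toLinearMap a w x
    apply hφ3
    by_contra hφ0
    refine hw.2 φ hφ0 ?_ (hφ2 ▸ hx)
    rw [ha]
    rw [degree_eq_natDegree hφ0] at hφ1
    exact_mod_cast hφ1
  have hker : ∀ (a : ℕ) (w : Fin n → F) (h0 : F[X]), AnnEq g.toLinearMap h0 w →
      ∀ x : Fin a → F, aeval g.toLinearMap h0 (acL g.toLinearMap a w x) = 0 := by
    intro a w h0 hw x
    obtain ⟨φ, hφ1, hφ2, hφ3⟩ := acL_eq g.toLinearMap a w x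
    rw [hφ2, ← Module.End.mul_apply, ← map_mul, mul_comm, map_mul, Module.End.mul_apply, hw.1, map_zero]
  have hinj : Function.Injective (LinearMap.coprod (acL g.toLinearMap e v) (acL g.toLinearMap e' v')) := by
    rw [injective_iff_map_eq_zero]
    rintro ⟨x, y⟩ hxy
    rw [LinearMap.coprod_apply] at hxy
    have h3 : acL g.toLinearMap e v x = -acL g.toLinearMap e' v' y := eq_neg_of_add_eq_zero_left hxy
    have h4 : acL g.toLinearMap e v x = 0 := by
      refine ac_cop g.toLinearMap hcop (hker e v f h x) ?_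
      rw [h3, map_neg, hker e' v' f' h' y, neg_zero]
    have h5 : acL g.toLinearMap e' v' y = 0 := by
      rw [h4] at h3
      exact neg_eq_zero.1 h3.symm
    have h6 := hann e v f h hf.2.1 x h4
    have h7 := hann e' v' f' h' hf'.2.1 y h5
    rw [h6, h7]
    rfl
  have h3 := LinearMap.finrank_le_finrank_of_injective hinj
  rw [Module.finrank_prod, Module.finrank_fin_fun, Module.finrank_fin_fun, Module.finrank_fin_fun] at h3
  omega

theorem big_ge (n : ℕ) :
    ∑ e ∈ (Finset.Icc 3 n).filter (fun e => n < 2 * e), ((Gd n e).ncard : ℝ) / (2 ^ e - 1) ≤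
      prp n (BG n) := by
  have h1 : ∀ e ∈ (Finset.Icc 3 n).filter (fun e => n < 2 * e), ((Gd n e).ncard : ℝ) / (2 ^ e - 1) ≤
      prp n {g : GLn n | ∃ f ∈ Gd n e, ∃ v : Fin n → F, AnnEq g.toLinearMap f v} := by
    intro e he
    rw [Finset.mem_filter, Finset.mem_Icc] at he
    exact ann_ge (by omega) he.1.2 he.2 (fun f hf => hf.1)
  refine (Finset.sum_le_sum h1).trans ?_
  refine prp_sum _ (fun e => {g : GLn n | ∃ f ∈ Gd n e, ∃ v : Fin n → F, AnnEq g.toLinearMap f v}) _ ?_ ?_
  · intro e he e' he' hne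
    rw [Finset.mem_filter] at he he'
    rw [Set.disjoint_left]
    rintro g ⟨f, hf, v, hv⟩ ⟨f', hf', v', hv'⟩
    exact hne (ann_disj hf.1 hf'.1 hv hv' he.2 he'.2)
  · intro e he
    rw [Finset.mem_filter] at he
    rintro g ⟨f, hf, v, hv⟩
    exact ⟨e, he.2, f, hf, v, hv⟩

end Pool.Agent.TWO
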