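import Pool.Agent.TWO.CBas
import Pool.Agent.TWO.CycC

/-!
# TWO/BadB: elements without long primary cyclic blocks
-/

open Polynomial

namespace Pool.Agent.TWO

open Pool.Agent.PSD

section one

variable {V : Type} [AddCommGroup V] [Module F V]

private theorem bd_mul (T : Module.End F V) (p q : F[X]) (x : V) :
    aeval T (p * q) x = aeval T p (aeval T q x) := by
  rw [map_mul]
  rfl

/-- the annihilator -/
private theorem bd_ann (T : Module.End F V) {f : F[X]} (hf : Irreducible f) {c : ℕ} {x : V}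
    (h1 : aeval T (f ^ (c + 1)) x = 0) (h2 : aeval T (f ^ c) x ≠ 0) (h : F[X]) :
    aeval T h x = 0 ↔ f ^ (c + 1) ∣ h := by
  constructor
  · intro h0
    obtain ⟨e, he⟩ : ∃ e, e = EuclideanDomain.gcd (f ^ (c + 1)) h := ⟨_, rfl⟩
    have he0 : aeval T e x = 0 := by
      rw [he, EuclideanDomain.gcd_eq_gcd_ab, map_add, LinearMap.add_apply, mul_comm (f ^ (c + 1)),
        mul_comm h, bd_mul, bd_mul, h1, h0, map_zero, map_zero, add_zero]
    have hd1 : e ∣ f ^ (c + 1) := by
      rw [he]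
      exact EuclideanDomain.gcd_dvd_left _ _
    have hd2 : e ∣ h := by
      rw [he]
      exact EuclideanDomain.gcd_dvd_right _ _
    obtain ⟨i, hi, hass⟩ := (_root_.dvd_prime_pow hf.prime (c + 1)).1 hd1
    rcases Nat.lt_or_ge i (c + 1) with hlt | hge
    · exfalso
      apply h2
      have h3 : e ∣ f ^ c := hass.dvd.trans (pow_dvd_pow f (by omega))
      obtain ⟨q, hq⟩ := h3
      rw [hq, mul_comm, bd_mul, he0, map_zero]
    · have hi' : i = c + 1 := le_antisymm hi hge
      subst hi'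
      exact hass.symm.dvd.trans hd2
  · rintro ⟨q, rfl⟩
    rw [mul_comm, bd_mul, h1, map_zero]

/-- the evaluation map -/
private noncomputable def evl (T : Module.End F V) (x : V) : F[X] →ₗ[F] V :=
  (LinearMap.applyₗ x).comp (aeval T : F[X] →ₐ[F] Module.End F V).toLinearMap

private theorem evl_apply (T : Module.End F V) (x : V) (h : F[X]) : evl T x h = aeval T h x := rfl

private theorem cyc_range (T : Module.End F V) (x : V) : cyc T x = LinearMap.range (evl T x) := by
  apply le_antisymm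
  · unfold cyc
    rw [Submodule.span_le]
    rintro _ ⟨j, rfl⟩
    refine ⟨X ^ j, ?_⟩
    rw [evl_apply, map_pow, aeval_X]
  · rintro _ ⟨h, rfl⟩
    rw [evl_apply]
    induction h using Polynomial.induction_on' with
    | add p q hp hq =>
      rw [map_add, LinearMap.add_apply]
      exact Submodule.add_mem _ hp hq
    | monomial n a =>
      rw [aeval_monomial]
      have h1 : (algebraMap F (Module.End F V) a * T ^ n) x = a • (T ^ n) x := rfl
      rw [h1]
      exact Submodule.smul_mem _ _ (Submodule.subset_span ⟨n, rfl⟩)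

private theorem mem_cyc (T : Module.End F V) (x v : V) : v ∈ cyc T x ↔ ∃ h : F[X], aeval T h x = v := by
  rw [cyc_range]
  exact Iff.rfl

private theorem finrank_cyc (T : Module.End F V) {f : F[X]} (hf : Irreducible f) {c : ℕ} {x : V}
    (h1 : aeval T (f ^ (c + 1)) x = 0) (h2 : aeval T (f ^ c) x ≠ 0) :
    Module.finrank F (cyc T x) = (c + 1) * f.natDegree := by
  rw [cyc_range, ← (evl T x).quotKerEquivRange.finrank_eq]
  have h3 : LinearMap.ker (evl T x) =
      (Ideal.span {f ^ (c + 1)} : Ideal F[X]).restrictScalars F := by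
    ext h
    rw [LinearMap.mem_ker, evl_apply, bd_ann T hf h1 h2, Submodule.restrictScalars_mem,
      Ideal.mem_span_singleton]
  rw [h3]
  have h4 := finrank_quotient_span_eq_natDegree (f := f ^ (c + 1))
  rw [natDegree_pow] at h4
  exact h4

variable [Finite V]

/-- the number of vectors with annihilator `f ^ (c + 2)` -/
private theorem card_ann (T : Module.End F V) {f : F[X]} (hf : Irreducible f) {c : ℕ} {x : V}
    (h1 : aeval T (f ^ (c + 2)) x = 0) (h2 : aeval T (f ^ (c + 1)) x ≠ 0) :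
    2 ^ ((c + 2) * f.natDegree) - 2 ^ ((c + 1) * f.natDegree) ≤
      {v : V | aeval T (f ^ (c + 2)) v = 0 ∧ aeval T (f ^ (c + 1)) v ≠ 0}.ncard := by
  have hx := finrank_cyc T hf (c := c + 1) h1 h2
  have e1 : aeval T (f ^ (c + 1)) (aeval T f x) = 0 := by
    rw [← bd_mul, ← pow_succ]
    exact h1
  have e2 : aeval T (f ^ c) (aeval T f x) ≠ 0 := by
    rw [← bd_mul, ← pow_succ]
    exact h2
  have hy := finrank_cyc T hf (c := c) e1 e2
  have hc1 : (cyc T x : Set V).ncard = 2 ^ ((c + 2) * f.natDegree) := by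
    have h3 := Module.natCard_eq_pow_finrank (K := F) (V := cyc T x)
    rw [hx, Nat.card_zmod] at h3
    exact h3
  have hc2 : (cyc T (aeval T f x) : Set V).ncard = 2 ^ ((c + 1) * f.natDegree) := by
    have h3 := Module.natCard_eq_pow_finrank (K := F) (V := cyc T (aeval T f x))
    rw [hy, Nat.card_zmod] at h3
    exact h3
  have hsub : (cyc T x : Set V) \ (cyc T (aeval T f x) : Set V) ⊆
      {v : V | aeval T (f ^ (c + 2)) v = 0 ∧ aeval T (f ^ (c + 1)) v ≠ 0} := by
    rintro v ⟨hv1, hv2⟩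
    obtain ⟨h, rfl⟩ := (mem_cyc T x v).1 hv1
    refine ⟨?_, ?_⟩
    · rw [← bd_mul, mul_comm, bd_mul, h1, map_zero]
    · intro hz
      rw [← bd_mul, bd_ann T hf (c := c + 1) h1 h2] at hz
      have h3 : f ∣ h := by
        rw [pow_succ] at hz
        exact (mul_dvd_mul_iff_left (pow_ne_zero _ hf.ne_zero)).1 hz
      obtain ⟨q, rfl⟩ := h3
      apply hv2
      refine (mem_cyc T _ _).2 ⟨q, ?_⟩
      rw [← bd_mul, mul_comm]
  have h5 : (cyc T x : Set V).ncard ≤
      ((cyc T x : Set V) \ (cyc T (aeval T f x) : Set V)).ncard +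
        (cyc T (aeval T f x) : Set V).ncard := by
    have h6 : (cyc T x : Set V) ⊆ ((cyc T x : Set V) \ (cyc T (aeval T f x) : Set V)) ∪
        (cyc T (aeval T f x) : Set V) := by
      intro v hv
      by_cases hv' : v ∈ (cyc T (aeval T f x) : Set V)
      · exact Or.inr hv'
      · exact Or.inl ⟨hv, hv'⟩
    exact (Set.ncard_le_ncard h6 (Set.toFinite _)).trans (Set.ncard_union_le _ _)
  have h7 := Set.ncard_le_ncard hsub (Set.toFinite _)
  rw [hc1, hc2] at h5
  omega

end one

private theorem bd_card {α : Type} [Fintype α] (S : Set α) [DecidablePred (· ∈ S)] :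
    S.ncard = (Finset.univ.filter (· ∈ S)).card := by
  rw [← Set.ncard_coe_finset]
  congr 1
  ext x
  simp

/-- the elements with a long block for `f` -/
private def BadS (m k c : ℕ) (f : F[X]) : Set (GLn m) :=
  {g | Big k g.toLinearMap ∧ ∃ x, aeval g.toLinearMap (f ^ (c + 2)) x = 0 ∧
    aeval g.toLinearMap (f ^ (c + 1)) x ≠ 0}

private theorem bad_one {d k c m m' : ℕ} {f : F[X]} (hf : f ∈ IrrP d) (hkd : k < d)
    (hm : m = (c + 2) * d + m') :
    (BadS m k c f).ncard * (2 ^ ((c + 2) * d) - 2 ^ ((c + 1) * d)) * gl F m' ≤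
      gl F m * {g : GLn m' | Big k g.toLinearMap}.ncard := by
  subst hm
  have hmon := ir_monic hf
  obtain ⟨hirr, hdeg, -⟩ := hf
  have hcount := cyc_count (i := (c + 2) * d) (Nat.mul_pos (by omega) (by omega)) m' k
    (f ^ (c + 2)) (hmon.1.pow _) (by rw [natDegree_pow, hdeg]) (by
      rw [coeff_zero_eq_eval_zero, eval_pow, ← coeff_zero_eq_eval_zero, hmon.2, one_pow]
      exact one_ne_zero) (by
      intro p hp hpd
      have h1 : p ∣ f := hp.prime.dvd_of_dvd_pow hpd
      have h2 : Associated p f := hp.associated_of_dvd hirr h1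
      have h3 := natDegree_eq_of_degree_eq (degree_eq_degree_of_associated h2)
      omega)
  rw [← hcount]
  apply Nat.mul_le_mul_right
  classical
  have : Fintype (GLn ((c + 2) * d + m')) := Fintype.ofFinite _
  rw [bd_card (BadS ((c + 2) * d + m') k c f), bd_card
    {x : GLn ((c + 2) * d + m') × (Fin ((c + 2) * d + m') → F) | Big k x.1.toLinearMap ∧
        Module.finrank F (cyc x.1.toLinearMap x.2) = (c + 2) * d ∧
        aeval x.1.toLinearMap (f ^ (c + 2)) x.2 = 0}]
  obtain ⟨Af, hAf⟩ : ∃ Af : GLn ((c + 2) * d + m') → Finset (Fin ((c + 2) * d + m') → F),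
      Af = fun g : GLn ((c + 2) * d + m') => Finset.univ.filter (· ∈ {v : Fin ((c + 2) * d + m') → F |
        aeval g.toLinearMap (f ^ (c + 2)) v = 0 ∧
        aeval g.toLinearMap (f ^ (c + 1)) v ≠ 0}) := ⟨_, rfl⟩
  have h1 : ((Finset.univ.filter (· ∈ BadS ((c + 2) * d + m') k c f)).sigma Af).card ≤
      (Finset.univ.filter (· ∈ {x : GLn ((c + 2) * d + m') × (Fin ((c + 2) * d + m') → F) |
        Big k x.1.toLinearMap ∧
        Module.finrank F (cyc x.1.toLinearMap x.2) = (c + 2) * d ∧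
        aeval x.1.toLinearMap (f ^ (c + 2)) x.2 = 0})).card := by
    apply Finset.card_le_card_of_injOn (fun w => (w.1, w.2))
    · rintro ⟨g, v⟩ hw
      rw [Finset.mem_coe, Finset.mem_sigma, hAf] at hw
      obtain ⟨hg, hv⟩ := hw
      have hg' := (Finset.mem_filter.1 hg).2
      have hv' := (Finset.mem_filter.1 hv).2
      refine Finset.mem_coe.2 (Finset.mem_filter.2 ⟨Finset.mem_univ _, hg'.1, ?_, hv'.1⟩)
      have h2 := finrank_cyc g.toLinearMap hirr (c := c + 1) hv'.1 hv'.2
      rw [hdeg] at h2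
      exact h2
    · rintro ⟨g, v⟩ _ ⟨g', v'⟩ _ h
      simp only [Prod.mk.injEq] at h
      obtain ⟨h2, h3⟩ := h
      subst h2 h3
      rfl
  refine le_trans ?_ h1
  rw [Finset.card_sigma, ← smul_eq_mul]
  apply Finset.card_nsmul_le_sum
  intro g hg
  obtain ⟨x, hx1, hx2⟩ := (Finset.mem_filter.1 hg).2.2
  have h3 := card_ann g.toLinearMap hirr hx1 hx2
  rw [hdeg, bd_card] at h3
  rw [hAf]
  exact h3

private theorem gl_pos (m : ℕ) : (0 : ℝ) < gl F m := by
  have h1 : 0 < gl F m := by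
    unfold gl
    exact Nat.card_pos
  exact_mod_cast h1

private theorem cover {k c : ℕ} (hk : 1 ≤ k) (m : ℕ) :
    {g : GLn m | Big k g.toLinearMap} ⊆
      {g : GLn m | Big k g.toLinearMap ∧ ExpLt (c + 2) g.toLinearMap} ∪
        ⋃ d ∈ Finset.Icc (k + 1) (m / (c + 2)), ⋃ f ∈ (ir_finite d).toFinset, BadS m k c f := by
  intro g hg
  have hg' : Big k g.toLinearMap := hg
  by_cases hE : ExpLt (c + 2) g.toLinearMap
  · exact Or.inl ⟨hg, hE⟩
  right
  unfold ExpLt at hE
  push Not at hE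
  obtain ⟨φ, hφ, x, hx1, hx2⟩ := hE
  have hx2' : aeval g.toLinearMap (φ ^ (c + 1)) x ≠ 0 := hx2
  have hker : aeval g.toLinearMap φ (aeval g.toLinearMap (φ ^ (c + 1)) x) = 0 := by
    rw [← bd_mul, ← pow_succ']
    exact hx1
  have hkd : k < φ.natDegree := by
    by_contra hcon
    have h1 := hg' φ hφ.ne_zero (by omega)
    apply hx2'
    apply h1
    rw [hker, map_zero]
  have hX : φ ≠ X := by
    rintro rfl
    rw [natDegree_X] at hkd
    omega
  have hdim : (c + 2) * φ.natDegree ≤ m := by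
    have h1 := finrank_cyc g.toLinearMap hφ (c := c + 1) hx1 hx2'
    have h2 := Submodule.finrank_le (cyc g.toLinearMap x)
    rw [h1, Module.finrank_fin_fun] at h2
    exact h2
  simp only [Set.mem_iUnion]
  refine ⟨φ.natDegree, Finset.mem_Icc.2 ⟨hkd, ?_⟩, φ, ?_, hg', x, hx1, hx2'⟩
  · rw [Nat.le_div_iff_mul_le (by omega), mul_comm]
    exact hdim
  · rw [Set.Finite.mem_toFinset]
    exact ⟨hφ, rfl, hX⟩

theorem bad_bound {k b : ℕ} (hk : 1 ≤ k) (hb : 2 ≤ b) (m : ℕ) :
    DD (bb F k) (ID F) k b m ≤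
      prp m {g : GLn m | Big k g.toLinearMap ∧ ExpLt b g.toLinearMap} := by
  obtain ⟨c, rfl⟩ : ∃ c, b = c + 2 := ⟨b - 2, by omega⟩
  have hgl := gl_pos m
  have hcard : ({g : GLn m | Big k g.toLinearMap}.ncard : ℝ) ≤
      ({g : GLn m | Big k g.toLinearMap ∧ ExpLt (c + 2) g.toLinearMap}.ncard : ℝ) +
        ∑ d ∈ Finset.Icc (k + 1) (m / (c + 2)), ∑ f ∈ (ir_finite d).toFinset,
          ((BadS m k c f).ncard : ℝ) := by
    have h1 := (Set.ncard_le_ncard (cover (c := c) hk m) (Set.toFinite _)).trans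
      (Set.ncard_union_le _ _)
    have h2 : (⋃ d ∈ Finset.Icc (k + 1) (m / (c + 2)), ⋃ f ∈ (ir_finite d).toFinset,
        BadS m k c f).ncard ≤
        ∑ d ∈ Finset.Icc (k + 1) (m / (c + 2)), ∑ f ∈ (ir_finite d).toFinset,
          (BadS m k c f).ncard := by
      refine (Finset.set_ncard_biUnion_le _ _).trans ?_
      refine Finset.sum_le_sum fun d _ => ?_
      exact Finset.set_ncard_biUnion_le _ _
    exact_mod_cast h1.trans (Nat.add_le_add_left h2 _)
  have hone : ∀ d ∈ Finset.Icc (k + 1) (m / (c + 2)), ∀ f ∈ (ir_finite d).toFinset,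
      ((BadS m k c f).ncard : ℝ) / gl F m ≤
        bb F k (m - (c + 2) * d) / (2 ^ ((c + 2) * d) - 2 ^ ((c + 1) * d)) := by
    intro d hd f hf
    obtain ⟨hd1, hd2⟩ := Finset.mem_Icc.1 hd
    rw [Set.Finite.mem_toFinset] at hf
    rw [Nat.le_div_iff_mul_le (by omega), mul_comm] at hd2
    have h1 := bad_one (m := m) (m' := m - (c + 2) * d) (k := k) (c := c) hf hd1 (by omega)
    have hlt : 2 ^ ((c + 1) * d) < 2 ^ ((c + 2) * d) := by
      apply Nat.pow_lt_pow_right (by norm_num)
      have : 0 < d := by omega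
      nlinarith
    have h2 : ((BadS m k c f).ncard : ℝ) * ((2 : ℝ) ^ ((c + 2) * d) - 2 ^ ((c + 1) * d)) *
        gl F (m - (c + 2) * d) ≤
        gl F m * ({g : GLn (m - (c + 2) * d) | Big k g.toLinearMap}.ncard : ℝ) := by
      have h3 : (((BadS m k c f).ncard * (2 ^ ((c + 2) * d) - 2 ^ ((c + 1) * d)) *
          gl F (m - (c + 2) * d) : ℕ) : ℝ) ≤
          ((gl F m * {g : GLn (m - (c + 2) * d) | Big k g.toLinearMap}.ncard : ℕ) : ℝ) := by
        exact_mod_cast h1
      rw [Nat.cast_mul, Nat.cast_mul, Nat.cast_sub hlt.le, Nat.cast_mul] at h3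
      push_cast at h3
      exact h3
    have hpos : (0 : ℝ) < (2 : ℝ) ^ ((c + 2) * d) - 2 ^ ((c + 1) * d) := by
      have : ((2 ^ ((c + 1) * d) : ℕ) : ℝ) < ((2 ^ ((c + 2) * d) : ℕ) : ℝ) := by exact_mod_cast hlt
      push_cast at this
      linarith
    rw [← prp_big]
    unfold prp
    have hgl' := gl_pos (m - (c + 2) * d)
    rw [div_le_div_iff₀ hgl hpos, div_mul_eq_mul_div, le_div_iff₀ hgl']
    linarith
  have hsum : ∑ d ∈ Finset.Icc (k + 1) (m / (c + 2)), ∑ f ∈ (ir_finite d).toFinset,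
      ((BadS m k c f).ncard : ℝ) / gl F m ≤
      ∑ d ∈ Finset.Icc (k + 1) (m / (c + 2)), ID F d * bb F k (m - (c + 2) * d) /
        (2 ^ ((c + 2) * d) - 2 ^ ((c + 2 - 1) * d)) := by
    refine Finset.sum_le_sum fun d hd => ?_
    refine (Finset.sum_le_card_nsmul _ _ _ (hone d hd)).trans ?_
    rw [id_eq, Set.ncard_eq_toFinset_card _ (ir_finite d), nsmul_eq_mul, mul_div_assoc]
    exact le_rfl
  unfold DD
  rw [sub_le_iff_le_add, ← prp_big]
  refine le_trans ?_ (add_le_add_right hsum _)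
  unfold prp
  have h5 : ∑ d ∈ Finset.Icc (k + 1) (m / (c + 2)), ∑ f ∈ (ir_finite d).toFinset,
      ((BadS m k c f).ncard : ℝ) / gl F m =
      (∑ d ∈ Finset.Icc (k + 1) (m / (c + 2)), ∑ f ∈ (ir_finite d).toFinset,
        ((BadS m k c f).ncard : ℝ)) / gl F m := by
    rw [Finset.sum_div]
    refine Finset.sum_congr rfl fun d _ => ?_
    rw [Finset.sum_div]
  rw [h5, ← add_div]
  exact div_le_div_of_nonneg_right hcard hgl.le

end Pool.Agent.TWO
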