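import Pool.Agent.TWO.CDefs
import Pool.Agent.TWO.NA
import Pool.Agent.PSD.Conj
import Pool.Agent.PSD.CardDet
import Pool.Agent.PSD.Tot
import Pool.Agent.PSD.Rec

/-!
# TWO/CBas: basic facts about `prp`, and the values of the PSD quantities for the field `F`

The unit group of `F = ZMod 2` is trivial, so determinants play no role.
-/

open Polynomial

namespace Pool.Agent.TWO

open Pool.Agent.PSD

private theorem glp (n : ℕ) : (0 : ℝ) < (gl F n : ℝ) := by exact_mod_cast gl_pos F n

private theorem card_le (n : ℕ) (S : Set (GLn n)) : S.ncard ≤ gl F n := by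
  have h := Set.ncard_le_ncard (Set.subset_univ S) (Set.toFinite _)
  rwa [Set.ncard_univ] at h

theorem prp_nonneg (n : ℕ) (S : Set (GLn n)) : 0 ≤ prp n S :=
  div_nonneg (Nat.cast_nonneg _) (Nat.cast_nonneg _)

theorem prp_mono {n : ℕ} {S T : Set (GLn n)} (h : S ⊆ T) : prp n S ≤ prp n T := by
  unfold prp
  have h1 : S.ncard ≤ T.ncard := Set.ncard_le_ncard h (Set.toFinite _)
  exact div_le_div_of_nonneg_right (by exact_mod_cast h1) (Nat.cast_nonneg _)

theorem prp_univ (n : ℕ) : prp n Set.univ = 1 := by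
  unfold prp
  rw [Set.ncard_univ]
  exact div_self (ne_of_gt (glp n))

theorem prp_le_one (n : ℕ) (S : Set (GLn n)) : prp n S ≤ 1 :=
  (prp_mono (Set.subset_univ S)).trans (prp_univ n).le

theorem prp_add {n : ℕ} {S T : Set (GLn n)} (h : Disjoint S T) :
    prp n S + prp n T = prp n (S ∪ T) := by
  unfold prp
  rw [Set.ncard_union_eq h (Set.toFinite _) (Set.toFinite _)]
  push_cast
  ring

/-- sum over a finite family of pairwise disjoint sets contained in `T` -/
theorem prp_sum {n : ℕ} {ι : Type} (s : Finset ι) (S : ι → Set (GLn n)) (T : Set (GLn n))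
    (hd : ∀ i ∈ s, ∀ j ∈ s, i ≠ j → Disjoint (S i) (S j)) (hT : ∀ i ∈ s, S i ⊆ T) :
    ∑ i ∈ s, prp n (S i) ≤ prp n T := by
  classical
  have key : ∑ i ∈ s, prp n (S i) = prp n (⋃ i ∈ s, S i) := by
    induction s using Finset.induction_on with
    | empty => simp [prp]
    | insert a s ha ih =>
      rw [Finset.sum_insert ha, ih (fun i hi j hj => hd i (Finset.mem_insert_of_mem hi) j
        (Finset.mem_insert_of_mem hj)) (fun i hi => hT i (Finset.mem_insert_of_mem hi)),
        Finset.set_biUnion_insert]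
      refine prp_add ?_
      rw [Set.disjoint_iUnion₂_right]
      intro j hj
      exact hd a (Finset.mem_insert_self _ _) j (Finset.mem_insert_of_mem hj)
        (fun h => ha (h ▸ hj))
  rw [key]
  exact prp_mono (Set.iUnion₂_subset hT)

private theorem unit_one (c : Fˣ) : c = 1 := by
  refine Units.ext ?_
  have h : (c : F) ≠ 0 := c.ne_zero
  revert h
  generalize (c : F) = a
  revert a
  decide

private theorem sum_units (f : Fˣ → ℝ) : ∑ c : Fˣ, f c = f 1 := by
  have h : ∀ c : Fˣ, c ≠ 1 → f c = 0 := fun c hc => absurd (unit_one c) hc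
  exact Fintype.sum_eq_single 1 h

theorem prp_big (k n : ℕ) : prp n {g : GLn n | Big k g.toLinearMap} = bb F k n := by
  unfold prp bb
  rw [sum_units]
  have h : {g : GLn n | Big k g.toLinearMap} = GS F (Fin n → F) k 1 := by
    ext g
    exact ⟨fun h => ⟨h, unit_one _⟩, fun h => h.1⟩
  rw [h]
  rfl

theorem ir_monic {d : ℕ} {f : F[X]} (h : f ∈ IrrP d) : f.Monic ∧ f.coeff 0 = 1 := by
  have h1 : ∀ a : F, a ≠ 0 → a = 1 := by decide
  have hm : f.Monic := h1 _ (leadingCoeff_ne_zero.2 h.1.ne_zero)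
  refine ⟨hm, h1 _ fun h0 => h.2.2 ?_⟩
  have h4 : X ∣ f := X_dvd_iff.2 h0
  have h5 : Associated (X : F[X]) f := irreducible_X.associated_of_dvd h.1 h4
  exact (eq_of_monic_of_associated monic_X hm h5).symm

theorem ir_finite (d : ℕ) : (IrrP d).Finite := irr_finite d

theorem id_eq (d : ℕ) : ID F d = ((IrrP d).ncard : ℝ) := by
  unfold ID
  rw [sum_units]
  unfold IR
  have h : IP F d 1 = IrrP d := by
    have hm : ∀ a : F, (-1) ^ d * a = a := by
      intro a
      have h1 : (-1 : F) = 1 := by decide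
      rw [h1, one_pow, one_mul]
    ext f
    constructor
    · rintro ⟨_, h2, h3, h4⟩
      refine ⟨h2, h3, ?_⟩
      rintro rfl
      rw [hm, coeff_X_zero] at h4
      exact absurd h4 (by decide)
    · intro hf
      obtain ⟨h1, h2⟩ := ir_monic hf
      refine ⟨h1, hf.1, hf.2.1, ?_⟩
      rw [hm, h2]
      rfl
  rw [h]

theorem isN : IsN (ID F) := by
  refine ⟨fun d => ?_, fun r hr => ?_⟩
  · rw [id_eq]
    exact Nat.cast_nonneg _
  · have h := sum_ID F hr
    rw [h]
    norm_num [ZMod.card]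

private theorem idv : ID F 1 = 1 ∧ ID F 2 = 1 ∧ ID F 3 = 2 := by
  obtain ⟨h1, h2, h3, -⟩ := irr_vals
  rw [id_eq, id_eq, id_eq, h1, h2, h3]
  norm_num

private theorem cF : ((Fintype.card F : ℕ) : ℝ) = 2 := by
  rw [ZMod.card]
  norm_num

private theorem isRec_congr {k : ℕ} {e e' b : ℕ → ℝ} (h : IsRec k e b)
    (he : ∀ r, 1 ≤ r → e' r = e r) : IsRec k e' b := by
  refine ⟨h.1, fun n hn => ?_⟩
  rw [h.2 n hn]
  refine Finset.sum_congr rfl fun r hr => ?_
  rw [he r (by have := (Finset.mem_Icc.1 hr).1; omega)]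

theorem rec_one : IsRec 1 e1 (bb F 1) := by
  refine isRec_congr (bb_isRec F 1) fun r hr => ?_
  unfold e1 eps
  have h : r.divisors.filter (fun d => d ≤ 1) = {1} := by
    ext d
    simp only [Finset.mem_filter, Nat.mem_divisors, Finset.mem_singleton]
    constructor
    · rintro ⟨⟨h1, h2⟩, h3⟩
      have : 0 < d := Nat.pos_of_dvd_of_pos h1 (by omega)
      omega
    · rintro rfl
      exact ⟨⟨one_dvd _, by omega⟩, le_refl _⟩
  rw [h, Finset.sum_singleton, idv.1, cF]
  norm_num

theorem rec_three : IsRec 3 e3 (bb F 3) := by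
  refine isRec_congr (bb_isRec F 3) fun r hr => ?_
  unfold e3 eps
  have h : r.divisors.filter (fun d => d ≤ 3) =
      (Finset.Icc 1 3).filter (fun d => d ∣ r) := by
    ext d
    simp only [Finset.mem_filter, Nat.mem_divisors, Finset.mem_Icc]
    constructor
    · rintro ⟨⟨h1, h2⟩, h3⟩
      have : 0 < d := Nat.pos_of_dvd_of_pos h1 (by omega)
      exact ⟨⟨by omega, h3⟩, h1⟩
    · rintro ⟨⟨h1, h2⟩, h3⟩
      exact ⟨⟨h3, by omega⟩, h2⟩
  have h2 : ∑ d ∈ r.divisors.filter (fun d => d ≤ 3), (d : ℝ) * ID F d =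
      1 + (if 2 ∣ r then 2 else 0) + (if 3 ∣ r then 6 else 0) := by
    rw [h, Finset.sum_filter]
    have h3 : Finset.Icc 1 3 = ({1, 2, 3} : Finset ℕ) := by decide
    rw [h3, Finset.sum_insert (by decide), Finset.sum_insert (by decide), Finset.sum_singleton]
    obtain ⟨a1, a2, a3⟩ := idv
    rw [a1, a2, a3]
    have h4 : (1 : ℕ) ∣ r := one_dvd r
    by_cases c2 : 2 ∣ r <;> by_cases c3 : 3 ∣ r <;> simp [c2, c3] <;> norm_num
  rw [h2, cF]

theorem bb_nonneg (k n : ℕ) : 0 ≤ bb F k n := by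
  rw [← prp_big]
  exact prp_nonneg _ _

theorem bb_le_one (k n : ℕ) : bb F k n ≤ 1 := by
  rw [← prp_big]
  exact prp_le_one _ _

end Pool.Agent.TWO
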