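import Mathlib
import Pool.Agent.PSD.Defs
import Pool.Agent.PSD.Blk
import Pool.Agent.TWO.GDefs

/-!
# TWO/CDefs: definitions for the counting part (MP_bce300_al, PSL_n(2))

* `F`: the field with two elements, `GLn n` its general linear group as automorphisms of `F^n`.
* `prp n S`: proportion of the set `S` in `GLn n`.
* `ExpLt b f`: for every irreducible polynomial `φ` the kernels of `φ^b` and `φ^(b-1)` in `f` agree
  (no primary cyclic block of length `≥ b`).
* `UN K j`: unipotent `p` with `rank (p - 1)^K = 1`; `ZK K j`: `(p - 1)^K = 0`.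
* `OO K m`: `q` without eigenvalue `1` and `q^(K * odd) = 1`.
* The sets `IrrP d`, `PrimP d` of irreducible (primitive) polynomials are in `GDefs`.
* `DD, cub, quad, W0, WW, zz, TvL`: the numerical lower bound for the proportion of elements a
  power of which is a transvection.
-/

open Polynomial

namespace Pool.Agent.TWO

open Pool.Agent.PSD

/-- the field with two elements -/
abbrev F : Type := ZMod 2

/-- the group `GL_n(2)` -/
abbrev GLn (n : ℕ) : Type := (Fin n → F) ≃ₗ[F] (Fin n → F)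

/-- proportion of `S` in `GL_n(2)` -/
noncomputable def prp (n : ℕ) (S : Set (GLn n)) : ℝ := (S.ncard : ℝ) / (gl F n : ℝ)

/-- stable under conjugation -/
def CI {n : ℕ} (S : Set (GLn n)) : Prop := ∀ g ∈ S, ∀ h : GLn n, h * g * h⁻¹ ∈ S

/-- no primary cyclic block of length at least `b` -/
def ExpLt {V : Type} [AddCommGroup V] [Module F V] (b : ℕ) (f : Module.End F V) : Prop :=
  ∀ φ : F[X], Irreducible φ → ∀ x : V, aeval f (φ ^ b) x = 0 → aeval f (φ ^ (b - 1)) x = 0

/-- unipotent elements `p` of `GL_j(2)` with `(p - 1)^K` of rank `1` -/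
def UN (K j : ℕ) : Set (GLn j) :=
  {p | IsNilpotent (p.toLinearMap - 1 : Module.End F (Fin j → F)) ∧
    Module.finrank F (LinearMap.range ((p.toLinearMap - 1 : Module.End F (Fin j → F)) ^ K)) = 1}

/-- elements `p` of `GL_j(2)` with `(p - 1)^K = 0` -/
def ZK (K j : ℕ) : Set (GLn j) :=
  {p | (p.toLinearMap - 1 : Module.End F (Fin j → F)) ^ K = 0}

/-- elements without eigenvalue `1` whose order divides `K` times an odd number -/
def OO (K m : ℕ) : Set (GLn m) :=
  {q | Function.Injective (aeval q.toLinearMap (X + 1 : F[X])) ∧ ∃ o : ℕ, Odd o ∧ q ^ (K * o) = 1}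

/-- `b m - ∑_{k < d ≤ m/c} N d * b (m - c d) / (2^(c d) - 2^((c - 1) d))` -/
noncomputable def DD (b N : ℕ → ℝ) (k c m : ℕ) : ℝ :=
  b m - ∑ d ∈ Finset.Icc (k + 1) (m / c),
    N d * b (m - c * d) / (2 ^ (c * d) - 2 ^ ((c - 1) * d))

/-- effect of a semisimple factor of degree `3` -/
noncomputable def cub (f : ℕ → ℝ) (m : ℕ) : ℝ := f m + if 3 ≤ m then f (m - 3) / 7 else 0

/-- effect of a semisimple part of degree `0, 2, 4` for `x^2 + x + 1` -/
noncomputable def quad (f : ℕ → ℝ) (m : ℕ) : ℝ :=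
  f m + (if 2 ≤ m then f (m - 2) / 3 else 0) + (if 4 ≤ m then f (m - 4) / 180 else 0)

/-- lower bound for `prp m (OO 1 m)` -/
noncomputable def W0 (b3 N : ℕ → ℝ) : ℕ → ℝ := quad (cub (cub (DD b3 N 3 2)))

/-- lower bound for `prp m (OO K m)`, `K = 1, 2, 4, 8` -/
noncomputable def WW (b1 b3 N : ℕ → ℝ) (K : ℕ) : ℕ → ℝ :=
  if K = 1 then W0 b3 N else if K = 2 then DD b1 N 1 3 else DD b1 N 1 5

/-- lower bound for `prp i (ZK K i)`, `i = 0, 1, 2, 3` -/
noncomputable def zz (K i : ℕ) : ℝ :=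
  if i ≤ 1 then 1 else if i = 2 then (if K = 1 then 1 / 6 else 2 / 3) else
    (if K = 1 then 1 / 168 else if K = 2 then 11 / 84 else 8 / 21)

/-- lower bound for the proportion of elements with a power equal to a transvection -/
noncomputable def TvL (b1 b3 N : ℕ → ℝ) (n : ℕ) : ℝ :=
  ∑ K ∈ ({1, 2, 4, 8} : Finset ℕ), ∑ i ∈ Finset.range 4,
    if K + 1 + i ≤ n then zz K i / (2 ^ K * 4 ^ i) * WW b1 b3 N K (n - (K + 1 + i)) else 0

/-- `1 / (2^r - 1)` -/
noncomputable def e1 (r : ℕ) : ℝ := 1 / (2 ^ r - 1)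

/-- `(1 + 2 [2 | r] + 6 [3 | r]) / (2^r - 1)` -/
noncomputable def e3 (r : ℕ) : ℝ :=
  (1 + (if 2 ∣ r then 2 else 0) + (if 3 ∣ r then 6 else 0)) / (2 ^ r - 1)

/-- the numbers `N d` of irreducible polynomials of degree `d` other than `X` -/
def IsN (N : ℕ → ℝ) : Prop := (∀ d, 0 ≤ N d) ∧
  ∀ r : ℕ, 1 ≤ r → ∑ d ∈ r.divisors, (d : ℝ) * N d = 2 ^ r - 1

end Pool.Agent.TWO
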