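import Pool.Agent.TWO.CDefs
import Pool.Agent.PSD.Conj
import Pool.Agent.PSD.Orbit
import Pool.Agent.PSD.Grp

/-!
# TWO/Dec: number of elements with a given decomposition

`V = F^(a+b)`; count the `g` which in some decomposition `V ≅ F^a × F^b` are `blk p 0 q` (block
diagonal, `PSD/Blk`) with `p ∈ P`, `q ∈ Q`, where a polynomial `χ` kills every `p ∈ P` and is
injective on every `q ∈ Q`.

Proof: orbit counting (`PSD/Orbit`) in the model `F^a × F^b`; the block diagonal subgroup has order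
`gl a * gl b`.
-/

open Polynomial

namespace Pool.Agent.TWO

open Pool.Agent.PSD

/-- the elements of `GL_(a+b)` which decompose with parts in `P` and `Q` -/
def Dc {a b : ℕ} (P : Set (GLn a)) (Q : Set (GLn b)) : Set (GLn (a + b)) :=
  {g | ∃ e : (Fin (a + b) → F) ≃ₗ[F] ((Fin a → F) × (Fin b → F)),
    ∃ p ∈ P, ∃ q ∈ Q, cj e g = blk p 0 q}

private theorem cj_cj' {V W U : Type} [AddCommGroup V] [Module F V] [AddCommGroup W] [Module F W]
    [AddCommGroup U] [Module F U] (e : V ≃ₗ[F] W) (e' : W ≃ₗ[F] U) (g : V ≃ₗ[F] V) :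
    cj e' (cj e g) = cj (e.trans e') g := by
  ext x
  rfl

private theorem cj_symm' {V W : Type} [AddCommGroup V] [Module F V] [AddCommGroup W] [Module F W]
    (e : V ≃ₗ[F] W) (g : V ≃ₗ[F] V) : cj e.symm (cj e g) = g := by
  ext x
  rw [cj_apply, cj_apply]
  simp

private theorem cj_symm'' {V W : Type} [AddCommGroup V] [Module F V] [AddCommGroup W] [Module F W]
    (e : V ≃ₗ[F] W) (g : W ≃ₗ[F] W) : cj e (cj e.symm g) = g := by
  ext x
  rw [cj_apply, cj_apply]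
  simp

/-- the slice -/
private def YY {a b : ℕ} (P : Set (GLn a)) (Q : Set (GLn b)) :
    Set (((Fin a → F) × (Fin b → F)) ≃ₗ[F] ((Fin a → F) × (Fin b → F))) :=
  {g | ∃ p ∈ P, ∃ q ∈ Q, g = blk p 0 q}

/-- the elements of the model -/
private def XX {a b : ℕ} (P : Set (GLn a)) (Q : Set (GLn b)) :
    Set (((Fin a → F) × (Fin b → F)) ≃ₗ[F] ((Fin a → F) × (Fin b → F))) :=
  {g | ∃ h : ((Fin a → F) × (Fin b → F)) ≃ₗ[F] ((Fin a → F) × (Fin b → F)), cj h g ∈ YY P Q}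

private theorem YY_card {a b : ℕ} (P : Set (GLn a)) (Q : Set (GLn b)) :
    (YY P Q).ncard = P.ncard * Q.ncard := by
  have h1 : YY P Q = (fun x : GLn a × GLn b =>
      (blk x.1 0 x.2 : ((Fin a → F) × (Fin b → F)) ≃ₗ[F] ((Fin a → F) × (Fin b → F)))) '' (P ×ˢ Q) := by
    ext g
    constructor
    · rintro ⟨p, hp, q, hq, rfl⟩
      exact ⟨(p, q), ⟨hp, hq⟩, rfl⟩
    · rintro ⟨⟨p, q⟩, ⟨hp, hq⟩, rfl⟩
      exact ⟨p, hp, q, hq, rfl⟩
  rw [h1, Set.ncard_image_of_injective, Set.ncard_prod]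
  rintro ⟨p, q⟩ ⟨p', q'⟩ h
  obtain ⟨h2, -, h3⟩ := blk_inj h
  exact Prod.ext h2 h3

/-- kernel and range -/
private theorem YY_ker {a b : ℕ} {P : Set (GLn a)} {Q : Set (GLn b)} {χ : F[X]}
    (hP0 : ∀ p ∈ P, aeval p.toLinearMap χ = 0)
    (hQ0 : ∀ q ∈ Q, Function.Injective (aeval q.toLinearMap χ))
    {y : ((Fin a → F) × (Fin b → F)) ≃ₗ[F] ((Fin a → F) × (Fin b → F))} (hy : y ∈ YY P Q) :
    (∀ v, aeval y.toLinearMap χ v = 0 ↔ v.2 = 0) ∧
      (∀ v, (∃ w, aeval y.toLinearMap χ w = v) ↔ v.1 = 0) := by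
  obtain ⟨p, hp, q, hq, rfl⟩ := hy
  have hkey : ∀ u w, aeval (blk p 0 q).toLinearMap χ (u, w) = ((0 : Fin a → F), aeval q.toLinearMap χ w) := by
    intro u w
    rw [blk_aeval_zero, hP0 p hp]
    rfl
  have hsurj : Function.Surjective (aeval q.toLinearMap χ) :=
    LinearMap.injective_iff_surjective.1 (hQ0 q hq)
  constructor
  · rintro ⟨u, w⟩
    rw [hkey]
    constructor
    · intro h
      have h1 : aeval q.toLinearMap χ w = 0 := congrArg Prod.snd h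
      exact hQ0 q hq (by rw [h1, map_zero])
    · intro h
      have h1 : w = 0 := h
      rw [h1, map_zero]
      rfl
  · rintro ⟨u, w⟩
    constructor
    · rintro ⟨⟨u', w'⟩, h⟩
      rw [hkey] at h
      exact (congrArg Prod.fst h).symm
    · intro h
      have h1 : u = 0 := h
      obtain ⟨w', hw'⟩ := hsurj w
      exact ⟨(0, w'), by rw [hkey, hw', h1]⟩

private theorem XX_count {a b : ℕ} (P : Set (GLn a)) (Q : Set (GLn b)) (χ : F[X])
    (hP : CI P) (hQ : CI Q) (hP0 : ∀ p ∈ P, aeval p.toLinearMap χ = 0)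
    (hQ0 : ∀ q ∈ Q, Function.Injective (aeval q.toLinearMap χ)) :
    (XX P Q).ncard * (gl F a * gl F b) = gl F (a + b) * (P.ncard * Q.ncard) := by
  have h := orbit_count (G := ((Fin a → F) × (Fin b → F)) ≃ₗ[F] ((Fin a → F) × (Fin b → F)))
    (α := ((Fin a → F) × (Fin b → F)) ≃ₗ[F] ((Fin a → F) × (Fin b → F)))
    (fun h g => cj h g) (fun x => by rw [cj_eq_mul]; group) (fun g h x => by
      rw [cj_eq_mul, cj_eq_mul, cj_eq_mul]; group) (XX P Q) (YY P Q) (DS F a b) ?_ ?_ ?_ ?_ ?_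
  · rw [card_DS, YY_card] at h
    have e0 : (Fin (a + b) → F) ≃ₗ[F] ((Fin a → F) × (Fin b → F)) :=
      LinearEquiv.ofFinrankEq _ _ (by simp)
    have h1 : Nat.card (((Fin a → F) × (Fin b → F)) ≃ₗ[F] ((Fin a → F) × (Fin b → F))) = gl F (a + b) :=
      (card_aut_congr e0).symm
    rw [h1] at h
    exact h
  · intro y hy
    refine ⟨1, ?_⟩
    have h1 : cj 1 y = y := by rw [cj_eq_mul]; group
    rw [h1]
    exact hy
  · rintro g x ⟨h, hx⟩
    refine ⟨h * g⁻¹, ?_⟩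
    have h1 : cj (h * g⁻¹) (cj g x) = cj h x := by
      rw [cj_eq_mul, cj_eq_mul, cj_eq_mul]; group
    rw [h1]
    exact hx
  · rintro x ⟨h, hx⟩
    refine ⟨h⁻¹, cj h x, hx, ?_⟩
    show cj h⁻¹ (cj h x) = x
    rw [cj_eq_mul, cj_eq_mul]; group
  · intro g y hy hgy
    obtain ⟨k1, r1⟩ := YY_ker hP0 hQ0 hy
    obtain ⟨k2, r2⟩ := YY_ker hP0 hQ0 hgy
    have hinv : ∀ v, g⁻¹ (g v) = v := fun v => LinearEquiv.symm_apply_apply g v
    have hinv' : ∀ v, g (g⁻¹ v) = v := fun v => LinearEquiv.apply_symm_apply g v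
    refine ⟨fun u => ?_, fun w => ?_, fun u => ?_, fun w => ?_⟩
    · rw [← k2, aeval_cj, (k1 (u, 0)).2 rfl, map_zero]
    · rw [← r2]
      obtain ⟨w', hw'⟩ := (r1 (0, w)).2 rfl
      exact ⟨g w', by rw [aeval_cj, hw']⟩
    · rw [← k1]
      apply g.injective
      rw [← aeval_cj, hinv', map_zero]
      exact (k2 (u, 0)).2 rfl
    · rw [← r1]
      obtain ⟨w', hw'⟩ := (r2 (0, w)).2 rfl
      refine ⟨g⁻¹ w', ?_⟩
      apply g.injective
      rw [← aeval_cj, hinv', hinv', hw']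
  · rintro h hh y ⟨p, hp, q, hq, rfl⟩
    obtain ⟨A, D, rfl⟩ := (mem_DS_iff F a b h).1 hh
    refine ⟨A * p * A⁻¹, hP p hp A, D * q * D⁻¹, hQ q hq D, ?_⟩
    show cj (blk A 0 D) (blk p 0 q) = blk (A * p * A⁻¹) 0 (D * q * D⁻¹)
    rw [cj_eq_mul, mul_inv_eq_iff_eq_mul]
    ext1 ⟨u, w⟩
    show blk A 0 D (blk p 0 q (u, w)) = blk (A * p * A⁻¹) 0 (D * q * D⁻¹) (blk A 0 D (u, w))
    rw [blk_apply, blk_apply, blk_apply, blk_apply]
    have e1 : (A * p * A⁻¹) (A u) = A (p u) := by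
      show A (p (A⁻¹ (A u))) = A (p u)
      have : A⁻¹ (A u) = u := LinearEquiv.symm_apply_apply A u
      rw [this]
    have e2 : (D * q * D⁻¹) (D w) = D (q w) := by
      show D (q (D⁻¹ (D w))) = D (q w)
      have : D⁻¹ (D w) = w := LinearEquiv.symm_apply_apply D w
      rw [this]
    simp only [LinearMap.zero_apply, add_zero, e1, e2]

theorem dec_count {a b : ℕ} (P : Set (GLn a)) (Q : Set (GLn b)) (χ : F[X])
    (hP : CI P) (hQ : CI Q) (hP0 : ∀ p ∈ P, aeval p.toLinearMap χ = 0)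
    (hQ0 : ∀ q ∈ Q, Function.Injective (aeval q.toLinearMap χ)) :
    (Dc P Q).ncard * (gl F a * gl F b) = gl F (a + b) * (P.ncard * Q.ncard) := by
  have e0 : (Fin (a + b) → F) ≃ₗ[F] ((Fin a → F) × (Fin b → F)) :=
    LinearEquiv.ofFinrankEq _ _ (by simp)
  have h1 : XX P Q = cj e0 '' Dc P Q := by
    ext g
    constructor
    · rintro ⟨h, p, hp, q, hq, hg⟩
      refine ⟨cj e0.symm g, ⟨e0.trans h, p, hp, q, hq, ?_⟩, cj_symm'' e0 g⟩
      rw [← cj_cj', cj_symm'', hg]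
    · rintro ⟨g', ⟨e, p, hp, q, hq, hg⟩, rfl⟩
      refine ⟨e0.symm.trans e, p, hp, q, hq, ?_⟩
      rw [← cj_cj', cj_symm', hg]
  have h2 := XX_count P Q χ hP hQ hP0 hQ0
  rw [h1, Set.ncard_image_of_injective _ (Function.LeftInverse.injective (cj_symm' e0))] at h2
  exact h2

theorem dec_prp {a b : ℕ} (P : Set (GLn a)) (Q : Set (GLn b)) (χ : F[X])
    (hP : CI P) (hQ : CI Q) (hP0 : ∀ p ∈ P, aeval p.toLinearMap χ = 0)
    (hQ0 : ∀ q ∈ Q, Function.Injective (aeval q.toLinearMap χ)) :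
    prp (a + b) (Dc P Q) = prp a P * prp b Q := by
  have h := dec_count P Q χ hP hQ hP0 hQ0
  have hpos : ∀ n, 0 < gl F n := by
    intro n
    have hne : Nonempty ((Fin n → F) ≃ₗ[F] (Fin n → F)) := ⟨1⟩
    exact Nat.card_pos
  have h1 : (0 : ℝ) < gl F a := by exact_mod_cast hpos a
  have h2 : (0 : ℝ) < gl F b := by exact_mod_cast hpos b
  have h3 : (0 : ℝ) < gl F (a + b) := by exact_mod_cast hpos (a + b)
  have h4 : ((Dc P Q).ncard : ℝ) * ((gl F a : ℝ) * (gl F b : ℝ)) =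
      (gl F (a + b) : ℝ) * ((P.ncard : ℝ) * (Q.ncard : ℝ)) := by exact_mod_cast h
  unfold prp
  rw [div_mul_div_comm, div_eq_div_iff h3.ne' (mul_pos h1 h2).ne', h4]
  ring

end Pool.Agent.TWO
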