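import Pool.Agent.TWO.GF2

/-!
# TWO/GDec (1.5 h): `V` is the direct sum of the subspaces `FF H φ`

`k ≥ 2` maximal.  Let `ι` be the (finite) type of the submodules `S` of the form `FF H φ`,
`φ ∈ Ax H k`, `W S = S`.

* independent: suppose a finite sum `∑ v_S` with `v_S ∈ S` vanishes and `v_(S₁) ≠ 0`.  `FF_key`:
  there is `η ∈ Ax H k`, `FF H η = S₁`, `η v_(S₁) = 1`; by `FF_vanish` `η` vanishes on all other
  `S`; applying `η` gives `1 = 0`.
* the sum `⨆ S` is invariant under `H` (`FF_map`, `ax_map`), not `⊥` (dimension `k + 1`), so `⊤`.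
* `h ∈ H` maps `FF H φ` onto `FF H (φ ∘ h⁻¹)`.
* all `S` have dimension `k + 1 ≥ 3` (`FF_finrank`).  If `ι` has one element, `FF H φ = ⊤`.
Finiteness of `ι`: `V` is finite (finite dimensional over `ZMod 2`), so `Submodule` is finite.
-/

open Polynomial Module

namespace Pool.Agent.TWO

variable {V : Type} [AddCommGroup V] [Module (ZMod 2) V] [FiniteDimensional (ZMod 2) V]

theorem dec_blocks {H : Subgroup (V ≃ₗ[ZMod 2] V)} (hirr : IrrSub H) {k : ℕ} (hM : Mx H k)
    (hk : 2 ≤ k) : Blocks H ∨ ∃ φ ∈ Ax H k, FF H φ = ⊤ := by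
  classical
  have : Finite V := Module.finite_of_finite (ZMod 2)
  have hfS : Finite (Submodule (ZMod 2) V) :=
    Finite.of_injective (fun S : Submodule (ZMod 2) V => (S : Set V)) SetLike.coe_injective
  let ι : Type := {S : Submodule (ZMod 2) V // ∃ φ ∈ Ax H k, FF H φ = S}
  have : Finite ι := Subtype.finite
  let _ : Fintype ι := Fintype.ofFinite ι
  let W : ι → Submodule (ZMod 2) V := fun S => S.1
  have hmap : ∀ h ∈ H, ∀ i : ι, ∃ j : ι, ∀ x ∈ W i, h x ∈ W j := by
    rintro h hh ⟨S, φ, hφ, rfl⟩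
    refine ⟨⟨_, _, ax_map hh hφ, rfl⟩, fun x hx => ?_⟩
    change h x ∈ FF H _
    rw [← FF_map hh φ]
    exact Submodule.mem_map_of_mem hx
  have hrank : ∀ i : ι, finrank (ZMod 2) (W i) = k + 1 := by
    rintro ⟨S, φ, hφ, rfl⟩
    exact FF_finrank hirr hM hk hφ
  have hind : iSupIndep W := by
    intro i
    obtain ⟨S, φ, hφ, rfl⟩ := i
    rw [Submodule.disjoint_def]
    intro x hx hx2
    by_contra hx0
    obtain ⟨η, hη, e, h1⟩ := FF_key hirr hM hk hφ hx hx0
    have hle : (⨆ j, ⨆ (_ : j ≠ (⟨FF H φ, φ, hφ, rfl⟩ : ι)), W j) ≤ LinearMap.ker η := by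
      refine iSup_le fun j => iSup_le fun hj => ?_
      obtain ⟨S, ψ, hψ, rfl⟩ := j
      intro v hv
      rw [LinearMap.mem_ker]
      refine FF_vanish hirr hM hk hψ hη ?_ hv
      intro h2
      apply hj
      apply Subtype.ext
      change FF H ψ = FF H φ
      rw [← h2, e]
    have h2 := LinearMap.mem_ker.1 (hle hx2)
    rw [h1] at h2
    exact one_ne_zero h2
  obtain ⟨φ₀, hφ₀⟩ := hM.1
  have hinv : ∀ h ∈ H, ∀ x ∈ iSup W, h x ∈ iSup W := by
    intro h hh x hx
    have hle : iSup W ≤ (iSup W).comap (h : V →ₗ[ZMod 2] V) := by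
      refine iSup_le fun i => ?_
      obtain ⟨j, hj⟩ := hmap h hh i
      intro y hy
      exact (le_iSup W j) (hj y hy)
    exact hle hx
  have htop : iSup W = ⊤ := by
    rcases hirr (iSup W) hinv with h | h
    · exfalso
      have h1 : W ⟨FF H φ₀, φ₀, hφ₀, rfl⟩ ≤ ⊥ := by
        rw [← h]
        exact le_iSup W _
      have h2 := hrank ⟨FF H φ₀, φ₀, hφ₀, rfl⟩
      rw [le_bot_iff.1 h1, finrank_bot] at h2
      omega
    · exact h
  by_cases hc : 2 ≤ Fintype.card ι
  · left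
    exact ⟨ι, inferInstance, W, k + 1, by omega, hc, hind, htop, hrank, hmap⟩
  · right
    refine ⟨φ₀, hφ₀, ?_⟩
    have hsub : Subsingleton ι := Fintype.card_le_one_iff_subsingleton.1 (by omega)
    rw [eq_top_iff, ← htop]
    refine iSup_le fun i => ?_
    have : i = ⟨FF H φ₀, φ₀, hφ₀, rfl⟩ := Subsingleton.elim _ _
    exact this ▸ le_rfl

end Pool.Agent.TWO
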