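import Pool.Agent.TWO.GTv

/-!
# TWO/GF1: the subspace `FF H φ` has dimension `k + 1`
-/

open Polynomial Module

namespace Pool.Agent.TWO

variable {V : Type} [AddCommGroup V] [Module (ZMod 2) V] [FiniteDimensional (ZMod 2) V]

private theorem z2 (x : ZMod 2) : x = 0 ∨ x = 1 := by
  revert x
  decide

private theorem fin_ker (S : Submodule (ZMod 2) V) (ψ : Module.Dual (ZMod 2) V) :
    finrank (ZMod 2) S ≤ finrank (ZMod 2) ((S ⊓ LinearMap.ker ψ : Submodule (ZMod 2) V)) + 1 := by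
  have h1 := Submodule.finrank_sup_add_finrank_inf_eq S (LinearMap.ker ψ)
  have h2 := LinearMap.finrank_range_add_finrank_ker ψ
  have h3 := Submodule.finrank_le (LinearMap.range ψ)
  rw [finrank_self] at h3
  have h4 := Submodule.finrank_le (S ⊔ LinearMap.ker ψ)
  omega

theorem step1 {H : Subgroup (V ≃ₗ[ZMod 2] V)} {k : ℕ} (hM : Mx H k)
    {φ : Module.Dual (ZMod 2) V} (hφ : φ ∈ Ax H k) {ψ : Module.Dual (ZMod 2) V} (hψ : ψ ≠ 0)
    {b : V} (hb : b ∈ Cen H ψ) (h1 : φ b = 1) :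
    ψ ∈ Ax H k ∧
      Cen H ψ = (Cen H φ ⊓ LinearMap.ker ψ) ⊔ Submodule.span (ZMod 2) {b} ∧
      finrank (ZMod 2) ((Cen H φ ⊓ LinearMap.ker ψ : Submodule (ZMod 2) V)) + 1 = k ∧
      ∃ a ∈ Cen H φ, ψ a = 1 := by
  have hle : Cen H φ ⊓ LinearMap.ker ψ ≤ Cen H ψ := fun a ha =>
    comm_rel ha.1 hb h1 (LinearMap.mem_ker.1 ha.2)
  have hb0 : b ≠ 0 := by
    rintro rfl
    rw [map_zero] at h1
    exact zero_ne_one h1
  have hle2 : Submodule.span (ZMod 2) {b} ≤ Cen H ψ := by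
    rw [Submodule.span_singleton_le_iff_mem]
    exact hb
  have hinf : (Cen H φ ⊓ LinearMap.ker ψ) ⊓ Submodule.span (ZMod 2) {b} = ⊥ := by
    rw [eq_bot_iff]
    rintro x ⟨hx1, hx2⟩
    obtain ⟨r, rfl⟩ := Submodule.mem_span_singleton.1 hx2
    have h2 : φ (r • b) = 0 := LinearMap.mem_ker.1 (cen_le_ker H φ hx1.1)
    rw [map_smul, h1, smul_eq_mul, mul_one] at h2
    rw [h2, zero_smul]
    exact Submodule.zero_mem _
  have hsum := Submodule.finrank_sup_add_finrank_inf_eq (Cen H φ ⊓ LinearMap.ker ψ)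
    (Submodule.span (ZMod 2) {b})
  rw [hinf, finrank_bot, add_zero, finrank_span_singleton hb0] at hsum
  have hsle := sup_le hle hle2
  have h3 := Submodule.finrank_mono hsle
  have h4 := hM.2 ψ hψ
  have h5 : finrank (ZMod 2) (Cen H φ) = k := hφ.2
  have h6 := fin_ker (Cen H φ) ψ
  refine ⟨⟨hψ, by omega⟩, (Submodule.eq_of_le_of_finrank_le hsle (by omega)).symm, by omega, ?_⟩
  by_contra hcon
  have h7 : Cen H φ ≤ Cen H φ ⊓ LinearMap.ker ψ := by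
    intro a ha
    refine ⟨ha, LinearMap.mem_ker.2 ?_⟩
    rcases z2 (ψ a) with h | h
    · exact h
    · exact absurd ⟨a, ha, h⟩ hcon
  have h8 := Submodule.finrank_mono h7
  omega

omit [FiniteDimensional (ZMod 2) V] in
private theorem mem_of_sup {H : Subgroup (V ≃ₗ[ZMod 2] V)} {φ : Module.Dual (ZMod 2) V} {b c : V}
    (hb : b ∈ Cen H φ ⊔ Submodule.span (ZMod 2) {c}) (h1 : φ b = 1) (h2 : φ c = 1) : b - c ∈ Cen H φ := by
  obtain ⟨u, hu, w, hw, rfl⟩ := Submodule.mem_sup.1 hb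
  obtain ⟨r, rfl⟩ := Submodule.mem_span_singleton.1 hw
  have h3 : φ u = 0 := LinearMap.mem_ker.1 (cen_le_ker H φ hu)
  rw [map_add, map_smul, h3, h2, zero_add, smul_eq_mul, mul_one] at h1
  rw [h1, one_smul, add_sub_cancel_right]
  exact hu

/-- Claim A, one direction. -/
private theorem claimA' {H : Subgroup (V ≃ₗ[ZMod 2] V)} {k : ℕ} (hM : Mx H k)
    {φ : Module.Dual (ZMod 2) V} (hφ : φ ∈ Ax H k) {ψ χ : Module.Dual (ZMod 2) V} (hψ : ψ ≠ 0) (hχ : χ ≠ 0)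
    {b c : V} (hb : b ∈ Cen H ψ) (hc : c ∈ Cen H χ) (hb1 : φ b = 1) (hc1 : φ c = 1)
    (hn : b - c ∉ Cen H φ) (h : ψ c = 1) : χ b = 1 := by
  rcases z2 (χ b) with h0 | h0
  · exfalso
    have hψA := (step1 hM hφ hψ hb hb1).1
    obtain ⟨_, e1, _, _⟩ := step1 hM hψA hχ hc h
    obtain ⟨_, e2, _, _⟩ := step1 hM hφ hχ hc hc1
    have hbχ : b ∈ Cen H χ := by
      rw [e1]
      exact Submodule.mem_sup_left ⟨hb, LinearMap.mem_ker.2 h0⟩
    rw [e2] at hbχ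
    have h3 : b ∈ Cen H φ ⊔ Submodule.span (ZMod 2) {c} := (sup_le_sup_right inf_le_left
      (Submodule.span (ZMod 2) {c}) : (Cen H φ ⊓ LinearMap.ker χ) ⊔ _ ≤ Cen H φ ⊔ _) hbχ
    exact hn (mem_of_sup h3 hb1 hc1)
  · exact h0

private theorem claimA {H : Subgroup (V ≃ₗ[ZMod 2] V)} {k : ℕ} (hM : Mx H k)
    {φ : Module.Dual (ZMod 2) V} (hφ : φ ∈ Ax H k) {ψ χ : Module.Dual (ZMod 2) V} (hψ : ψ ≠ 0) (hχ : χ ≠ 0)
    {b c : V} (hb : b ∈ Cen H ψ) (hc : c ∈ Cen H χ) (hb1 : φ b = 1) (hc1 : φ c = 1)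
    (hn : b - c ∉ Cen H φ) : ψ c = 1 ↔ χ b = 1 := by
  refine ⟨claimA' hM hφ hψ hχ hb hc hb1 hc1 hn, claimA' hM hφ hχ hψ hc hb hc1 hb1 fun h => hn ?_⟩
  have h2 := (Cen H φ).neg_mem h
  rwa [neg_sub] at h2

/-- Claim B. -/
private theorem claimB {H : Subgroup (V ≃ₗ[ZMod 2] V)} {k : ℕ} (hM : Mx H k)
    {φ : Module.Dual (ZMod 2) V} (hφ : φ ∈ Ax H k) {ψ χ : Module.Dual (ZMod 2) V} (hψ : ψ ≠ 0) (hχ : χ ≠ 0)
    {b c : V} (hb : b ∈ Cen H ψ) (hc : c ∈ Cen H χ) (hb1 : φ b = 1) (hc1 : φ c = 1)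
    (hn : b - c ∉ Cen H φ) : ∀ κ ∈ Cen H φ, ψ κ = 0 → χ κ = 0 := by
  intro κ hκ h0
  have hκψ : κ ∈ Cen H ψ := comm_rel hκ hb hb1 h0
  have hκφ : φ κ = 0 := LinearMap.mem_ker.1 (cen_le_ker H φ hκ)
  have hn' : b + κ - c ∉ Cen H φ := by
    intro h
    have h2 := (Cen H φ).sub_mem h hκ
    rw [show b + κ - c - κ = b - c by abel] at h2
    exact hn h2
  have a1 := claimA hM hφ hψ hχ hb hc hb1 hc1 hn
  have a2 := claimA hM hφ hψ hχ ((Cen H ψ).add_mem hb hκψ) hc (by rw [map_add, hb1, hκφ, add_zero]) hc1 hn'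
  have a3 : χ b = 1 ↔ χ b + χ κ = 1 := by
    rw [← map_add, ← a1, ← a2]
  rcases z2 (χ b) with h | h <;> rcases z2 (χ κ) with h' | h'
  · exact h'
  · rw [h, h'] at a3
    exact absurd a3 (by decide)
  · exact h'
  · rw [h, h'] at a3
    exact absurd a3 (by decide)

theorem ff_eq {H : Subgroup (V ≃ₗ[ZMod 2] V)} (hirr : IrrSub H) {k : ℕ} (hM : Mx H k)
    (hk : 2 ≤ k) {φ : Module.Dual (ZMod 2) V} (hφ : φ ∈ Ax H k) {ψ : Module.Dual (ZMod 2) V}
    (hψ : ψ ≠ 0) {b : V} (hb : b ∈ Cen H ψ) (h1 : φ b = 1) :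
    FF H φ = Cen H φ ⊔ Submodule.span (ZMod 2) {b} := by
  have key : ∀ (c : V) (χ : Module.Dual (ZMod 2) V), χ ≠ 0 → c ∈ Cen H χ → φ c = 1 → b - c ∈ Cen H φ := by
    intro c χ hχ hc hc1
    by_contra hn
    obtain ⟨_, _, hK, _⟩ := step1 hM hφ hψ hb h1
    have hpos : 0 < finrank (ZMod 2) ((Cen H φ ⊓ LinearMap.ker ψ : Submodule (ZMod 2) V)) := by omega
    have hne : (Cen H φ ⊓ LinearMap.ker ψ : Submodule (ZMod 2) V) ≠ ⊥ := by
      intro h
      rw [h, finrank_bot] at hpos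
      exact lt_irrefl 0 hpos
    obtain ⟨κ, hκ, hκ0⟩ := Submodule.exists_mem_ne_zero_of_ne_bot hne
    have hκφ : κ ∈ Cen H φ := hκ.1
    have hκψ : ψ κ = 0 := LinearMap.mem_ker.1 hκ.2
    have hκχ : χ κ = 0 := claimB hM hφ hψ hχ hb hc h1 hc1 hn κ hκφ hκψ
    -- every pair vanishes at `κ`
    have hall : ∀ (d : V) (ω : Module.Dual (ZMod 2) V), ω ≠ 0 → d ∈ Cen H ω → φ d = 1 → ω κ = 0 := by
      intro d ω hω hd hd1
      by_cases h2 : b - d ∈ Cen H φ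
      · have h3 : c - d ∉ Cen H φ := by
          intro h3
          have h4 := (Cen H φ).sub_mem h2 h3
          rw [show b - d - (c - d) = b - c by abel] at h4
          exact hn h4
        exact claimB hM hφ hχ hω hc hd hc1 hd1 h3 κ hκφ hκχ
      · exact claimB hM hφ hψ hω hb hd h1 hd1 h2 κ hκφ hκψ
    obtain ⟨η, hη, hηκ⟩ := span_ax hirr hM.1 κ hκ0
    have hv : ∀ ε ∈ Cen H η, φ ε = 0 := by
      intro ε hε
      rcases z2 (φ ε) with h | h
      · exact h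
      · exfalso
        have h2 := hall ε η hη.1 hε h
        rw [hηκ] at h2
        exact one_ne_zero h2
    have hle : Cen H η ≤ Cen H φ := fun ε hε => comm_rel hε hκφ hηκ (hv ε hε)
    have heq : Cen H η = Cen H φ := Submodule.eq_of_le_of_finrank_le hle (by rw [hη.2, hφ.2])
    rw [← heq] at hκφ
    have h2 : η κ = 0 := LinearMap.mem_ker.1 (cen_le_ker H η hκφ)
    rw [hηκ] at h2
    exact one_ne_zero h2
  unfold FF
  refine le_antisymm (sup_le le_sup_left ?_) (sup_le_sup_left ?_ _)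
  · rw [Submodule.span_le]
    rintro c ⟨hc1, χ, hχ, hc⟩
    have h2 := key c χ hχ hc hc1
    have h3 : c = -(b - c) + b := by abel
    rw [h3]
    exact Submodule.add_mem _ (Submodule.mem_sup_left ((Cen H φ).neg_mem h2))
      (Submodule.mem_sup_right (Submodule.mem_span_singleton_self b))
  · rw [Submodule.span_singleton_le_iff_mem]
    exact Submodule.subset_span ⟨h1, ψ, hψ, hb⟩

end Pool.Agent.TWO
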