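import Pool.Agent.TWO.GF1

/-!
# TWO/GF2 (1.5 h): properties of the subspaces `FF H φ`

Notation of `GF1`.  `k ≥ 2`, `k` maximal.  For every `φ ≠ 0` there is a centre `b` (axis `ψ ≠ 0`)
with `φ b = 1` by `span_cen` (`Cen H ψ ≠ ⊥` for `ψ ∈ Ax H k`).

* `FF_finrank`: `FF H φ = Cen H φ ⊔ span {b}` by `ff_eq`, `b ∉ Cen H φ`.
* `FF_eq_of`: `ψ ∈ Ax H k` by `step1`; `step1` gives `a ∈ Cen H φ` with `ψ a = 1`, so by `ff_eq`
  (twice) `FF H φ = Cen H φ ⊔ span {b}`, `FF H ψ = Cen H ψ ⊔ span {a}`; from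
  `Cen H ψ = (Cen H φ ⊓ ker ψ) ⊔ span {b}` both are equal (each contained in the other, or
  `≤` and equal dimension `k + 1`).
* `FF_map`: `cen_map` for both parts of the definition of `FF`
  (`φ b = 1 ↔ (φ ∘ h⁻¹) (h b) = 1`; `b ∈ Cen H ψ → h b ∈ Cen H (ψ ∘ h⁻¹)`), for `h` and `h⁻¹`.
* `FF_inv`: let `x ∈ Cen H ξ`, `ξ ≠ 0`, `t = 1 + x ⊗ ξ ∈ H`.  If `φ x = 1` then
  `x ∈ FF H φ`.  If `φ x = 0` and `ξ a = 1` for some `a ∈ Cen H φ`, then `x ∈ Cen H φ` by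
  `comm_rel` (for `(x, ξ)` and `(a, φ)`).  If `φ x = 0` and `ξ` vanishes on `Cen H φ`: `φ ∘ t = φ`
  (`φ (t v) = φ v + ξ v * φ x`), so `t` maps `FF H φ` to itself by `FF_map`.
* `FF_key`: take `η ∈ Ax H k` with `η v = 1` (`span_ax`).  If `φ v = 1` the functional `φ` itself
  works.  Let `φ v = 0`; then `v ∈ Cen H φ` (write `v = a + c b`, `φ v = c`).  If some
  `e ∈ Cen H η` has `φ e = 1` then `FF H η = FF H φ` by `FF_eq_of`.  Otherwise, for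
  `ε ∈ Cen H η`, `comm_rel` for `(ε, η)`, `(v, φ)` (`η v = 1`, `φ ε = 0`) gives `ε ∈ Cen H φ`,
  so `Cen H η = Cen H φ ∋ v` by dimensions, against `η v = 1`.
* `FF_vanish`: suppose `η v = 1` for some `v ∈ FF H φ`.  For `a ∈ Cen H η`, `a ≠ 0`: `FF_inv`
  gives `v + a ∈ FF H φ`, so `a ∈ FF H φ`.  By `FF_key` for `a` there is `η₁ ∈ Ax H k` with
  `FF H η₁ = FF H φ`, `η₁ a = 1`; by `FF_eq_of` (for `η₁` and `(a, η)`) `FF H η = FF H η₁`, so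
  `FF H η = FF H φ`: contradiction.
-/

open Polynomial Module

namespace Pool.Agent.TWO

variable {V : Type} [AddCommGroup V] [Module (ZMod 2) V] [FiniteDimensional (ZMod 2) V]

private theorem gf2_z2 (x : ZMod 2) : x = 0 ∨ x = 1 := by
  revert x
  decide

omit [FiniteDimensional (ZMod 2) V] in
private theorem gf2_ne_bot {H : Subgroup (V ≃ₗ[ZMod 2] V)} {k : ℕ} (hk : 2 ≤ k)
    {φ : Module.Dual (ZMod 2) V} (hφ : φ ∈ Ax H k) : Cen H φ ≠ ⊥ := by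
  intro h
  have h2 := hφ.2
  rw [h, finrank_bot] at h2
  omega

omit [FiniteDimensional (ZMod 2) V] in
private theorem gf2_b {H : Subgroup (V ≃ₗ[ZMod 2] V)} (hirr : IrrSub H) {k : ℕ}
    (hk : 2 ≤ k) {φ : Module.Dual (ZMod 2) V} (hφ : φ ∈ Ax H k) :
    ∃ ψ : Module.Dual (ZMod 2) V, ψ ≠ 0 ∧ ∃ b ∈ Cen H ψ, φ b = 1 :=
  span_cen hirr ⟨φ, hφ.1, gf2_ne_bot hk hφ⟩ φ hφ.1

theorem FF_finrank {H : Subgroup (V ≃ₗ[ZMod 2] V)} (hirr : IrrSub H) {k : ℕ} (hM : Mx H k)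
    (hk : 2 ≤ k) {φ : Module.Dual (ZMod 2) V} (hφ : φ ∈ Ax H k) :
    finrank (ZMod 2) (FF H φ) = k + 1 := by
  obtain ⟨ψ, hψ, b, hb, h1⟩ := gf2_b hirr hk hφ
  rw [ff_eq hirr hM hk hφ hψ hb h1]
  have hb0 : b ≠ 0 := by
    rintro rfl
    rw [map_zero] at h1
    exact zero_ne_one h1
  have hinf : Cen H φ ⊓ Submodule.span (ZMod 2) {b} = ⊥ := by
    rw [eq_bot_iff]
    rintro x ⟨hx1, hx2⟩
    obtain ⟨r, rfl⟩ := Submodule.mem_span_singleton.1 hx2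
    have h2 : φ (r • b) = 0 := LinearMap.mem_ker.1 (cen_le_ker H φ hx1)
    rw [map_smul, h1, smul_eq_mul, mul_one] at h2
    rw [h2, zero_smul]
    exact Submodule.zero_mem _
  have hsum := Submodule.finrank_sup_add_finrank_inf_eq (Cen H φ) (Submodule.span (ZMod 2) {b})
  rw [hinf, finrank_bot, add_zero, finrank_span_singleton hb0, hφ.2] at hsum
  exact hsum

theorem FF_eq_of {H : Subgroup (V ≃ₗ[ZMod 2] V)} (hirr : IrrSub H) {k : ℕ} (hM : Mx H k)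
    (hk : 2 ≤ k) {φ : Module.Dual (ZMod 2) V} (hφ : φ ∈ Ax H k) {ψ : Module.Dual (ZMod 2) V}
    (hψ : ψ ≠ 0) {b : V} (hb : b ∈ Cen H ψ) (h1 : φ b = 1) :
    ψ ∈ Ax H k ∧ FF H ψ = FF H φ := by
  obtain ⟨hψA, e1, _, a, ha, ha1⟩ := step1 hM hφ hψ hb h1
  refine ⟨hψA, ?_⟩
  have e2 := ff_eq hirr hM hk hφ hψ hb h1
  have e3 := ff_eq hirr hM hk hψA hφ.1 ha ha1
  apply Submodule.eq_of_le_of_finrank_eq
  · rw [e3, e2, e1]
    refine sup_le (sup_le_sup_right inf_le_left _) ?_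
    rw [Submodule.span_singleton_le_iff_mem]
    exact Submodule.mem_sup_left ha
  · rw [FF_finrank hirr hM hk hφ, FF_finrank hirr hM hk hψA]

omit [FiniteDimensional (ZMod 2) V] in
private theorem gf2_cen {H : Subgroup (V ≃ₗ[ZMod 2] V)} {h : V ≃ₗ[ZMod 2] V} (hh : h ∈ H)
    {ψ : Module.Dual (ZMod 2) V} (hψ : ψ ≠ 0) {b : V} (hb : b ∈ Cen H ψ) :
    ∃ ψ' : Module.Dual (ZMod 2) V, ψ' ≠ 0 ∧ h b ∈ Cen H ψ' := by
  refine ⟨ψ.comp ((h.symm : V ≃ₗ[ZMod 2] V) : V →ₗ[ZMod 2] V), ?_, ?_⟩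
  · intro h0
    apply hψ
    ext v
    have h2 := LinearMap.congr_fun h0 (h v)
    simpa using h2
  · rw [← cen_map hh]
    exact Submodule.mem_map_of_mem hb

theorem FF_map {H : Subgroup (V ≃ₗ[ZMod 2] V)} {h : V ≃ₗ[ZMod 2] V} (hh : h ∈ H)
    (φ : Module.Dual (ZMod 2) V) :
    (FF H φ).map (h : V →ₗ[ZMod 2] V) =
      FF H (φ.comp ((h.symm : V ≃ₗ[ZMod 2] V) : V →ₗ[ZMod 2] V)) := by
  unfold FF
  rw [Submodule.map_sup, cen_map hh, Submodule.map_span]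
  congr 2
  ext b
  constructor
  · rintro ⟨c, ⟨hc1, ψ, hψ, hc⟩, rfl⟩
    refine ⟨?_, gf2_cen hh hψ hc⟩
    simpa using hc1
  · rintro ⟨hb1, ψ, hψ, hb⟩
    have hh' : h.symm ∈ H := H.inv_mem hh
    exact ⟨h.symm b, ⟨by simpa using hb1, gf2_cen hh' hψ hb⟩, by simp⟩

theorem FF_inv {H : Subgroup (V ≃ₗ[ZMod 2] V)} (hirr : IrrSub H) {k : ℕ} (hM : Mx H k)
    (hk : 2 ≤ k) {φ : Module.Dual (ZMod 2) V} (hφ : φ ∈ Ax H k) {ξ : Module.Dual (ZMod 2) V}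
    (hξ : ξ ≠ 0) {x : V} (hx : x ∈ Cen H ξ) {v : V} (hv : v ∈ FF H φ) :
    v + ξ v • x ∈ FF H φ := by
  rcases gf2_z2 (φ x) with h0 | h1
  · obtain ⟨_, t, ht, htv⟩ := hx
    have e : φ.comp ((t.symm : V ≃ₗ[ZMod 2] V) : V →ₗ[ZMod 2] V) = φ := by
      ext w
      have h2 := htv (t.symm w)
      rw [LinearEquiv.apply_symm_apply] at h2
      change φ (t.symm w) = φ w
      conv_rhs => rw [h2]
      rw [map_add, map_smul, h0, smul_zero, add_zero]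
    have h3 := FF_map ht φ
    rw [e] at h3
    rw [← htv v, ← h3]
    exact Submodule.mem_map_of_mem hv
  · refine Submodule.add_mem _ hv (Submodule.smul_mem _ _ ?_)
    exact Submodule.mem_sup_right (Submodule.subset_span ⟨h1, ξ, hξ, hx⟩)

theorem FF_key {H : Subgroup (V ≃ₗ[ZMod 2] V)} (hirr : IrrSub H) {k : ℕ} (hM : Mx H k)
    (hk : 2 ≤ k) {φ : Module.Dual (ZMod 2) V} (hφ : φ ∈ Ax H k) {v : V} (hv : v ∈ FF H φ)
    (hv0 : v ≠ 0) : ∃ η ∈ Ax H k, FF H η = FF H φ ∧ η v = 1 := by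
  rcases gf2_z2 (φ v) with h0 | h1
  · obtain ⟨η, hη, hηv⟩ := span_ax hirr hM.1 v hv0
    have hvC : v ∈ Cen H φ := by
      obtain ⟨ψ, hψ, b, hb, hb1⟩ := gf2_b hirr hk hφ
      rw [ff_eq hirr hM hk hφ hψ hb hb1] at hv
      obtain ⟨u, hu, w, hw, rfl⟩ := Submodule.mem_sup.1 hv
      obtain ⟨r, rfl⟩ := Submodule.mem_span_singleton.1 hw
      have h3 : φ u = 0 := LinearMap.mem_ker.1 (cen_le_ker H φ hu)
      rw [map_add, map_smul, h3, hb1, zero_add, smul_eq_mul, mul_one] at h0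
      rw [h0, zero_smul, add_zero]
      exact hu
    by_cases hex : ∃ e ∈ Cen H η, φ e = 1
    · obtain ⟨e, he, he1⟩ := hex
      have h2 := FF_eq_of hirr hM hk hφ hη.1 he he1
      exact ⟨η, h2.1, h2.2, hηv⟩
    · exfalso
      have hle : Cen H η ≤ Cen H φ := by
        intro ε hε
        refine comm_rel hε hvC hηv ?_
        rcases gf2_z2 (φ ε) with h | h
        · exact h
        · exact absurd ⟨ε, hε, h⟩ hex
      have heq : Cen H η = Cen H φ := Submodule.eq_of_le_of_finrank_le hle (by rw [hη.2, hφ.2])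
      rw [← heq] at hvC
      have h2 : η v = 0 := LinearMap.mem_ker.1 (cen_le_ker H η hvC)
      rw [hηv] at h2
      exact one_ne_zero h2
  · exact ⟨φ, hφ, rfl, h1⟩

theorem FF_vanish {H : Subgroup (V ≃ₗ[ZMod 2] V)} (hirr : IrrSub H) {k : ℕ} (hM : Mx H k)
    (hk : 2 ≤ k) {φ η : Module.Dual (ZMod 2) V} (hφ : φ ∈ Ax H k) (hη : η ∈ Ax H k)
    (hne : FF H η ≠ FF H φ) {v : V} (hv : v ∈ FF H φ) : η v = 0 := by
  rcases gf2_z2 (η v) with h0 | h1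
  · exact h0
  · exfalso
    apply hne
    obtain ⟨a, ha, ha0⟩ := Submodule.exists_mem_ne_zero_of_ne_bot (gf2_ne_bot hk hη)
    have h2 := FF_inv hirr hM hk hφ hη.1 ha hv
    rw [h1, one_smul] at h2
    have h3 : a ∈ FF H φ := by
      have h4 := Submodule.sub_mem _ h2 hv
      rwa [add_sub_cancel_left] at h4
    obtain ⟨η₁, hη₁, e1, ha1⟩ := FF_key hirr hM hk hφ h3 ha0
    rw [← e1]
    exact (FF_eq_of hirr hM hk hη₁ hη.1 ha ha1).2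

end Pool.Agent.TWO
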