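import Pool.Agent.TWO.GDefs

/-!
# TWO/GGen: transvections generate `GL(V)`, `V` over `ZMod 2`
-/

open Polynomial Module

namespace Pool.Agent.TWO

variable {V : Type} [AddCommGroup V] [Module (ZMod 2) V] [FiniteDimensional (ZMod 2) V]

theorem top_of_all {H : Subgroup (V ≃ₗ[ZMod 2] V)}
    (hall : ∀ φ : Module.Dual (ZMod 2) V, φ ≠ 0 → ∀ a : V, φ a = 0 → a ∈ Cen H φ) : H = ⊤ := by
  classical
  rw [eq_top_iff]
  intro g _
  let b := Module.finBasis (ZMod 2) V
  have key : ∀ M : Matrix (Fin (finrank (ZMod 2) V)) (Fin (finrank (ZMod 2) V)) (ZMod 2),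
      M.det ≠ 0 → ∃ h ∈ H, ∀ v : V, h v = Matrix.toLin b b M v := by
    intro M hM
    refine Matrix.diagonal_transvection_induction_of_det_ne_zero
      (fun M => ∃ h ∈ H, ∀ v : V, h v = Matrix.toLin b b M v) M hM ?_ ?_ ?_
    · intro D hD
      rw [Matrix.det_diagonal, Finset.prod_ne_zero_iff] at hD
      have h1 : D = 1 := by
        funext i
        have h2 := hD i (Finset.mem_univ i)
        exact ((by decide : ∀ c : ZMod 2, c ≠ 0 → c = 1) _ h2)
      refine ⟨1, H.one_mem, fun v => ?_⟩
      rw [h1, show Matrix.diagonal (1 : Fin (finrank (ZMod 2) V) → ZMod 2) = 1 from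
        Matrix.diagonal_one, Matrix.toLin_one]
      rfl
    · intro t
      have hj : b.coord t.j ≠ 0 := by
        intro h0
        have h1 : b.coord t.j (b t.j) = 0 := by rw [h0]; rfl
        rw [Basis.coord_apply, Basis.repr_self, Finsupp.single_eq_same] at h1
        exact one_ne_zero h1
      have ha : b.coord t.j (t.c • b t.i) = 0 := by
        rw [map_smul, Basis.coord_apply, Basis.repr_self,
          Finsupp.single_eq_of_ne t.hij.symm, smul_zero]
      obtain ⟨_, h, hh, hv⟩ := hall _ hj _ ha
      refine ⟨h, hh, fun v => ?_⟩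
      rw [hv]
      have h3 : Matrix.toLin b b t.toMatrix =
          LinearMap.id + (b.coord t.j).smulRight (t.c • b t.i) := by
        apply b.ext
        intro k
        rw [Matrix.toLin_self]
        rw [LinearMap.add_apply, LinearMap.id_apply, LinearMap.smulRight_apply,
          Basis.coord_apply, Basis.repr_self]
        simp only [Matrix.TransvectionStruct.toMatrix, Matrix.transvection, Matrix.add_apply,
          Matrix.one_apply, Matrix.single_apply, add_smul, Finset.sum_add_distrib, ite_smul,
          one_smul, zero_smul]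
        rw [Finset.sum_ite_eq' Finset.univ k]
        rw [if_pos (Finset.mem_univ k)]
        congr 1
        rcases eq_or_ne t.j k with hjk | hjk
        · subst hjk
          simp
        · rw [Finsupp.single_eq_of_ne hjk, zero_smul]
          apply Finset.sum_eq_zero
          intro i _
          rw [if_neg]
          tauto
      rw [h3]
      rfl
    · rintro A B _ _ ⟨h, hh, hv⟩ ⟨k, hk, kv⟩
      refine ⟨h * k, H.mul_mem hh hk, fun v => ?_⟩
      rw [Matrix.toLin_mul b b b, LinearMap.comp_apply, ← kv, ← hv]
      rfl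
  have hdet : (LinearMap.toMatrix b b g.toLinearMap).det ≠ 0 := by
    have h1 := LinearEquiv.isUnit_det g b b
    exact h1.ne_zero
  obtain ⟨h, hh, hv⟩ := key _ hdet
  have h1 : h = g := by
    ext v
    rw [hv, Matrix.toLin_toMatrix]
    rfl
  rw [← h1]
  exact hh

end Pool.Agent.TWO
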