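import Pool.Agent.TWO.GTv

/-!
# TWO/GOne: every axis has one centre: the elements of `H` are self-reciprocal

For `φ ∈ Ax H 1` let `c φ` be the nonzero vector of `Cen H φ`.  Then `φ (c ψ) = ψ (c φ)`, so there
is a linear isomorphism `θ` from the dual to `V` with `ψ (θ φ) = φ (c ψ)` for all `ψ ∈ Ax H 1`, and
`θ (φ ∘ h⁻¹) = h (θ φ)` for `h ∈ H`.
-/

open Polynomial Module

namespace Pool.Agent.TWO

variable {V : Type} [AddCommGroup V] [Module (ZMod 2) V] [FiniteDimensional (ZMod 2) V]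

omit [FiniteDimensional (ZMod 2) V] in
private theorem g1_dim {S : Submodule (ZMod 2) V} (h : finrank (ZMod 2) S = 1) :
    ∃ c ∈ S, c ≠ 0 ∧ ∀ x ∈ S, x = 0 ∨ x = c := by
  obtain ⟨v, hv0, hv⟩ := finrank_eq_one_iff'.mp h
  refine ⟨v, v.2, fun h0 => hv0 (Subtype.ext h0), fun x hx => ?_⟩
  obtain ⟨c, hc⟩ := hv ⟨x, hx⟩
  have hc' : c • (v : V) = x := congrArg Subtype.val hc
  rcases (by decide : ∀ c : ZMod 2, c = 0 ∨ c = 1) c with h1 | h1
  · left
    rw [← hc', h1, zero_smul]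
  · right
    rw [← hc', h1, one_smul]

omit [FiniteDimensional (ZMod 2) V] in
private theorem g1_aeval (θ : Module.Dual (ZMod 2) V →ₗ[ZMod 2] V) (g gi : Module.End (ZMod 2) V)
    (h : ∀ φ : Module.Dual (ZMod 2) V, θ (φ.comp gi) = g (θ φ)) (f : (ZMod 2)[X]) :
    ∀ φ : Module.Dual (ZMod 2) V, θ (φ.comp (aeval gi f)) = aeval g f (θ φ) := by
  induction f using Polynomial.induction_on with
  | C a =>
    intro φ
    have h1 : φ.comp (aeval gi (C a)) = a • φ := by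
      ext v
      rw [aeval_C]
      show φ (algebraMap (ZMod 2) (Module.End (ZMod 2) V) a v) = (a • φ) v
      rw [Module.algebraMap_end_apply, map_smul]
      rfl
    rw [h1, map_smul, aeval_C, Module.algebraMap_end_apply]
  | add p q hp hq =>
    intro φ
    have h1 : φ.comp (aeval gi (p + q)) = φ.comp (aeval gi p) + φ.comp (aeval gi q) := by
      rw [map_add]
      exact LinearMap.comp_add _ _ _
    rw [h1, map_add, hp, hq, map_add]
    rfl
  | monomial n a ih =>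
    intro φ
    have h1 : φ.comp (aeval gi (C a * X ^ (n + 1))) = (φ.comp (aeval gi (C a * X ^ n))).comp gi := by
      have e : (C a * X ^ (n + 1) : (ZMod 2)[X]) = C a * X ^ n * X := by ring
      rw [e, map_mul (aeval gi) (C a * X ^ n) X, aeval_X]
      rfl
    have h2 : aeval g (C a * X ^ (n + 1) : (ZMod 2)[X]) = g * aeval g (C a * X ^ n) := by
      have e : (C a * X ^ (n + 1) : (ZMod 2)[X]) = X * (C a * X ^ n) := by ring
      rw [e, map_mul (aeval g) X (C a * X ^ n), aeval_X]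
    rw [h1, h, ih, h2]
    rfl

private theorem g1_finrank (θ : Module.Dual (ZMod 2) V →ₗ[ZMod 2] V) (hθ : Function.Injective θ)
    (G D : Module.End (ZMod 2) V)
    (h : ∀ φ : Module.Dual (ZMod 2) V, θ (φ.comp D) = G (θ φ)) :
    finrank (ZMod 2) (LinearMap.ker G) = finrank (ZMod 2) (LinearMap.ker D) := by
  have hd : finrank (ZMod 2) (Module.Dual (ZMod 2) V) = finrank (ZMod 2) V := Subspace.dual_finrank_eq
  obtain ⟨e, he⟩ : ∃ e : Module.Dual (ZMod 2) V ≃ₗ[ZMod 2] V, ∀ φ, e φ = θ φ :=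
    ⟨LinearEquiv.ofInjectiveOfFinrankEq θ hθ hd, fun φ => rfl⟩
  have h1 : (LinearMap.ker (LinearMap.dualMap D)).map (e : Module.Dual (ZMod 2) V →ₗ[ZMod 2] V) =
      LinearMap.ker G := by
    ext x
    rw [Submodule.mem_map]
    constructor
    · rintro ⟨φ, hφ, rfl⟩
      rw [LinearMap.mem_ker] at hφ ⊢
      show G (e φ) = 0
      rw [he, ← h]
      have h2 : φ.comp D = 0 := hφ
      rw [h2, map_zero]
    · intro hx
      refine ⟨e.symm x, ?_, e.apply_symm_apply x⟩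
      rw [LinearMap.mem_ker]
      apply hθ
      have h2 : θ (LinearMap.dualMap D (e.symm x)) = G (θ (e.symm x)) := h _
      rw [h2, ← he, e.apply_symm_apply, map_zero]
      exact hx
  have h2 : finrank (ZMod 2) ((LinearMap.ker (LinearMap.dualMap D)).map
      (e : Module.Dual (ZMod 2) V →ₗ[ZMod 2] V)) =
      finrank (ZMod 2) (LinearMap.ker (LinearMap.dualMap D)) := LinearEquiv.finrank_map_eq e _
  rw [h1] at h2
  have h3 := LinearMap.finrank_range_add_finrank_ker (LinearMap.dualMap D)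
  have h4 := LinearMap.finrank_range_add_finrank_ker D
  have h5 := LinearMap.finrank_range_dualMap_eq_finrank_range D
  rw [hd] at h3
  omega

theorem selfRec_of_one {H : Subgroup (V ≃ₗ[ZMod 2] V)} (hirr : IrrSub H) (hM : Mx H 1) :
    SelfRec H := by
  obtain ⟨hne, hmax⟩ := hM
  have hz : ∀ c : ZMod 2, c = 0 ∨ c = 1 := by decide
  have hc : ∀ φ : Module.Dual (ZMod 2) V, ∃ c : V, φ ∈ Ax H 1 →
      c ∈ Cen H φ ∧ c ≠ 0 ∧ ∀ x ∈ Cen H φ, x = 0 ∨ x = c := by
    intro φ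
    by_cases h : φ ∈ Ax H 1
    · obtain ⟨c, h1, h2, h3⟩ := g1_dim h.2
      exact ⟨c, fun _ => ⟨h1, h2, h3⟩⟩
    · exact ⟨0, fun h' => absurd h' h⟩
  choose c hc using hc
  have hsym : ∀ φ ∈ Ax H 1, ∀ ψ ∈ Ax H 1, φ (c ψ) = 1 → ψ (c φ) = 1 := by
    intro φ hφ ψ hψ h1
    rcases hz (ψ (c φ)) with h2 | h2
    · exfalso
      have h3 := comm_rel (hc φ hφ).1 (hc ψ hψ).1 h1 h2
      rcases (hc ψ hψ).2.2 _ h3 with h4 | h4
      · exact (hc φ hφ).2.1 h4
      · have h5 : φ (c φ) = 0 := (hc φ hφ).1.1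
        rw [h4, h1] at h5
        exact one_ne_zero h5
    · exact h2
  have hsym2 : ∀ φ ∈ Ax H 1, ∀ ψ ∈ Ax H 1, φ (c ψ) = ψ (c φ) := by
    intro φ hφ ψ hψ
    rcases hz (φ (c ψ)) with h | h
    · rcases hz (ψ (c φ)) with h' | h'
      · rw [h, h']
      · have h2 := hsym ψ hψ φ hφ h'
        rw [h2] at h
        exact absurd h one_ne_zero
    · rw [h, hsym φ hφ ψ hψ h]
  have hu : ∀ x y : V, (∀ ψ ∈ Ax H 1, ψ x = ψ y) → x = y := by
    intro x y hxy
    by_contra hne'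
    obtain ⟨φ, hφ, h1⟩ := span_ax hirr hne (x - y) (sub_ne_zero.2 hne')
    rw [map_sub, hxy φ hφ, sub_self] at h1
    exact zero_ne_one h1
  have hspan : Submodule.span (ZMod 2) (Ax H 1) = ⊤ := by
    have h1 : (Submodule.span (ZMod 2) (Ax H 1)).dualCoannihilator = ⊥ := by
      rw [Submodule.eq_bot_iff]
      intro x hx
      by_contra hx0
      obtain ⟨φ, hφ, h2⟩ := span_ax hirr hne x hx0
      have h3 := (Submodule.mem_dualCoannihilator _).1 hx φ (Submodule.subset_span hφ)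
      rw [h2] at h3
      exact one_ne_zero h3
    rw [← Subspace.dualCoannihilator_dualAnnihilator_eq
      (W := Submodule.span (ZMod 2) (Ax H 1)), h1, Submodule.dualAnnihilator_bot]
  have hex : ∀ φ : Module.Dual (ZMod 2) V, ∃ x : V, ∀ ψ ∈ Ax H 1, ψ x = φ (c ψ) := by
    intro φ
    have hφ : φ ∈ Submodule.span (ZMod 2) (Ax H 1) := by
      rw [hspan]
      trivial
    induction hφ using Submodule.span_induction with
    | mem φ hφ => exact ⟨c φ, fun ψ hψ => hsym2 ψ hψ φ hφ⟩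
    | zero => exact ⟨0, fun ψ _ => by rw [map_zero]; rfl⟩
    | add φ η _ _ h1 h2 =>
      obtain ⟨x, hx⟩ := h1
      obtain ⟨y, hy⟩ := h2
      exact ⟨x + y, fun ψ hψ => by rw [map_add, hx ψ hψ, hy ψ hψ]; rfl⟩
    | smul a φ _ h1 =>
      obtain ⟨x, hx⟩ := h1
      exact ⟨a • x, fun ψ hψ => by rw [map_smul, hx ψ hψ]; rfl⟩
  choose t ht using hex
  obtain ⟨θ, hθt⟩ : ∃ θ : Module.Dual (ZMod 2) V →ₗ[ZMod 2] V, ∀ φ, θ φ = t φ :=
    ⟨{ toFun := t
       map_add' := fun φ η => hu _ _ fun ψ hψ => by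
        rw [map_add, ht _ ψ hψ, ht _ ψ hψ, ht _ ψ hψ]
        rfl
       map_smul' := fun a φ => hu _ _ fun ψ hψ => by
        rw [RingHom.id_apply, map_smul, ht _ ψ hψ, ht _ ψ hψ]
        rfl }, fun _ => rfl⟩
  have hinj : Function.Injective θ := by
    rw [injective_iff_map_eq_zero]
    intro φ h0
    by_contra hφ
    obtain ⟨φ₀, hφ₀⟩ := hne
    obtain ⟨ψ, hψ0, b, hb, hb1⟩ := span_cen hirr ⟨φ₀, hφ₀.1, fun h1 => by
      have h2 := hφ₀.2
      rw [h1, finrank_bot] at h2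
      exact zero_ne_one h2⟩ φ hφ
    have hb0 : b ≠ 0 := by
      intro h1
      rw [h1, map_zero] at hb1
      exact zero_ne_one hb1
    have h3 : finrank (ZMod 2) (Cen H ψ) ≠ 0 := by
      intro h4
      rw [Submodule.finrank_eq_zero] at h4
      rw [h4] at hb
      exact hb0 ((Submodule.mem_bot _).1 hb)
    have hψA : ψ ∈ Ax H 1 := ⟨hψ0, by have := hmax ψ hψ0; omega⟩
    have h5 : φ (c ψ) = 0 := by
      rw [← ht φ ψ hψA, ← hθt, h0, map_zero]
    rcases (hc ψ hψA).2.2 b hb with h6 | h6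
    · exact hb0 h6
    · rw [h6, h5] at hb1
      exact zero_ne_one hb1
  intro h hh f
  have hcomm : ∀ φ : Module.Dual (ZMod 2) V,
      θ (φ.comp ((h⁻¹ : V ≃ₗ[ZMod 2] V) : V →ₗ[ZMod 2] V)) = (h : V →ₗ[ZMod 2] V) (θ φ) := by
    intro φ
    refine hu _ _ fun ψ hψ => ?_
    have hh' := H.inv_mem hh
    have h1 := ax_map hh' hψ
    have h2 : ψ ((h : V →ₗ[ZMod 2] V) (θ φ)) =
        (ψ.comp (((h⁻¹ : V ≃ₗ[ZMod 2] V).symm : V ≃ₗ[ZMod 2] V) : V →ₗ[ZMod 2] V)) (θ φ) := rfl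
    rw [h2, hθt, hθt, ht _ _ h1, ht _ _ hψ]
    show φ ((h⁻¹ : V ≃ₗ[ZMod 2] V) (c ψ)) = _
    congr 1
    have h3 : (h⁻¹ : V ≃ₗ[ZMod 2] V) (c ψ) ∈ Cen H
        (ψ.comp (((h⁻¹ : V ≃ₗ[ZMod 2] V).symm : V ≃ₗ[ZMod 2] V) : V →ₗ[ZMod 2] V)) := by
      rw [← cen_map hh' ψ]
      exact Submodule.mem_map_of_mem (hc ψ hψ).1
    rcases (hc _ h1).2.2 _ h3 with h4 | h4
    · exact absurd ((LinearEquiv.map_eq_zero_iff _).1 h4) (hc ψ hψ).2.1
    · exact h4
  exact g1_finrank θ hinj _ _ fun φ => g1_aeval θ _ _ hcomm f φ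

end Pool.Agent.TWO
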