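import Pool.Agent.TWO.GF2
import Pool.Agent.TWO.GGen

/-!
# TWO/GTop: one summand implies `H = GL(V)`

If `FF H φ = ⊤` then `dim V = k + 1`, so `Cen H η = ker η` for all `η ∈ Ax H k`; hence `Ax H k ∪ {0}`
is closed under addition, and it is the whole dual space.
-/

open Polynomial Module

namespace Pool.Agent.TWO

variable {V : Type} [AddCommGroup V] [Module (ZMod 2) V] [FiniteDimensional (ZMod 2) V]

private theorem zo (c : ZMod 2) : c = 0 ∨ c = 1 := by
  revert c
  decide

omit [FiniteDimensional (ZMod 2) V] in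
private theorem exists_sep {φ η : Module.Dual (ZMod 2) V} (hφ : φ ≠ 0) (hη : η ≠ 0)
    (hne : φ ≠ η) : ∃ a : V, η a = 0 ∧ φ a = 1 := by
  by_contra hcon
  push Not at hcon
  have h0 : ∀ v, η v = 0 → φ v = 0 := fun v hv => by
    rcases zo (φ v) with h | h
    · exact h
    · exact absurd h (hcon v hv)
  obtain ⟨u, hu⟩ : ∃ u, η u ≠ 0 := by
    by_contra hc
    push Not at hc
    exact hη (LinearMap.ext hc)
  have hu1 : η u = 1 := (zo (η u)).resolve_left hu
  have h1 : ∀ v, η v = 1 → φ v = φ u := fun v hv => by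
    have h2 : η (v - u) = 0 := by rw [map_sub, hv, hu1, sub_self]
    have h3 := h0 _ h2
    rwa [map_sub, sub_eq_zero] at h3
  rcases zo (φ u) with h | h
  · refine hφ (LinearMap.ext fun v => ?_)
    rcases zo (η v) with hv | hv
    · exact h0 v hv
    · rw [h1 v hv, h]
      rfl
  · refine hne (LinearMap.ext fun v => ?_)
    rcases zo (η v) with hv | hv
    · rw [h0 v hv, hv]
    · rw [h1 v hv, h, hv]

theorem top_of_FF {H : Subgroup (V ≃ₗ[ZMod 2] V)} (hirr : IrrSub H) {k : ℕ} (hM : Mx H k)
    (hk : 2 ≤ k) (hF : ∃ φ ∈ Ax H k, FF H φ = ⊤) : H = ⊤ := by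
  obtain ⟨φ₀, hφ₀, hFF⟩ := hF
  have hdim : finrank (ZMod 2) V = k + 1 := by
    have h := FF_finrank hirr hM hk hφ₀
    rw [hFF, finrank_top] at h
    exact h
  have hcen : ∀ η ∈ Ax H k, Cen H η = LinearMap.ker η := by
    intro η hη
    refine Submodule.eq_of_le_of_finrank_eq (cen_le_ker H η) ?_
    have h1 := Module.Dual.finrank_ker_add_one_of_ne_zero hη.1
    have h2 := hη.2
    omega
  have hadd : ∀ φ ∈ Ax H k, ∀ η ∈ Ax H k, φ ≠ η → φ + η ∈ Ax H k := by
    intro φ hφ η hη hne
    obtain ⟨a, ha0, ha1⟩ := exists_sep hφ.1 hη.1 hne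
    have hac : a ∈ Cen H η := by
      rw [hcen η hη, LinearMap.mem_ker]
      exact ha0
    obtain ⟨-, t, htH, ht⟩ := hac
    have htH' : t.symm ∈ H := H.inv_mem htH
    have h := ax_map htH' hφ
    have he : φ.comp ((t.symm.symm : V ≃ₗ[ZMod 2] V) : V →ₗ[ZMod 2] V) = φ + η := by
      refine LinearMap.ext fun v => ?_
      change φ (t.symm.symm v) = φ v + η v
      rw [LinearEquiv.symm_symm, ht, map_add, map_smul, ha1, smul_eq_mul, mul_one]
    rw [he] at h
    exact h
  let D : Submodule (ZMod 2) (Module.Dual (ZMod 2) V) :=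
    { carrier := {φ | φ = 0 ∨ φ ∈ Ax H k}
      zero_mem' := Or.inl rfl
      add_mem' := by
        rintro φ η (hφ | hφ) (hη | hη)
        · left
          rw [hφ, hη, add_zero]
        · right
          rw [hφ, zero_add]
          exact hη
        · right
          rw [hη, add_zero]
          exact hφ
        · by_cases hne : φ = η
          · left
            rw [hne]
            refine LinearMap.ext fun v => ?_
            rw [LinearMap.add_apply]
            exact CharTwo.add_self_eq_zero _
          · right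
            exact hadd φ hφ η hη hne
      smul_mem' := by
        rintro c φ hφ
        rcases zo c with hc | hc
        · left
          rw [hc, zero_smul]
        · rw [hc, one_smul]
          exact hφ }
  have hco : D.dualCoannihilator = ⊥ := by
    rw [eq_bot_iff]
    intro v hv
    rw [Submodule.mem_dualCoannihilator] at hv
    rw [Submodule.mem_bot]
    by_contra hv0
    obtain ⟨φ, hφ, h1⟩ := span_ax hirr ⟨φ₀, hφ₀⟩ v hv0
    have h2 := hv φ (Or.inr hφ)
    rw [h1] at h2
    exact one_ne_zero h2
  have htop : D = ⊤ := by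
    have h := Subspace.dualCoannihilator_dualAnnihilator_eq (W := D)
    rw [hco, Submodule.dualAnnihilator_bot] at h
    exact h.symm
  refine top_of_all fun φ hφ a ha => ?_
  have hmem : φ ∈ D := by
    rw [htop]
    trivial
  rcases hmem with h | h
  · exact absurd h hφ
  · rw [hcen φ h, LinearMap.mem_ker]
    exact ha

end Pool.Agent.TWO
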