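import Pool.Agent.TWO.GDec
import Pool.Agent.TWO.GTop
import Pool.Agent.TWO.GOne

/-!
# TWO/GMc: irreducible subgroups of `GL(V)` over `F_2` which contain a transvection

Let `k` be the largest dimension of a `Cen H φ`, `φ ≠ 0`; then `k ≥ 1`.  `k = 1`: all elements are
self-reciprocal.  `k ≥ 2`: `V` is a direct sum of blocks, or `H = GL(V)`.
-/

open Polynomial Module

namespace Pool.Agent.TWO

variable {V : Type} [AddCommGroup V] [Module (ZMod 2) V] [FiniteDimensional (ZMod 2) V]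

theorem tv_theorem {H : Subgroup (V ≃ₗ[ZMod 2] V)} (hirr : IrrSub H) (ht : ∃ t ∈ H, IsTv t) :
    H = ⊤ ∨ SelfRec H ∨ Blocks H := by
  obtain ⟨t, htH, htv⟩ := ht
  obtain ⟨a, φ, ha, hφ, hφa, htv⟩ := (isTv_iff t).1 htv
  have hac : a ∈ Cen H φ := ⟨hφa, t, htH, htv⟩
  have hpos : 1 ≤ finrank (ZMod 2) (Cen H φ) := by
    rw [Nat.one_le_iff_ne_zero]
    intro h0
    have hbot : Cen H φ = ⊥ := Submodule.finrank_eq_zero.1 h0
    rw [hbot, Submodule.mem_bot] at hac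
    exact ha hac
  set S : Set ℕ := {k | ∃ ψ : Module.Dual (ZMod 2) V, ψ ≠ 0 ∧ finrank (ZMod 2) (Cen H ψ) = k}
    with hS
  have hne : S.Nonempty := ⟨_, φ, hφ, rfl⟩
  have hbd : BddAbove S := by
    refine ⟨finrank (ZMod 2) V, ?_⟩
    rintro k ⟨ψ, -, rfl⟩
    exact Submodule.finrank_le _
  have hmem := Nat.sSup_mem hne hbd
  set k := sSup S with hk
  have hMx : Mx H k := by
    refine ⟨?_, fun ψ hψ => le_csSup hbd ⟨ψ, hψ, rfl⟩⟩
    obtain ⟨ψ, hψ, h⟩ := hmem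
    exact ⟨ψ, hψ, h⟩
  have hk1 : 1 ≤ k := hpos.trans (le_csSup hbd ⟨φ, hφ, rfl⟩)
  rcases hk1.eq_or_lt with h | h
  · right
    left
    rw [← h] at hMx
    exact selfRec_of_one hirr hMx
  · rcases dec_blocks hirr hMx h with hb | hb
    · exact Or.inr (Or.inr hb)
    · exact Or.inl (top_of_FF hirr hMx h hb)

end Pool.Agent.TWO
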