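import Pool.Agent.TWO.GDefs

/-!
# TWO/GNrm (1.6 h): a 2-element normalising an irreducible cyclic group of odd dimension

`c` of prime order `r` acts irreducibly and nontrivially on the subspace `U` of odd dimension `e`,
`t` is a 2-element (`t^(2^a) = 1`) mapping `U` to `U` with `t c = c^i t`.  Then `t` is the identity
on `U`.
1. Let `f` be the minimal polynomial of `c` on `U` (a linear endomorphism of `U`).  It is
   irreducible of degree `e` (irreducible action: for an irreducible factor `p` of `f`, `ker p(c)`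
   on `U` is nonzero and invariant, so it is `U` and `f = p`; for `x ≠ 0` in `U` the span of the
   `c^j x` is `U`, and it has dimension `deg f`).  `K = AdjoinRoot f` has `2^e` elements; `α` the
   root; `p(c) = 0` on `U` iff `p(α) = 0`.
2. On `U`: `c^i = t c t⁻¹`, so `f(c^i) = t f(c) t⁻¹ = 0`, `f(α^i) = 0`.  The roots of `f` in `K` are
   the `α^(2^j)`, `0 ≤ j < e` (Frobenius / Galois group of a finite field; e.g. an automorphism of
   `K` over `ZMod 2` sending `α` to `α^i` is a power of Frobenius, `FiniteField` API, or the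
   polynomial `∏_{j<e} (X - α^(2^j))` is `f`).  So `c^i = c^(2^j)` on `U`.
3. `t c t⁻¹ = c^(2^j)` on `U`, so `t^(2^a) c t^(-2^a) = c^(2^(j 2^a))`: `c = c^(2^(j 2^a))` on `U`,
   `α^(2^(j 2^a)) = α`; Frobenius to the power `j 2^a` fixes the generator `α`, hence is the
   identity on `K`, so `e ∣ j 2^a`; `e` odd gives `e ∣ j`, so `j = 0` (or `α^(2^j) = α`): `t c = c t`
   on `U`.
4. The fixed vectors of `t` in `U` form a nonzero subspace (`t` is a 2-element, characteristic 2:
   `(t - 1)^(2^a) = t^(2^a) - 1 = 0` on `U ≠ 0`), invariant under `c`; so it is `U`.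
-/

open Polynomial Module

namespace Pool.Agent.TWO

variable {V : Type} [AddCommGroup V] [Module (ZMod 2) V] [FiniteDimensional (ZMod 2) V]

private theorem fix_two (t : V ≃ₗ[ZMod 2] V) (U : Submodule (ZMod 2) V) (htU : ∀ x ∈ U, t x ∈ U) :
    ∀ (a : ℕ) (x : V), x ∈ U → x ≠ 0 → (t ^ (2 ^ a)) x = x → ∃ y ∈ U, y ≠ 0 ∧ t y = y := by
  have hpow : ∀ (k : ℕ) (x : V), x ∈ U → (t ^ k) x ∈ U := by
    intro k
    induction k with
    | zero => intro x hx; exact hx
    | succ k ih =>
      intro x hx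
      rw [pow_succ']
      exact htU _ (ih x hx)
  have hcan : ∀ x : V, x + x = 0 := fun x => by
    have h1 : (2 : ZMod 2) • x = 0 := by
      rw [show (2 : ZMod 2) = 0 from rfl, zero_smul]
    rwa [two_smul] at h1
  intro a
  induction a with
  | zero =>
    intro x hx h0 h
    exact ⟨x, hx, h0, by simpa using h⟩
  | succ a ih =>
    intro x hx h0 h
    have h1 : (t ^ 2 ^ a) ((t ^ 2 ^ a) x) = x := by
      have h2 : t ^ 2 ^ (a + 1) = t ^ 2 ^ a * t ^ 2 ^ a := by rw [← pow_add]; congr 1; ring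
      rw [h2] at h
      exact h
    by_cases h2 : x + (t ^ 2 ^ a) x = 0
    · refine ih x hx h0 ?_
      have h3 : (t ^ 2 ^ a) x = - x := (neg_eq_of_add_eq_zero_right h2).symm
      rw [h3]
      exact neg_eq_of_add_eq_zero_right (hcan x)
    · refine ih _ (U.add_mem hx (hpow _ x hx)) h2 ?_
      rw [map_add, h1, add_comm]

private theorem aeval_semi {A : Type} [Ring A] [Algebra (ZMod 2) A] {t c d : A} (h : t * c = d * t)
    (q : (ZMod 2)[X]) : t * aeval c q = aeval d q * t := by
  induction q using Polynomial.induction_on' with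
  | add p q hp hq => rw [map_add, map_add, mul_add, add_mul, hp, hq]
  | monomial n a =>
    rw [aeval_monomial, aeval_monomial]
    have h1 : SemiconjBy t c d := h
    have h2 : t * c ^ n = d ^ n * t := h1.pow_right n
    rw [← mul_assoc, ← Algebra.commutes a t, mul_assoc, h2, mul_assoc]

/-- the minimal polynomial of an irreducible endomorphism -/
private theorem irr_min {U : Type} [AddCommGroup U] [Module (ZMod 2) U] [FiniteDimensional (ZMod 2) U]
    [Nontrivial U] (c : Module.End (ZMod 2) U)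
    (hirr : ∀ S : Submodule (ZMod 2) U, (∀ x ∈ S, c x ∈ S) → S = ⊥ ∨ S = ⊤) :
    Irreducible (minpoly (ZMod 2) c) ∧ (minpoly (ZMod 2) c).natDegree = finrank (ZMod 2) U := by
  have hint : IsIntegral (ZMod 2) c := Algebra.IsIntegral.isIntegral c
  have hmon := minpoly.monic hint
  have hz : aeval c (minpoly (ZMod 2) c) = 0 := minpoly.aeval _ _
  have hdvd : ∀ q : (ZMod 2)[X], aeval c q = 0 → minpoly (ZMod 2) c ∣ q := fun q hq => minpoly.dvd _ _ hq
  generalize minpoly (ZMod 2) c = f at hmon hz hdvd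
  have hcomm : ∀ (q : (ZMod 2)[X]) (x : U), aeval c q (c x) = c (aeval c q x) := by
    intro q x
    have h1 := aeval_semi (rfl : c * c = c * c) q
    exact (congrArg (fun l : Module.End (ZMod 2) U => l x) h1).symm
  have hf1 : f ≠ 1 := by
    rintro rfl
    rw [map_one] at hz
    exact one_ne_zero hz
  constructor
  · rw [hmon.irreducible_iff_natDegree]
    refine ⟨hf1, fun a b ha hb hab => ?_⟩
    have key : ∀ a b : (ZMod 2)[X], a.Monic → b.Monic → a * b = f → f ∣ b → a.natDegree = 0 := by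
      intro a b ha hb hab h
      have h1 := natDegree_le_of_dvd h hb.ne_zero
      rw [← hab, ha.natDegree_mul hb] at h1
      omega
    rcases hirr (LinearMap.ker (aeval c a)) (fun x hx => by
      rw [LinearMap.mem_ker] at hx ⊢
      rw [hcomm, hx, map_zero]) with h | h
    · left
      refine key a b ha hb hab (hdvd b ?_)
      ext x
      have h1 : aeval c a (aeval c b x) = 0 := by
        rw [← Module.End.mul_apply, ← map_mul, hab, hz]
        rfl
      have h2 : aeval c b x ∈ LinearMap.ker (aeval c a) := h1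
      rw [h, Submodule.mem_bot] at h2
      exact h2
    · right
      refine key b a hb ha (by rw [mul_comm, hab]) (hdvd a ?_)
      exact LinearMap.ker_eq_top.1 h
  · obtain ⟨u, hu⟩ := exists_ne (0 : U)
    let L : (ZMod 2)[X] →ₗ[ZMod 2] U := (LinearMap.applyₗ u) ∘ₗ (aeval c).toLinearMap
    have hL : ∀ q, L q = aeval c q u := fun q => rfl
    have hsurj : ∀ x : U, ∃ q, L q = x := by
      rcases hirr (LinearMap.range L) (by
        rintro x ⟨q, rfl⟩
        refine ⟨X * q, ?_⟩
        rw [hL, hL, map_mul, aeval_X]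
        rfl) with h | h
      · exfalso
        have h1 : L 1 ∈ LinearMap.range L := ⟨1, rfl⟩
        rw [h, Submodule.mem_bot, hL, map_one] at h1
        exact hu h1
      · intro x
        have h1 : x ∈ LinearMap.range L := h ▸ Submodule.mem_top
        exact h1
    have hker : ∀ q, L q = 0 → f ∣ q := by
      intro q hq
      apply hdvd
      ext x
      obtain ⟨p, rfl⟩ := hsurj x
      rw [hL, ← Module.End.mul_apply, ← map_mul, mul_comm, map_mul, Module.End.mul_apply]
      rw [hL] at hq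
      rw [hq, map_zero]
      rfl
    let L1 : degreeLT (ZMod 2) f.natDegree →ₗ[ZMod 2] U := L.domRestrict _
    have hb : Function.Bijective L1 := by
      constructor
      · rw [injective_iff_map_eq_zero]
        intro q hq
        by_contra h0
        have h1 : (q : (ZMod 2)[X]) ≠ 0 := fun h1 => h0 (Subtype.ext h1)
        have h2 := mem_degreeLT.1 q.2
        have h3 : f.natDegree ≤ (q : (ZMod 2)[X]).natDegree := natDegree_le_of_dvd (hker _ hq) h1
        have h4 := (natDegree_lt_iff_degree_lt h1).2 h2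
        omega
      · intro x
        obtain ⟨q, rfl⟩ := hsurj x
        refine ⟨⟨q %ₘ f, mem_degreeLT.2 ?_⟩, ?_⟩
        · rw [← degree_eq_natDegree hmon.ne_zero]
          exact degree_modByMonic_lt q hmon
        · show L (q %ₘ f) = L q
          conv_rhs => rw [← modByMonic_add_div q f]
          rw [map_add, hL (f * _), mul_comm, map_mul, Module.End.mul_apply, hz, LinearMap.zero_apply, map_zero,
            add_zero]
    have h1 := (LinearEquiv.ofBijective L1 hb).finrank_eq
    rwa [(degreeLTEquiv (ZMod 2) f.natDegree).finrank_eq, finrank_fin_fun] at h1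

/-- an automorphism of 2-power order of a field with an odd power of 2 elements is trivial -/
private theorem root_fix {f : (ZMod 2)[X]} (hf : Irreducible f) (hodd : Odd f.natDegree) {i a : ℕ}
    (h1 : f ∣ f.comp (X ^ i)) (h2 : f ∣ X ^ (i ^ (2 ^ a)) - X) : f ∣ X ^ i - X := by
  classical
  have hfact : Fact (Irreducible f) := ⟨hf⟩
  have hfin : Module.Finite (ZMod 2) (AdjoinRoot f) := (AdjoinRoot.powerBasis hf.ne_zero).finite
  have hfin2 : Finite (AdjoinRoot f) := Module.finite_of_finite (ZMod 2)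
  have hr : eval₂ (Algebra.ofId (ZMod 2) (AdjoinRoot f) : ZMod 2 →+* AdjoinRoot f) (AdjoinRoot.root f ^ i) f = 0 := by
    have h3 : aeval (AdjoinRoot.root f ^ i) f = 0 := by
      have h4 : aeval (AdjoinRoot.root f) (f.comp (X ^ i)) = aeval (AdjoinRoot.root f ^ i) f := by
        rw [aeval_comp, map_pow, aeval_X]
      rw [← h4, AdjoinRoot.aeval_eq, AdjoinRoot.mk_eq_zero]
      exact h1
    exact h3
  let σ0 : AdjoinRoot f →ₐ[ZMod 2] AdjoinRoot f :=
    AdjoinRoot.liftAlgHom f (Algebra.ofId (ZMod 2) (AdjoinRoot f)) (AdjoinRoot.root f ^ i) hr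
  have hσ0 : σ0 (AdjoinRoot.root f) = AdjoinRoot.root f ^ i := AdjoinRoot.liftAlgHom_root _ _ _ _
  have hinj : Function.Injective σ0 := σ0.toRingHom.injective
  let σ : AdjoinRoot f ≃ₐ[ZMod 2] AdjoinRoot f :=
    AlgEquiv.ofBijective σ0 ⟨hinj, Finite.injective_iff_surjective.1 hinj⟩
  have hσ : σ (AdjoinRoot.root f) = AdjoinRoot.root f ^ i := hσ0
  have hσk : ∀ k : ℕ, (σ ^ k) (AdjoinRoot.root f) = AdjoinRoot.root f ^ (i ^ k) := by
    intro k
    induction k with
    | zero => simp
    | succ k ih =>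
      rw [pow_succ', AlgEquiv.mul_apply, ih, map_pow, hσ, ← pow_mul, ← pow_succ']
  have hσ1 : σ ^ (2 ^ a) = 1 := by
    have h3 : ((σ ^ (2 ^ a) : AdjoinRoot f ≃ₐ[ZMod 2] AdjoinRoot f) : AdjoinRoot f →ₐ[ZMod 2] AdjoinRoot f) =
        ((1 : AdjoinRoot f ≃ₐ[ZMod 2] AdjoinRoot f) : AdjoinRoot f →ₐ[ZMod 2] AdjoinRoot f) := by
      apply AdjoinRoot.algHom_ext
      show (σ ^ (2 ^ a)) (AdjoinRoot.root f) = AdjoinRoot.root f
      rw [hσk]
      have h4 : AdjoinRoot.mk f (X ^ (i ^ (2 ^ a)) - X) = 0 := AdjoinRoot.mk_eq_zero.2 h2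
      rw [map_sub, map_pow, AdjoinRoot.mk_X, sub_eq_zero] at h4
      exact h4
    exact AlgEquiv.ext fun x => congrArg (fun g : AdjoinRoot f →ₐ[ZMod 2] AdjoinRoot f => g x) h3
  have hcard : Nat.card (AdjoinRoot f ≃ₐ[ZMod 2] AdjoinRoot f) = f.natDegree := by
    rw [IsGalois.card_aut_eq_finrank, (AdjoinRoot.powerBasis hf.ne_zero).finrank, AdjoinRoot.powerBasis_dim]
  have ho1 : orderOf σ ∣ 2 ^ a := orderOf_dvd_of_pow_eq_one hσ1
  have ho2 : orderOf σ ∣ f.natDegree := hcard ▸ orderOf_dvd_natCard σ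
  have hcop : Nat.Coprime (2 ^ a) f.natDegree := Nat.Coprime.pow_left _ (Nat.coprime_two_left.2 hodd)
  have ho : orderOf σ = 1 := Nat.eq_one_of_dvd_coprimes hcop ho1 ho2
  rw [orderOf_eq_one_iff] at ho
  rw [ho] at hσ
  rw [← AdjoinRoot.mk_eq_zero, map_sub, map_pow, AdjoinRoot.mk_X, ← hσ]
  exact sub_self _

theorem odd_norm {c t : V ≃ₗ[ZMod 2] V} {r : ℕ} (hr : r.Prime) (hcr : c ^ r = 1)
    {U : Submodule (ZMod 2) V} (hcU : ∀ x ∈ U, c x ∈ U) (htU : ∀ x ∈ U, t x ∈ U)
    (hirr : ∀ S : Submodule (ZMod 2) V, S ≤ U → (∀ x ∈ S, c x ∈ S) → S = ⊥ ∨ S = U)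
    (hc1 : ∃ x ∈ U, c x ≠ x) (hodd : Odd (finrank (ZMod 2) U))
    (ht : ∃ a : ℕ, t ^ (2 ^ a) = 1) (htc : ∃ i : ℕ, t * c = c ^ i * t) :
    ∀ x ∈ U, t x = x := by
  classical
  obtain ⟨a, ha⟩ := ht
  obtain ⟨i, hi⟩ := htc
  obtain ⟨u0, hu0, hcu0⟩ := hc1
  have hu00 : u0 ≠ 0 := by
    rintro rfl
    exact hcu0 (map_zero c)
  have hnt : Nontrivial U := ⟨⟨⟨u0, hu0⟩, 0, fun h => hu00 (congrArg Subtype.val h)⟩⟩
  let cU : Module.End (ZMod 2) U := c.toLinearMap.restrict hcU
  let tU : Module.End (ZMod 2) U := t.toLinearMap.restrict htU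
  have hcpow : ∀ (k : ℕ) (x : U), ((cU ^ k) x : V) = (c ^ k) x := by
    intro k
    induction k with
    | zero => intro x; rfl
    | succ k ih =>
      intro x
      rw [pow_succ', pow_succ']
      show c ((cU ^ k) x : V) = c ((c ^ k) x)
      rw [ih]
  have htpow : ∀ (k : ℕ) (x : U), ((tU ^ k) x : V) = (t ^ k) x := by
    intro k
    induction k with
    | zero => intro x; rfl
    | succ k ih =>
      intro x
      rw [pow_succ', pow_succ']
      show t ((tU ^ k) x : V) = t ((t ^ k) x)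
      rw [ih]
  have hirr' : ∀ S : Submodule (ZMod 2) U, (∀ x ∈ S, cU x ∈ S) → S = ⊥ ∨ S = ⊤ := by
    intro S hS
    rcases hirr (S.map U.subtype) (by
      rintro x ⟨y, _, rfl⟩
      exact y.2) (by
      rintro x ⟨y, hy, rfl⟩
      exact ⟨cU y, hS y hy, rfl⟩) with h | h
    · left
      rw [eq_bot_iff]
      intro x hx
      have h1 : (x : V) ∈ S.map U.subtype := ⟨x, hx, rfl⟩
      rw [h, Submodule.mem_bot] at h1
      exact Subtype.ext h1
    · right
      rw [eq_top_iff]
      intro x _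
      have h1 : (x : V) ∈ S.map U.subtype := by
        rw [h]
        exact x.2
      obtain ⟨y, hy, hyx⟩ := h1
      have h2 : y = x := Subtype.ext hyx
      rwa [← h2]
  obtain ⟨hf, hfd⟩ := irr_min cU hirr'
  have hsemi : tU * cU = cU ^ i * tU := by
    ext x
    show t (c x) = ((cU ^ i) (tU x) : V)
    rw [hcpow]
    exact congrArg (fun l : V ≃ₗ[ZMod 2] V => l x) hi
  have hb : tU * tU ^ (2 ^ a - 1) = 1 := by
    rw [← pow_succ', Nat.sub_add_cancel Nat.one_le_two_pow]
    ext x
    rw [htpow, ha]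
    rfl
  have hz : aeval (cU ^ i) (minpoly (ZMod 2) cU) = 0 := by
    have h1 := aeval_semi hsemi (minpoly (ZMod 2) cU)
    rw [minpoly.aeval, mul_zero] at h1
    calc aeval (cU ^ i) (minpoly (ZMod 2) cU)
        = aeval (cU ^ i) (minpoly (ZMod 2) cU) * (tU * tU ^ (2 ^ a - 1)) := by rw [hb, mul_one]
      _ = 0 := by rw [← mul_assoc, ← h1, zero_mul]
  have hd1 : minpoly (ZMod 2) cU ∣ (minpoly (ZMod 2) cU).comp (X ^ i) := by
    apply minpoly.dvd
    rw [aeval_comp, map_pow, aeval_X]
    exact hz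
  have htk : ∀ k : ℕ, SemiconjBy (t ^ k) c (c ^ (i ^ k)) := by
    intro k
    induction k with
    | zero =>
      rw [pow_zero, pow_zero, pow_one]
      exact SemiconjBy.one_left c
    | succ k ih =>
      have h1 : SemiconjBy t c (c ^ i) := hi
      have h2 := (h1.pow_right (i ^ k)).mul_left ih
      rwa [← pow_succ', ← pow_mul, ← pow_succ'] at h2
  have hci : c ^ (i ^ (2 ^ a)) = c := by
    have h1 := htk (2 ^ a)
    rw [ha] at h1
    have h2 : 1 * c = c ^ (i ^ (2 ^ a)) * 1 := h1
    rw [one_mul, mul_one] at h2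
    exact h2.symm
  have hd2 : minpoly (ZMod 2) cU ∣ X ^ (i ^ (2 ^ a)) - X := by
    apply minpoly.dvd
    rw [map_sub, map_pow, aeval_X, sub_eq_zero]
    ext x
    rw [hcpow, hci]
    rfl
  have hd3 := root_fix hf (by rw [hfd]; exact hodd) hd1 hd2
  have hcom : cU ^ i = cU := by
    obtain ⟨q, hq⟩ := hd3
    have h1 : aeval cU (X ^ i - X : (ZMod 2)[X]) = 0 := by rw [hq, map_mul, minpoly.aeval, zero_mul]
    rwa [map_sub, map_pow, aeval_X, sub_eq_zero] at h1
  have htc' : ∀ x ∈ U, t (c x) = c (t x) := by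
    intro x hx
    have h1 : t (c x) = (c ^ i) (t x) := congrArg (fun l : V ≃ₗ[ZMod 2] V => l x) hi
    rw [h1]
    have h2 := hcpow i ⟨t x, htU x hx⟩
    rw [hcom] at h2
    exact h2.symm
  obtain ⟨y, hyU, hy0, hy⟩ := fix_two t U htU a u0 hu0 hu00 (by rw [ha]; rfl)
  have hmem : ∀ x, x ∈ U ⊓ LinearMap.ker (t.toLinearMap - 1) ↔ x ∈ U ∧ t x = x := by
    intro x
    rw [Submodule.mem_inf, LinearMap.mem_ker, LinearMap.sub_apply, sub_eq_zero]
    rfl
  rcases hirr (U ⊓ LinearMap.ker (t.toLinearMap - 1)) inf_le_left (by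
    intro x hx
    rw [hmem] at hx ⊢
    exact ⟨hcU x hx.1, by rw [htc' x hx.1, hx.2]⟩) with h | h
  · exfalso
    have h1 : y ∈ U ⊓ LinearMap.ker (t.toLinearMap - 1) := (hmem y).2 ⟨hyU, hy⟩
    rw [h, Submodule.mem_bot] at h1
    exact hy0 h1
  · intro x hx
    rw [← h] at hx
    exact ((hmem x).1 hx).2

end Pool.Agent.TWO
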