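import Pool.Agent.TWO.GDefs

/-!
# TWO/GTra: a large cyclic group makes an irreducible group transitive
-/

open Polynomial Module

namespace Pool.Agent.TWO

variable {V : Type} [AddCommGroup V] [Module (ZMod 2) V] [FiniteDimensional (ZMod 2) V]

omit [FiniteDimensional (ZMod 2) V] in
private theorem gtra_two (v : V) : v + v = 0 := by
  rw [← two_smul (ZMod 2) v]
  have h : (2 : ZMod 2) = 0 := by decide
  rw [h, zero_smul]

omit [FiniteDimensional (ZMod 2) V] in
private theorem gtra_dec {U : Submodule (ZMod 2) V} {w : V} (hU : IsCompl U (Submodule.span (ZMod 2) {w})) (x : V) :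
    ∃ u ∈ U, x = u ∨ x = w + u := by
  have h1 : x ∈ U ⊔ Submodule.span (ZMod 2) {w} := by
    rw [hU.sup_eq_top]
    exact Submodule.mem_top
  obtain ⟨u, hu, r, hr, hx⟩ := Submodule.mem_sup.1 h1
  obtain ⟨t, ht⟩ := Submodule.mem_span_singleton.1 hr
  refine ⟨u, hu, ?_⟩
  rcases (by decide : ∀ c : ZMod 2, c = 0 ∨ c = 1) t with hc | hc
  · left
    rw [← hx, ← ht, hc, zero_smul, add_zero]
  · right
    rw [← hx, ← ht, hc, one_smul, add_comm]

omit [FiniteDimensional (ZMod 2) V] in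
private theorem gtra_other {U : Submodule (ZMod 2) V} (h : 2 ≤ finrank (ZMod 2) U) (u : V) :
    ∃ u' ∈ U, u' ≠ 0 ∧ u' ≠ u := by
  by_contra hcon
  push Not at hcon
  have h1 : U ≤ Submodule.span (ZMod 2) {u} := by
    intro x hx
    by_cases hx0 : x = 0
    · rw [hx0]
      exact Submodule.zero_mem _
    · rw [hcon x hx hx0]
      exact Submodule.mem_span_singleton_self u
  have h2 := Submodule.finrank_mono h1
  have h3 : finrank (ZMod 2) (Submodule.span (ZMod 2) {u}) ≤ 1 := by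
    have := finrank_span_le_card (R := ZMod 2) ({u} : Set V)
    simpa using this
  omega

theorem trans_one {H : Subgroup (V ≃ₗ[ZMod 2] V)} (hirr : IrrSub H)
    (hn : 3 ≤ finrank (ZMod 2) V) {c : V ≃ₗ[ZMod 2] V} (hc : c ∈ H) {w : V} (hw : w ≠ 0)
    (hcw : c w = w) {U : Submodule (ZMod 2) V}
    (hU : IsCompl U (Submodule.span (ZMod 2) {w})) (hcU : ∀ x ∈ U, c x ∈ U)
    (htr : ∀ x ∈ U, ∀ y ∈ U, x ≠ 0 → y ≠ 0 → ∃ j : ℕ, (c ^ j) x = y)
    (a b : V) (ha : a ≠ 0) (hb : b ≠ 0) : ∃ h ∈ H, h a = b := by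
  have _ := hcU
  have hone : finrank (ZMod 2) (Submodule.span (ZMod 2) {w}) = 1 := finrank_span_singleton hw
  have hfr : finrank (ZMod 2) U + 1 = finrank (ZMod 2) V := by
    have := Submodule.finrank_add_eq_of_isCompl hU
    rw [hone] at this
    exact this
  have hU2 : 2 ≤ finrank (ZMod 2) U := by omega
  have hwU : w ∉ U := by
    intro h
    have h1 : w ∈ U ⊓ Submodule.span (ZMod 2) {w} := ⟨h, Submodule.mem_span_singleton_self w⟩
    rw [hU.inf_eq_bot] at h1
    exact hw ((Submodule.mem_bot _).1 h1)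
  have hcj : ∀ j : ℕ, (c ^ j) w = w := by
    intro j
    induction j with
    | zero => rfl
    | succ j ih =>
      rw [pow_succ]
      show (c ^ j) (c w) = w
      rw [hcw, ih]
  -- the orbit
  have hO : ∀ x, (∃ h ∈ H, h w = x) → ∀ k ∈ H, ∃ h ∈ H, h w = k x := by
    rintro x ⟨h, hh, hx⟩ k hk
    exact ⟨k * h, H.mul_mem hk hh, by rw [← hx]; rfl⟩
  have hOi : ∀ h ∈ H, ∀ x, (∃ k ∈ H, k w = h x) → ∃ k ∈ H, k w = x := by
    intro h hh x hx
    obtain ⟨k, hk, hkx⟩ := hO _ hx h⁻¹ (H.inv_mem hh)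
    refine ⟨k, hk, ?_⟩
    rw [hkx]
    exact h.symm_apply_apply x
  have hne : ∀ h : V ≃ₗ[ZMod 2] V, ∀ x : V, x ≠ 0 → h x ≠ 0 := by
    intro h x hx h1
    exact hx (h.map_eq_zero_iff.1 h1)
  have hA : (∃ u ∈ U, u ≠ 0 ∧ ∃ h ∈ H, h w = u) → ∀ u ∈ U, u ≠ 0 → ∃ h ∈ H, h w = u := by
    rintro ⟨u0, hu0, hu00, hu0O⟩ u hu hu0'
    obtain ⟨j, hj⟩ := htr u0 hu0 u hu hu00 hu0'
    obtain ⟨h, hh, hx⟩ := hO _ hu0O (c ^ j) (H.pow_mem hc j)
    exact ⟨h, hh, by rw [hx, hj]⟩
  have hB : (∃ u ∈ U, u ≠ 0 ∧ ∃ h ∈ H, h w = w + u) → ∀ u ∈ U, u ≠ 0 → ∃ h ∈ H, h w = w + u := by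
    rintro ⟨u0, hu0, hu00, hu0O⟩ u hu hu0'
    obtain ⟨j, hj⟩ := htr u0 hu0 u hu hu00 hu0'
    obtain ⟨h, hh, hx⟩ := hO _ hu0O (c ^ j) (H.pow_mem hc j)
    exact ⟨h, hh, by rw [hx, map_add, hj, hcj]⟩
  have hOw : ∃ h ∈ H, h w = w := ⟨1, H.one_mem, rfl⟩
  obtain ⟨u0, hu0, hu00, _⟩ := gtra_other hU2 0
  have hAB : (∃ u ∈ U, u ≠ 0 ∧ ∃ h ∈ H, h w = u) ∧ (∃ u ∈ U, u ≠ 0 ∧ ∃ h ∈ H, h w = w + u) := by
    by_cases h1 : ∃ u ∈ U, u ≠ 0 ∧ ∃ h ∈ H, h w = u
    · refine ⟨h1, ?_⟩
      by_contra h2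
      have hA' := hA h1
      obtain ⟨h, hh, hhw⟩ := hA' u0 hu0 hu00
      obtain ⟨u', hu', hu'0, hu'u⟩ := gtra_other hU2 u0
      have hxO : ∃ k ∈ H, k w = h.symm u' :=
        hOi h hh _ (by rw [LinearEquiv.apply_symm_apply]; exact hA' u' hu' hu'0)
      have hs : u0 + u' ≠ 0 := by
        intro h3
        apply hu'u
        have h4 : u' = u0 + u' + u0 := by
          rw [add_assoc, add_comm u' u0, ← add_assoc, gtra_two, zero_add]
        rw [h4, h3, zero_add]
      have hwx : ∃ k ∈ H, k w = w + h.symm u' := by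
        refine hOi h hh _ ?_
        rw [map_add, LinearEquiv.apply_symm_apply, hhw]
        exact hA' _ (U.add_mem hu0 hu') hs
      obtain ⟨u1, hu1, hx | hx⟩ := gtra_dec hU (h.symm u')
      · refine h2 ⟨u1, hu1, ?_, ?_⟩
        · rw [← hx]
          exact hne h.symm _ hu'0
        · rw [← hx]
          exact hwx
      · refine h2 ⟨u1, hu1, ?_, ?_⟩
        · intro h3
          rw [h3, add_zero] at hx
          apply hu'u
          rw [← hhw, ← hx, LinearEquiv.apply_symm_apply]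
        · rw [← hx]
          exact hxO
    · exfalso
      by_cases h2 : ∃ u ∈ U, u ≠ 0 ∧ ∃ h ∈ H, h w = w + u
      · have hB' := hB h2
        have hinv : ∀ h ∈ H, ∀ x ∈ U, h x ∈ U := by
          intro h hh x hx
          by_contra h3
          obtain ⟨u, hu, h4 | h4⟩ := gtra_dec hU (h x)
          · rw [h4] at h3
            exact h3 hu
          · have hx0 : x ≠ 0 := by
              intro h5
              rw [h5, map_zero] at h3
              exact h3 U.zero_mem
            refine h1 ⟨x, hx, hx0, hOi h hh x ?_⟩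
            rw [h4]
            by_cases hu0' : u = 0
            · rw [hu0', add_zero]
              exact hOw
            · exact hB' u hu hu0'
        rcases hirr U hinv with h3 | h3
        · rw [h3] at hu0
          exact hu00 ((Submodule.mem_bot _).1 hu0)
        · rw [h3] at hwU
          exact hwU Submodule.mem_top
      · have hfix : ∀ h ∈ H, h w = w := by
          intro h hh
          obtain ⟨u, hu, h4 | h4⟩ := gtra_dec hU (h w)
          · exact absurd ⟨u, hu, by rw [← h4]; exact hne h w hw, h, hh, h4⟩ h1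
          · by_cases hu0' : u = 0
            · rw [h4, hu0', add_zero]
            · exact absurd ⟨u, hu, hu0', h, hh, h4⟩ h2
        have hinv : ∀ h ∈ H, ∀ x ∈ Submodule.span (ZMod 2) {w}, h x ∈ Submodule.span (ZMod 2) {w} := by
          intro h hh x hx
          obtain ⟨t, ht⟩ := Submodule.mem_span_singleton.1 hx
          rw [← ht, map_smul, hfix h hh]
          exact Submodule.smul_mem _ _ (Submodule.mem_span_singleton_self w)
        rcases hirr _ hinv with h3 | h3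
        · rw [h3] at hone
          rw [finrank_bot] at hone
          omega
        · rw [h3, finrank_top] at hone
          omega
  have hall : ∀ x : V, x ≠ 0 → ∃ h ∈ H, h w = x := by
    intro x hx
    obtain ⟨u, hu, h1 | h1⟩ := gtra_dec hU x
    · rw [h1]
      exact hA hAB.1 u hu (by rw [← h1]; exact hx)
    · rw [h1]
      by_cases hu0' : u = 0
      · rw [hu0', add_zero]
        exact hOw
      · exact hB hAB.2 u hu hu0'
  obtain ⟨h1, hh1, h1a⟩ := hall a ha
  obtain ⟨h2, hh2, h2b⟩ := hall b hb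
  refine ⟨h2 * h1⁻¹, H.mul_mem hh2 (H.inv_mem hh1), ?_⟩
  show h2 (h1.symm a) = b
  rw [← h1a, LinearEquiv.symm_apply_apply, h2b]

end Pool.Agent.TWO
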