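import Pool.Agent.TWO.GTra

/-!
# TWO/GTwo: a large cyclic group makes an irreducible group two-transitive
-/

open Polynomial Module

namespace Pool.Agent.TWO

variable {V : Type} [AddCommGroup V] [Module (ZMod 2) V] [FiniteDimensional (ZMod 2) V]

private theorem gt_z2 (a : ZMod 2) : a = 0 ∨ a = 1 := by
  revert a
  decide

private theorem gt_inv (g : V ≃ₗ[ZMod 2] V) (x : V) : g⁻¹ (g x) = x := g.symm_apply_apply x

private theorem gt_inv' (g : V ≃ₗ[ZMod 2] V) (x : V) : g (g⁻¹ x) = x := g.apply_symm_apply x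

private theorem gt_pow {c : V ≃ₗ[ZMod 2] V} {w : V} (h : c w = w) (j : ℕ) : (c ^ j) w = w := by
  induction j with
  | zero => rfl
  | succ j ih =>
    have h1 : (c ^ (j + 1)) w = (c ^ j) (c w) := by
      rw [pow_succ]
      rfl
    rw [h1, h, ih]

/-- the functional -/
private theorem gt_lam {w : V} (hw : w ≠ 0) {U : Submodule (ZMod 2) V}
    (hU : IsCompl U (Submodule.span (ZMod 2) {w})) :
    ∃ lam : V →ₗ[ZMod 2] ZMod 2, (∀ x, lam x = 0 ↔ x ∈ U) ∧ lam w = 1 ∧
      ∀ x, x = 0 ∨ x = w ∨ (x ∈ U ∧ x ≠ 0 ∧ lam x = 0) ∨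
        (∃ u ∈ U, u ≠ 0 ∧ x = w + u ∧ lam x = 1) := by
  have hwU : w ∉ U := by
    intro h
    have h1 := Submodule.disjoint_def.1 hU.disjoint w h (Submodule.mem_span_singleton_self w)
    exact hw h1
  have hdec : ∀ x : V, ∃ u ∈ U, ∃ a : ZMod 2, x = u + a • w := by
    intro x
    have h1 : x ∈ U ⊔ Submodule.span (ZMod 2) {w} := by
      rw [hU.sup_eq_top]
      exact Submodule.mem_top
    obtain ⟨u, hu, y, hy, rfl⟩ := Submodule.mem_sup.1 h1
    obtain ⟨a, rfl⟩ := Submodule.mem_span_singleton.1 hy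
    exact ⟨u, hu, a, rfl⟩
  have hlt : U < ⊤ := by
    rw [lt_top_iff_ne_top]
    intro h
    exact hwU (h ▸ Submodule.mem_top)
  obtain ⟨f, hf0, hfU⟩ := Submodule.exists_le_ker_of_lt_top U hlt
  have hfu : ∀ u ∈ U, f u = 0 := fun u hu => hfU hu
  have hfw : f w = 1 := by
    rcases gt_z2 (f w) with h | h
    · exfalso
      apply hf0
      apply LinearMap.ext
      intro x
      obtain ⟨u, hu, a, rfl⟩ := hdec x
      rw [map_add, map_smul, hfu u hu, h, smul_zero, add_zero]
      rfl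
    · exact h
  refine ⟨f, ?_, hfw, ?_⟩
  · intro x
    constructor
    · intro hx
      obtain ⟨u, hu, a, rfl⟩ := hdec x
      rw [map_add, map_smul, hfu u hu, hfw, zero_add, smul_eq_mul, mul_one] at hx
      rw [hx, zero_smul, add_zero]
      exact hu
    · exact hfu x
  · intro x
    obtain ⟨u, hu, a, rfl⟩ := hdec x
    by_cases hu0 : u = 0
    · rw [hu0, zero_add]
      rcases gt_z2 a with h | h
      · left
        rw [h, zero_smul]
      · right
        left
        rw [h, one_smul]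
    · rcases gt_z2 a with h | h
      · right
        right
        left
        rw [h, zero_smul, add_zero]
        exact ⟨hu, hu0, hfu u hu⟩
      · right
        right
        right
        refine ⟨u, hu, hu0, ?_, ?_⟩
        · rw [h, one_smul, add_comm]
        · rw [h, one_smul, map_add, hfu u hu, hfw, zero_add]

/-- the two transitive case -/
private theorem gt_good {H : Subgroup (V ≃ₗ[ZMod 2] V)} {w : V} (hw : w ≠ 0)
    {U : Submodule (ZMod 2) V}
    (hU : IsCompl U (Submodule.span (ZMod 2) {w})) {c : V ≃ₗ[ZMod 2] V} (hc : c ∈ H)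
    (hcw : c w = w)
    (htr : ∀ x ∈ U, ∀ y ∈ U, x ≠ 0 → y ≠ 0 → ∃ j : ℕ, (c ^ j) x = y)
    (h1t : ∀ a b : V, a ≠ 0 → b ≠ 0 → ∃ h ∈ H, h a = b)
    {h0 : V ≃ₗ[ZMod 2] V} (hh0 : h0 ∈ H) (hh0w : h0 w = w) {u0 : V} (hu0 : u0 ∈ U)
    (hu00 : u0 ≠ 0) (hh0u : h0 u0 ∉ U) : TwoTrans H := by
  obtain ⟨lam, hlam, hlw, hcase⟩ := gt_lam hw hU
  have hwU : w ∉ U := by
    intro h
    rw [← hlam, hlw] at h
    exact one_ne_zero h
  have key : ∀ x : V, x ≠ 0 → x ≠ w → ∃ g ∈ H, g w = w ∧ g u0 = x := by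
    intro x hx0 hxw
    rcases hcase x with h | h | ⟨h1, h2, -⟩ | ⟨u, hu, hu1, rfl, -⟩
    · exact absurd h hx0
    · exact absurd h hxw
    · obtain ⟨j, hj⟩ := htr u0 hu0 x h1 hu00 h2
      exact ⟨c ^ j, H.pow_mem hc j, gt_pow hcw j, hj⟩
    · rcases hcase (h0 u0) with h | h | ⟨h1, -⟩ | ⟨u1, hu1', hu1'', h1, -⟩
      · exact absurd ((map_eq_zero_iff h0 h0.injective).1 h) hu00
      · exfalso
        have h3 : h0 u0 = h0 w := by rw [h, hh0w]
        have h4 := h0.injective h3
        rw [h4] at hu0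
        exact hwU hu0
      · exact absurd h1 hh0u
      · obtain ⟨j, hj⟩ := htr u1 hu1' u hu hu1'' hu1
        refine ⟨c ^ j * h0, H.mul_mem (H.pow_mem hc j) hh0, ?_, ?_⟩
        · show (c ^ j) (h0 w) = w
          rw [hh0w]
          exact gt_pow hcw j
        · show (c ^ j) (h0 u0) = w + u
          rw [h1, map_add, gt_pow hcw j, hj]
  intro a b a' b' ha hb hab ha' hb' hab'
  obtain ⟨p, hp, hpa⟩ := h1t a w ha hw
  obtain ⟨p', hp', hpa'⟩ := h1t a' w ha' hw
  have hx0 : p b ≠ 0 := fun h => hb ((map_eq_zero_iff p p.injective).1 h)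
  have hxw : p b ≠ w := by
    intro h
    rw [← hpa] at h
    exact hab (p.injective h).symm
  have hx0' : p' b' ≠ 0 := fun h => hb' ((map_eq_zero_iff p' p'.injective).1 h)
  have hxw' : p' b' ≠ w := by
    intro h
    rw [← hpa'] at h
    exact hab' (p'.injective h).symm
  obtain ⟨g, hg, hgw, hgu⟩ := key (p b) hx0 hxw
  obtain ⟨g', hg', hgw', hgu'⟩ := key (p' b') hx0' hxw'
  refine ⟨p'⁻¹ * (g' * (g⁻¹ * p)), H.mul_mem (H.inv_mem hp') (H.mul_mem hg'
    (H.mul_mem (H.inv_mem hg) hp)), ?_, ?_⟩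
  · show p'⁻¹ (g' (g⁻¹ (p a))) = a'
    rw [hpa]
    have h1 : g⁻¹ w = w := by
      have := gt_inv g w
      rwa [hgw] at this
    rw [h1, hgw', ← hpa', gt_inv]
  · show p'⁻¹ (g' (g⁻¹ (p b))) = b'
    rw [← hgu, gt_inv, hgu', gt_inv]

private theorem gt_two (x : V) : x + x = 0 := by
  have h : (2 : ZMod 2) • x = x + x := two_smul _ x
  rw [← h, show (2 : ZMod 2) = 0 by decide, zero_smul]

theorem trans_two {H : Subgroup (V ≃ₗ[ZMod 2] V)} (hirr : IrrSub H)
    (hn : 4 ≤ finrank (ZMod 2) V) {c : V ≃ₗ[ZMod 2] V} (hc : c ∈ H) {w : V} (hw : w ≠ 0)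
    (hcw : c w = w) {U : Submodule (ZMod 2) V}
    (hU : IsCompl U (Submodule.span (ZMod 2) {w})) (hcU : ∀ x ∈ U, c x ∈ U)
    (htr : ∀ x ∈ U, ∀ y ∈ U, x ≠ 0 → y ≠ 0 → ∃ j : ℕ, (c ^ j) x = y) : TwoTrans H := by
  have h1t : ∀ a b : V, a ≠ 0 → b ≠ 0 → ∃ h ∈ H, h a = b := fun a b ha hb =>
    trans_one hirr (by omega) hc hw hcw hU hcU htr a b ha hb
  by_cases hgood : ∃ h0 ∈ H, h0 w = w ∧ ∃ u ∈ U, u ≠ 0 ∧ h0 u ∉ U
  · obtain ⟨h0, hh0, hh0w, u0, hu0, hu00, hh0u⟩ := hgood
    exact gt_good hw hU hc hcw htr h1t hh0 hh0w hu0 hu00 hh0u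
  exfalso
  push Not at hgood
  obtain ⟨lam, hlam, hlw, hcase⟩ := gt_lam hw hU
  have hinv : ∀ h ∈ H, h w = w → ∀ v, lam (h v) = lam v := by
    intro h hh hhw v
    rcases hcase v with h1 | h1 | ⟨h1, h2, h3⟩ | ⟨u, hu, hu1, rfl, h3⟩
    · rw [h1, map_zero]
    · rw [h1, hhw]
    · rw [h3, hlam]
      exact hgood h hh hhw v h1 h2
    · rw [h3, map_add, hhw, map_add, hlw, (hlam _).2 (hgood h hh hhw u hu hu1), add_zero]
  choose! hh hhH hhw using (fun (x : V) (hx : x ≠ 0) => h1t w x hw hx)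
  obtain ⟨l, hl⟩ : ∃ l : V → V → ZMod 2, l = fun x y => lam ((hh x)⁻¹ y) := ⟨_, rfl⟩
  have hladd : ∀ x y z, l x (y + z) = l x y + l x z := by
    intro x y z
    rw [hl]
    show lam ((hh x)⁻¹ (y + z)) = lam ((hh x)⁻¹ y) + lam ((hh x)⁻¹ z)
    rw [map_add, map_add]
  have hlind : ∀ x, x ≠ 0 → ∀ g ∈ H, g w = x → ∀ y, lam (g⁻¹ y) = l x y := by
    intro x hx g hg hgw y
    rw [hl]
    show lam (g⁻¹ y) = lam ((hh x)⁻¹ y)
    have h1 : ((hh x)⁻¹ * g) w = w := by
      show (hh x)⁻¹ (g w) = w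
      rw [hgw]
      have h2 := gt_inv (hh x) w
      rwa [hhw x hx] at h2
    have h3 := hinv _ (H.mul_mem (H.inv_mem (hhH x hx)) hg) h1 (g⁻¹ y)
    rw [← h3]
    show lam ((hh x)⁻¹ (g (g⁻¹ y))) = lam ((hh x)⁻¹ y)
    rw [gt_inv']
  have heq : ∀ g ∈ H, ∀ x y, x ≠ 0 → l (g x) (g y) = l x y := by
    intro g hg x y hx
    have hgx : g x ≠ 0 := fun h => hx ((map_eq_zero_iff g g.injective).1 h)
    have h1 := hlind (g x) hgx (g * hh x) (H.mul_mem hg (hhH x hx)) (by
      show g (hh x w) = g x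
      rw [hhw x hx]) (g y)
    rw [← h1, hl]
    show lam ((g * hh x)⁻¹ (g y)) = lam ((hh x)⁻¹ y)
    rw [mul_inv_rev]
    show lam ((hh x)⁻¹ (g⁻¹ (g y))) = lam ((hh x)⁻¹ y)
    rw [gt_inv]
  have hself : ∀ x, x ≠ 0 → l x x = 1 := by
    intro x hx
    rw [hl]
    show lam ((hh x)⁻¹ x) = 1
    have h2 := gt_inv (hh x) w
    rw [hhw x hx] at h2
    rw [h2, hlw]
  have hlwy : ∀ y, l w y = lam y := by
    intro y
    have h1 := hlind w hw 1 H.one_mem rfl y
    rw [← h1, inv_one]
    rfl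
  have hone : (1 : ZMod 2) ≠ 0 := one_ne_zero
  -- normal form of pairs
  have hnf : ∀ x y, x ≠ 0 → ∃ g ∈ H, g x = w ∧ l x y = lam (g y) := by
    intro x y hx
    refine ⟨(hh x)⁻¹, H.inv_mem (hhH x hx), ?_, ?_⟩
    · have h2 := gt_inv (hh x) w
      rwa [hhw x hx] at h2
    · rw [hl]
  have hU0 : ∃ u ∈ U, u ≠ 0 := by
    by_contra hcon
    push Not at hcon
    have h1 : U = ⊥ := (Submodule.eq_bot_iff U).2 hcon
    have h2 : Submodule.span (ZMod 2) {w} = ⊤ := by
      have h3 := hU.sup_eq_top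
      rwa [h1, bot_sup_eq] at h3
    have h3 := finrank_span_singleton (K := ZMod 2) hw
    rw [h2, finrank_top] at h3
    omega
  obtain ⟨u0, hu0, hu00⟩ := hU0
  have h3a : ∀ x y, x ≠ 0 → y ≠ 0 → l x y = 0 → l y x = l u0 w := by
    intro x y hx hy hxy
    obtain ⟨g, hg, hgx, hgy⟩ := hnf x y hx
    rw [hxy] at hgy
    have h1 : g y ∈ U := (hlam _).1 hgy.symm
    have h2 : g y ≠ 0 := fun h => hy ((map_eq_zero_iff g g.injective).1 h)
    obtain ⟨j, hj⟩ := htr (g y) h1 u0 hu0 h2 hu00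
    rw [← heq g hg y x hy, hgx, ← heq (c ^ j) (H.pow_mem hc j) (g y) w h2, hj, gt_pow hcw j]
  have h3b : ∀ x y, x ≠ 0 → y ≠ 0 → x ≠ y → l x y = 1 → l y x = l (w + u0) w := by
    intro x y hx hy hne hxy
    obtain ⟨g, hg, hgx, hgy⟩ := hnf x y hx
    rw [hxy] at hgy
    have h2 : g y ≠ 0 := fun h => hy ((map_eq_zero_iff g g.injective).1 h)
    rcases hcase (g y) with h | h | ⟨-, -, h⟩ | ⟨u, hu, hu1, h, -⟩
    · exact absurd h h2
    · exfalso
      rw [← hgx] at h
      exact hne (g.injective h).symm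
    · exfalso
      rw [h] at hgy
      exact hone hgy
    · obtain ⟨j, hj⟩ := htr u hu u0 hu0 hu1 hu00
      rw [← heq g hg y x hy, hgx, ← heq (c ^ j) (H.pow_mem hc j) (g y) w h2, h, map_add,
        gt_pow hcw j, hj]
  have hwu : w ≠ u0 := by
    rintro rfl
    rw [← hlam, hlw] at hu0
    exact hone hu0
  have hlwu : l w u0 = 0 := by
    rw [hlwy]
    exact (hlam _).2 hu0
  rcases gt_z2 (l u0 w) with hε | hε
  · -- symmetric case
    have hsym : ∀ x y, x ≠ 0 → y ≠ 0 → l x y = l y x := by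
      intro x y hx hy
      rcases gt_z2 (l x y) with h | h
      · rw [h, h3a x y hx hy h, hε]
      · rcases gt_z2 (l y x) with h' | h'
        · have h4 := h3a y x hy hx h'
          rw [h, hε] at h4
          exact absurd h4 hone
        · rw [h, h']
    have hz : w + u0 ≠ 0 := by
      intro h
      have h1 : w = u0 := by
        calc w = (w + u0) + u0 := by rw [add_assoc, gt_two, add_zero]
          _ = u0 := by rw [h, zero_add]
      exact hwu h1
    have h1 := hself _ hz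
    rw [hladd, hsym _ w hz hw, hsym _ u0 hz hu00, hladd, hladd, hself w hw, hself u0 hu00,
      hsym u0 w hu00 hw, hlwu] at h1
    revert h1
    decide
  · -- tournament case
    have hε' : l (w + u0) w = 0 := by
      have h1 := h3b u0 w hu00 hw hwu.symm hε
      rw [← h1, hlwu]
    have htour : ∀ x y, x ≠ 0 → y ≠ 0 → x ≠ y → l x y = 1 + l y x := by
      intro x y hx hy hne
      rcases gt_z2 (l x y) with h | h
      · rw [h, h3a x y hx hy h, hε]
        decide
      · rw [h, h3b x y hx hy hne h, hε']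
        decide
    have hx3 : w + u0 ≠ 0 := by
      intro h
      have h1 : w = u0 := by
        calc w = (w + u0) + u0 := by rw [add_assoc, gt_two, add_zero]
          _ = u0 := by rw [h, zero_add]
      exact hwu h1
    have hmu : ∀ y, y ≠ 0 → y ≠ w → y ≠ u0 → y ≠ w + u0 → l w y + l u0 y + l (w + u0) y = 1 := by
      intro y hy hyw hyu hyz
      rw [htour w y hw hy hyw.symm, htour u0 y hu00 hy hyu.symm, htour (w + u0) y hx3 hy hyz.symm,
        hladd]
      have e : ∀ a b : ZMod 2, 1 + a + (1 + b) + (1 + (a + b)) = 1 := by decide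
      exact e _ _
    have hex : ∀ s : Finset V, s.card ≤ 3 → ∃ y, y ∉ Submodule.span (ZMod 2) (s : Set V) := by
      intro s hs
      by_contra hcon
      push Not at hcon
      have h1 : Submodule.span (ZMod 2) (s : Set V) = ⊤ := (Submodule.eq_top_iff').2 hcon
      have h2 := finrank_span_finset_le_card (R := ZMod 2) s
      rw [Set.finrank, h1, finrank_top] at h2
      omega
    classical
    obtain ⟨y, hy⟩ := hex {w, u0} ((Finset.card_le_two).trans (by norm_num))
    obtain ⟨y', hy'⟩ := hex {w, u0, y} Finset.card_le_three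
    have hsub : Submodule.span (ZMod 2) ((({w, u0} : Finset V)) : Set V) ≤
        Submodule.span (ZMod 2) ((({w, u0, y} : Finset V)) : Set V) := by
      apply Submodule.span_mono
      intro z hz
      rw [Finset.mem_coe, Finset.mem_insert, Finset.mem_singleton] at hz
      rw [Finset.mem_coe, Finset.mem_insert, Finset.mem_insert, Finset.mem_singleton]
      tauto
    have hyin : y ∈ Submodule.span (ZMod 2) ((({w, u0, y} : Finset V)) : Set V) := by
      apply Submodule.subset_span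
      rw [Finset.mem_coe, Finset.mem_insert, Finset.mem_insert, Finset.mem_singleton]
      tauto
    have hwin : w ∈ Submodule.span (ZMod 2) ((({w, u0} : Finset V)) : Set V) := by
      apply Submodule.subset_span
      rw [Finset.mem_coe, Finset.mem_insert, Finset.mem_singleton]
      tauto
    have huin : u0 ∈ Submodule.span (ZMod 2) ((({w, u0} : Finset V)) : Set V) := by
      apply Submodule.subset_span
      rw [Finset.mem_coe, Finset.mem_insert, Finset.mem_singleton]
      tauto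
    have hout : ∀ z, z ∉ Submodule.span (ZMod 2) ((({w, u0} : Finset V)) : Set V) →
        l w z + l u0 z + l (w + u0) z = 1 := by
      intro z hz
      apply hmu
      · rintro rfl
        exact hz (Submodule.zero_mem _)
      · rintro rfl
        exact hz hwin
      · rintro rfl
        exact hz huin
      · rintro rfl
        exact hz (Submodule.add_mem _ hwin huin)
    have e1 := hout y hy
    have e2 := hout y' (fun h => hy' (hsub h))
    have e3 := hout (y + y') (fun h => hy' (by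
      have h5 : y' = (y + y') + y := by
        rw [add_comm y y', add_assoc, gt_two, add_zero]
      rw [h5]
      exact Submodule.add_mem _ (hsub h) hyin))
    rw [hladd, hladd, hladd] at e3
    have e4 : l w y + l w y' + (l u0 y + l u0 y') + (l (w + u0) y + l (w + u0) y') =
        (l w y + l u0 y + l (w + u0) y) + (l w y' + l u0 y' + l (w + u0) y') := by ring
    rw [e4, e1, e2] at e3
    revert e3
    decide

end Pool.Agent.TWO
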