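import Pool.Agent.TWO.TabR

/-!
# TWO/Lim: uniform bounds of the sequences `b_1`, `b_3`

Strong induction with a window; the first `44` values come from the tables.
-/

namespace Pool.Agent.TWO

open Pool.Agent.PSD

/-- table values between bounds -/
private theorem chk_a : ∀ m ∈ Finset.range 44, (13 ≤ m → 14685 / 100000 * 10 ^ 12 ≤ gt l3 m ∧
    gt h3 m ≤ 14687 / 100000 * 10 ^ 12) ∧ (5 ≤ m → 288786 / 1000000 * 10 ^ 12 ≤ gt l1 m ∧
    gt h1 m ≤ 28879 / 100000 * 10 ^ 12) ∧ 0 ≤ gt l3 m ∧ gt h3 m ≤ 10 ^ 12 ∧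
    (1 ≤ m → gt h3 m ≤ 1 / 5 * 10 ^ 12) ∧ (6 ≤ m → gt h3 m ≤ 1484 / 10000 * 10 ^ 12) ∧
    0 ≤ gt l1 m ∧ gt h1 m ≤ 10 ^ 12 ∧ (3 ≤ m → gt h1 m ≤ 2889 / 10000 * 10 ^ 12) := by
  decide +kernel

private theorem chk_b : ∑ m ∈ Finset.range 13, gt h3 m ≤ 2410662 / 1000000 * 10 ^ 12 ∧
    2410661 / 1000000 * 10 ^ 12 ≤ ∑ m ∈ Finset.range 13, gt l3 m ∧
    ∑ m ∈ Finset.range 5, gt h1 m ≤ 1907937 / 1000000 * 10 ^ 12 ∧
    1907936 / 1000000 * 10 ^ 12 ≤ ∑ m ∈ Finset.range 5, gt l1 m := by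
  decide +kernel

private theorem chk_c : 41468 / 100000 ≤ ∑ r ∈ Finset.Icc 4 31, qe3 r ∧
    ∑ r ∈ Finset.Icc 4 31, qe3 r ≤ 414688 / 1000000 ∧
    606694 / 1000000 ≤ ∑ r ∈ Finset.Icc 2 31, qe1 r ∧
    ∑ r ∈ Finset.Icc 2 31, qe1 r ≤ 606696 / 1000000 := by
  decide +kernel

private theorem cast_e1 (r : ℕ) : ((qe1 r : ℚ) : ℝ) = e1 r := by
  unfold qe1 e1
  push_cast
  ring

private theorem cast_e3 (r : ℕ) : ((qe3 r : ℚ) : ℝ) = e3 r := by
  unfold qe3 e3
  push_cast
  split_ifs <;> norm_num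

private theorem pow_ge {k r : ℕ} (hr : k ≤ r) : (2 : ℝ) ^ k ≤ 2 ^ r :=
  pow_le_pow_right₀ (by norm_num) hr

private theorem e1_nn {r : ℕ} (hr : 1 ≤ r) : 0 ≤ e1 r := by
  unfold e1
  have := pow_ge hr
  exact div_nonneg (by norm_num) (by linarith)

private theorem e3_nn {r : ℕ} (hr : 1 ≤ r) : 0 ≤ e3 r := by
  unfold e3
  have := pow_ge hr
  refine div_nonneg ?_ (by linarith)
  split_ifs <;> norm_num

/-- both are at most `18 / 2^r` -/
private theorem e_up (r : ℕ) (hr : 4 ≤ r) : e1 r ≤ 18 / 2 ^ r ∧ e3 r ≤ 18 / 2 ^ r ∧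
    e1 r ≤ 1 ∧ e3 r ≤ 1 := by
  have h := pow_ge hr
  have hp : (0 : ℝ) < 2 ^ r := by positivity
  unfold e1 e3
  refine ⟨?_, ?_, ?_, ?_⟩
  · rw [div_le_div_iff₀ (by linarith) hp]
    linarith
  · rw [div_le_div_iff₀ (by linarith) hp]
    split_ifs <;> linarith
  · rw [div_le_one (by linarith)]
    linarith
  · rw [div_le_one (by linarith)]
    split_ifs <;> linarith

private theorem geo (a n : ℕ) : ∑ r ∈ Finset.Icc (a + 1) n, (18 : ℝ) / 2 ^ r ≤ 18 / 2 ^ a := by
  induction n with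
  | zero =>
    rw [Finset.Icc_eq_empty (by omega), Finset.sum_empty]
    positivity
  | succ n ih =>
    by_cases h : a + 1 ≤ n + 1
    · have key : ∀ N : ℕ, a ≤ N →
          ∑ r ∈ Finset.Icc (a + 1) N, (18 : ℝ) / 2 ^ r = 18 / 2 ^ a - 18 / 2 ^ N := by
        intro N hN
        induction N, hN using Nat.le_induction with
        | base =>
          rw [Finset.Icc_eq_empty (by omega), Finset.sum_empty]
          ring
        | succ N hN ih =>
          rw [Finset.sum_Icc_succ_top (by omega), ih, pow_succ]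
          field_simp
          ring
      rw [key (n + 1) (by omega)]
      have : (0 : ℝ) ≤ 18 / 2 ^ (n + 1) := by positivity
      linarith
    · rw [Finset.Icc_eq_empty (by omega), Finset.sum_empty]
      positivity

/-- the partial sums of `e` -/
private theorem esum {e : ℕ → ℝ} {a : ℕ} {lo hi : ℝ} (hnn : ∀ r, 1 ≤ r → 0 ≤ e r)
    (hup : ∀ r, 4 ≤ r → e r ≤ 18 / 2 ^ r) (ha : 1 ≤ a) (ha' : a ≤ 32)
    (h1 : lo ≤ ∑ r ∈ Finset.Icc a 31, e r) (h2 : ∑ r ∈ Finset.Icc a 31, e r ≤ hi)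
    {n : ℕ} (hn : 31 ≤ n) :
    lo ≤ ∑ r ∈ Finset.Icc a n, e r ∧ ∑ r ∈ Finset.Icc a n, e r ≤ hi + 18 / 2 ^ 31 := by
  have hs : ∑ r ∈ Finset.Icc a n, e r =
      ∑ r ∈ Finset.Icc a 31, e r + ∑ r ∈ Finset.Icc 32 n, e r := by
    rw [← Finset.sum_union]
    · congr 1
      ext r
      simp only [Finset.mem_union, Finset.mem_Icc]
      omega
    · rw [Finset.disjoint_left]
      intro r hr hr'
      rw [Finset.mem_Icc] at hr hr'
      omega
  rw [hs]
  have h3 : 0 ≤ ∑ r ∈ Finset.Icc 32 n, e r :=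
    Finset.sum_nonneg fun r hr => hnn r (by have := (Finset.mem_Icc.1 hr).1; omega)
  have h4 : ∑ r ∈ Finset.Icc 32 n, e r ≤ ∑ r ∈ Finset.Icc (31 + 1) n, (18 : ℝ) / 2 ^ r :=
    Finset.sum_le_sum fun r hr => hup r (by have := (Finset.mem_Icc.1 hr).1; omega)
  have h5 := geo 31 n
  constructor <;> linarith

/-- the window induction -/
private theorem window {k : ℕ} {e b : ℕ → ℝ} (h : IsRec k e b) (hk : k + 1 ≤ 4) {m0 : ℕ}
    (hm0 : 1 ≤ m0) (hm0' : m0 ≤ 13) {lo hi S1 S2 E1 E2 : ℝ} (hlo0 : 0 ≤ lo) (hhi0 : lo ≤ hi)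
    (hnn : ∀ r, 1 ≤ r → 0 ≤ e r) (hup : ∀ r, 4 ≤ r → e r ≤ 18 / 2 ^ r)
    (hle : ∀ r, k + 1 ≤ r → e r ≤ 1)
    (hS : S1 ≤ ∑ m ∈ Finset.range m0, b m ∧ ∑ m ∈ Finset.range m0, b m ≤ S2)
    (hb01 : ∀ m < m0, 0 ≤ b m ∧ b m ≤ 1)
    (hE : ∀ n, 31 ≤ n → E1 ≤ ∑ r ∈ Finset.Icc (k + 1) n, e r ∧
      ∑ r ∈ Finset.Icc (k + 1) n, e r ≤ E2)
    (hfin : ∀ m, m0 ≤ m → m < 44 → lo ≤ b m ∧ b m ≤ hi)
    (c1 : S2 ≤ (k + m0 : ℝ) * hi + lo * E1)
    (c2 : (k + m0 : ℝ) * lo + hi * E2 ≤ S1 - m0 * (18 / 2 ^ 31)) :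
    ∀ m, m0 ≤ m → lo ≤ b m ∧ b m ≤ hi := by
  intro n
  induction n using Nat.strong_induction_on with
  | _ n ih =>
  intro hn
  by_cases h44 : n < 44
  · exact hfin n hn h44
  push_neg at h44
  have hnr : (0 : ℝ) < (n : ℝ) := by exact_mod_cast (by omega : 0 < n)
  have hrec := h.2 n (by omega)
  -- reindex by `m = n - r`
  have hsplit : ∑ r ∈ Finset.Icc (k + 1) n, (1 - e r) * b (n - r) =
      ∑ r ∈ Finset.Icc (k + 1) (n - m0), (1 - e r) * b (n - r) +
      ∑ m ∈ Finset.range m0, (1 - e (n - m)) * b m := by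
    have h1 : Finset.Icc (k + 1) n = Finset.Icc (k + 1) (n - m0) ∪ Finset.Icc (n - m0 + 1) n := by
      ext r
      simp only [Finset.mem_union, Finset.mem_Icc]
      omega
    rw [h1, Finset.sum_union]
    · congr 1
      refine Finset.sum_bij' (fun r _ => n - r) (fun m _ => n - m) ?_ ?_ ?_ ?_ ?_
      · intro r hr
        rw [Finset.mem_Icc] at hr
        rw [Finset.mem_range]
        omega
      · intro m hm
        rw [Finset.mem_range] at hm
        rw [Finset.mem_Icc]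
        omega
      · intro r hr
        rw [Finset.mem_Icc] at hr
        omega
      · intro m hm
        rw [Finset.mem_range] at hm
        omega
      · intro r hr
        rw [Finset.mem_Icc] at hr
        have : n - (n - r) = r := by omega
        rw [this]
    · rw [Finset.disjoint_left]
      intro r hr hr'
      rw [Finset.mem_Icc] at hr hr'
      omega
  -- the main part
  have hcard : (((Finset.Icc (k + 1) (n - m0)).card : ℕ) : ℝ) = (n : ℝ) - (k + m0 : ℝ) := by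
    rw [Nat.card_Icc]
    have : n - m0 + 1 - (k + 1) = n - (k + m0) := by omega
    rw [this, Nat.cast_sub (by omega)]
    push_cast
    ring
  obtain ⟨hE1, hE2⟩ := hE (n - m0) (by omega)
  have hmain_up : ∑ r ∈ Finset.Icc (k + 1) (n - m0), (1 - e r) * b (n - r) ≤
      hi * ((n : ℝ) - (k + m0 : ℝ)) - lo * ∑ r ∈ Finset.Icc (k + 1) (n - m0), e r := by
    have h1 : ∀ r ∈ Finset.Icc (k + 1) (n - m0), (1 - e r) * b (n - r) ≤ hi - lo * e r := by
      intro r hr
      obtain ⟨hr1, hr2⟩ := Finset.mem_Icc.1 hr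
      obtain ⟨i1, i2⟩ := ih (n - r) (by omega) (by omega)
      have a1 := hnn r (by omega)
      have a2 := hle r hr1
      nlinarith
    refine (Finset.sum_le_sum h1).trans (le_of_eq ?_)
    rw [Finset.sum_sub_distrib, Finset.sum_const, nsmul_eq_mul, hcard, Finset.mul_sum]
    ring
  have hmain_lo : lo * ((n : ℝ) - (k + m0 : ℝ)) -
      hi * ∑ r ∈ Finset.Icc (k + 1) (n - m0), e r ≤
      ∑ r ∈ Finset.Icc (k + 1) (n - m0), (1 - e r) * b (n - r) := by
    have h1 : ∀ r ∈ Finset.Icc (k + 1) (n - m0), lo - hi * e r ≤ (1 - e r) * b (n - r) := by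
      intro r hr
      obtain ⟨hr1, hr2⟩ := Finset.mem_Icc.1 hr
      obtain ⟨i1, i2⟩ := ih (n - r) (by omega) (by omega)
      have a1 := hnn r (by omega)
      have a2 := hle r hr1
      nlinarith
    refine (le_of_eq ?_).trans (Finset.sum_le_sum h1)
    rw [Finset.sum_sub_distrib, Finset.sum_const, nsmul_eq_mul, hcard, Finset.mul_sum]
    ring
  have hsmall_up : ∑ m ∈ Finset.range m0, (1 - e (n - m)) * b m ≤ S2 := by
    refine le_trans (Finset.sum_le_sum fun m hm => ?_) hS.2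
    have hm' := Finset.mem_range.1 hm
    have a1 := hnn (n - m) (by omega)
    have a2 := (hb01 m hm').1
    nlinarith
  have hsmall_lo : S1 - m0 * (18 / 2 ^ 31) ≤ ∑ m ∈ Finset.range m0, (1 - e (n - m)) * b m := by
    have h1 : ∀ m ∈ Finset.range m0, b m - 18 / 2 ^ 31 ≤ (1 - e (n - m)) * b m := by
      intro m hm
      have hm' := Finset.mem_range.1 hm
      have a1 := hup (n - m) (by omega)
      have a0 := hnn (n - m) (by omega)
      obtain ⟨b0, b1⟩ := hb01 m hm'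
      have a3 : (18 : ℝ) / 2 ^ (n - m) ≤ 18 / 2 ^ 31 :=
        div_le_div_of_nonneg_left (by norm_num) (by positivity) (pow_ge (by omega))
      nlinarith
    have h2 := Finset.sum_le_sum h1
    rw [Finset.sum_sub_distrib, Finset.sum_const, nsmul_eq_mul, Finset.card_range] at h2
    linarith [hS.1]
  rw [hsplit] at hrec
  constructor
  · have : lo * (n : ℝ) ≤ n * b n := by
      rw [hrec]
      have : hi * ∑ r ∈ Finset.Icc (k + 1) (n - m0), e r ≤ hi * E2 :=
        mul_le_mul_of_nonneg_left hE2 (by linarith)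
      linarith
    nlinarith
  · have : (n : ℝ) * b n ≤ n * hi := by
      rw [hrec]
      have : lo * E1 ≤ lo * ∑ r ∈ Finset.Icc (k + 1) (n - m0), e r :=
        mul_le_mul_of_nonneg_left hE1 hlo0
      linarith
    exact le_of_mul_le_mul_left this hnr

private theorem q_le {x y : ℚ} (h : x ≤ y) : (x : ℝ) ≤ (y : ℝ) := (Rat.cast_le (K := ℝ)).2 h

theorem lim3 {b : ℕ → ℝ} (h : IsRec 3 e3 b) {m : ℕ} (hm : 13 ≤ m) :
    14685 / 100000 ≤ b m ∧ b m ≤ 14687 / 100000 := by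
  obtain ⟨s2, s1, -, -⟩ := chk_b
  obtain ⟨c1, c2, -, -⟩ := chk_c
  have t := fun (m : ℕ) (hm : m < 44) => tab3 h hm
  refine window h (by norm_num) (m0 := 13) (by norm_num) (by norm_num)
    (lo := 14685 / 100000) (hi := 14687 / 100000) (S1 := 2410661 / 1000000)
    (S2 := 2410662 / 1000000) (E1 := 41468 / 100000) (E2 := 414688 / 1000000 + 18 / 2 ^ 31)
    (by norm_num) (by norm_num) (fun r hr => e3_nn hr) (fun r hr => (e_up r hr).2.1)
    (fun r hr => (e_up r hr).2.2.2) ?_ ?_ ?_ ?_ (by norm_num) (by norm_num) m hm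
  · have a1 := q_le s1
    have a2 := q_le s2
    push_cast at a1 a2
    have h1 : ∑ m ∈ Finset.range 13, ((gt l3 m : ℚ) : ℝ) ≤
        ∑ m ∈ Finset.range 13, 10 ^ 12 * b m :=
      Finset.sum_le_sum fun m hm => (t m (by have := Finset.mem_range.1 hm; omega)).1
    have h2 : ∑ m ∈ Finset.range 13, 10 ^ 12 * b m ≤
        ∑ m ∈ Finset.range 13, ((gt h3 m : ℚ) : ℝ) :=
      Finset.sum_le_sum fun m hm => (t m (by have := Finset.mem_range.1 hm; omega)).2
    rw [← Finset.mul_sum] at h1 h2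
    constructor <;> linarith
  · intro m hm
    obtain ⟨-, -, x1, x2, -⟩ := chk_a m (Finset.mem_range.2 (by omega))
    have a1 := q_le x1
    have a2 := q_le x2
    push_cast at a1 a2
    obtain ⟨y1, y2⟩ := t m (by omega)
    constructor <;> linarith
  · intro n hn
    refine esum (fun r hr => e3_nn hr) (fun r hr => (e_up r hr).2.1) (by norm_num) (by norm_num)
      ?_ ?_ hn
    · have a := q_le c1
      push_cast at a
      simpa only [cast_e3] using a
    · have a := q_le c2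
      push_cast at a
      simpa only [cast_e3] using a
  · intro m h1 h2
    obtain ⟨x, -⟩ := chk_a m (Finset.mem_range.2 h2)
    have a1 := q_le (x h1).1
    have a2 := q_le (x h1).2
    push_cast at a1 a2
    obtain ⟨y1, y2⟩ := t m h2
    constructor <;> linarith

private theorem e1_le_one (r : ℕ) (hr : 2 ≤ r) : e1 r ≤ 1 := by
  unfold e1
  have := pow_ge hr
  rw [div_le_one (by linarith)]
  linarith

theorem lim1 {b : ℕ → ℝ} (h : IsRec 1 e1 b) {m : ℕ} (hm : 5 ≤ m) :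
    288786 / 1000000 ≤ b m ∧ b m ≤ 28879 / 100000 := by
  obtain ⟨-, -, s2, s1⟩ := chk_b
  obtain ⟨-, -, c1, c2⟩ := chk_c
  have t := fun (m : ℕ) (hm : m < 44) => tab1 h hm
  refine window h (by norm_num) (m0 := 5) (by norm_num) (by norm_num)
    (lo := 288786 / 1000000) (hi := 28879 / 100000) (S1 := 1907936 / 1000000)
    (S2 := 1907937 / 1000000) (E1 := 606694 / 1000000) (E2 := 606696 / 1000000 + 18 / 2 ^ 31)
    (by norm_num) (by norm_num) (fun r hr => e1_nn hr) (fun r hr => (e_up r hr).1)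
    (fun r hr => e1_le_one r hr) ?_ ?_ ?_ ?_ (by norm_num) (by norm_num) m hm
  · have a1 := q_le s1
    have a2 := q_le s2
    push_cast at a1 a2
    have h1 : ∑ m ∈ Finset.range 5, ((gt l1 m : ℚ) : ℝ) ≤
        ∑ m ∈ Finset.range 5, 10 ^ 12 * b m :=
      Finset.sum_le_sum fun m hm => (t m (by have := Finset.mem_range.1 hm; omega)).1
    have h2 : ∑ m ∈ Finset.range 5, 10 ^ 12 * b m ≤
        ∑ m ∈ Finset.range 5, ((gt Pool.Agent.TWO.h1 m : ℚ) : ℝ) :=
      Finset.sum_le_sum fun m hm => (t m (by have := Finset.mem_range.1 hm; omega)).2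
    rw [← Finset.mul_sum] at h1 h2
    constructor <;> linarith
  · intro m hm
    obtain ⟨-, -, -, -, -, -, x1, x2, -⟩ := chk_a m (Finset.mem_range.2 (by omega))
    have a1 := q_le x1
    have a2 := q_le x2
    push_cast at a1 a2
    obtain ⟨y1, y2⟩ := t m (by omega)
    constructor <;> linarith
  · intro n hn
    refine esum (fun r hr => e1_nn hr) (fun r hr => (e_up r hr).1) (by norm_num) (by norm_num)
      ?_ ?_ hn
    · have a := q_le c1
      push_cast at a
      simpa only [cast_e1] using a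
    · have a := q_le c2
      push_cast at a
      simpa only [cast_e1] using a
  · intro m h1 h2
    obtain ⟨-, x, -⟩ := chk_a m (Finset.mem_range.2 h2)
    have a1 := q_le (x h1).1
    have a2 := q_le (x h1).2
    push_cast at a1 a2
    obtain ⟨y1, y2⟩ := t m h2
    constructor <;> linarith

theorem up3 {b : ℕ → ℝ} (h : IsRec 3 e3 b) (m : ℕ) :
    0 ≤ b m ∧ b m ≤ 1 ∧ (1 ≤ m → b m ≤ 1 / 5) ∧ (6 ≤ m → b m ≤ 1484 / 10000) := by
  by_cases hm : m < 44
  · obtain ⟨-, -, x1, x2, x3, x4, -⟩ := chk_a m (Finset.mem_range.2 hm)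
    obtain ⟨y1, y2⟩ := tab3 h hm
    have a1 := q_le x1
    have a2 := q_le x2
    push_cast at a1 a2
    refine ⟨by linarith, by linarith, fun h1 => ?_, fun h6 => ?_⟩
    · have a3 := q_le (x3 h1)
      push_cast at a3
      linarith
    · have a4 := q_le (x4 h6)
      push_cast at a4
      linarith
  · obtain ⟨y1, y2⟩ := lim3 h (m := m) (by omega)
    refine ⟨by linarith, by linarith, fun _ => by linarith, fun _ => by linarith⟩

theorem up1 {b : ℕ → ℝ} (h : IsRec 1 e1 b) (m : ℕ) :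
    0 ≤ b m ∧ b m ≤ 1 ∧ (3 ≤ m → b m ≤ 2889 / 10000) := by
  by_cases hm : m < 44
  · obtain ⟨-, -, -, -, -, -, x1, x2, x3⟩ := chk_a m (Finset.mem_range.2 hm)
    obtain ⟨y1, y2⟩ := tab1 h hm
    have a1 := q_le x1
    have a2 := q_le x2
    push_cast at a1 a2
    refine ⟨by linarith, by linarith, fun h1 => ?_⟩
    have a3 := q_le (x3 h1)
    push_cast at a3
    linarith
  · obtain ⟨y1, y2⟩ := lim1 h (m := m) (by omega)
    refine ⟨by linarith, by linarith, fun _ => by linarith⟩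

end Pool.Agent.TWO
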