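import Pool.Agent.TWO.NA

/-!
# TWO/NC: lower bounds for `|Gd n e|`
-/

open Polynomial Module

namespace Pool.Agent.TWO

/-- the field generated by a root of `f` -/
private theorem nc_pack {e : ℕ} {f : (ZMod 2)[X]} (hf : f ∈ IrrP e) :
    ∃ (K : Type) (_ : Field K) (_ : Algebra (ZMod 2) K) (α : K), α ≠ 0 ∧ (α ^ (2 ^ e - 1) = 1) ∧
      (∀ g : (ZMod 2)[X], f ∣ g ↔ aeval α g = 0) ∧ (∀ k : ℕ, α ^ 2 ^ k = α → e ∣ k) ∧
      ∀ β : K, aeval β f = 0 → ∃ j < e, β = α ^ 2 ^ j := by
  obtain ⟨hirr, hdeg, hX⟩ := hf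
  have hfact : Fact (Irreducible f) := ⟨hirr⟩
  have hf0 : f ≠ 0 := hirr.ne_zero
  have hfin : Module.Finite (ZMod 2) (AdjoinRoot f) := (AdjoinRoot.powerBasis hf0).finite
  have hfinK : Finite (AdjoinRoot f) := Module.finite_of_finite (ZMod 2)
  have hftK : Fintype (AdjoinRoot f) := Fintype.ofFinite _
  have hrank : Module.finrank (ZMod 2) (AdjoinRoot f) = e := by
    rw [(AdjoinRoot.powerBasis hf0).finrank, AdjoinRoot.powerBasis_dim hf0, hdeg]
  have hcard : Fintype.card (AdjoinRoot f) = 2 ^ e := by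
    rw [← Nat.card_eq_fintype_card, Module.natCard_eq_pow_finrank (K := ZMod 2), hrank, Nat.card_zmod]
  have hdvd : ∀ g : (ZMod 2)[X], f ∣ g ↔ aeval (AdjoinRoot.root f) g = 0 := by
    intro g
    rw [AdjoinRoot.aeval_eq, AdjoinRoot.mk_eq_zero]
  have ha0 : (AdjoinRoot.root f) ≠ 0 := by
    intro h
    have h1 : f ∣ X := by
      rw [hdvd, aeval_X, h]
    apply hX
    have h2 := (hirr.dvd_irreducible_iff_associated Polynomial.irreducible_X).1 h1
    have h3 : f.Monic := by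
      have h4 := leadingCoeff_ne_zero.2 hf0
      have h5 : ∀ c : ZMod 2, c ≠ 0 → c = 1 := by decide
      exact h5 _ h4
    exact eq_of_monic_of_associated h3 monic_X h2
  have hfr : ∀ (k : ℕ), ((FiniteField.frobeniusAlgEquivOfAlgebraic (ZMod 2) (AdjoinRoot f)) ^ k)
      (AdjoinRoot.root f) = (AdjoinRoot.root f) ^ 2 ^ k := by
    intro k
    induction k with
    | zero => rw [pow_zero, pow_zero, pow_one]; rfl
    | succ k ih =>
      rw [pow_succ', AlgEquiv.mul_apply, ih, FiniteField.frobeniusAlgEquivOfAlgebraic_apply, ZMod.card,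
        ← pow_mul, ← pow_succ]
  refine ⟨AdjoinRoot f, inferInstance, inferInstance, AdjoinRoot.root f, ha0, ?_, hdvd, ?_, ?_⟩
  · have h := FiniteField.pow_card_sub_one_eq_one (AdjoinRoot.root f) ha0
    rw [hcard] at h
    exact h
  · intro k hk
    rw [← hrank, ← FiniteField.orderOf_frobeniusAlgEquivOfAlgebraic, orderOf_dvd_iff_pow_eq_one]
    have h1 : ((FiniteField.frobeniusAlgEquivOfAlgebraic (ZMod 2) (AdjoinRoot f)) ^ k :
        AdjoinRoot f ≃ₐ[ZMod 2] AdjoinRoot f).toAlgHom = AlgHom.id _ _ := by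
      apply AdjoinRoot.algHom_ext
      show ((FiniteField.frobeniusAlgEquivOfAlgebraic (ZMod 2) (AdjoinRoot f)) ^ k) (AdjoinRoot.root f) = _
      rw [hfr, hk]
      rfl
    ext x
    have h2 := congrArg (fun g : AdjoinRoot f →ₐ[ZMod 2] AdjoinRoot f => g x) h1
    exact h2
  · intro β hβ
    have h1 : Function.Bijective (AdjoinRoot.liftAlgHom f (Algebra.ofId (ZMod 2) (AdjoinRoot f)) β hβ) :=
      Algebra.IsAlgebraic.algHom_bijective _
    obtain ⟨j, hj⟩ := (FiniteField.bijective_frobeniusAlgEquivOfAlgebraic_pow (ZMod 2) (AdjoinRoot f)).2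
      (AlgEquiv.ofBijective _ h1)
    refine ⟨j, ?_, ?_⟩
    · exact j.2.trans_eq hrank
    · rw [← hfr]
      have h2 : (FiniteField.frobeniusAlgEquivOfAlgebraic (ZMod 2) (AdjoinRoot f)) ^ (j : ℕ) =
        AlgEquiv.ofBijective _ h1 := hj
      rw [h2]
      show β = (AdjoinRoot.liftAlgHom f (Algebra.ofId (ZMod 2) (AdjoinRoot f)) β hβ) (AdjoinRoot.root f)
      exact (AdjoinRoot.liftAlgHom_root ..).symm

private theorem nc_deg {e M : ℕ} {f : (ZMod 2)[X]} (hf : f ∈ IrrP e) (hM : 1 ≤ M)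
    (h : f ∣ X ^ M - 1) : e ≤ M := by
  have h1 : (X ^ M - 1 : (ZMod 2)[X]) = X ^ M - C 1 := by rw [C_1]
  have h2 : (X ^ M - C 1 : (ZMod 2)[X]).natDegree = M := natDegree_X_pow_sub_C
  have h3 : (X ^ M - C 1 : (ZMod 2)[X]) ≠ 0 := by
    intro h0
    rw [h0, natDegree_zero] at h2
    omega
  rw [h1] at h
  have h4 := natDegree_le_of_dvd h h3
  rw [h2, hf.2.1] at h4
  exact h4

private theorem nc_gcd {e M : ℕ} {f : (ZMod 2)[X]} (hf : f ∈ IrrP e)
    (h : f ∣ X ^ M - 1) : f ∣ X ^ (M.gcd (2 ^ e - 1)) - 1 := by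
  obtain ⟨K, _, _, α, ha0, hae, hdvd, -, -⟩ := nc_pack hf
  rw [hdvd, map_sub, map_pow, aeval_X, map_one, sub_eq_zero] at h ⊢
  exact pow_gcd_eq_one.2 ⟨h, hae⟩

private theorem nc_rev {e : ℕ} (h2 : 2 ≤ e) {f : (ZMod 2)[X]} (hf : f ∈ IrrP e)
    (hr : f.reverse = f) : ∃ m, e = 2 * m ∧ f ∣ X ^ (2 ^ m + 1) - 1 := by
  obtain ⟨K, hK, hA, α, ha0, hae, hdvd, hk, hroot⟩ := nc_pack hf
  have hα : aeval α f = 0 := (hdvd f).1 dvd_rfl
  have hinv : aeval α⁻¹ f = 0 := by
    let hi := invertibleOfNonzero ha0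
    have h1 := (Polynomial.eval₂_reverse_eq_zero_iff (algebraMap (ZMod 2) K) α f).2 hα
    rw [hr, invOf_eq_inv] at h1
    exact h1
  obtain ⟨j, hj, hβ⟩ := hroot _ hinv
  have hjj : α ^ 2 ^ (j + j) = α := by
    rw [pow_add, pow_mul, ← hβ, inv_pow, ← hβ, inv_inv]
  obtain ⟨c, hc⟩ := hk _ hjj
  have hc2 : c = 0 ∨ c = 1 := by
    rcases Nat.lt_or_ge c 2 with h | h
    · omega
    · exfalso
      have : e * 2 ≤ e * c := Nat.mul_le_mul_left _ h
      omega
  rcases hc2 with h | h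
  · exfalso
    have hj0 : j = 0 := by rw [h] at hc; omega
    rw [hj0, pow_zero, pow_one] at hβ
    have h3 : α * α = 1 := by
      nth_rewrite 1 [← hβ]
      exact inv_mul_cancel₀ ha0
    have h4 : f ∣ X ^ 2 - 1 := by
      rw [hdvd, map_sub, map_pow, aeval_X, map_one, pow_two, h3, sub_self]
    have h5 := nc_gcd hf h4
    have h6 : Nat.gcd 2 (2 ^ e - 1) = 1 := by
      have h7 : Odd (2 ^ e - 1) := by
        obtain ⟨k, rfl⟩ : ∃ k, e = k + 1 := ⟨e - 1, by omega⟩
        refine ⟨2 ^ k - 1, ?_⟩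
        have := Nat.one_le_two_pow (n := k)
        rw [pow_succ]
        omega
      exact Nat.Coprime.symm (Nat.coprime_two_right.2 h7)
    rw [h6] at h5
    have h7 := nc_deg hf le_rfl h5
    omega
  · refine ⟨j, by rw [h] at hc; omega, ?_⟩
    rw [hdvd, map_sub, map_pow, aeval_X, map_one, pow_succ, ← hβ, inv_mul_cancel₀ ha0, sub_self]

theorem rev_odd {e : ℕ} (he : Odd e) (h3 : 3 ≤ e) {f : (ZMod 2)[X]} (hf : f ∈ IrrP e) :
    f.reverse ≠ f := by
  intro hr
  obtain ⟨m, hm, -⟩ := nc_rev (by omega) hf hr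
  obtain ⟨k, hk⟩ := he
  omega

theorem rev_even {m : ℕ} (hm : 1 ≤ m) {f : (ZMod 2)[X]} (hf : f ∈ IrrP (2 * m))
    (hr : f.reverse = f) : f ∣ X ^ (2 ^ m + 1) - 1 := by
  obtain ⟨m', hm', h⟩ := nc_rev (by omega) hf hr
  have : m = m' := by omega
  rw [this]
  exact h

private theorem nc_dpos {d e : ℕ} (he : 1 ≤ e) (h : d ∣ e) : 1 ≤ d := Nat.pos_of_dvd_of_pos h he

theorem gd_prime {n e : ℕ} (he : e.Prime) (h3 : 3 ≤ e) (hen : n < 2 * e) :
    Gd n e = IrrP e := by
  ext f
  constructor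
  · intro hf
    exact hf.1
  · intro hf
    refine ⟨hf, rev_odd (he.odd_of_ne_two (by omega)) h3 hf, ?_⟩
    intro s hs hsn d hd hde h
    have hd1 : d = 1 := by
      rcases (Nat.dvd_prime he).1 hd with h4 | h4
      · exact h4
      · omega
    rw [hd1] at h
    have h5 : s * (2 ^ 1 - 1) = s := by norm_num
    rw [h5] at h
    have h6 := nc_deg hf hs h
    omega

theorem gd_nine {n : ℕ} (h17 : n ≤ 17) : Gd n 9 = IrrP 9 := by
  ext f
  constructor
  · intro hf
    exact hf.1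
  · intro hf
    refine ⟨hf, rev_odd (by decide) (by norm_num) hf, ?_⟩
    intro s hs hsn d hd hde h
    have hd1 : d = 1 ∨ d = 3 := by
      have h4 : d ∈ Nat.divisors 9 := by
        rw [Nat.mem_divisors]
        exact ⟨hd, by norm_num⟩
      have h5 : Nat.divisors 9 = {1, 3, 9} := by decide
      rw [h5] at h4
      simp only [Finset.mem_insert, Finset.mem_singleton] at h4
      omega
    have h6 := nc_gcd hf h
    have hs5 : s ≤ 5 := by omega
    rcases hd1 with rfl | rfl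
    · interval_cases s
      · exact absurd (nc_deg hf (by decide) h6) (by decide)
      · exact absurd (nc_deg hf (by decide) h6) (by decide)
      · exact absurd (nc_deg hf (by decide) h6) (by decide)
      · exact absurd (nc_deg hf (by decide) h6) (by decide)
      · exact absurd (nc_deg hf (by decide) h6) (by decide)
    · interval_cases s
      · exact absurd (nc_deg hf (by decide) h6) (by decide)
      · exact absurd (nc_deg hf (by decide) h6) (by decide)
      · exact absurd (nc_deg hf (by decide) h6) (by decide)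
      · exact absurd (nc_deg hf (by decide) h6) (by decide)
      · exact absurd (nc_deg hf (by decide) h6) (by decide)

theorem gd_odd {n e : ℕ} (he : Odd e) (h3 : 3 ≤ e) :
    e * (IrrP e).ncard ≤ e * (Gd n e).ncard +
      (∑ s ∈ Finset.Icc 1 (n / 3), s) * ∑ d ∈ e.properDivisors, (2 ^ d - 1) := by
  classical
  have hfin := irr_finite e
  have hGfin : (Gd n e).Finite := hfin.subset fun f hf => hf.1
  let U : ℕ × ℕ → Set (ZMod 2)[X] := fun q => {f | f ∈ IrrP e ∧ f ∣ X ^ (q.1 * (2 ^ q.2 - 1)) - 1}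
  have hsub : IrrP e ⊆ Gd n e ∪ ⋃ q ∈ (Finset.Icc 1 (n / 3)) ×ˢ e.properDivisors, U q := by
    intro f hf
    by_cases hG : f ∈ Gd n e
    · exact Or.inl hG
    · right
      have h4 : ¬ ∀ s : ℕ, 1 ≤ s → 3 * s ≤ n → ∀ d : ℕ, d ∣ e → d < e → ¬ f ∣ X ^ (s * (2 ^ d - 1)) - 1 :=
        fun h => hG ⟨hf, rev_odd he h3 hf, h⟩
      push Not at h4
      obtain ⟨s, hs, hsn, d, hd, hde, h⟩ := h4
      refine Set.mem_biUnion (x := (s, d)) ?_ ⟨hf, h⟩
      rw [Finset.mem_coe, Finset.mem_product, Finset.mem_Icc, Nat.mem_properDivisors]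
      exact ⟨⟨hs, by omega⟩, hd, hde⟩
  have hUfin : ∀ q, (U q).Finite := fun q => hfin.subset fun f hf => hf.1
  have h1 : (IrrP e).ncard ≤ (Gd n e).ncard + ∑ q ∈ (Finset.Icc 1 (n / 3)) ×ˢ e.properDivisors, (U q).ncard := by
    have hUf : (⋃ q ∈ (Finset.Icc 1 (n / 3)) ×ˢ e.properDivisors, U q).Finite :=
      Set.Finite.biUnion (Finset.finite_toSet _) fun q _ => hUfin q
    refine (Set.ncard_le_ncard hsub (hGfin.union hUf)).trans ?_
    refine (Set.ncard_union_le _ _).trans ?_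
    refine Nat.add_le_add_left ?_ _
    exact Finset.set_ncard_biUnion_le _ _
  have h2 : ∀ q ∈ (Finset.Icc 1 (n / 3)) ×ˢ e.properDivisors, e * (U q).ncard ≤ q.1 * (2 ^ q.2 - 1) := by
    intro q hq
    rw [Finset.mem_product, Finset.mem_Icc, Nat.mem_properDivisors] at hq
    refine dvd_card ?_
    have h5 := nc_dpos (by omega) hq.2.1
    have h6 : 2 ≤ 2 ^ q.2 := by
      calc 2 = 2 ^ 1 := rfl
        _ ≤ 2 ^ q.2 := Nat.pow_le_pow_right (by norm_num) h5
    exact Nat.mul_pos hq.1.1 (by omega)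
  calc e * (IrrP e).ncard ≤ e * ((Gd n e).ncard + ∑ q ∈ (Finset.Icc 1 (n / 3)) ×ˢ e.properDivisors, (U q).ncard) :=
        Nat.mul_le_mul_left _ h1
    _ = e * (Gd n e).ncard + ∑ q ∈ (Finset.Icc 1 (n / 3)) ×ˢ e.properDivisors, e * (U q).ncard := by
        rw [mul_add, Finset.mul_sum]
    _ ≤ e * (Gd n e).ncard + ∑ q ∈ (Finset.Icc 1 (n / 3)) ×ˢ e.properDivisors, q.1 * (2 ^ q.2 - 1) :=
        Nat.add_le_add_left (Finset.sum_le_sum h2) _
    _ = _ := by
        rw [Finset.sum_mul_sum, Finset.sum_product]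

theorem gd_four : 2 ≤ (Gd 6 4).ncard := by
  have hfin := irr_finite 4
  have hGfin : (Gd 6 4).Finite := hfin.subset fun f hf => hf.1
  have hsub : IrrP 4 ⊆ Gd 6 4 ∪ {f | f ∈ IrrP 4 ∧ f ∣ X ^ 5 - 1} := by
    intro f hf
    by_cases hG : f ∈ Gd 6 4
    · exact Or.inl hG
    · right
      refine ⟨hf, ?_⟩
      by_cases hr : f.reverse = f
      · exact rev_even (m := 2) (by norm_num) hf hr
      · exfalso
        apply hG
        refine ⟨hf, hr, ?_⟩
        intro s hs hsn d hd hde h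
        have h6 := nc_gcd hf h
        have hs2 : s ≤ 2 := by omega
        have hd1 := nc_dpos (by norm_num) hd
        interval_cases d
        · interval_cases s
          · exact absurd (nc_deg hf (by decide) h6) (by decide)
          · exact absurd (nc_deg hf (by decide) h6) (by decide)
        · interval_cases s
          · exact absurd (nc_deg hf (by decide) h6) (by decide)
          · exact absurd (nc_deg hf (by decide) h6) (by decide)
        · exact absurd hd (by decide)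
  have h1 := Set.ncard_le_ncard hsub (hGfin.union (hfin.subset fun f hf => hf.1))
  have h2 := Set.ncard_union_le (Gd 6 4) {f | f ∈ IrrP 4 ∧ f ∣ X ^ 5 - 1}
  have h3 := dvd_card (e := 4) (M := 5) (by norm_num)
  have h4 := irr_vals.2.2.2.1
  omega

theorem gd_six : 5 ≤ (Gd 10 6).ncard := by
  have hfin := irr_finite 6
  have hGfin : (Gd 10 6).Finite := hfin.subset fun f hf => hf.1
  have hsub : IrrP 6 ⊆ Gd 10 6 ∪ ({f | f ∈ IrrP 6 ∧ f ∣ X ^ 9 - 1} ∪ {f | f ∈ IrrP 6 ∧ f ∣ X ^ 21 - 1}) := by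
    intro f hf
    by_cases hG : f ∈ Gd 10 6
    · exact Or.inl hG
    · right
      by_cases h9 : f ∣ X ^ 9 - 1
      · exact Or.inl ⟨hf, h9⟩
      right
      refine ⟨hf, ?_⟩
      by_contra h21
      apply hG
      refine ⟨hf, fun hr => h9 (rev_even (m := 3) (by norm_num) hf hr), ?_⟩
      intro s hs hsn d hd hde h
      have h6 := nc_gcd hf h
      have hs2 : s ≤ 3 := by omega
      have hd1 := nc_dpos (by norm_num) hd
      have h7 : f ∣ X ^ 7 - 1 → False := fun h7 => h21 (h7.trans (by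
        have h8 : (X ^ 21 - 1 : (ZMod 2)[X]) = (X ^ 7) ^ 3 - 1 ^ 3 := by ring
        rw [h8]
        exact sub_dvd_pow_sub_pow _ _ 3))
      interval_cases d
      · interval_cases s
        · exact absurd (nc_deg hf (by decide) h6) (by decide)
        · exact absurd (nc_deg hf (by decide) h6) (by decide)
        · exact absurd (nc_deg hf (by decide) h6) (by decide)
      · interval_cases s
        · exact absurd (nc_deg hf (by decide) h6) (by decide)
        · exact absurd (nc_deg hf (by decide) h6) (by decide)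
        · exact h9 h6
      · interval_cases s
        · exact h7 h6
        · exact h7 h6
        · exact h21 h6
      · exact absurd hd (by decide)
      · exact absurd hd (by decide)
  have h1 := Set.ncard_le_ncard hsub (hGfin.union ((hfin.subset fun f hf => hf.1).union (hfin.subset fun f hf => hf.1)))
  have h2 := Set.ncard_union_le (Gd 10 6) ({f | f ∈ IrrP 6 ∧ f ∣ X ^ 9 - 1} ∪ {f | f ∈ IrrP 6 ∧ f ∣ X ^ 21 - 1})
  have h2' := Set.ncard_union_le {f | f ∈ IrrP 6 ∧ f ∣ X ^ 9 - 1} {f | f ∈ IrrP 6 ∧ f ∣ X ^ 21 - 1}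
  have h3 := dvd_card (e := 6) (M := 9) (by norm_num)
  have h3' := dvd_card (e := 6) (M := 21) (by norm_num)
  have h4 := irr_vals.2.2.2.2.2.1
  omega

end Pool.Agent.TWO
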