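import Pool.Agent.TWO.NC

/-!
# TWO/ND (1.5 h): the sum over large factors for `3 ≤ n ≤ 39`

`bigSum n = ∑_{e ≤ n, n < 2e} |Gd n e| / (2^e - 1)`.  Some of the terms suffice; the numbers `|Gd n e|` are known
for small `e` and nearly `2^e / e` for odd `e ≥ 15`.
-/

open Polynomial Module

namespace Pool.Agent.TWO

/-- the sum of `|Gd n e| / (2^e - 1)` over `e ≤ n`, `n < 2 e` -/
noncomputable def bigSum (n : ℕ) : ℝ :=
  ∑ e ∈ (Finset.range (n + 1)).filter (fun e => n < 2 * e), ((Gd n e).ncard : ℝ) / (2 ^ e - 1)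

private theorem nd_nonneg (n e : ℕ) : 0 ≤ ((Gd n e).ncard : ℝ) / (2 ^ e - 1) := by
  have h1 : (1 : ℝ) ≤ 2 ^ e := one_le_pow₀ (by norm_num)
  exact div_nonneg (Nat.cast_nonneg _) (by linarith)

private theorem nd_sub {n : ℕ} (A : Finset ℕ) (hA : ∀ e ∈ A, e ≤ n ∧ n < 2 * e) :
    ∑ e ∈ A, ((Gd n e).ncard : ℝ) / (2 ^ e - 1) ≤ bigSum n := by
  unfold bigSum
  refine Finset.sum_le_sum_of_subset_of_nonneg (fun e he => ?_) (fun e _ _ => nd_nonneg n e)
  rw [Finset.mem_filter, Finset.mem_range]
  have h1 := hA e he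
  exact ⟨by omega, h1.2⟩

private theorem nd_lo {n e P : ℕ} (he : Odd e) (h3 : 3 ≤ e) (hn : n ≤ 39)
    (hP : ∑ d ∈ e.properDivisors, (2 ^ d - 1) ≤ P) (l : ℝ)
    (hl : l * (e * (2 ^ e - 1)) ≤ 2 ^ e - 2 ^ (e / 3 + 1) - 91 * P) :
    l ≤ ((Gd n e).ncard : ℝ) / (2 ^ e - 1) := by
  have h1 := gd_odd (n := n) he h3
  have h2 := irr_ge he
  have h4 : ∑ s ∈ Finset.Icc 1 (n / 3), s ≤ 91 := by
    have h5 : ∑ s ∈ Finset.Icc 1 (n / 3), s ≤ ∑ s ∈ Finset.Icc 1 13, s :=
      Finset.sum_le_sum_of_subset (Finset.Icc_subset_Icc le_rfl (by omega))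
    have h6 : ∑ s ∈ Finset.Icc 1 13, s = 91 := by decide
    omega
  have h5 : (∑ s ∈ Finset.Icc 1 (n / 3), s) * ∑ d ∈ e.properDivisors, (2 ^ d - 1) ≤ 91 * P :=
    Nat.mul_le_mul h4 hP
  have h6 : 2 ^ e ≤ e * (Gd n e).ncard + 91 * P + 2 ^ (e / 3 + 1) := by omega
  have h7 : (2 : ℝ) ^ e ≤ e * (Gd n e).ncard + 91 * P + 2 ^ (e / 3 + 1) := by exact_mod_cast h6
  have h8 : (1 : ℝ) < 2 ^ e := one_lt_pow₀ (by norm_num) (by omega)
  have h9 : (0 : ℝ) < e := by
    have : 0 < e := by omega
    exact_mod_cast this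
  rw [le_div_iff₀ (by linarith)]
  have h10 : (e : ℝ) * (l * (2 ^ e - 1)) ≤ e * (Gd n e).ncard := by
    calc (e : ℝ) * (l * (2 ^ e - 1)) = l * (e * (2 ^ e - 1)) := by ring
      _ ≤ e * (Gd n e).ncard := by linarith
  exact le_of_mul_le_mul_left h10 h9

private theorem nd_15 {n : ℕ} (hn : n ≤ 39) : 593 / 10000 ≤ ((Gd n 15).ncard : ℝ) / (2 ^ 15 - 1) :=
  nd_lo (P := 39) (by decide) (by norm_num) hn (by decide) _ (by norm_num)

private theorem nd_17 {n : ℕ} (hn : n ≤ 39) : 587 / 10000 ≤ ((Gd n 17).ncard : ℝ) / (2 ^ 17 - 1) :=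
  nd_lo (P := 1) (by decide) (by norm_num) hn (by decide) _ (by norm_num)

private theorem nd_19 {n : ℕ} (hn : n ≤ 39) : 526 / 10000 ≤ ((Gd n 19).ncard : ℝ) / (2 ^ 19 - 1) :=
  nd_lo (P := 1) (by decide) (by norm_num) hn (by decide) _ (by norm_num)

private theorem nd_21 {n : ℕ} (hn : n ≤ 39) : 473 / 10000 ≤ ((Gd n 21).ncard : ℝ) / (2 ^ 21 - 1) :=
  nd_lo (P := 135) (by decide) (by norm_num) hn (by decide) _ (by norm_num)

private theorem nd_23 {n : ℕ} (hn : n ≤ 39) : 434 / 10000 ≤ ((Gd n 23).ncard : ℝ) / (2 ^ 23 - 1) :=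
  nd_lo (P := 1) (by decide) (by norm_num) hn (by decide) _ (by norm_num)

private theorem nd_25 {n : ℕ} (hn : n ≤ 39) : 399 / 10000 ≤ ((Gd n 25).ncard : ℝ) / (2 ^ 25 - 1) :=
  nd_lo (P := 32) (by decide) (by norm_num) hn (by decide) _ (by norm_num)

private theorem nd_27 {n : ℕ} (hn : n ≤ 39) : 370 / 10000 ≤ ((Gd n 27).ncard : ℝ) / (2 ^ 27 - 1) :=
  nd_lo (P := 519) (by decide) (by norm_num) hn (by decide) _ (by norm_num)

private theorem nd_29 {n : ℕ} (hn : n ≤ 39) : 344 / 10000 ≤ ((Gd n 29).ncard : ℝ) / (2 ^ 29 - 1) :=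
  nd_lo (P := 1) (by decide) (by norm_num) hn (by decide) _ (by norm_num)

private theorem nd_31 {n : ℕ} (hn : n ≤ 39) : 322 / 10000 ≤ ((Gd n 31).ncard : ℝ) / (2 ^ 31 - 1) :=
  nd_lo (P := 1) (by decide) (by norm_num) hn (by decide) _ (by norm_num)

private theorem nd_33 {n : ℕ} (hn : n ≤ 39) : 303 / 10000 ≤ ((Gd n 33).ncard : ℝ) / (2 ^ 33 - 1) :=
  nd_lo (P := 2055) (by decide) (by norm_num) hn (by decide) _ (by norm_num)

private theorem nd_35 {n : ℕ} (hn : n ≤ 39) : 285 / 10000 ≤ ((Gd n 35).ncard : ℝ) / (2 ^ 35 - 1) :=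
  nd_lo (P := 159) (by decide) (by norm_num) hn (by decide) _ (by norm_num)

private theorem nd_37 {n : ℕ} (hn : n ≤ 39) : 270 / 10000 ≤ ((Gd n 37).ncard : ℝ) / (2 ^ 37 - 1) :=
  nd_lo (P := 1) (by decide) (by norm_num) hn (by decide) _ (by norm_num)

private theorem nd_p {n e v : ℕ} (he : e.Prime) (h3 : 3 ≤ e) (hen : n < 2 * e) (hv : (IrrP e).ncard = v) :
    (v : ℝ) / (2 ^ e - 1) ≤ ((Gd n e).ncard : ℝ) / (2 ^ e - 1) := by
  rw [gd_prime he h3 hen, hv]

theorem bigSum_small {n : ℕ} (h3 : 3 ≤ n) (h39 : n ≤ 39) : 89 / 325 < bigSum n := by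
  obtain ⟨-, -, i3, -, i5, -, i7, -, i9, -, i11, -, i13⟩ := irr_vals
  have hc : (3 ≤ n ∧ n ≤ 5) ∨
      (6 ≤ n ∧ n ≤ 6) ∨
      (7 ≤ n ∧ n ≤ 9) ∨
      (10 ≤ n ∧ n ≤ 10) ∨
      (11 ≤ n ∧ n ≤ 13) ∨
      (14 ≤ n ∧ n ≤ 17) ∨
      (18 ≤ n ∧ n ≤ 21) ∨
      (22 ≤ n ∧ n ≤ 25) ∨
      (26 ≤ n ∧ n ≤ 29) ∨
      (30 ≤ n ∧ n ≤ 33) ∨
      (34 ≤ n ∧ n ≤ 37) ∨
      (38 ≤ n ∧ n ≤ 39) := by omega
  rcases hc with h | h | h | h | h | h | h | h | h | h | h | h
  · have h1 := nd_sub (n := n) {3} (by
      intro e he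
      simp only [Finset.mem_insert, Finset.mem_singleton] at he
      omega)
    have t3 := nd_p (n := n) (e := 3) (by norm_num) (by norm_num) (by omega) i3
    rw [Finset.sum_singleton] at h1
    norm_num at h1 t3 ⊢
    linarith
  · have hn : n = 6 := by omega
    subst hn
    have h1 := nd_sub (n := 6) {4, 5} (by
      intro e he
      simp only [Finset.mem_insert, Finset.mem_singleton] at he
      omega)
    have t4 : (2 : ℝ) / (2 ^ 4 - 1) ≤ ((Gd 6 4).ncard : ℝ) / (2 ^ 4 - 1) :=
      div_le_div_of_nonneg_right (by exact_mod_cast gd_four) (by norm_num)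
    have t5 := nd_p (n := 6) (e := 5) (by norm_num) (by norm_num) (by omega) i5
    rw [Finset.sum_insert (by decide),
      Finset.sum_singleton] at h1
    norm_num at h1 t4 t5 ⊢
    linarith
  · have h1 := nd_sub (n := n) {5, 7} (by
      intro e he
      simp only [Finset.mem_insert, Finset.mem_singleton] at he
      omega)
    have t5 := nd_p (n := n) (e := 5) (by norm_num) (by norm_num) (by omega) i5
    have t7 := nd_p (n := n) (e := 7) (by norm_num) (by norm_num) (by omega) i7
    rw [Finset.sum_insert (by decide),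
      Finset.sum_singleton] at h1
    norm_num at h1 t5 t7 ⊢
    linarith
  · have hn : n = 10 := by omega
    subst hn
    have h1 := nd_sub (n := 10) {6, 7, 9} (by
      intro e he
      simp only [Finset.mem_insert, Finset.mem_singleton] at he
      omega)
    have t6 : (5 : ℝ) / (2 ^ 6 - 1) ≤ ((Gd 10 6).ncard : ℝ) / (2 ^ 6 - 1) :=
      div_le_div_of_nonneg_right (by exact_mod_cast gd_six) (by norm_num)
    have t7 := nd_p (n := 10) (e := 7) (by norm_num) (by norm_num) (by omega) i7
    have t9 : (56 : ℝ) / (2 ^ 9 - 1) ≤ ((Gd 10 9).ncard : ℝ) / (2 ^ 9 - 1) := by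
      rw [gd_nine (by omega), i9]
      norm_num
    rw [Finset.sum_insert (by decide), Finset.sum_insert (by decide),
      Finset.sum_singleton] at h1
    norm_num at h1 t6 t7 t9 ⊢
    linarith
  · have h1 := nd_sub (n := n) {7, 9, 11} (by
      intro e he
      simp only [Finset.mem_insert, Finset.mem_singleton] at he
      omega)
    have t7 := nd_p (n := n) (e := 7) (by norm_num) (by norm_num) (by omega) i7
    have t9 : (56 : ℝ) / (2 ^ 9 - 1) ≤ ((Gd n 9).ncard : ℝ) / (2 ^ 9 - 1) := by
      rw [gd_nine (by omega), i9]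
      norm_num
    have t11 := nd_p (n := n) (e := 11) (by norm_num) (by norm_num) (by omega) i11
    rw [Finset.sum_insert (by decide), Finset.sum_insert (by decide),
      Finset.sum_singleton] at h1
    norm_num at h1 t7 t9 t11 ⊢
    linarith
  · have h1 := nd_sub (n := n) {9, 11, 13} (by
      intro e he
      simp only [Finset.mem_insert, Finset.mem_singleton] at he
      omega)
    have t9 : (56 : ℝ) / (2 ^ 9 - 1) ≤ ((Gd n 9).ncard : ℝ) / (2 ^ 9 - 1) := by
      rw [gd_nine (by omega), i9]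
      norm_num
    have t11 := nd_p (n := n) (e := 11) (by norm_num) (by norm_num) (by omega) i11
    have t13 := nd_p (n := n) (e := 13) (by norm_num) (by norm_num) (by omega) i13
    rw [Finset.sum_insert (by decide), Finset.sum_insert (by decide),
      Finset.sum_singleton] at h1
    norm_num at h1 t9 t11 t13 ⊢
    linarith
  · have h1 := nd_sub (n := n) {11, 13, 15, 17} (by
      intro e he
      simp only [Finset.mem_insert, Finset.mem_singleton] at he
      omega)
    have t11 := nd_p (n := n) (e := 11) (by norm_num) (by norm_num) (by omega) i11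
    have t13 := nd_p (n := n) (e := 13) (by norm_num) (by norm_num) (by omega) i13
    have t15 := nd_15 h39
    have t17 := nd_17 h39
    rw [Finset.sum_insert (by decide), Finset.sum_insert (by decide), Finset.sum_insert (by decide),
      Finset.sum_singleton] at h1
    norm_num at h1 t11 t13 t15 t17 ⊢
    linarith
  · have h1 := nd_sub (n := n) {13, 15, 17, 19, 21} (by
      intro e he
      simp only [Finset.mem_insert, Finset.mem_singleton] at he
      omega)
    have t13 := nd_p (n := n) (e := 13) (by norm_num) (by norm_num) (by omega) i13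
    have t15 := nd_15 h39
    have t17 := nd_17 h39
    have t19 := nd_19 h39
    have t21 := nd_21 h39
    rw [Finset.sum_insert (by decide), Finset.sum_insert (by decide), Finset.sum_insert (by decide), Finset.sum_insert (by decide),
      Finset.sum_singleton] at h1
    norm_num at h1 t13 t15 t17 t19 t21 ⊢
    linarith
  · have h1 := nd_sub (n := n) {15, 17, 19, 21, 23, 25} (by
      intro e he
      simp only [Finset.mem_insert, Finset.mem_singleton] at he
      omega)
    have t15 := nd_15 h39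
    have t17 := nd_17 h39
    have t19 := nd_19 h39
    have t21 := nd_21 h39
    have t23 := nd_23 h39
    have t25 := nd_25 h39
    rw [Finset.sum_insert (by decide), Finset.sum_insert (by decide), Finset.sum_insert (by decide), Finset.sum_insert (by decide), Finset.sum_insert (by decide),
      Finset.sum_singleton] at h1
    norm_num at h1 t15 t17 t19 t21 t23 t25 ⊢
    linarith
  · have h1 := nd_sub (n := n) {17, 19, 21, 23, 25, 27, 29} (by
      intro e he
      simp only [Finset.mem_insert, Finset.mem_singleton] at he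
      omega)
    have t17 := nd_17 h39
    have t19 := nd_19 h39
    have t21 := nd_21 h39
    have t23 := nd_23 h39
    have t25 := nd_25 h39
    have t27 := nd_27 h39
    have t29 := nd_29 h39
    rw [Finset.sum_insert (by decide), Finset.sum_insert (by decide), Finset.sum_insert (by decide), Finset.sum_insert (by decide), Finset.sum_insert (by decide), Finset.sum_insert (by decide),
      Finset.sum_singleton] at h1
    norm_num at h1 t17 t19 t21 t23 t25 t27 t29 ⊢
    linarith
  · have h1 := nd_sub (n := n) {19, 21, 23, 25, 27, 29, 31, 33} (by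
      intro e he
      simp only [Finset.mem_insert, Finset.mem_singleton] at he
      omega)
    have t19 := nd_19 h39
    have t21 := nd_21 h39
    have t23 := nd_23 h39
    have t25 := nd_25 h39
    have t27 := nd_27 h39
    have t29 := nd_29 h39
    have t31 := nd_31 h39
    have t33 := nd_33 h39
    rw [Finset.sum_insert (by decide), Finset.sum_insert (by decide), Finset.sum_insert (by decide), Finset.sum_insert (by decide), Finset.sum_insert (by decide), Finset.sum_insert (by decide), Finset.sum_insert (by decide),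
      Finset.sum_singleton] at h1
    norm_num at h1 t19 t21 t23 t25 t27 t29 t31 t33 ⊢
    linarith
  · have h1 := nd_sub (n := n) {21, 23, 25, 27, 29, 31, 33, 35, 37} (by
      intro e he
      simp only [Finset.mem_insert, Finset.mem_singleton] at he
      omega)
    have t21 := nd_21 h39
    have t23 := nd_23 h39
    have t25 := nd_25 h39
    have t27 := nd_27 h39
    have t29 := nd_29 h39
    have t31 := nd_31 h39
    have t33 := nd_33 h39
    have t35 := nd_35 h39
    have t37 := nd_37 h39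
    rw [Finset.sum_insert (by decide), Finset.sum_insert (by decide), Finset.sum_insert (by decide), Finset.sum_insert (by decide), Finset.sum_insert (by decide), Finset.sum_insert (by decide), Finset.sum_insert (by decide), Finset.sum_insert (by decide),
      Finset.sum_singleton] at h1
    norm_num at h1 t21 t23 t25 t27 t29 t31 t33 t35 t37 ⊢
    linarith

end Pool.Agent.TWO
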