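import Pool.Agent.TWO.CDefs

/-!
# TWO/OrdE: exponents of the primary parts and the order

If `ExpLt (2^k + 1) g` then `g^(2^k * o) = 1` for some odd `o`: write the order of `g` as `2^a * o`
with `o` odd, so that `(X^o - 1)^(2^a)` annihilates `g`; the exponent `2^a` can be replaced by `2^k`
one irreducible factor after the other.
-/

open Polynomial

namespace Pool.Agent.TWO

private theorem ae_mul {V : Type} [AddCommGroup V] [Module F V] (f : Module.End F V) (p q : F[X])
    (x : V) : aeval f (p * q) x = aeval f p (aeval f q x) := by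
  rw [map_mul]
  rfl

theorem ExpLt.mono {V : Type} [AddCommGroup V] [Module F V] {b b' : ℕ} (hb : 1 ≤ b) (h : b ≤ b')
    {f : Module.End F V} (hf : ExpLt b f) : ExpLt b' f := by
  intro φ hφ x hx
  obtain ⟨c, rfl⟩ := Nat.exists_eq_add_of_le h
  have h1 : aeval f (φ ^ b) (aeval f (φ ^ c) x) = 0 := by
    rw [← ae_mul, ← pow_add]
    exact hx
  have h2 := hf φ hφ _ h1
  rw [← ae_mul, ← pow_add] at h2
  have h3 : b - 1 + c = b + c - 1 := by omega
  rw [h3] at h2
  exact h2

private theorem ex_red {V : Type} [AddCommGroup V] [Module F V] {b : ℕ} {f : Module.End F V}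
    (hf : ExpLt (b + 1) f) {φ : F[X]} (hφ : Irreducible φ) (e : ℕ) (x : V)
    (h : aeval f (φ ^ e) x = 0) : aeval f (φ ^ b) x = 0 := by
  induction e with
  | zero =>
    rw [pow_zero, map_one] at h
    have h1 : x = 0 := h
    rw [h1, map_zero]
  | succ e ih =>
    by_cases hbe : b ≤ e
    · refine ih ?_
      have h1 := ExpLt.mono (b' := e + 1) (by omega) (by omega) hf φ hφ x h
      simpa using h1
    · obtain ⟨c, hc⟩ := Nat.exists_eq_add_of_le (by omega : e + 1 ≤ b)
      rw [hc, add_comm, pow_add, ae_mul, h, map_zero]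

private theorem all_red {V : Type} [AddCommGroup V] [Module F V] {b : ℕ} (hb : 0 < b)
    {f : Module.End F V} (hf : ExpLt (b + 1) f) (P : F[X]) :
    ∀ (e : ℕ) (x : V), aeval f (P ^ e) x = 0 → aeval f (P ^ b) x = 0 := by
  induction P using WfDvdMonoid.induction_on_irreducible with
  | zero =>
    intro e x _
    rw [zero_pow hb.ne', map_zero]
    rfl
  | unit u hu =>
    intro e x h
    obtain ⟨v, hv⟩ := (hu.pow e).exists_left_inv
    have h1 : x = 0 := by
      have h2 : aeval f (v * u ^ e) x = 0 := by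
        rw [ae_mul, h, map_zero]
      rw [hv, map_one] at h2
      exact h2
    rw [h1, map_zero]
  | mul Q φ hQ hφ ih =>
    intro e x h
    rw [mul_pow, ae_mul] at h
    have h1 := ex_red hf hφ e _ h
    rw [← ae_mul, mul_comm, ae_mul] at h1
    have h2 := ih e _ h1
    rw [mul_pow, mul_comm, ae_mul]
    exact h2

theorem exp_order {n : ℕ} (k : ℕ) (g : GLn n) (h : ExpLt (2 ^ k + 1) g.toLinearMap) :
    ∃ o : ℕ, Odd o ∧ g ^ (2 ^ k * o) = 1 := by
  haveI : Finite (GLn n) := Finite.of_injective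
    (fun g : GLn n => (g : (Fin n → F) → (Fin n → F))) DFunLike.coe_injective
  have hm : 0 < orderOf g := orderOf_pos g
  obtain ⟨a, o, ho, hao⟩ := Nat.exists_eq_two_pow_mul_odd hm.ne'
  refine ⟨o, ho, ?_⟩
  have hg : g ^ (2 ^ a * o) = 1 := by
    rw [← hao]
    exact pow_orderOf_eq_one g
  have hpow : ∀ (j : ℕ) (x : Fin n → F), aeval g.toLinearMap ((X : F[X]) ^ j) x = (g ^ j) x := by
    intro j
    induction j with
    | zero =>
      intro x
      rw [pow_zero, pow_zero, map_one]
      rfl
    | succ j ih =>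
      intro x
      rw [pow_succ, ae_mul, aeval_X, pow_succ, ih]
      rfl
  have hch : ∀ j : ℕ, ((X : F[X]) ^ o - 1) ^ 2 ^ j = X ^ (2 ^ j * o) - 1 := by
    intro j
    rw [sub_pow_char_pow, one_pow, ← pow_mul, mul_comm]
  have hev : ∀ (j : ℕ) (x : Fin n → F),
      aeval g.toLinearMap (((X : F[X]) ^ o - 1) ^ 2 ^ j) x = (g ^ (2 ^ j * o)) x - x := by
    intro j x
    rw [hch, map_sub, map_one, LinearMap.sub_apply, hpow]
    rfl
  apply LinearEquiv.ext
  intro x
  have h1 : aeval g.toLinearMap (((X : F[X]) ^ o - 1) ^ 2 ^ a) x = 0 := by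
    rw [hev, hg]
    exact sub_self x
  have h2 := all_red (by positivity) h _ _ x h1
  rw [hev, sub_eq_zero] at h2
  exact h2

end Pool.Agent.TWO
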