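import Pool.Agent.TWO.Strip
import Pool.Agent.TWO.BadB
import Pool.Agent.TWO.OrdE
import Pool.Agent.TWO.QuadF
import Pool.Agent.TWO.Quad4

/-!
# TWO/ZeroA: lower bound for `prp m (OO 1 m)` (no eigenvalue one, odd order)

`W0 (bb F 3) (ID F) m ≤ prp m (OO 1 m)`, by three applications of `strip` (for the polynomials
`X^3 + X^2 + 1`, `X^3 + X + 1` and `X^2 + X + 1`), starting from `bad_bound` and `exp_order`.
-/

open Polynomial

namespace Pool.Agent.TWO

open Pool.Agent.PSD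

theorem cub_mono {f g : ℕ → ℝ} (h : ∀ m, f m ≤ g m) (m : ℕ) : cub f m ≤ cub g m := by
  unfold cub
  have h1 := h m
  split_ifs with h3
  · have h2 := h (m - 3)
    linarith
  · linarith

theorem quad_mono {f g : ℕ → ℝ} (h : ∀ m, f m ≤ g m) (m : ℕ) : quad f m ≤ quad g m := by
  unfold quad
  have h1 := h m
  have h2 := h (m - 2)
  have h3 := h (m - 4)
  split_ifs <;> linarith

/-- elements of odd order -/
def OddO (n : ℕ) : Set (GLn n) := {g | ∃ o : ℕ, Odd o ∧ g ^ o = 1}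

/-- the four sets of the proof -/
def S3 (n : ℕ) : Set (GLn n) := {g | Big 3 g.toLinearMap} ∩ OddO n

def Sb (n : ℕ) : Set (GLn n) := {g | Function.Injective (aeval g.toLinearMap (X + 1 : F[X])) ∧
    Function.Injective (aeval g.toLinearMap (X ^ 2 + X + 1 : F[X])) ∧
    Function.Injective (aeval g.toLinearMap (X ^ 3 + X + 1 : F[X]))} ∩ OddO n

def Sa (n : ℕ) : Set (GLn n) := {g | Function.Injective (aeval g.toLinearMap (X + 1 : F[X])) ∧
    Function.Injective (aeval g.toLinearMap (X ^ 2 + X + 1 : F[X]))} ∩ OddO n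

/-! ### conjugation -/

private theorem inj_cj {n : ℕ} (h g : GLn n) (φ : F[X])
    (hg : Function.Injective (aeval g.toLinearMap φ)) :
    Function.Injective (aeval (h * g * h⁻¹).toLinearMap φ) := by
  rw [← cj_eq_mul]
  intro x y hxy
  obtain ⟨x, rfl⟩ := h.surjective x
  obtain ⟨y, rfl⟩ := h.surjective y
  rw [aeval_cj, aeval_cj] at hxy
  rw [hg (h.injective hxy)]

private theorem zero_cj {n : ℕ} (h g : GLn n) (φ : F[X]) (hg : aeval g.toLinearMap φ = 0) :
    aeval (h * g * h⁻¹).toLinearMap φ = 0 := by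
  rw [← cj_eq_mul]
  refine LinearMap.ext fun x => ?_
  obtain ⟨x, rfl⟩ := h.surjective x
  rw [aeval_cj, hg, LinearMap.zero_apply, map_zero, LinearMap.zero_apply]

private theorem ci_kill (f : F[X]) (n : ℕ) : CI {p : GLn n | aeval p.toLinearMap f = 0} :=
  fun g hg h => zero_cj h g f hg

private theorem odd_cj {n : ℕ} {g : GLn n} (hg : g ∈ OddO n) (h : GLn n) :
    h * g * h⁻¹ ∈ OddO n := by
  obtain ⟨o, ho, h1⟩ := hg
  refine ⟨o, ho, ?_⟩
  rw [conj_pow, h1, mul_one, mul_inv_cancel]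

private theorem ci_S3 (n : ℕ) : CI (S3 n) := fun g hg h =>
  ⟨by
    have h1 := (big_cj 3 h g).2 hg.1
    rw [cj_eq_mul] at h1
    exact h1, odd_cj hg.2 h⟩

private theorem ci_Sb (n : ℕ) : CI (Sb n) := fun g hg h =>
  ⟨⟨inj_cj h g _ hg.1.1, inj_cj h g _ hg.1.2.1, inj_cj h g _ hg.1.2.2⟩, odd_cj hg.2 h⟩

private theorem ci_Sa (n : ℕ) : CI (Sa n) := fun g hg h =>
  ⟨⟨inj_cj h g _ hg.1.1, inj_cj h g _ hg.1.2⟩, odd_cj hg.2 h⟩

/-! ### block sums -/

private theorem pow_one_iff {n : ℕ} (g : GLn n) (o : ℕ) :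
    g ^ o = 1 ↔ ∀ x, aeval g.toLinearMap (X ^ o - 1 : F[X]) x = 0 := by
  have h1 : ∀ (k : ℕ) (x : Fin n → F), (g.toLinearMap ^ k) x = (g ^ k) x := by
    intro k
    induction k with
    | zero => intro x; rfl
    | succ k ih =>
      intro x
      rw [pow_succ, pow_succ, Module.End.mul_apply, ih]
      rfl
  constructor
  · intro h x
    rw [map_sub, map_one, map_pow, aeval_X, LinearMap.sub_apply, h1, h]
    exact sub_self x
  · intro h
    refine LinearEquiv.ext fun x => ?_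
    have h2 := h x
    rw [map_sub, map_one, map_pow, aeval_X, LinearMap.sub_apply, h1, Module.End.one_apply,
      sub_eq_zero] at h2
    rw [h2]
    rfl

private theorem dc_aeval {a b : ℕ} {g : GLn (a + b)} {e : (Fin (a + b) → F) ≃ₗ[F] ((Fin a → F) ×
    (Fin b → F))} {p : GLn a} {q : GLn b} (h : cj e g = blk p 0 q) (φ : F[X])
    (x : Fin (a + b) → F) :
    e (aeval g.toLinearMap φ x) =
      (aeval p.toLinearMap φ (e x).1, aeval q.toLinearMap φ (e x).2) := by
  rw [← aeval_cj, h, ← blk_aeval_zero]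

private theorem dc_inj {a b : ℕ} {g : GLn (a + b)} {e : (Fin (a + b) → F) ≃ₗ[F] ((Fin a → F) ×
    (Fin b → F))} {p : GLn a} {q : GLn b} (h : cj e g = blk p 0 q) (φ : F[X])
    (hp : Function.Injective (aeval p.toLinearMap φ))
    (hq : Function.Injective (aeval q.toLinearMap φ)) :
    Function.Injective (aeval g.toLinearMap φ) := by
  intro x y hxy
  have h1 := dc_aeval h φ x
  rw [hxy, dc_aeval h φ y] at h1
  have h2 := hp (Prod.ext_iff.1 h1).1
  have h3 := hq (Prod.ext_iff.1 h1).2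
  exact (e.injective (Prod.ext h2 h3)).symm

private theorem dc_odd {a b : ℕ} {g : GLn (a + b)} {e : (Fin (a + b) → F) ≃ₗ[F] ((Fin a → F) ×
    (Fin b → F))} {p : GLn a} {q : GLn b} (h : cj e g = blk p 0 q)
    (hp : p ∈ OddO a) (hq : q ∈ OddO b) : g ∈ OddO (a + b) := by
  obtain ⟨o1, ho1, h1⟩ := hp
  obtain ⟨o2, ho2, h2⟩ := hq
  refine ⟨o1 * o2, ho1.mul ho2, ?_⟩
  have h3 : p ^ (o1 * o2) = 1 := by rw [pow_mul, h1, one_pow]
  have h4 : q ^ (o1 * o2) = 1 := by rw [mul_comm, pow_mul, h2, one_pow]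
  rw [pow_one_iff] at h3 h4 ⊢
  intro x
  apply e.injective
  rw [dc_aeval h, h3, h4, map_zero]
  rfl

/-- polynomial killing `p` and polynomial coprime to it -/
private theorem kill_inj {n : ℕ} {p : GLn n} {f φ u v : F[X]} (hp : aeval p.toLinearMap f = 0)
    (h : u * f + v * φ = 1) : Function.Injective (aeval p.toLinearMap φ) := by
  have h1 : aeval p.toLinearMap v * aeval p.toLinearMap φ = 1 := by
    rw [← map_mul, ← map_one (aeval (R := F) p.toLinearMap), ← h, map_add, map_mul (aeval _) u f,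
      hp, mul_zero, zero_add]
  intro x y hxy
  have h2 : ∀ z, aeval p.toLinearMap v (aeval p.toLinearMap φ z) = z := fun z => by
    rw [← Module.End.mul_apply, h1, Module.End.one_apply]
  rw [← h2 x, hxy, h2 y]

private theorem kill_odd {n : ℕ} {p : GLn n} {f u : F[X]} {o : ℕ} (ho : Odd o)
    (hp : aeval p.toLinearMap f = 0) (h : X ^ o - 1 = u * f) : p ∈ OddO n := by
  refine ⟨o, ho, (pow_one_iff p o).2 fun x => ?_⟩
  rw [h, map_mul, hp, mul_zero, LinearMap.zero_apply]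

private theorem kill_pow (f : F[X]) (n : ℕ) (p : GLn n) (hp : aeval p.toLinearMap f = 0) :
    aeval p.toLinearMap (f ^ n) = 0 := by
  rcases n with _ | n
  · exact LinearMap.ext fun x => Subsingleton.elim _ _
  · rw [pow_succ, map_mul, hp, mul_zero]

private theorem two_zero : (2 : F[X]) = 0 := by
  have h : (C (2 : F) : F[X]) = C 0 := by
    congr 1
  rw [map_ofNat, map_zero] at h
  exact h

/-! ### the bounds -/

theorem dd_le_S3 (m : ℕ) : DD (bb F 3) (ID F) 3 2 m ≤ prp m (S3 m) := by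
  refine (bad_bound (k := 3) (b := 2) (by norm_num) le_rfl m).trans (prp_mono ?_)
  rintro g ⟨h1, h2⟩
  refine ⟨h1, ?_⟩
  obtain ⟨o, ho, h3⟩ := exp_order 0 g h2
  exact ⟨o, ho, by simpa using h3⟩

private theorem sum_ge {m : ℕ} (f : ℕ → ℝ) (hf : ∀ a, 0 ≤ f a) (s : Finset ℕ)
    (hs : s ⊆ Finset.range (m + 1)) : ∑ a ∈ s, f a ≤ ∑ a ∈ Finset.range (m + 1), f a :=
  Finset.sum_le_sum_of_subset_of_nonneg hs fun a _ _ => hf a

private theorem cub_le (A B E : ∀ n : ℕ, Set (GLn n)) (h0 : prp 0 (A 0) = 1)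
    (h3 : prp 3 (A 3) = 1 / 7) (m : ℕ)
    (h : ∑ a ∈ Finset.range (m + 1), prp a (A a) * prp (m - a) (B (m - a)) ≤ prp m (E m)) :
    cub (fun m => prp m (B m)) m ≤ prp m (E m) := by
  refine le_trans ?_ h
  have hn : ∀ a, 0 ≤ prp a (A a) * prp (m - a) (B (m - a)) := fun a =>
    mul_nonneg (prp_nonneg _ _) (prp_nonneg _ _)
  unfold cub
  split_ifs with hm
  · have h1 := sum_ge (m := m) _ hn {0, 3} (by
      intro a ha
      simp only [Finset.mem_insert, Finset.mem_singleton] at ha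
      rw [Finset.mem_range]
      omega)
    refine le_trans (le_of_eq ?_) h1
    rw [Finset.sum_pair (by norm_num), h0, h3, one_mul]
    simp only [Nat.sub_zero]
    ring
  · have h1 := sum_ge (m := m) _ hn {0} (by
      intro a ha
      simp only [Finset.mem_singleton] at ha
      rw [Finset.mem_range]
      omega)
    refine le_trans (le_of_eq ?_) h1
    rw [Finset.sum_singleton, h0, one_mul, add_zero]
    rfl

private theorem quad_le (A B E : ∀ n : ℕ, Set (GLn n)) (h0 : prp 0 (A 0) = 1)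
    (h2 : prp 2 (A 2) = 1 / 3) (h4 : prp 4 (A 4) = 1 / 180) (m : ℕ)
    (h : ∑ a ∈ Finset.range (m + 1), prp a (A a) * prp (m - a) (B (m - a)) ≤ prp m (E m)) :
    quad (fun m => prp m (B m)) m ≤ prp m (E m) := by
  refine le_trans ?_ h
  have hn : ∀ a, 0 ≤ prp a (A a) * prp (m - a) (B (m - a)) := fun a =>
    mul_nonneg (prp_nonneg _ _) (prp_nonneg _ _)
  unfold quad
  split_ifs with hm hm4 hm4
  · have h1 := sum_ge (m := m) _ hn {0, 2, 4} (by
      intro a ha
      simp only [Finset.mem_insert, Finset.mem_singleton] at ha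
      rw [Finset.mem_range]
      omega)
    refine le_trans (le_of_eq ?_) h1
    rw [Finset.sum_insert (by decide), Finset.sum_pair (by norm_num), h0, h2, h4, one_mul]
    simp only [Nat.sub_zero]
    ring
  · have h1 := sum_ge (m := m) _ hn {0, 2} (by
      intro a ha
      simp only [Finset.mem_insert, Finset.mem_singleton] at ha
      rw [Finset.mem_range]
      omega)
    refine le_trans (le_of_eq ?_) h1
    rw [Finset.sum_pair (by norm_num), h0, h2, one_mul]
    simp only [Nat.sub_zero]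
    ring
  · omega
  · have h1 := sum_ge (m := m) _ hn {0} (by
      intro a ha
      simp only [Finset.mem_singleton] at ha
      rw [Finset.mem_range]
      omega)
    refine le_trans (le_of_eq ?_) h1
    rw [Finset.sum_singleton, h0, one_mul, add_zero, add_zero]
    rfl

private theorem cub_strip (f : F[X]) (hf : f ∈ IrrP 3) (B E : ∀ n : ℕ, Set (GLn n))
    (hB : ∀ n, CI (B n)) (hB0 : ∀ n, ∀ q ∈ B n, Function.Injective (aeval q.toLinearMap f))
    (hE : ∀ (a b : ℕ) (g : GLn (a + b)) (e : (Fin (a + b) → F) ≃ₗ[F] ((Fin a → F) ×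
      (Fin b → F))) (p : GLn a) (q : GLn b), aeval p.toLinearMap f = 0 → q ∈ B b →
      cj e g = blk p 0 q → g ∈ E (a + b)) (m : ℕ) :
    cub (fun m => prp m (B m)) m ≤ prp m (E m) := by
  refine cub_le (fun n => {p : GLn n | aeval p.toLinearMap f = 0}) B E (zero_prp f)
    (cub_three hf) m ?_
  refine strip f (fun n => {p : GLn n | aeval p.toLinearMap f = 0}) B E (ci_kill f) hB
    (fun n p hp => kill_pow f n p hp) hB0 ?_ m
  rintro a b g ⟨e, p, hp, q, hq, h⟩
  exact hE a b g e p q hp hq h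

private theorem quad_strip (f : F[X])
    (h2 : prp 2 {p : GLn 2 | aeval p.toLinearMap f = 0} = 1 / 3)
    (h4 : prp 4 {p : GLn 4 | aeval p.toLinearMap f = 0} = 1 / 180) (B E : ∀ n : ℕ, Set (GLn n))
    (hB : ∀ n, CI (B n)) (hB0 : ∀ n, ∀ q ∈ B n, Function.Injective (aeval q.toLinearMap f))
    (hE : ∀ (a b : ℕ) (g : GLn (a + b)) (e : (Fin (a + b) → F) ≃ₗ[F] ((Fin a → F) ×
      (Fin b → F))) (p : GLn a) (q : GLn b), aeval p.toLinearMap f = 0 → q ∈ B b →
      cj e g = blk p 0 q → g ∈ E (a + b)) (m : ℕ) :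
    quad (fun m => prp m (B m)) m ≤ prp m (E m) := by
  refine quad_le (fun n => {p : GLn n | aeval p.toLinearMap f = 0}) B E (zero_prp f)
    h2 h4 m ?_
  refine strip f (fun n => {p : GLn n | aeval p.toLinearMap f = 0}) B E (ci_kill f) hB
    (fun n p hp => kill_pow f n p hp) hB0 ?_ m
  rintro a b g ⟨e, p, hp, q, hq, h⟩
  exact hE a b g e p q hp hq h

private theorem id1 : (1 : F[X]) * (X ^ 3 + X ^ 2 + 1) + X ^ 2 * (X + 1) = 1 := by
  linear_combination (X ^ 3 + X ^ 2 : F[X]) * two_zero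

private theorem id2 : (X : F[X]) * (X ^ 3 + X ^ 2 + 1) + (X ^ 2 + 1) * (X ^ 2 + X + 1) = 1 := by
  linear_combination (X ^ 4 + X ^ 3 + X ^ 2 + X : F[X]) * two_zero

private theorem id3 : (X + 1 : F[X]) * (X ^ 3 + X ^ 2 + 1) + X * (X ^ 3 + X + 1) = 1 := by
  linear_combination (X ^ 4 + X ^ 3 + X ^ 2 + X : F[X]) * two_zero

private theorem id4 : (X ^ 7 - 1 : F[X]) = (X + 1) * (X ^ 3 + X + 1) * (X ^ 3 + X ^ 2 + 1) := by
  linear_combination (-(X ^ 6 + X ^ 5 + 2 * X ^ 4 + 2 * X ^ 3 + X ^ 2 + X + 1) : F[X]) * two_zero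

private theorem id5 : (1 : F[X]) * (X ^ 3 + X + 1) + X * (X + 1) * (X + 1) = 1 := by
  linear_combination (X ^ 3 + X ^ 2 + X : F[X]) * two_zero

private theorem id6 : (X + 1 : F[X]) * (X ^ 3 + X + 1) + X ^ 2 * (X ^ 2 + X + 1) = 1 := by
  linear_combination (X ^ 4 + X ^ 3 + X ^ 2 + X : F[X]) * two_zero

private theorem id7 : (X ^ 7 - 1 : F[X]) = (X + 1) * (X ^ 3 + X ^ 2 + 1) * (X ^ 3 + X + 1) := by
  linear_combination (-(X ^ 6 + X ^ 5 + 2 * X ^ 4 + 2 * X ^ 3 + X ^ 2 + X + 1) : F[X]) * two_zero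

private theorem id8 : (X ^ 3 - 1 : F[X]) = (X + 1) * (X ^ 2 + X + 1) := by
  linear_combination (-(X ^ 2 + X + 1) : F[X]) * two_zero

private theorem id9 : (1 : F[X]) * (X ^ 2 + X + 1) + X * (X + 1) = 1 := by
  linear_combination (X ^ 2 + X : F[X]) * two_zero

private theorem deg1 : (X + 1 : F[X]).natDegree ≤ 3 := by
  compute_degree
  norm_num

private theorem deg2 : (X ^ 2 + X + 1 : F[X]).natDegree ≤ 3 := by
  compute_degree
  norm_num

private theorem deg3 : (X ^ 3 + X + 1 : F[X]).natDegree ≤ 3 := by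
  compute_degree

private theorem deg4 : (X ^ 3 + X ^ 2 + 1 : F[X]).natDegree ≤ 3 := by
  compute_degree

private theorem ne1 : (X + 1 : F[X]) ≠ 0 := by
  have h := (monic_X_add_C (1 : F)).ne_zero
  rwa [map_one] at h

theorem S3_le_Sb (m : ℕ) : cub (fun m => prp m (S3 m)) m ≤ prp m (Sb m) := by
  refine cub_strip (X ^ 3 + X ^ 2 + 1 : F[X]) cub_irr.2 S3 Sb ci_S3
    (fun n q hq => hq.1 _ (ir_monic cub_irr.2).1.ne_zero deg4) ?_ m
  intro a b g e p q hp hq h
  have a1 := dc_inj h _ (kill_inj hp id1) (hq.1 _ ne1 deg1)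
  have a2 := dc_inj h _ (kill_inj hp id2) (hq.1 _ (ir_monic quad_irr).1.ne_zero deg2)
  have a3 := dc_inj h _ (kill_inj hp id3) (hq.1 _ (ir_monic cub_irr.1).1.ne_zero deg3)
  have a4 := dc_odd h (kill_odd (by decide) hp id4) hq.2
  exact ⟨⟨a1, a2, a3⟩, a4⟩

theorem Sb_le_Sa (m : ℕ) : cub (fun m => prp m (Sb m)) m ≤ prp m (Sa m) := by
  refine cub_strip (X ^ 3 + X + 1 : F[X]) cub_irr.1 Sb Sa ci_Sb (fun n q hq => hq.1.2.2) ?_ m
  intro a b g e p q hp hq h
  have a1 := dc_inj h _ (kill_inj hp id5) hq.1.1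
  have a2 := dc_inj h _ (kill_inj hp id6) hq.1.2.1
  have a4 := dc_odd h (kill_odd (by decide) hp id7) hq.2
  exact ⟨⟨a1, a2⟩, a4⟩

theorem Sa_le_OO (m : ℕ) : quad (fun m => prp m (Sa m)) m ≤ prp m (OO 1 m) := by
  refine quad_strip (X ^ 2 + X + 1 : F[X]) quad_two quad_four Sa (OO 1) ci_Sa
    (fun n q hq => hq.1.2) ?_ m
  intro a b g e p q hp hq h
  have a1 := dc_inj h _ (kill_inj hp id9) hq.1.1
  obtain ⟨o, ho, h1⟩ := dc_odd h (kill_odd (by decide) hp id8) hq.2
  exact ⟨a1, o, ho, by rw [one_mul, h1]⟩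

theorem w0_le (m : ℕ) : W0 (bb F 3) (ID F) m ≤ prp m (OO 1 m) := by
  have h1 := dd_le_S3
  have h2 : ∀ m, cub (DD (bb F 3) (ID F) 3 2) m ≤ prp m (Sb m) := fun m =>
    (cub_mono h1 m).trans (S3_le_Sb m)
  have h3 : ∀ m, cub (cub (DD (bb F 3) (ID F) 3 2)) m ≤ prp m (Sa m) := fun m =>
    (cub_mono h2 m).trans (Sb_le_Sa m)
  exact (quad_mono h3 m).trans (Sa_le_OO m)

end Pool.Agent.TWO
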