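import Pool.Agent.TWO.BadB
import Pool.Agent.TWO.OrdE
import Pool.Agent.TWO.QuadF
import Pool.Agent.TWO.ZeroA

/-!
# TWO/PosA: lower bounds for `prp m (OO K m)`, `K = 2, 4, 8`, and the summary for all `K`
-/

open Polynomial

namespace Pool.Agent.TWO

open Pool.Agent.PSD

private theorem pa_sub {k K c : ℕ} (hK : K = 2 ^ k * c) (m : ℕ) :
    {g : GLn m | Big 1 g.toLinearMap ∧ ExpLt (2 ^ k + 1) g.toLinearMap} ⊆ OO K m := by
  rintro g ⟨h1, h2⟩
  refine ⟨(big_iff g).1.1 h1, ?_⟩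
  obtain ⟨o, ho, hg⟩ := exp_order k g h2
  refine ⟨o, ho, ?_⟩
  have h3 : K * o = 2 ^ k * o * c := by
    rw [hK]
    ring
  rw [h3, pow_mul, hg, one_pow]

theorem ww_le {K : ℕ} (hK : K ∈ ({1, 2, 4, 8} : Finset ℕ)) (m : ℕ) :
    WW (bb F 1) (bb F 3) (ID F) K m ≤ prp m (OO K m) := by
  have h3 : DD (bb F 1) (ID F) 1 3 m ≤ prp m (OO 2 m) :=
    (bad_bound (le_refl 1) (by norm_num) m).trans (prp_mono (pa_sub (k := 1) (c := 1) (by norm_num) m))
  have h5 : ∀ K c : ℕ, K = 2 ^ 2 * c → DD (bb F 1) (ID F) 1 5 m ≤ prp m (OO K m) := fun K c hc =>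
    (bad_bound (le_refl 1) (by norm_num) m).trans (prp_mono (pa_sub (k := 2) (c := c) hc m))
  simp only [Finset.mem_insert, Finset.mem_singleton] at hK
  rcases hK with rfl | rfl | rfl | rfl
  · exact w0_le m
  · have e : WW (bb F 1) (bb F 3) (ID F) 2 = DD (bb F 1) (ID F) 1 3 := by
      unfold WW
      rw [if_neg (by norm_num), if_pos rfl]
    rw [e]
    exact h3
  · have e : WW (bb F 1) (bb F 3) (ID F) 4 = DD (bb F 1) (ID F) 1 5 := by
      unfold WW
      rw [if_neg (by norm_num), if_neg (by norm_num)]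
    rw [e]
    exact h5 4 1 (by norm_num)
  · have e : WW (bb F 1) (bb F 3) (ID F) 8 = DD (bb F 1) (ID F) 1 5 := by
      unfold WW
      rw [if_neg (by norm_num), if_neg (by norm_num)]
    rw [e]
    exact h5 8 2 (by norm_num)

end Pool.Agent.TWO
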