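import Pool.Agent.TWO.CBas
import Pool.Agent.PSD.Orbit
import Pool.Agent.PSD.Grp

/-!
# TWO/Split: unipotent elements with `rank (p - 1)^K = 1`

`prp (K+1+j) (UN K (K+1+j)) = prp j (ZK K j) / (2^K * 4^j)` for `K ≥ 1`, by an orbit count for triples
(nilpotent endomorphism `N`, vector `v`, functional `λ`) with `λ (N^K v) = 1`.
-/

open Polynomial

namespace Pool.Agent.TWO

open Pool.Agent.PSD

private theorem sp_zo (c : F) : c = 0 ∨ c = 1 := by
  revert c
  decide

private theorem sp_fib {α β : Type} [Finite α] [Finite β] (A : Set α) (P : α → β → Prop) (c : ℕ)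
    (h : ∀ a ∈ A, {b | P a b}.ncard = c) : {q : α × β | q.1 ∈ A ∧ P q.1 q.2}.ncard = A.ncard * c := by
  classical
  have hfin : {q : α × β | q.1 ∈ A ∧ P q.1 q.2}.Finite := Set.toFinite _
  have h1 := Finset.card_eq_sum_card_fiberwise (f := Prod.fst) (s := hfin.toFinset)
    (t := (Set.toFinite A).toFinset) (by
      intro q hq
      rw [Finset.mem_coe, Set.Finite.mem_toFinset] at hq ⊢
      exact hq.1)
  rw [Set.ncard_eq_toFinset_card _ hfin, h1, Set.ncard_eq_toFinset_card _ (Set.toFinite A)]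
  rw [Finset.sum_congr rfl (g := fun _ => c)]
  · rw [Finset.sum_const, smul_eq_mul]
  · intro a ha
    rw [Set.Finite.mem_toFinset] at ha
    rw [← h a ha, ← Set.ncard_image_of_injective _ (fun b b' hb => (Prod.mk.inj hb).2 :
      Function.Injective fun b : β => (a, b)), ← Set.ncard_coe_finset]
    congr 1
    ext ⟨a', b⟩
    rw [Finset.mem_coe, Finset.mem_filter, Set.Finite.mem_toFinset]
    constructor
    · rintro ⟨⟨h2, h3⟩, h4⟩
      have h5 : a' = a := h4
      subst h5
      exact ⟨b, h3, rfl⟩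
    · rintro ⟨b', h2, h3⟩
      obtain ⟨h4, h5⟩ := Prod.mk.inj h3
      subst h4
      subst h5
      exact ⟨⟨ha, h2⟩, rfl⟩

section

variable {V : Type} [AddCommGroup V] [Module F V]

private theorem sp_half [FiniteDimensional F V] {W : Type} [AddCommGroup W] [Module F W] (N : V →ₗ[F] W) {m : ℕ}
    (hm : Module.finrank F V = m + 1) (h1 : Module.finrank F (LinearMap.range N) = 1) :
    {x : V | N x ≠ 0}.ncard = 2 ^ m := by
  have hfV : Finite V := Module.finite_of_finite F
  have h2 := LinearMap.finrank_range_add_finrank_ker N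
  have h3 : ((LinearMap.ker N : Submodule F V) : Set V).ncard = 2 ^ m := by
    have h4 : Nat.card (LinearMap.ker N) = 2 ^ m := by
      rw [Module.natCard_eq_pow_finrank (K := F), Nat.card_zmod]
      congr 1
      omega
    exact h4
  have h5 := Set.ncard_add_ncard_compl ((LinearMap.ker N : Submodule F V) : Set V)
  have h6 : Nat.card V = 2 ^ (m + 1) := by
    rw [Module.natCard_eq_pow_finrank (K := F), Nat.card_zmod, hm]
  have h7 : {x : V | N x ≠ 0} = ((LinearMap.ker N : Submodule F V) : Set V)ᶜ := by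
    ext x
    rfl
  rw [h7]
  rw [h3, h6, pow_succ] at h5
  omega

private theorem sp_dual [FiniteDimensional F V] {m : ℕ} (hm : Module.finrank F V = m + 1) {x : V} (hx : x ≠ 0) :
    {l : Module.Dual F V | l x = 1}.ncard = 2 ^ m := by
  have h1 : Module.finrank F (LinearMap.range (Module.Dual.eval F V x)) = 1 := by
    have h2 : LinearMap.range (Module.Dual.eval F V x) = ⊤ := by
      rw [LinearMap.range_eq_top]
      obtain ⟨l, hl⟩ : ∃ l : Module.Dual F V, l x ≠ 0 := by
        by_contra hc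
        push Not at hc
        exact hx ((Module.forall_dual_apply_eq_zero_iff F x).1 hc)
      intro c
      refine ⟨c • l, ?_⟩
      rw [Module.Dual.eval_apply, LinearMap.smul_apply, (sp_zo (l x)).resolve_left hl, smul_eq_mul, mul_one]
    rw [h2, finrank_top, Module.finrank_self]
  have h3 := sp_half (Module.Dual.eval F V x) (m := m) (by rw [Subspace.dual_finrank_eq, hm]) h1
  rw [← h3]
  congr 1
  ext l
  constructor
  · intro h
    have h4 : l x = 1 := h
    show Module.Dual.eval F V x l ≠ 0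
    rw [Module.Dual.eval_apply, h4]
    exact one_ne_zero
  · intro h
    have h4 : Module.Dual.eval F V x l ≠ 0 := h
    rw [Module.Dual.eval_apply] at h4
    exact (sp_zo (l x)).resolve_left h4

/-- automorphisms and nilpotent endomorphisms -/
private theorem sp_exp (P : Module.End F V → Prop) (hP : ∀ N, P N → IsNilpotent N) :
    {p : V ≃ₗ[F] V | P (p.toLinearMap - 1)}.ncard = {N | P N}.ncard := by
  refine Set.ncard_congr (fun p _ => p.toLinearMap - 1) (fun p hp => hp) ?_ ?_
  · intro p q _ _ h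
    have h1 : p.toLinearMap = q.toLinearMap := sub_left_injective h
    exact LinearEquiv.toLinearMap_injective h1
  · intro N hN
    have h1 : IsUnit (1 + N) := (hP N hN).isUnit_one_add
    rw [Module.End.isUnit_iff] at h1
    have h2 : (LinearEquiv.ofBijective (1 + N) h1).toLinearMap - 1 = N := by
      ext x
      show (1 + N) x - x = N x
      rw [LinearMap.add_apply, Module.End.one_apply, add_sub_cancel_left]
    refine ⟨LinearEquiv.ofBijective (1 + N) h1, ?_, h2⟩
    show P _
    rw [h2]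
    exact hN

/-- nilpotent endomorphisms `N` with `rank N^K = 1` -/
private def NV (V : Type) [AddCommGroup V] [Module F V] (K : ℕ) : Set (Module.End F V) :=
  {N | IsNilpotent N ∧ Module.finrank F (LinearMap.range (N ^ K)) = 1}

private theorem conj_pow {V' : Type} [AddCommGroup V'] [Module F V'] (e : V ≃ₗ[F] V') (N : Module.End F V) (k : ℕ) :
    e.conj N ^ k = e.conj (N ^ k) := by
  induction k with
  | zero =>
    rw [pow_zero, pow_zero]
    ext x
    rw [LinearEquiv.conj_apply_apply, Module.End.one_apply, Module.End.one_apply, e.apply_symm_apply]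
  | succ k ih =>
    rw [pow_succ, pow_succ, ih]
    exact (LinearEquiv.conj_comp e N (N ^ k)).symm

private theorem conj_rank {V' : Type} [AddCommGroup V'] [Module F V'] (e : V ≃ₗ[F] V') (N : Module.End F V) :
    Module.finrank F (LinearMap.range (e.conj N)) = Module.finrank F (LinearMap.range N) := by
  rw [← LinearEquiv.finrank_map_eq e (LinearMap.range N)]
  have h : LinearMap.range (e.conj N) = (LinearMap.range N).map (e : V →ₗ[F] V') := by
    ext y
    rw [LinearMap.mem_range, Submodule.mem_map]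
    constructor
    · rintro ⟨x, rfl⟩
      exact ⟨N (e.symm x), ⟨_, rfl⟩, rfl⟩
    · rintro ⟨_, ⟨x, rfl⟩, rfl⟩
      refine ⟨e x, ?_⟩
      rw [LinearEquiv.conj_apply_apply, e.symm_apply_apply]
      rfl
  rw [h]

private theorem conj_zero' {V' : Type} [AddCommGroup V'] [Module F V'] (e : V ≃ₗ[F] V') {N : Module.End F V}
    (h : N = 0) : e.conj N = 0 := by
  rw [h, map_zero]

private theorem conj_NV {V' : Type} [AddCommGroup V'] [Module F V'] (e : V ≃ₗ[F] V') {K : ℕ} {N : Module.End F V}
    (h : N ∈ NV V K) : e.conj N ∈ NV V' K := by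
  obtain ⟨⟨k, hk⟩, h2⟩ := h
  refine ⟨⟨k, ?_⟩, ?_⟩
  · rw [conj_pow, conj_zero' e hk]
  · rw [conj_pow, conj_rank]
    exact h2

private theorem card_NV {V' : Type} [AddCommGroup V'] [Module F V'] (e : V ≃ₗ[F] V') (K : ℕ) :
    (NV V K).ncard = (NV V' K).ncard := by
  refine Set.ncard_congr (fun N _ => e.conj N) (fun N hN => conj_NV e hN) ?_ ?_
  · intro N N' _ _ h
    exact e.conj.injective h
  · intro N hN
    refine ⟨e.symm.conj N, conj_NV e.symm hN, ?_⟩
    ext x
    rw [LinearEquiv.conj_apply_apply, LinearEquiv.conj_apply_apply, e.apply_symm_apply]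
    rw [LinearEquiv.symm_symm, e.apply_symm_apply]

/-- the combination of the vectors `N^i v` -/
private def Bm (K : ℕ) (N : Module.End F V) (v : V) : (Fin (K + 1) → F) →ₗ[F] V :=
  Fintype.linearCombination F fun i => (N ^ i.1) v

private theorem Bm_apply (K : ℕ) (N : Module.End F V) (v : V) (u : Fin (K + 1) → F) :
    Bm K N v u = ∑ i : Fin (K + 1), u i • (N ^ i.1) v := rfl

private theorem pow_app (N : Module.End F V) (a b : ℕ) (x : V) : (N ^ a) ((N ^ b) x) = (N ^ (a + b)) x := by
  rw [pow_add, Module.End.mul_apply]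

private theorem tri {K : ℕ} {N : Module.End F V} (hN : N ^ (K + 1) = 0) {v : V} {l : Module.Dual F V}
    (h1 : l ((N ^ K) v) = 1) (u : Fin (K + 1) → F) (hu : ∀ i ≤ K, l ((N ^ i) (Bm K N v u)) = 0) : u = 0 := by
  have hbig : ∀ m, K < m → l ((N ^ m) v) = 0 := by
    intro m hm
    obtain ⟨a, rfl⟩ : ∃ a, m = a + (K + 1) := ⟨m - (K + 1), by omega⟩
    rw [pow_add, hN, mul_zero, LinearMap.zero_apply, map_zero]
  have key : ∀ i (hi : i < K + 1), u ⟨i, hi⟩ = 0 := by
    intro i
    induction i using Nat.strong_induction_on with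
    | _ i ih =>
      intro hi
      have h2 := hu (K - i) (by omega)
      rw [Bm_apply, map_sum, map_sum, Finset.sum_eq_single (⟨i, hi⟩ : Fin (K + 1))] at h2
      · rw [map_smul, map_smul, pow_app] at h2
        have h3 : K - i + i = K := by omega
        rw [h3, h1, smul_eq_mul, mul_one] at h2
        exact h2
      · intro b _ hb
        rcases Nat.lt_trichotomy b.1 i with h4 | h4 | h4
        · rw [ih b.1 h4 b.2, zero_smul, map_zero, map_zero]
        · exact absurd (Fin.ext h4) hb
        · rw [map_smul, map_smul, pow_app, hbig _ (by omega), smul_zero]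
      · intro h
        exact absurd (Finset.mem_univ _) h
  ext i
  exact key i.1 i.2

end


section

variable {K j : ℕ}

/-- the shift -/
private def Sh (K : ℕ) : Module.End F (Fin (K + 1) → F) where
  toFun u := Fin.cons 0 fun i : Fin K => u i.castSucc
  map_add' u w := by
    ext i
    refine Fin.cases ?_ (fun i => ?_) i
    · simp
    · simp
  map_smul' c u := by
    ext i
    refine Fin.cases ?_ (fun i => ?_) i
    · simp
    · simp

private theorem Sh_zero (u : Fin (K + 1) → F) : Sh K u 0 = 0 := rfl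

private theorem Sh_succ (u : Fin (K + 1) → F) (i : Fin K) : Sh K u i.succ = u i.castSucc := rfl

private theorem Sh_ee (a : ℕ) : Sh K (ee F (K + 1) a) = ee F (K + 1) (a + 1) := by
  ext i
  refine Fin.cases ?_ (fun i => ?_) i
  · rw [Sh_zero]
    unfold ee
    rw [if_neg]
    intro h
    have h1 : ((0 : Fin (K + 1)) : ℕ) = 0 := rfl
    omega
  · rw [Sh_succ]
    unfold ee
    have h1 : (i.succ : ℕ) = i.1 + 1 := rfl
    have h2 : (i.castSucc : ℕ) = i.1 := rfl
    rw [h1, h2]
    simp

private theorem Sh_pow (i : ℕ) : (Sh K ^ i) (ee F (K + 1) 0) = ee F (K + 1) i := by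
  induction i with
  | zero => rfl
  | succ i ih => rw [pow_succ', Module.End.mul_apply, ih, Sh_ee]

private theorem Sh_pow' (i a : ℕ) : (Sh K ^ i) (ee F (K + 1) a) = ee F (K + 1) (a + i) := by
  rw [← Sh_pow a, pow_app, Sh_pow, Nat.add_comm i a]

private theorem ee_big {a : ℕ} (h : K < a) : ee F (K + 1) a = 0 := by
  ext i
  unfold ee
  rw [if_neg (by omega)]
  rfl

private theorem ee_sum (u : Fin (K + 1) → F) : u = ∑ i : Fin (K + 1), u i • ee F (K + 1) i.1 := by
  ext t
  rw [Finset.sum_apply, Finset.sum_eq_single t]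
  · simp [ee]
  · intro b _ hb
    have h1 : ¬ t.1 = b.1 := fun h => hb (Fin.ext h.symm)
    simp [ee, h1]
  · intro h
    exact absurd (Finset.mem_univ _) h

private theorem Sh_top : Sh K ^ (K + 1) = 0 := by
  refine LinearMap.ext fun u => ?_
  conv_lhs => rw [ee_sum u]
  rw [map_sum]
  refine Finset.sum_eq_zero fun i _ => ?_
  rw [map_smul, Sh_pow', ee_big (by omega), smul_zero]

private theorem Sh_K (u : Fin (K + 1) → F) : (Sh K ^ K) u = u 0 • ee F (K + 1) K := by
  conv_lhs => rw [ee_sum u]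
  rw [map_sum, Finset.sum_eq_single 0]
  · rw [map_smul, Sh_pow']
    have h : ((0 : Fin (K + 1)) : ℕ) = 0 := rfl
    rw [h, zero_add]
  · intro b _ hb
    have h1 : 0 < b.1 := by
      rcases Nat.eq_zero_or_pos b.1 with h | h
      · exact absurd (Fin.ext h) hb
      · exact h
    rw [map_smul, Sh_pow', ee_big (by omega), smul_zero]
  · intro h
    exact absurd (Finset.mem_univ _) h

/-- the model -/
private abbrev MV (K j : ℕ) : Type := (Fin (K + 1) → F) × (Fin j → F)

private theorem pm_pow (S : Module.End F (Fin (K + 1) → F)) (M : Module.End F (Fin j → F)) (i : ℕ) (x : MV K j) :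
    ((S.prodMap M : Module.End F (MV K j)) ^ i) x = ((S ^ i) x.1, (M ^ i) x.2) := by
  induction i with
  | zero => rfl
  | succ i ih =>
    rw [pow_succ', Module.End.mul_apply, ih, pow_succ', pow_succ', Module.End.mul_apply, Module.End.mul_apply]
    rfl

private theorem pm_ee (M : Module.End F (Fin j → F)) (i : ℕ) :
    (((Sh K).prodMap M : Module.End F (MV K j)) ^ i) (ee F (K + 1) 0, 0) = (ee F (K + 1) i, 0) := by
  rw [pm_pow]
  show ((Sh K ^ i) (ee F (K + 1) 0), (M ^ i) (0 : Fin j → F)) = _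
  rw [Sh_pow, map_zero]

private theorem pm_Bm (M : Module.End F (Fin j → F)) (u : Fin (K + 1) → F) :
    Bm K ((Sh K).prodMap M : Module.End F (MV K j)) (ee F (K + 1) 0, 0) u = (u, 0) := by
  rw [Bm_apply]
  have h1 : ∀ i : Fin (K + 1), u i • (((Sh K).prodMap M : Module.End F (MV K j)) ^ i.1) (ee F (K + 1) 0, 0) =
      (LinearMap.inl F _ _) (u i • ee F (K + 1) i.1) := by
    intro i
    rw [pm_ee]
    ext t
    · rfl
    · show u i • (0 : F) = 0
      rw [smul_zero]
  rw [Finset.sum_congr rfl fun i _ => h1 i, ← map_sum, ← ee_sum]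
  rfl

private theorem pm_NV {M : Module.End F (Fin j → F)} (hM : M ^ K = 0) :
    ((Sh K).prodMap M : Module.End F (MV K j)) ∈ NV (MV K j) K := by
  constructor
  · refine ⟨K + 1, ?_⟩
    refine LinearMap.ext fun x => ?_
    rw [pm_pow, Sh_top, pow_succ, hM, zero_mul]
    rfl
  · have h1 : LinearMap.range (((Sh K).prodMap M : Module.End F (MV K j)) ^ K) =
        Submodule.span F {((ee F (K + 1) K, 0) : MV K j)} := by
      ext y
      rw [LinearMap.mem_range, Submodule.mem_span_singleton]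
      constructor
      · rintro ⟨x, rfl⟩
        refine ⟨x.1 0, ?_⟩
        rw [pm_pow, Sh_K, hM, Prod.smul_mk, smul_zero]
        rfl
      · rintro ⟨c, rfl⟩
        refine ⟨(c • ee F (K + 1) 0, 0), ?_⟩
        rw [pm_pow, hM]
        show ((Sh K ^ K) (c • ee F (K + 1) 0), (0 : Fin j → F)) = _
        rw [map_smul, Sh_pow, Prod.smul_mk, smul_zero]
    rw [h1]
    refine finrank_span_singleton ?_
    intro h
    have h2 : ee F (K + 1) K = 0 := congrArg Prod.fst h
    have h3 := congrFun h2 (Fin.last K)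
    unfold ee at h3
    have h4 : ((Fin.last K : Fin (K + 1)) : ℕ) = K := rfl
    rw [if_pos h4] at h3
    exact one_ne_zero h3

end


section

/-- triples -/
private abbrev Tp (V : Type) [AddCommGroup V] [Module F V] : Type := Module.End F V × (V × Module.Dual F V)

private def act {V : Type} [AddCommGroup V] [Module F V] (g : V ≃ₗ[F] V) (x : Tp V) : Tp V :=
  (g.conj x.1, (g x.2.1, x.2.2.comp (g.symm : V →ₗ[F] V)))

private def XX (V : Type) [AddCommGroup V] [Module F V] (K : ℕ) : Set (Tp V) :=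
  {x | x.1 ∈ NV V K ∧ x.2.2 ((x.1 ^ K) x.2.1) = 1}

private def YY (K j : ℕ) : Set (Tp (MV K j)) :=
  {x | ∃ (M : Module.End F (Fin j → F)) (l : Module.Dual F (Fin (K + 1) → F)), M ^ K = 0 ∧
    l (ee F (K + 1) K) = 1 ∧ x = ((Sh K).prodMap M, ((ee F (K + 1) 0, 0), l.comp (LinearMap.fst F _ _)))}

private theorem card_XX {V : Type} [AddCommGroup V] [Module F V] [FiniteDimensional F V] {m : ℕ}
    (hm : Module.finrank F V = m + 1) (K : ℕ) : (XX V K).ncard = (NV V K).ncard * (2 ^ m * 2 ^ m) := by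
  have hfV : Finite V := Module.finite_of_finite F
  have hfD : Finite (Module.Dual F V) := Module.finite_of_finite F
  have hfE : Finite (Module.End F V) := Module.finite_of_finite F
  refine sp_fib (NV V K) (fun (N : Module.End F V) (q : V × Module.Dual F V) => q.2 ((N ^ K) q.1) = 1) (2 ^ m * 2 ^ m) fun N hN => ?_
  have h1 := sp_fib {v : V | (N ^ K) v ≠ 0} (fun v l => (l : Module.Dual F V) ((N ^ K) v) = 1) (2 ^ m)
    fun v hv => sp_dual hm hv
  rw [sp_half (N ^ K) hm hN.2] at h1
  rw [← h1]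
  congr 1
  ext q
  constructor
  · intro h
    refine ⟨fun h0 => ?_, h⟩
    have h2 : q.2 ((N ^ K) q.1) = 1 := h
    rw [h0, map_zero] at h2
    exact zero_ne_one h2
  · exact fun h => h.2

private theorem card_YY (K j : ℕ) : (YY K j).ncard = 2 ^ K * {M : Module.End F (Fin j → F) | M ^ K = 0}.ncard := by
  have hne : ee F (K + 1) K ≠ 0 := by
    intro h2
    have h3 := congrFun h2 (Fin.last K)
    unfold ee at h3
    have h4 : ((Fin.last K : Fin (K + 1)) : ℕ) = K := rfl
    rw [if_pos h4] at h3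
    exact one_ne_zero h3
  have h1 := sp_dual (V := Fin (K + 1) → F) (m := K) (by rw [Module.finrank_fin_fun]) hne
  rw [← h1, mul_comm, ← Set.ncard_prod]
  let ψ : Module.End F (Fin j → F) × Module.Dual F (Fin (K + 1) → F) → Tp (MV K j) := fun q =>
    ((Sh K).prodMap q.1, ((ee F (K + 1) 0, 0), q.2.comp (LinearMap.fst F _ _)))
  have hinj : Function.Injective ψ := by
    rintro ⟨M, l⟩ ⟨M', l'⟩ h
    have e1 : (Sh K).prodMap M = (Sh K).prodMap M' := congrArg Prod.fst h
    have e2 : l.comp (LinearMap.fst F (Fin (K + 1) → F) (Fin j → F)) = l'.comp (LinearMap.fst F _ _) :=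
      congrArg (fun x => x.2.2) h
    have e3 : M = M' := by
      refine LinearMap.ext fun w => ?_
      have e4 := congrArg (fun f : MV K j →ₗ[F] MV K j => (f (0, w)).2) e1
      exact e4
    have e5 : l = l' := by
      refine LinearMap.ext fun u => ?_
      have e4 := congrArg (fun f : Module.Dual F (MV K j) => f (u, 0)) e2
      exact e4
    rw [e3, e5]
  rw [← Set.ncard_image_of_injective _ hinj]
  congr 1
  ext x
  constructor
  · rintro ⟨M, l, hM, hl, rfl⟩
    exact ⟨(M, l), ⟨hM, hl⟩, rfl⟩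
  · rintro ⟨⟨M, l⟩, ⟨hM, hl⟩, rfl⟩
    exact ⟨M, l, hM, hl, rfl⟩

/-- the stabiliser of the slice -/
private def Hm (K j : ℕ) : ((Fin j → F) ≃ₗ[F] (Fin j → F)) →* (MV K j ≃ₗ[F] MV K j) where
  toFun D := (LinearEquiv.refl F (Fin (K + 1) → F)).prodCongr D
  map_one' := rfl
  map_mul' _ _ := rfl

private theorem Hm_apply {K j : ℕ} (D : (Fin j → F) ≃ₗ[F] (Fin j → F)) (x : MV K j) : Hm K j D x = (x.1, D x.2) := rfl

private theorem Hm_inj (K j : ℕ) : Function.Injective (Hm K j) := by
  intro D D' h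
  refine LinearEquiv.ext fun w => ?_
  have h1 := congrArg (fun f : MV K j ≃ₗ[F] MV K j => (f (0, w)).2) h
  exact h1

private theorem card_Hm (K j : ℕ) : Nat.card (Hm K j).range = gl F j := by
  exact (Nat.card_congr (MonoidHom.ofInjective (Hm_inj K j)).toEquiv).symm

private theorem mem_Hm {K j : ℕ} (g : MV K j ≃ₗ[F] MV K j) (h1 : ∀ u : Fin (K + 1) → F, g (u, 0) = (u, 0))
    (h2 : ∀ w : Fin j → F, (g (0, w)).1 = 0) : g ∈ (Hm K j).range := by
  let D0 : (Fin j → F) →ₗ[F] (Fin j → F) := LinearMap.snd F _ _ ∘ₗ g.toLinearMap ∘ₗ LinearMap.inr F _ _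
  have hD0 : ∀ w, g (0, w) = (0, D0 w) := fun w => Prod.ext (h2 w) rfl
  have hinj : Function.Injective D0 := by
    rw [injective_iff_map_eq_zero]
    intro w hw
    have h3 := hD0 w
    rw [hw] at h3
    have h4 : ((0, w) : MV K j) = 0 := (LinearEquiv.map_eq_zero_iff g).1 h3
    exact congrArg Prod.snd h4
  refine ⟨LinearEquiv.ofInjectiveEndo D0 hinj, ?_⟩
  refine LinearEquiv.ext fun x => ?_
  rw [Hm_apply]
  have h3 : x = (x.1, 0) + (0, x.2) := by
    rw [Prod.mk_add_mk, add_zero, zero_add]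
  conv_rhs => rw [h3, map_add, h1, hD0, Prod.mk_add_mk, add_zero, zero_add]
  rfl

private theorem act_one {V : Type} [AddCommGroup V] [Module F V] (x : Tp V) : act 1 x = x := rfl

private theorem act_mul {V : Type} [AddCommGroup V] [Module F V] (g h : V ≃ₗ[F] V) (x : Tp V) :
    act (g * h) x = act g (act h x) := rfl

private theorem act_X {V : Type} [AddCommGroup V] [Module F V] (K : ℕ) (g : V ≃ₗ[F] V) (x : Tp V)
    (hx : x ∈ XX V K) : act g x ∈ XX V K := by
  refine ⟨conj_NV g hx.1, ?_⟩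
  show x.2.2 (g.symm ((g.conj x.1 ^ K) (g x.2.1))) = 1
  rw [conj_pow, LinearEquiv.conj_apply_apply, g.symm_apply_apply, g.symm_apply_apply]
  exact hx.2

private theorem YX (K j : ℕ) : YY K j ⊆ XX (MV K j) K := by
  rintro _ ⟨M, l, hM, hl, rfl⟩
  refine ⟨pm_NV hM, ?_⟩
  show l (((((Sh K).prodMap M : Module.End F (MV K j)) ^ K) (ee F (K + 1) 0, 0)).1) = 1
  rw [pm_ee]
  exact hl

private theorem HY (K j : ℕ) : ∀ h ∈ (Hm K j).range, ∀ y ∈ YY K j, act h y ∈ YY K j := by
  rintro _ ⟨D, rfl⟩ _ ⟨M, l, hM, hl, rfl⟩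
  refine ⟨D.conj M, l, ?_, hl, ?_⟩
  · rw [conj_pow, hM, map_zero]
  · refine Prod.ext ?_ (Prod.ext ?_ ?_)
    · refine LinearMap.ext fun x => ?_
      rfl
    · show ((ee F (K + 1) 0, D 0) : MV K j) = (ee F (K + 1) 0, 0)
      rw [map_zero]
    · refine LinearMap.ext fun x => ?_
      rfl

private theorem conj_int {V : Type} [AddCommGroup V] [Module F V] (g : V ≃ₗ[F] V) (N N' : Module.End F V)
    (h : g.conj N = N') (i : ℕ) (x : V) : (N' ^ i) (g x) = g ((N ^ i) x) := by
  rw [← h, conj_pow, LinearEquiv.conj_apply_apply, g.symm_apply_apply]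

private theorem YH (K j : ℕ) : ∀ g : MV K j ≃ₗ[F] MV K j, ∀ y ∈ YY K j, act g y ∈ YY K j → g ∈ (Hm K j).range := by
  rintro g _ ⟨M, l, hM, hl, rfl⟩ ⟨M', l', hM', hl', h⟩
  have e1 : g.conj ((Sh K).prodMap M) = (Sh K).prodMap M' := congrArg Prod.fst h
  have e2 : g (ee F (K + 1) 0, 0) = (ee F (K + 1) 0, 0) := congrArg (fun x => x.2.1) h
  have e3 : ∀ x : MV K j, l' (g x).1 = l x.1 := by
    intro x
    have e4 := congrArg (fun q : Tp (MV K j) => q.2.2 (g x)) h
    have e5 : l ((g.symm (g x)).1) = l' (g x).1 := e4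
    rw [g.symm_apply_apply] at e5
    exact e5.symm
  have e6 : ∀ i, g (ee F (K + 1) i, 0) = (ee F (K + 1) i, 0) := by
    intro i
    rw [← pm_ee M i, ← conj_int g _ _ e1, e2, pm_ee M', pm_ee M]
  have e7 : ∀ u : Fin (K + 1) → F, g (u, 0) = (u, 0) := by
    intro u
    have h1 : ∀ u : Fin (K + 1) → F, ((u, 0) : MV K j) =
        ∑ i : Fin (K + 1), u i • ((ee F (K + 1) i.1, 0) : MV K j) := by
      intro u
      have h2 : ∀ i : Fin (K + 1), u i • ((ee F (K + 1) i.1, 0) : MV K j) =
          (LinearMap.inl F _ _) (u i • ee F (K + 1) i.1) := by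
        intro i
        rw [Prod.smul_mk, smul_zero]
        rfl
      rw [Finset.sum_congr rfl fun i _ => h2 i, ← map_sum, ← ee_sum]
      rfl
    conv_lhs => rw [h1 u]
    rw [map_sum, h1 u]
    refine Finset.sum_congr rfl fun i _ => ?_
    rw [map_smul, e6]
  refine mem_Hm g e7 fun w => ?_
  refine tri (N := (Sh K).prodMap M') (v := (ee F (K + 1) 0, 0)) (l := l'.comp (LinearMap.fst F _ _)) ?_ ?_ _ ?_
  · refine LinearMap.ext fun x => ?_
    rw [pm_pow, Sh_top, pow_succ, hM', zero_mul]
    rfl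
  · rw [pm_ee]
    exact hl'
  · intro i _
    rw [pm_Bm]
    have h1 : (((g (0, w)).1, 0) : MV K j) = g (0, w) - (0, (g (0, w)).2) := by
      refine Prod.ext ?_ ?_
      · show (g (0, w)).1 = (g (0, w)).1 - 0
        rw [sub_zero]
      · show (0 : Fin j → F) = (g (0, w)).2 - (g (0, w)).2
        rw [sub_self]
    rw [h1, map_sub, map_sub, conj_int g _ _ e1]
    have h2 : (l'.comp (LinearMap.fst F (Fin (K + 1) → F) (Fin j → F)))
        (g ((((Sh K).prodMap M : Module.End F (MV K j)) ^ i) (0, w))) = 0 := by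
      show l' (g ((((Sh K).prodMap M : Module.End F (MV K j)) ^ i) (0, w))).1 = 0
      rw [e3, pm_pow]
      show l ((Sh K ^ i) 0) = 0
      rw [map_zero, map_zero]
    have h3 : (l'.comp (LinearMap.fst F (Fin (K + 1) → F) (Fin j → F)))
        ((((Sh K).prodMap M' : Module.End F (MV K j)) ^ i) (0, (g (0, w)).2)) = 0 := by
      rw [pm_pow]
      show l' ((Sh K ^ i) 0) = 0
      rw [map_zero, map_zero]
    rw [h2, h3, sub_zero]

end


section

private theorem XY (K j : ℕ) : ∀ x ∈ XX (MV K j) K, ∃ g : MV K j ≃ₗ[F] MV K j, ∃ y ∈ YY K j, act g y = x := by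
  rintro ⟨N, v, l⟩ ⟨⟨⟨k, hk⟩, hrk⟩, hl⟩
  have hk : N ^ k = 0 := hk
  have hrk : Module.finrank F (LinearMap.range (N ^ K)) = 1 := hrk
  have hl : l ((N ^ K) v) = 1 := hl
  set w0 := (N ^ K) v with hw0
  have hw0ne : w0 ≠ 0 := by
    intro h
    rw [h, map_zero] at hl
    exact zero_ne_one hl
  have hrange : ∀ x, ∃ c : F, (N ^ K) x = c • w0 := by
    intro x
    obtain ⟨c, hc⟩ := exists_smul_eq_of_finrank_eq_one hrk (x := (⟨w0, ⟨v, rfl⟩⟩ : LinearMap.range (N ^ K)))
      (fun h => hw0ne (congrArg Subtype.val h)) ⟨(N ^ K) x, ⟨x, rfl⟩⟩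
    exact ⟨c, (congrArg Subtype.val hc).symm⟩
  have hNw : N w0 = 0 := by
    obtain ⟨c, hc⟩ := hrange (N v)
    have h1 : N w0 = c • w0 := by
      rw [← hc, hw0, ← Module.End.mul_apply, ← Module.End.mul_apply, ← pow_succ', ← pow_succ]
    rcases sp_zo c with h | h
    · rw [h1, h, zero_smul]
    · exfalso
      rw [h, one_smul] at h1
      have h2 : ∀ i : ℕ, (N ^ i) w0 = w0 := by
        intro i
        induction i with
        | zero => rfl
        | succ i ih => rw [pow_succ', Module.End.mul_apply, ih, h1]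
      have h3 := h2 k
      rw [hk, LinearMap.zero_apply] at h3
      exact hw0ne h3.symm
  have hN1 : N ^ (K + 1) = 0 := by
    refine LinearMap.ext fun x => ?_
    obtain ⟨c, hc⟩ := hrange x
    rw [pow_succ', Module.End.mul_apply, hc, map_smul, hNw, smul_zero]
    rfl
  -- the complement
  let L : MV K j →ₗ[F] (Fin (K + 1) → F) := LinearMap.pi fun i => l.comp (N ^ i.1)
  have hLa : ∀ x i, L x i = l ((N ^ i.1) x) := fun x i => rfl
  have hLB : Function.Injective (L.comp (Bm K N v)) := by
    rw [injective_iff_map_eq_zero]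
    intro u hu
    refine tri hN1 hl u fun i hi => ?_
    have h1 := congrFun hu ⟨i, by omega⟩
    exact h1
  have hLsurj : Function.Surjective L := by
    have h1 := LinearMap.surjective_of_injective hLB
    intro u
    obtain ⟨z, hz⟩ := h1 u
    exact ⟨_, hz⟩
  have hker : Module.finrank F (LinearMap.ker L) = j := by
    have h1 := LinearMap.finrank_range_add_finrank_ker L
    rw [LinearMap.range_eq_top.2 hLsurj, finrank_top, Module.finrank_prod, Module.finrank_fin_fun,
      Module.finrank_fin_fun] at h1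
    omega
  have hmem : ∀ x, x ∈ LinearMap.ker L ↔ ∀ i ≤ K, l ((N ^ i) x) = 0 := by
    intro x
    rw [LinearMap.mem_ker]
    constructor
    · intro h i hi
      exact congrFun h ⟨i, by omega⟩
    · intro h
      ext i
      exact h i.1 (by omega)
  have hstab : ∀ x ∈ LinearMap.ker L, N x ∈ LinearMap.ker L := by
    intro x hx
    rw [hmem] at hx ⊢
    intro i hi
    have h1 : (N ^ i) (N x) = (N ^ (i + 1)) x := by rw [pow_succ, Module.End.mul_apply]
    rw [h1]
    rcases Nat.lt_or_ge i K with h | h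
    · exact hx _ h
    · have h2 : i = K := by omega
      rw [h2, hN1, LinearMap.zero_apply, map_zero]
  have hNK : ∀ x ∈ LinearMap.ker L, (N ^ K) x = 0 := by
    intro x hx
    obtain ⟨c, hc⟩ := hrange x
    have h1 := (hmem x).1 hx K le_rfl
    rw [hc, map_smul, hl, smul_eq_mul, mul_one] at h1
    rw [hc, h1, zero_smul]
  -- the isomorphism
  let ι : (Fin j → F) ≃ₗ[F] LinearMap.ker L := LinearEquiv.ofFinrankEq _ _ (by
    rw [Module.finrank_fin_fun, hker])
  let g0 : MV K j →ₗ[F] MV K j := (Bm K N v).coprod ((LinearMap.ker L).subtype ∘ₗ ι.toLinearMap)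
  have hg0 : ∀ x : MV K j, g0 x = Bm K N v x.1 + (ι x.2 : MV K j) := fun x => rfl
  have hginj : Function.Injective g0 := by
    rw [injective_iff_map_eq_zero]
    intro x hx
    have h1 : L (g0 x) = 0 := by rw [hx, map_zero]
    have h2 : L (ι x.2 : MV K j) = 0 := (ι x.2).2
    rw [hg0, map_add, h2, add_zero] at h1
    have h3 : x.1 = 0 := (injective_iff_map_eq_zero _).1 hLB x.1 h1
    rw [hg0, h3, map_zero, zero_add] at hx
    have h4 : ι x.2 = 0 := Subtype.ext hx
    have h5 : x.2 = 0 := (LinearEquiv.map_eq_zero_iff ι).1 h4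
    exact Prod.ext h3 h5
  let g : MV K j ≃ₗ[F] MV K j := LinearEquiv.ofInjectiveEndo g0 hginj
  have hg : ∀ x, g x = g0 x := fun x => rfl
  let M : Module.End F (Fin j → F) := ι.symm.toLinearMap ∘ₗ (N.restrict hstab) ∘ₗ ι.toLinearMap
  have hM1 : ∀ w, (ι (M w) : MV K j) = N (ι w) := by
    intro w
    show ((ι (ι.symm ((N.restrict hstab) (ι w)))) : MV K j) = _
    rw [ι.apply_symm_apply]
    rfl
  have hMi : ∀ i w, (ι ((M ^ i) w) : MV K j) = (N ^ i) (ι w) := by
    intro i
    induction i with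
    | zero => intro w; rfl
    | succ i ih =>
      intro w
      rw [pow_succ', Module.End.mul_apply, hM1, ih, pow_succ', Module.End.mul_apply]
  have hMK : M ^ K = 0 := by
    refine LinearMap.ext fun w => ?_
    have h1 := hMi K w
    rw [hNK _ (ι w).2] at h1
    exact (LinearEquiv.map_eq_zero_iff ι).1 (Subtype.ext h1)
  have hB0 : Bm K N v (ee F (K + 1) 0) = v := by
    rw [Bm_apply, Finset.sum_eq_single 0]
    · show (1 : F) • (N ^ 0) v = v
      rw [one_smul]
      rfl
    · intro b _ hb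
      have h1 : b.1 ≠ 0 := fun h => hb (Fin.ext h)
      have h2 : ee F (K + 1) 0 b = 0 := by
        unfold ee
        rw [if_neg h1]
      rw [h2, zero_smul]
    · intro h
      exact absurd (Finset.mem_univ _) h
  have hBS : ∀ u, Bm K N v (Sh K u) = N (Bm K N v u) := by
    intro u
    rw [Bm_apply, Bm_apply, map_sum, Fin.sum_univ_succ, Fin.sum_univ_castSucc (n := K)
      (f := fun i => N (u i • (N ^ i.1) v)), Sh_zero, zero_smul, zero_add]
    have h1 : N (u (Fin.last K) • (N ^ (Fin.last K).1) v) = 0 := by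
      rw [map_smul]
      show _ • N ((N ^ K) v) = 0
      rw [← hw0, hNw, smul_zero]
    rw [h1, add_zero]
    refine Finset.sum_congr rfl fun i _ => ?_
    rw [Sh_succ, map_smul]
    show _ • (N ^ (i.1 + 1)) v = _ • N ((N ^ i.1) v)
    rw [pow_succ', Module.End.mul_apply]
  have hint : ∀ x, g (((Sh K).prodMap M : Module.End F (MV K j)) x) = N (g x) := by
    intro x
    rw [hg, hg, hg0, hg0, map_add]
    show Bm K N v (Sh K x.1) + (ι (M x.2) : MV K j) = _
    rw [hBS, hM1]
  have hlB : ∀ u, l (Bm K N v u) = l (g (u, 0)) := by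
    intro u
    rw [hg, hg0]
    show _ = l (Bm K N v u + (ι 0 : MV K j))
    rw [map_zero]
    show _ = l (Bm K N v u + 0)
    rw [add_zero]
  have hBK : Bm K N v (ee F (K + 1) K) = w0 := by
    rw [Bm_apply, Finset.sum_eq_single (Fin.last K)]
    · have h2 : ee F (K + 1) K (Fin.last K) = 1 := by
        unfold ee
        rw [if_pos]
        rfl
      rw [h2, one_smul]
      rfl
    · intro b _ hb
      have h1 : b.1 ≠ K := fun h => hb (Fin.ext h)
      have h2 : ee F (K + 1) K b = 0 := by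
        unfold ee
        rw [if_neg h1]
      rw [h2, zero_smul]
    · intro h
      exact absurd (Finset.mem_univ _) h
  refine ⟨g, ((Sh K).prodMap M, ((ee F (K + 1) 0, 0), (l.comp (Bm K N v)).comp (LinearMap.fst F _ _))), ?_, ?_⟩
  · refine ⟨M, l.comp (Bm K N v), hMK, ?_, rfl⟩
    show l (Bm K N v (ee F (K + 1) K)) = 1
    rw [hBK]
    exact hl
  · refine Prod.ext ?_ (Prod.ext ?_ ?_)
    · refine LinearMap.ext fun x => ?_
      show g (((Sh K).prodMap M : Module.End F (MV K j)) (g.symm x)) = N x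
      rw [hint, g.apply_symm_apply]
    · show g (ee F (K + 1) 0, 0) = v
      rw [hg, hg0]
      show Bm K N v (ee F (K + 1) 0) + (ι 0 : MV K j) = v
      rw [hB0, map_zero]
      exact add_zero _
    · refine LinearMap.ext fun x => ?_
      show l (Bm K N v (g.symm x).1) = l x
      have h1 : x = g (g.symm x) := (g.apply_symm_apply x).symm
      conv_rhs => rw [h1]
      rw [hg, hg0, map_add]
      have h2 := (hmem _).1 (ι (g.symm x).2).2 0 (Nat.zero_le _)
      have h3 : l (ι (g.symm x).2 : MV K j) = 0 := h2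
      rw [h3, add_zero]

theorem split_count {K : ℕ} (hK : 1 ≤ K) (j : ℕ) :
    (UN K (K + 1 + j)).ncard * 4 ^ (K + j) * gl F j =
      gl F (K + 1 + j) * (2 ^ K * (ZK K j).ncard) := by
  have hfE : Finite (Module.End F (MV K j)) := Module.finite_of_finite F
  have hfD : Finite (Module.Dual F (MV K j)) := Module.finite_of_finite F
  have h1 := orbit_count (G := MV K j ≃ₗ[F] MV K j) (α := Tp (MV K j)) act act_one act_mul
    (XX (MV K j) K) (YY K j) (Hm K j).range (YX K j) (act_X K) (XY K j) (YH K j) (HY K j)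
  have h2 : Module.finrank F (MV K j) = (K + j) + 1 := by
    rw [Module.finrank_prod, Module.finrank_fin_fun, Module.finrank_fin_fun]
    omega
  let e : (Fin (K + 1 + j) → F) ≃ₗ[F] MV K j := LinearEquiv.ofFinrankEq _ _ (by
    rw [h2, Module.finrank_fin_fun]
    omega)
  have h3 : (UN K (K + 1 + j)).ncard = (NV (MV K j) K).ncard := by
    rw [← card_NV e K]
    exact sp_exp (fun N => IsNilpotent N ∧ Module.finrank F (LinearMap.range (N ^ K)) = 1) fun N hN => hN.1
  have h4 : (ZK K j).ncard = {M : Module.End F (Fin j → F) | M ^ K = 0}.ncard :=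
    sp_exp (fun N => N ^ K = 0) fun N hN => ⟨K, hN⟩
  have h5 : Nat.card (MV K j ≃ₗ[F] MV K j) = gl F (K + 1 + j) := by
    refine Nat.card_congr ⟨fun g => (e.trans g).trans e.symm, fun g => (e.symm.trans g).trans e, fun g => ?_, fun g => ?_⟩
    · refine LinearEquiv.ext fun x => ?_
      simp
    · refine LinearEquiv.ext fun x => ?_
      simp
  rw [card_XX h2, card_YY, card_Hm, h5, ← h3, ← h4] at h1
  rw [← h1]
  have h6 : 4 ^ (K + j) = 2 ^ (K + j) * 2 ^ (K + j) := by
    rw [← mul_pow]
    norm_num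
  rw [h6]

private theorem gl_pos (n : ℕ) : 0 < gl F n := by
  unfold gl
  exact Nat.card_pos

theorem split_prp {K : ℕ} (hK : 1 ≤ K) (j : ℕ) :
    prp (K + 1 + j) (UN K (K + 1 + j)) = prp j (ZK K j) / (2 ^ K * 4 ^ j) := by
  have h1 := split_count hK j
  have h2 : ((UN K (K + 1 + j)).ncard : ℝ) * 4 ^ (K + j) * gl F j =
      gl F (K + 1 + j) * (2 ^ K * (ZK K j).ncard) := by exact_mod_cast h1
  have h3 : (0 : ℝ) < gl F j := by exact_mod_cast gl_pos j
  have h4 : (0 : ℝ) < gl F (K + 1 + j) := by exact_mod_cast gl_pos (K + 1 + j)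
  unfold prp
  rw [div_div, div_eq_div_iff h4.ne' (by positivity)]
  have h5 : (4 : ℝ) ^ (K + j) = 2 ^ K * (2 ^ K * 4 ^ j) := by
    rw [pow_add, ← mul_assoc, ← mul_pow]
    norm_num
  rw [h5] at h2
  have h6 : (0 : ℝ) < 2 ^ K := by positivity
  have h7 : (2 : ℝ) ^ K * (((UN K (K + 1 + j)).ncard : ℝ) * (gl F j * (2 ^ K * 4 ^ j))) =
      2 ^ K * ((ZK K j).ncard * gl F (K + 1 + j)) := by
    linear_combination h2
  exact mul_left_cancel₀ h6.ne' h7

end

end Pool.Agent.TWO
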