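import Pool.Agent.TWO.Dec
import Pool.Agent.TWO.CBas

/-!
# TWO/Strip: stripping off the primary part of a polynomial

`A n`, `B n`, `E n` are conjugation invariant families; on `A n` the polynomial `χ` is nilpotent, on
`B n` it is injective; block sums of elements of `A a` and `B b` are in `E (a + b)`. Then
`∑_a prp a (A a) * prp (n - a) (B (n - a)) ≤ prp n (E n)`: the sets of the elements which decompose
with parts in `A a` and `B (n - a)` are disjoint, as the kernel of `χ ^ n` has dimension `a`.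
-/

open Polynomial

namespace Pool.Agent.TWO

open Pool.Agent.PSD

private theorem strip_ker {a b : ℕ} (φ : F[X]) {P : Set (GLn a)} {Q : Set (GLn b)}
    (hP0 : ∀ p ∈ P, aeval p.toLinearMap φ = 0)
    (hQ0 : ∀ q ∈ Q, Function.Injective (aeval q.toLinearMap φ)) {g : GLn (a + b)}
    (hg : g ∈ Dc P Q) :
    Module.finrank F (LinearMap.ker (aeval g.toLinearMap φ)) = a := by
  obtain ⟨e, p, hp, q, hq, hcj⟩ := hg
  have h1 : LinearMap.ker (aeval g.toLinearMap φ) =
      LinearMap.ker ((LinearMap.snd F (Fin a → F) (Fin b → F)).comp e.toLinearMap) := by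
    ext v
    rw [LinearMap.mem_ker, LinearMap.mem_ker]
    have h2 : e (aeval g.toLinearMap φ v) = ((0 : Fin a → F), aeval q.toLinearMap φ (e v).2) := by
      rw [← aeval_cj, hcj]
      have h3 : e v = ((e v).1, (e v).2) := rfl
      rw [h3, blk_aeval_zero, hP0 p hp]
      rfl
    have h4 : ((LinearMap.snd F (Fin a → F) (Fin b → F)).comp e.toLinearMap) v = (e v).2 := rfl
    rw [h4]
    constructor
    · intro h
      rw [h, map_zero] at h2
      have h5 : aeval q.toLinearMap φ (e v).2 = 0 := (congrArg Prod.snd h2).symm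
      exact hQ0 q hq (by rw [h5, map_zero])
    · intro h
      rw [h, map_zero] at h2
      exact (LinearEquiv.map_eq_zero_iff e).1 h2
  have h2 := LinearMap.finrank_range_add_finrank_ker
    ((LinearMap.snd F (Fin a → F) (Fin b → F)).comp e.toLinearMap)
  have h3 : LinearMap.range ((LinearMap.snd F (Fin a → F) (Fin b → F)).comp e.toLinearMap) = ⊤ := by
    rw [LinearMap.range_eq_top]
    intro w
    refine ⟨e.symm (0, w), ?_⟩
    show (e (e.symm (0, w))).2 = w
    rw [LinearEquiv.apply_symm_apply]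
  rw [h3, finrank_top, Module.finrank_fin_fun, Module.finrank_fin_fun] at h2
  rw [h1]
  omega

private theorem strip_inj {b : ℕ} (χ : F[X]) {q : GLn b}
    (h : Function.Injective (aeval q.toLinearMap χ)) (k : ℕ) :
    Function.Injective (aeval q.toLinearMap (χ ^ k)) := by
  rw [map_pow, Module.End.coe_pow]
  exact h.iterate k

private theorem strip_set (χ : F[X]) (A B E : ∀ n : ℕ, Set (GLn n))
    (hA : ∀ n, CI (A n)) (hB : ∀ n, CI (B n))
    (hA0 : ∀ n, ∀ p ∈ A n, aeval p.toLinearMap (χ ^ n) = 0)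
    (hB0 : ∀ n, ∀ q ∈ B n, Function.Injective (aeval q.toLinearMap χ))
    (hE : ∀ a b : ℕ, Dc (A a) (B b) ⊆ E (a + b)) {n a b : ℕ} (h : a + b = n) :
    ∃ T : Set (GLn n), T ⊆ E n ∧ prp n T = prp a (A a) * prp b (B b) ∧
      ∀ g ∈ T, Module.finrank F (LinearMap.ker (aeval g.toLinearMap (χ ^ n))) = a := by
  subst h
  have h1 : ∀ p ∈ A a, aeval p.toLinearMap (χ ^ (a + b)) = 0 := fun p hp => by
    rw [pow_add, map_mul, hA0 a p hp, zero_mul]
  have h2 : ∀ q ∈ B b, Function.Injective (aeval q.toLinearMap (χ ^ (a + b))) := fun q hq =>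
    strip_inj χ (hB0 b q hq) _
  exact ⟨Dc (A a) (B b), hE a b, dec_prp (A a) (B b) (χ ^ (a + b)) (hA a) (hB b) h1 h2,
    fun g hg => strip_ker (χ ^ (a + b)) h1 h2 hg⟩

theorem strip (χ : F[X]) (A B E : ∀ n : ℕ, Set (GLn n))
    (hA : ∀ n, CI (A n)) (hB : ∀ n, CI (B n))
    (hA0 : ∀ n, ∀ p ∈ A n, aeval p.toLinearMap (χ ^ n) = 0)
    (hB0 : ∀ n, ∀ q ∈ B n, Function.Injective (aeval q.toLinearMap χ))
    (hE : ∀ a b : ℕ, Dc (A a) (B b) ⊆ E (a + b)) (n : ℕ) :
    ∑ a ∈ Finset.range (n + 1), prp a (A a) * prp (n - a) (B (n - a)) ≤ prp n (E n) := by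
  have h : ∀ a : ℕ, ∃ T : Set (GLn n), a ∈ Finset.range (n + 1) → T ⊆ E n ∧
      prp n T = prp a (A a) * prp (n - a) (B (n - a)) ∧
      ∀ g ∈ T, Module.finrank F (LinearMap.ker (aeval g.toLinearMap (χ ^ n))) = a := by
    intro a
    by_cases ha : a ∈ Finset.range (n + 1)
    · have h1 : a + (n - a) = n := by
        have := Finset.mem_range.1 ha
        omega
      obtain ⟨T, hT⟩ := strip_set χ A B E hA hB hA0 hB0 hE h1
      exact ⟨T, fun _ => hT⟩
    · exact ⟨∅, fun h => absurd h ha⟩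
  choose T hT using h
  rw [← Finset.sum_congr rfl fun a ha => (hT a ha).2.1]
  refine prp_sum (Finset.range (n + 1)) T (E n) (fun i hi j hj hij => ?_) fun i hi => (hT i hi).1
  rw [Set.disjoint_left]
  intro g hgi hgj
  exact hij (((hT i hi).2.2 g hgi).symm.trans ((hT j hj).2.2 g hgj))

/-- a single term of the sum, for families which are empty except for two indices -/
theorem strip_one {a b : ℕ} (χ : F[X]) (A : Set (GLn a)) (B : Set (GLn b)) (E : Set (GLn (a + b)))
    (hA : CI A) (hB : CI B) (hA0 : ∀ p ∈ A, aeval p.toLinearMap (χ ^ a) = 0)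
    (hB0 : ∀ q ∈ B, Function.Injective (aeval q.toLinearMap χ)) (hE : Dc A B ⊆ E) :
    prp a A * prp b B ≤ prp (a + b) E := by
  rw [← dec_prp A B (χ ^ a) hA hB hA0 fun q hq => strip_inj χ (hB0 q hq) _]
  exact prp_mono hE

end Pool.Agent.TWO
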