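import Pool.Agent.TWO.Tab

/-!
# TWO/TabR: the finite part of the numerical lower bound

All numbers are checked in `Tab.lean`; here they are transferred to the real sequences.
-/

namespace Pool.Agent.TWO

open Pool.Agent.PSD

private theorem cast_e1 (r : ℕ) : ((qe1 r : ℚ) : ℝ) = e1 r := by
  unfold qe1 e1
  push_cast
  ring

private theorem cast_e3 (r : ℕ) : ((qe3 r : ℚ) : ℝ) = e3 r := by
  unfold qe3 e3
  push_cast
  split_ifs <;> norm_num

private theorem pow_ge (r : ℕ) (hr : 1 ≤ r) : (2 : ℝ) ≤ 2 ^ r := by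
  calc (2 : ℝ) = 2 ^ 1 := by norm_num
    _ ≤ 2 ^ r := pow_le_pow_right₀ (by norm_num) hr

private theorem e1_le (r : ℕ) (hr : 2 ≤ r) : 0 ≤ 1 - e1 r := by
  unfold e1
  have h := pow_ge r (by omega)
  rw [sub_nonneg, div_le_one (by linarith)]
  linarith

private theorem e3_le (r : ℕ) (hr : 4 ≤ r) : 0 ≤ 1 - e3 r := by
  unfold e3
  have h : (16 : ℝ) ≤ 2 ^ r := by
    calc (16 : ℝ) = 2 ^ 4 := by norm_num
      _ ≤ 2 ^ r := pow_le_pow_right₀ (by norm_num) hr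
  rw [sub_nonneg, div_le_one (by linarith)]
  split_ifs <;> linarith

/-- the induction used for both tables -/
private theorem tab_aux {k : ℕ} {e : ℕ → ℝ} {qe : ℕ → ℚ} (he : ∀ r, ((qe r : ℚ) : ℝ) = e r)
    (hle : ∀ r, k + 1 ≤ r → 0 ≤ 1 - e r) {L U : List ℤ}
    (hchk : ∀ n ∈ Finset.range 44, 1 ≤ n →
      (n : ℚ) * gt L n ≤ ∑ r ∈ Finset.Icc (k + 1) n, (1 - qe r) * gt L (n - r) ∧
      ∑ r ∈ Finset.Icc (k + 1) n, (1 - qe r) * gt U (n - r) ≤ (n : ℚ) * gt U n)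
    (hL0 : gt L 0 = 10 ^ 12) (hU0 : gt U 0 = 10 ^ 12)
    {b : ℕ → ℝ} (h : IsRec k e b) : ∀ m : ℕ, m < 44 →
    ((gt L m : ℚ) : ℝ) ≤ 10 ^ 12 * b m ∧ 10 ^ 12 * b m ≤ ((gt U m : ℚ) : ℝ) := by
  intro m
  induction m using Nat.strong_induction_on with
  | _ m ih =>
  intro hm
  rcases Nat.eq_zero_or_pos m with rfl | hpos
  · rw [hL0, hU0, h.1]
    norm_num
  have hmr : (0 : ℝ) < (m : ℝ) := by exact_mod_cast hpos
  obtain ⟨c1, c2⟩ := hchk m (Finset.mem_range.2 hm) hpos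
  have c1' : (m : ℝ) * ((gt L m : ℚ) : ℝ) ≤
      ∑ r ∈ Finset.Icc (k + 1) m, (1 - e r) * ((gt L (m - r) : ℚ) : ℝ) := by
    have := (Rat.cast_le (K := ℝ)).2 c1
    push_cast at this
    simpa only [he] using this
  have c2' : ∑ r ∈ Finset.Icc (k + 1) m, (1 - e r) * ((gt U (m - r) : ℚ) : ℝ) ≤
      (m : ℝ) * ((gt U m : ℚ) : ℝ) := by
    have := (Rat.cast_le (K := ℝ)).2 c2
    push_cast at this
    simpa only [he] using this
  have hrec := h.2 m hpos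
  have e1 : (m : ℝ) * (10 ^ 12 * b m) =
      ∑ r ∈ Finset.Icc (k + 1) m, (1 - e r) * (10 ^ 12 * b (m - r)) := by
    calc (m : ℝ) * (10 ^ 12 * b m) = 10 ^ 12 * ((m : ℝ) * b m) := by ring
      _ = _ := by
        rw [hrec, Finset.mul_sum]
        refine Finset.sum_congr rfl fun r _ => ?_
        ring
  have s1 : ∑ r ∈ Finset.Icc (k + 1) m, (1 - e r) * ((gt L (m - r) : ℚ) : ℝ) ≤
      ∑ r ∈ Finset.Icc (k + 1) m, (1 - e r) * (10 ^ 12 * b (m - r)) := by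
    refine Finset.sum_le_sum fun r hr => ?_
    obtain ⟨h1, h2⟩ := Finset.mem_Icc.1 hr
    exact mul_le_mul_of_nonneg_left (ih (m - r) (by omega) (by omega)).1 (hle r h1)
  have s2 : ∑ r ∈ Finset.Icc (k + 1) m, (1 - e r) * (10 ^ 12 * b (m - r)) ≤
      ∑ r ∈ Finset.Icc (k + 1) m, (1 - e r) * ((gt U (m - r) : ℚ) : ℝ) := by
    refine Finset.sum_le_sum fun r hr => ?_
    obtain ⟨h1, h2⟩ := Finset.mem_Icc.1 hr
    exact mul_le_mul_of_nonneg_left (ih (m - r) (by omega) (by omega)).2 (hle r h1)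
  constructor
  · have : (m : ℝ) * ((gt L m : ℚ) : ℝ) ≤ (m : ℝ) * (10 ^ 12 * b m) := by
      rw [e1]; exact c1'.trans s1
    exact le_of_mul_le_mul_left this hmr
  · have : (m : ℝ) * (10 ^ 12 * b m) ≤ (m : ℝ) * ((gt U m : ℚ) : ℝ) := by
      rw [e1]; exact s2.trans c2'
    exact le_of_mul_le_mul_left this hmr

theorem tab1 {b : ℕ → ℝ} (h : IsRec 1 e1 b) {m : ℕ} (hm : m < 44) :
    ((gt l1 m : ℚ) : ℝ) ≤ 10 ^ 12 * b m ∧ 10 ^ 12 * b m ≤ ((gt h1 m : ℚ) : ℝ) :=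
  tab_aux (k := 1) cast_e1 (fun r hr => e1_le r hr) chk1 (by decide +kernel) (by decide +kernel)
    h m hm

theorem tab3 {b : ℕ → ℝ} (h : IsRec 3 e3 b) {m : ℕ} (hm : m < 44) :
    ((gt l3 m : ℚ) : ℝ) ≤ 10 ^ 12 * b m ∧ 10 ^ 12 * b m ≤ ((gt h3 m : ℚ) : ℝ) :=
  tab_aux (k := 3) cast_e3 (fun r hr => e3_le r hr) chk3 (by decide +kernel) (by decide +kernel)
    h m hm

theorem tabN {N : ℕ → ℝ} (h : IsN N) {d : ℕ} (h1 : 1 ≤ d) (hd : d < 23) :
    N d = ((gt tN d : ℚ) : ℝ) := by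
  induction d using Nat.strong_induction_on with
  | _ d ih =>
  have e1 := h.2 d h1
  have e2 := chkN d (Finset.mem_range.2 hd) h1
  have e2' : ∑ c ∈ d.divisors, (c : ℝ) * ((gt tN c : ℚ) : ℝ) = 2 ^ d - 1 := by
    have := congrArg (fun x : ℚ => (x : ℝ)) e2
    simpa using this
  have hs : d.divisors = insert d d.properDivisors := (Nat.insert_self_properDivisors (by omega)).symm
  rw [hs, Finset.sum_insert Nat.self_notMem_properDivisors] at e1 e2'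
  have e3 : ∑ c ∈ d.properDivisors, (c : ℝ) * N c =
      ∑ c ∈ d.properDivisors, (c : ℝ) * ((gt tN c : ℚ) : ℝ) := by
    refine Finset.sum_congr rfl fun c hc => ?_
    obtain ⟨hc1, hc2⟩ := Nat.mem_properDivisors.1 hc
    have hc0 : 1 ≤ c := Nat.pos_of_dvd_of_pos hc1 (by omega)
    rw [ih c hc2 hc0 (by omega)]
  rw [e3] at e1
  have hd0 : (d : ℝ) ≠ 0 := by
    have : (0 : ℝ) < d := by exact_mod_cast h1
    exact ne_of_gt this
  have e4 : (d : ℝ) * N d = (d : ℝ) * ((gt tN d : ℚ) : ℝ) := by linarith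
  exact mul_left_cancel₀ hd0 e4

private theorem dd_ge {b N : ℕ → ℝ} {L U : List ℤ} (hN : IsN N) {k c : ℕ} (hc : 2 ≤ c)
    (hk : 1 ≤ k)
    (hb : ∀ m < 44, ((gt L m : ℚ) : ℝ) ≤ 10 ^ 12 * b m ∧ 10 ^ 12 * b m ≤ ((gt U m : ℚ) : ℝ))
    {m : ℕ} (hm : m < 44) : ((qDD L U k c m : ℚ) : ℝ) ≤ 10 ^ 12 * DD b N k c m := by
  unfold qDD DD
  push_cast
  have h1 : ∑ d ∈ Finset.Icc (k + 1) (m / c),
      (10 : ℝ) ^ 12 * (N d * b (m - c * d) / (2 ^ (c * d) - 2 ^ ((c - 1) * d))) ≤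
      ∑ d ∈ Finset.Icc (k + 1) (m / c),
        ((gt tN d : ℚ) : ℝ) * ((gt U (m - c * d) : ℚ) : ℝ) /
          (2 ^ (c * d) - 2 ^ ((c - 1) * d)) := by
    refine Finset.sum_le_sum fun d hd => ?_
    obtain ⟨hd1, hd2⟩ := Finset.mem_Icc.1 hd
    have hd3 : d ≤ 21 := by
      have h2 : m / c ≤ m / 2 := Nat.div_le_div_left hc (by norm_num)
      omega
    have hden : (0 : ℝ) < 2 ^ (c * d) - 2 ^ ((c - 1) * d) := by
      have : (2 : ℝ) ^ ((c - 1) * d) < 2 ^ (c * d) := by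
        refine pow_lt_pow_right₀ (by norm_num) ?_
        exact Nat.mul_lt_mul_of_pos_right (by omega) (by omega)
      linarith
    rw [tabN hN (by omega) (by omega)]
    have hnn : 0 ≤ ((gt tN d : ℚ) : ℝ) := by
      rw [← tabN hN (by omega) (by omega)]
      exact hN.1 d
    have h3 := (hb (m - c * d) (by omega)).2
    rw [← mul_div_assoc]
    refine div_le_div_of_nonneg_right ?_ hden.le
    calc (10 : ℝ) ^ 12 * (((gt tN d : ℚ) : ℝ) * b (m - c * d)) =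
        ((gt tN d : ℚ) : ℝ) * (10 ^ 12 * b (m - c * d)) := by ring
      _ ≤ _ := mul_le_mul_of_nonneg_left h3 hnn
  have h2 := (hb m hm).1
  rw [mul_sub, Finset.mul_sum]
  linarith

private theorem cub_ge {f : ℕ → ℝ} {q : ℕ → ℚ} {M : ℕ}
    (h : ∀ m < M, ((q m : ℚ) : ℝ) ≤ 10 ^ 12 * f m) :
    ∀ m < M, ((qcub q m : ℚ) : ℝ) ≤ 10 ^ 12 * cub f m := by
  intro m hm
  unfold qcub cub
  by_cases h3 : 3 ≤ m
  · rw [if_pos h3, if_pos h3]
    push_cast
    have a := h m hm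
    have b := h (m - 3) (by omega)
    linarith
  · rw [if_neg h3, if_neg h3]
    have a := h m hm
    simpa using a

private theorem quad_ge {f : ℕ → ℝ} {q : ℕ → ℚ} {M : ℕ}
    (h : ∀ m < M, ((q m : ℚ) : ℝ) ≤ 10 ^ 12 * f m) :
    ∀ m < M, ((qquad q m : ℚ) : ℝ) ≤ 10 ^ 12 * quad f m := by
  intro m hm
  unfold qquad quad
  have a := h m hm
  by_cases h2 : 2 ≤ m <;> by_cases h4 : 4 ≤ m
  · rw [if_pos h2, if_pos h2, if_pos h4, if_pos h4]
    push_cast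
    have b := h (m - 2) (by omega)
    have c := h (m - 4) (by omega)
    linarith
  · rw [if_pos h2, if_pos h2, if_neg h4, if_neg h4]
    push_cast
    have b := h (m - 2) (by omega)
    linarith
  · omega
  · rw [if_neg h2, if_neg h2, if_neg h4, if_neg h4]
    push_cast
    linarith

theorem ww_tab {b1 b3 N : ℕ → ℝ} (h1 : IsRec 1 e1 b1) (h3 : IsRec 3 e3 b3) (hN : IsN N) {m : ℕ}
    (hm : m < 44) {K : ℕ} (hK : K ∈ ({1, 2, 4, 8} : Finset ℕ)) :
    ((gt (if K = 1 then w0 else if K = 2 then w2 else w4) m : ℚ) : ℝ) ≤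
      10 ^ 12 * WW b1 b3 N K m := by
  have t1 : ∀ m < 44, _ := fun m hm => tab1 h1 (m := m) hm
  have t3 : ∀ m < 44, _ := fun m hm => tab3 h3 (m := m) hm
  unfold WW
  by_cases c1 : K = 1
  · rw [if_pos c1, if_pos c1]
    have a := (Rat.cast_le (K := ℝ)).2 (chkW0 m (Finset.mem_range.2 hm))
    refine a.trans ?_
    unfold W0
    refine quad_ge (M := 44) ?_ m hm
    refine cub_ge (M := 44) ?_
    refine cub_ge (M := 44) ?_
    intro m hm
    exact dd_ge hN (by norm_num) (by norm_num) t3 hm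
  · rw [if_neg c1, if_neg c1]
    by_cases c2 : K = 2
    · rw [if_pos c2, if_pos c2]
      have a := (Rat.cast_le (K := ℝ)).2 (chkW2 m (Finset.mem_range.2 hm))
      exact a.trans (dd_ge hN (by norm_num) (by norm_num) t1 hm)
    · rw [if_neg c2, if_neg c2]
      have a := (Rat.cast_le (K := ℝ)).2 (chkW4 m (Finset.mem_range.2 hm))
      exact a.trans (dd_ge hN (by norm_num) (by norm_num) t1 hm)

private theorem zz_eq (K i : ℕ) : ((qzz K i : ℚ) : ℝ) = zz K i := by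
  unfold qzz zz
  split_ifs <;> norm_num

private theorem zz_nonneg (K i : ℕ) : 0 ≤ zz K i := by
  unfold zz
  split_ifs <;> norm_num

private theorem qT_le {b1 b3 N : ℕ → ℝ} (h1 : IsRec 1 e1 b1) (h3 : IsRec 3 e3 b3) (hN : IsN N)
    {n : ℕ} (hn : n < 45) : ((qT n : ℚ) : ℝ) ≤ 10 ^ 12 * TvL b1 b3 N n := by
  unfold qT TvL
  rw [Finset.mul_sum, Rat.cast_sum]
  refine Finset.sum_le_sum fun K hK => ?_
  rw [Finset.mul_sum, Rat.cast_sum]
  refine Finset.sum_le_sum fun i hi => ?_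
  by_cases h : K + 1 + i ≤ n
  · rw [if_pos h, if_pos h]
    have a := ww_tab h1 h3 hN (m := n - (K + 1 + i)) (by
      have : 1 ≤ K := by
        simp only [Finset.mem_insert, Finset.mem_singleton] at hK
        omega
      omega) hK
    have b : 0 ≤ zz K i / (2 ^ K * 4 ^ i) := div_nonneg (zz_nonneg K i) (by positivity)
    rw [Rat.cast_mul, Rat.cast_div, zz_eq]
    push_cast
    calc zz K i / (2 ^ K * 4 ^ i) * ((gt (if K = 1 then w0 else if K = 2 then w2 else w4)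
          (n - (K + 1 + i)) : ℚ) : ℝ) ≤
        zz K i / (2 ^ K * 4 ^ i) * (10 ^ 12 * WW b1 b3 N K (n - (K + 1 + i))) :=
          mul_le_mul_of_nonneg_left a b
      _ = _ := by ring
  · rw [if_neg h, if_neg h]
    simp

theorem tvl_fin {b1 b3 N : ℕ → ℝ} (h1 : IsRec 1 e1 b1) (h3 : IsRec 3 e3 b3) (hN : IsN N) {n : ℕ}
    (hn : n = 3 ∨ n = 5 ∨ n = 7 ∨ n = 9 ∨ n = 11 ∨ 13 ≤ n) (hn' : n < 45) :
    89 / 325 < TvL b1 b3 N n := by
  have a := (Rat.cast_lt (K := ℝ)).2 (chkT n (Finset.mem_range.2 hn') hn)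
  have b := qT_le h1 h3 hN hn'
  push_cast at a
  have c := a.trans_le b
  nlinarith

theorem tvl_small {b1 b3 N : ℕ → ℝ} (h1 : IsRec 1 e1 b1) (h3 : IsRec 3 e3 b3) (hN : IsN N) :
    89 / 325 < TvL b1 b3 N 4 + 2 / 15 ∧ 89 / 325 < TvL b1 b3 N 6 + 2 / 21 ∧
    89 / 325 < TvL b1 b3 N 8 + 6 / 31 * (2 / 7) ∧
    89 / 325 < TvL b1 b3 N 10 + 18 / 127 * (2 / 7) ∧
    89 / 325 < TvL b1 b3 N 12 + 56 / 511 * (2 / 7) := by
  obtain ⟨c4, c6, c8, c10, c12⟩ := chkT'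
  have key : ∀ (n : ℕ) (x : ℚ), n < 45 → 89 / 325 * 10 ^ 12 < qT n + x * 10 ^ 12 →
      89 / 325 < TvL b1 b3 N n + (x : ℝ) := by
    intro n x hn h
    have a := (Rat.cast_lt (K := ℝ)).2 h
    have b := qT_le h1 h3 hN hn
    push_cast at a
    nlinarith
  have k4 := key 4 (2 / 15) (by norm_num) c4
  have k6 := key 6 (2 / 21) (by norm_num) c6
  have k8 := key 8 (6 / 31 * (2 / 7)) (by norm_num) c8
  have k10 := key 10 (18 / 127 * (2 / 7)) (by norm_num) c10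
  have k12 := key 12 (56 / 511 * (2 / 7)) (by norm_num) c12
  push_cast at k4 k6 k8 k10 k12
  exact ⟨k4, k6, k8, k10, k12⟩

end Pool.Agent.TWO
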