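import Pool.Agent.TWO.TvK
import Pool.Agent.TWO.UVal
import Pool.Agent.TWO.PosA

/-!
# TWO/TvD: the lower bound `TvL` for the proportion of elements with a power a transvection

Strip off the unipotent part (`strip` with `χ = X + 1`) for `K = 1, 2, 4, 8` and sum over `K`.
-/

open Polynomial

namespace Pool.Agent.TWO

open Pool.Agent.PSD

private theorem tv_conj {n : ℕ} (h g : GLn n) (m : ℕ) :
    ((h * g * h⁻¹ : GLn n).toLinearMap - 1 : Module.End F (Fin n → F)) ^ m =
      h.toLinearMap ∘ₗ ((g.toLinearMap - 1 : Module.End F (Fin n → F)) ^ m) ∘ₗ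
        (h⁻¹ : GLn n).toLinearMap := by
  induction m with
  | zero =>
    apply LinearMap.ext
    intro x
    show x = h (h.symm x)
    exact (LinearEquiv.apply_symm_apply h x).symm
  | succ m ih =>
    apply LinearMap.ext
    intro x
    rw [pow_succ', Module.End.mul_apply, ih, pow_succ']
    show h (g (h.symm (h (((g.toLinearMap - 1 : Module.End F (Fin n → F)) ^ m) (h.symm x))))) -
        h (((g.toLinearMap - 1 : Module.End F (Fin n → F)) ^ m) (h.symm x)) =
      h (g (((g.toLinearMap - 1 : Module.End F (Fin n → F)) ^ m) (h.symm x)) -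
        ((g.toLinearMap - 1 : Module.End F (Fin n → F)) ^ m) (h.symm x))
    rw [LinearEquiv.symm_apply_apply, map_sub]

private theorem un_ci (K n : ℕ) : CI (UN K n) := by
  rintro g ⟨⟨m, hm⟩, h2⟩ h
  refine ⟨⟨m, ?_⟩, ?_⟩
  · rw [tv_conj, hm]
    apply LinearMap.ext
    intro x
    show h (0 : Fin n → F) = 0
    exact map_zero h
  · rw [tv_conj, LinearMap.range_comp, LinearMap.range_comp_of_range_eq_top _
      (LinearMap.range_eq_top.2 (h⁻¹ : GLn n).surjective)]
    exact (LinearEquiv.finrank_map_eq h _).trans h2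

private theorem oo_ci (K n : ℕ) : CI (OO K n) := by
  rintro g ⟨h1, o, ho, hg⟩ h
  refine ⟨?_, o, ho, ?_⟩
  · intro x y hxy
    have h2 : ∀ z : Fin n → F, aeval (h * g * h⁻¹ : GLn n).toLinearMap (X + 1 : F[X]) z =
        h (aeval g.toLinearMap (X + 1 : F[X]) (h.symm z)) := by
      intro z
      have h3 := aeval_cj h g (X + 1 : F[X]) (h.symm z)
      rw [LinearEquiv.apply_symm_apply] at h3
      exact h3
    rw [h2, h2] at hxy
    exact h.symm.injective (h1 (h.injective hxy))
  · rw [conj_pow, hg, mul_one, mul_inv_cancel]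

private theorem un_nil (K n : ℕ) : ∀ p ∈ UN K n, aeval p.toLinearMap ((X + 1 : F[X]) ^ n) = 0 := by
  rintro p ⟨⟨m, hm⟩, -⟩
  have h1 : aeval p.toLinearMap (X + 1 : F[X]) = p.toLinearMap - 1 := by
    rw [map_add, aeval_X, map_one]
    apply LinearMap.ext
    intro x
    show p x + x = p x - x
    funext i
    show p x i + x i = p x i - x i
    rw [sub_eq_add_neg, ZMod.neg_eq_self_mod_two]
  rw [map_pow, h1]
  have h2 := Module.End.ker_pow_le_ker_pow_finrank
    (p.toLinearMap - 1 : Module.End F (Fin n → F)) m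
  rw [hm, LinearMap.ker_zero, Module.finrank_fin_fun, top_le_iff] at h2
  exact LinearMap.ker_eq_top.1 h2

private theorem zz_nn (K i : ℕ) : 0 ≤ zz K i := by
  unfold zz
  split_ifs <;> norm_num

private theorem one_K {K : ℕ} (hK : K ∈ ({1, 2, 4, 8} : Finset ℕ)) (n : ℕ) :
    (∑ i ∈ Finset.range 4,
      if K + 1 + i ≤ n then zz K i / (2 ^ K * 4 ^ i) *
        WW (bb F 1) (bb F 3) (ID F) K (n - (K + 1 + i)) else 0) ≤ prp n (TK K n) := by
  refine le_trans ?_ (strip (X + 1) (UN K) (OO K) (TK K) (un_ci K) (oo_ci K) (un_nil K)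
    (fun _ q hq => hq.1) (fun a b => tk_mem hK) n)
  obtain ⟨f, hf⟩ : ∃ f : ℕ → ℝ, f = fun a => prp a (UN K a) * prp (n - a) (OO K (n - a)) :=
    ⟨_, rfl⟩
  have hf0 : ∀ a, 0 ≤ f a := fun a => by
    rw [hf]
    exact mul_nonneg (prp_nonneg _ _) (prp_nonneg _ _)
  have h1 : (∑ i ∈ Finset.range 4,
      if K + 1 + i ≤ n then zz K i / (2 ^ K * 4 ^ i) *
        WW (bb F 1) (bb F 3) (ID F) K (n - (K + 1 + i)) else 0) ≤
      ∑ i ∈ Finset.range 4, if K + 1 + i ≤ n then f (K + 1 + i) else 0 := by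
    refine Finset.sum_le_sum fun i hi => ?_
    split_ifs with hin
    · rw [hf]
      have h2 := un_ge hK (Finset.mem_range.1 hi)
      have h3 := ww_le hK (n - (K + 1 + i))
      have h4 : 0 ≤ zz K i / (2 ^ K * 4 ^ i) := div_nonneg (zz_nn K i) (by positivity)
      exact (mul_le_mul_of_nonneg_left h3 h4).trans
        (mul_le_mul_of_nonneg_right h2 (prp_nonneg _ _))
    · exact le_rfl
  refine h1.trans ?_
  have h2 : (∑ i ∈ Finset.range 4, if K + 1 + i ≤ n then f (K + 1 + i) else 0) =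
      ∑ a ∈ ((Finset.range 4).filter fun i => K + 1 + i ≤ n).image (fun i => K + 1 + i), f a := by
    rw [Finset.sum_image (fun i _ j _ hij => by
      have : K + 1 + i = K + 1 + j := hij
      omega), Finset.sum_filter]
  rw [h2]
  have h3 : ∑ a ∈ Finset.range (n + 1), prp a (UN K a) * prp (n - a) (OO K (n - a)) =
      ∑ a ∈ Finset.range (n + 1), f a := by
    rw [hf]
  rw [h3]
  refine Finset.sum_le_sum_of_subset_of_nonneg ?_ fun a _ _ => hf0 a
  intro a ha
  obtain ⟨i, hi, rfl⟩ := Finset.mem_image.1 ha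
  have := (Finset.mem_filter.1 hi).2
  exact Finset.mem_range.2 (by omega)

theorem tvl_le (n : ℕ) : TvL (bb F 1) (bb F 3) (ID F) n ≤ prp n (TV n) := by
  unfold TvL
  refine (Finset.sum_le_sum fun K hK => one_K hK n).trans ?_
  refine prp_sum ({1, 2, 4, 8} : Finset ℕ) (fun K => TK K n) (TV n) ?_ fun K _ => tk_sub K n
  intro K _ K' _ hne
  rcases lt_or_gt_of_ne hne with h | h
  · exact tk_disj h
  · exact (tk_disj h).symm

end Pool.Agent.TWO
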